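import Pool.Agent.P.MP_e794d7_al.FC.Stmt

/-! The filter and the parity of a descent. -/

namespace Pool.Agent.P.MP_e794d7_al.FC

namespace C1

theorem flp (a : Multiplicative (ZMod 2)) :
    (a * Multiplicative.ofAdd 1 ≠ 1 ↔ ¬ a ≠ 1) ∧
      (a * (Multiplicative.ofAdd 1)⁻¹ ≠ 1 ↔ ¬ a ≠ 1) := by
  revert a
  decide

end C1

open scoped Classical

variable {ι : Type} [Fintype ι] {M : ι → ι → ℕ} {𝒯 : Set (Set ι)}

namespace C1

variable (D : RD M 𝒯)

theorem neg_v (w : Wg M) (s : ι) : ((w * sg M s) • D.x s).v = -(w • D.x s).v := by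
  rw [RD.smul_v, RD.smul_v, rep_mul, RD.x, rep_sg_al, map_neg]

theorem step (hr : D.Roots) {T : Set ι} (hT : T ∈ 𝒯) (Y : Set ι) {w w' : Wg M} {s : ι}
    (hw : w ∈ sub (sg M) T) (hw' : w' ∈ sub (sg M) (T ∩ Y)) (hs : s ∈ T)
    (h : ∀ t ∈ T ∩ Y, 0 ≤ D.ρ (w⁻¹ * w') (al D.R t)) :
    (∃ t ∈ T ∩ Y, w • D.x s = w' • D.x t ∧ (w * sg M s) • D.x s = (w' * sg M t) • D.x t ∧
      (w * sg M s)⁻¹ * (w' * sg M t) = w⁻¹ * w') ∨
    (¬ In Y (w • D.x s).v ∧ ∀ t ∈ T ∩ Y, 0 ≤ D.ρ ((w * sg M s)⁻¹ * w') (al D.R t)) := by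
  obtain ⟨d, rfl⟩ : ∃ d, w = w' * d := ⟨w'⁻¹ * w, by group⟩
  have hd : d ∈ sub (sg M) T := by
    have := mul_mem (inv_mem (sub_mono Set.inter_subset_left hw')) hw
    rwa [inv_mul_cancel_left] at this
  rcases hr.deo (T ∩ Y) d s (fun t ht => by simpa using h t ht) with ⟨t, ht, e⟩ | ⟨h1, h2⟩
  · have e' : D.ρ d (al D.R s) = D.ρ 1 (al D.R t) := by rw [e, rep_one]
    have h1 := hr.conj _ _ _ _ e'
    have h2 := hr.eqx _ _ _ _ e'
    rw [one_mul, inv_one, mul_one] at h1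
    rw [one_smul] at h2
    have h3 : d * sg M s = sg M t * d := by rw [← h1]; group
    refine Or.inl ⟨t, ht, by rw [mul_smul, h2], ?_, ?_⟩
    · rw [mul_assoc, h3, ← mul_assoc, mul_smul, h2]
    · rw [mul_assoc w' d, h3]
      group
  · refine Or.inr ⟨fun H => h1 fun a ha => ?_, fun t ht => ?_⟩
    · by_cases haT : a ∈ T
      · rw [RD.smul_v, rep_mul, rep_in _ (sub_mono Set.inter_subset_right hw'), RD.x,
          ← D.red_ρ] at H
        exact D.sep0 T hT d hd s hs a (H a fun hY => ha ⟨haT, hY⟩)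
      · exact (rep_in D.ok hd _).2 (in_al hs) a haT
    · have := h2 t ht
      rwa [show (w' * d * sg M s)⁻¹ * w' = (d * sg M s)⁻¹ by group]

omit [Fintype ι] in
theorem wq1 (g : Art M) (s : ι) : wq M (g * Art.gen M s) = wq M g * sg M s := map_mul _ _ _

omit [Fintype ι] in
theorem wq2 (g : Art M) (s : ι) : wq M (g * (Art.gen M s)⁻¹) = wq M g * sg M s := by
  rw [map_mul, map_inv, wq_gen, sg_inv]

theorem keep (ht : D.Ret) {Y : Set ι} {w : Wg M} {t : ι} (hw : w ∈ sub (sg M) Y) (h : t ∈ Y) :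
    D.ret Y (D.ζ (w • D.x t)) = D.ζ (w • D.x t) := by
  rw [ht.ζ, if_pos]
  exact (rep_in D.ok1 hw _).2 (in_al h)

theorem sgn (hr : D.Roots) {T : Set ι} (hT : T ∈ 𝒯) {w : Wg M} {s t : ι}
    (hw : w ∈ sub (sg M) T) (hs : s ∈ T) (ht : t ∈ T) :
    ((w • D.x s).v = al D.F t ∨ (w • D.x s).v = -al D.F t →
      (D.ρ (w * sg M s)⁻¹ (al D.R t) ≤ 0 ↔ ¬ D.ρ w⁻¹ (al D.R t) ≤ 0)) ∧
    (¬ ((w • D.x s).v = al D.F t ∨ (w • D.x s).v = -al D.F t) →
      (D.ρ (w * sg M s)⁻¹ (al D.R t) ≤ 0 ↔ D.ρ w⁻¹ (al D.R t) ≤ 0)) := by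
  have hv : (w • D.x s).v = D.red ∘ D.ρ w (al D.R s) := (D.red_ρ w s).symm
  have hi : (w * sg M s)⁻¹ = sg M s * w⁻¹ := by rw [mul_inv_rev, sg_inv]
  have p0 : 0 ≤ al D.R s := fun a => by
    rw [al_apply]
    split_ifs
    · exact zero_le_one
    · exact le_rfl
  have p1 : ¬ al D.R s ≤ 0 := fun h =>
    hr.ne 1 s (by rw [rep_one]; exact p0) (by rw [rep_one]; exact h)
  rw [hi]
  refine ⟨fun h => ?_, fun h => ?_⟩
  · rcases h with h | h
    · have e := D.sep1 T hT w hw s hs 1 (one_mem _) t ht (by rw [← hv, h, rep_one, comp_al])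
      rw [rep_one] at e
      rw [rep_mul, ← e, rep_inv_rep, rep_sg_al]
      exact iff_of_true (neg_nonpos.2 p0) p1
    · have e := D.sep1 T hT w hw s hs (sg M t) (mem_sub ht) t ht (by
        rw [← hv, h, D.red_ρ, rep_sg_al])
      rw [rep_sg_al, ← neg_eq_iff_eq_neg] at e
      rw [rep_mul, ← e, map_neg, rep_inv_rep, map_neg, rep_sg_al, neg_neg]
      exact iff_of_false p1 (not_not.2 (neg_nonpos.2 p0))
  · have n1 : D.ρ w⁻¹ (al D.R t) ≠ al D.R s := fun e => h (Or.inl (by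
      rw [hv, ← e, rep_rep_inv, comp_al]))
    have n2 : D.ρ (sg M s * w⁻¹) (al D.R t) ≠ al D.R s := fun e => h (Or.inr (by
      have e' : D.ρ (w * sg M s) (al D.R s) = al D.R t := by
        rw [← e, ← hi, rep_rep_inv]
      have e2 := congrArg (D.red ∘ ·) e'
      simp only [D.red_ρ, comp_al] at e2
      rw [← e2]
      exact neg_eq_iff_eq_neg.1 (neg_v D w s).symm))
    constructor
    · intro H
      refine (hr.sgn w⁻¹ t).resolve_left fun H' => ?_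
      exact hr.ne _ t (hr.perm _ t s H' n1) H
    · intro H
      refine (hr.sgn _ t).resolve_left fun H' => ?_
      have := hr.perm _ t s H' n2
      rw [← mul_assoc, sg_sq, one_mul] at this
      exact hr.ne _ t this H

end C1

open C1

theorem RD.p_c1 (D : RD M 𝒯) (hr : D.Roots) (ht : D.Ret) : D.C1 := by
  intro T hT Y g hg
  refine sub_induction (p := fun g => ∃ g' ∈ sub (Art.gen M) (T ∩ Y),
    D.φ g' = D.ret Y (D.φ g) ∧ ∀ t ∈ T ∩ Y, 0 ≤ D.ρ ((wq M g)⁻¹ * wq M g') (al D.R t))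
    ⟨1, one_mem _, by simp, fun t _ a => ?_⟩ ?_ ?_ hg
  · rw [inv_mul_cancel, rep_one, al_apply]
    split_ifs
    · exact zero_le_one
    · exact le_rfl
  · rintro g hg s hs ⟨g', h1, h2, h3⟩
    have hY := sub_mono Set.inter_subset_right (wq_mem h1)
    rcases step D hr hT Y (wq_mem hg) (wq_mem h1) hs h3 with ⟨t, m, e1, -, e3⟩ | ⟨e1, e2⟩
    · refine ⟨g' * Art.gen M t, mul_mem h1 (mem_sub m), ?_, ?_⟩
      · rw [D.φ_mul_gen, D.φ_mul_gen, map_mul, h2, e1, keep D ht hY m.2]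
      · rw [wq1, wq1, e3]
        exact h3
    · refine ⟨g', h1, ?_, ?_⟩
      · rw [D.φ_mul_gen, map_mul, h2, ht.ζ, if_neg e1, mul_one]
      · rw [wq1]
        exact e2
  · rintro g hg s hs ⟨g', h1, h2, h3⟩
    have hY := sub_mono Set.inter_subset_right (wq_mem h1)
    rcases step D hr hT Y (wq_mem hg) (wq_mem h1) hs h3 with ⟨t, m, -, e1, e3⟩ | ⟨e1, e2⟩
    · refine ⟨g' * (Art.gen M t)⁻¹, mul_mem h1 (inv_mem (mem_sub m)), ?_, ?_⟩
      · rw [D.φ_mul_gen_inv, D.φ_mul_gen_inv, map_mul, map_inv, h2, e1,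
          keep D ht (mul_mem hY (mem_sub m.2)) m.2]
      · rw [wq2, wq2, e3]
        exact h3
    · refine ⟨g', h1, ?_, ?_⟩
      · rw [D.φ_mul_gen_inv, map_mul, map_inv, h2, ht.ζ, if_neg, inv_one, mul_one]
        rw [neg_v]
        exact fun H => e1 fun a ha => neg_eq_zero.1 (H a ha)
      · rw [wq2]
        exact e2

theorem RD.p_parl (D : RD M 𝒯) (hr : D.Roots) (ht : D.Ret) : D.Parl := by
  intro T hT g hg t m h
  let f : D.PG →* Multiplicative (ZMod 2) := D.lift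
    (fun x => if x.v = al D.F t ∨ x.v = -al D.F t then Multiplicative.ofAdd 1 else 1) (ht.ab _ _)
  have hf : ∀ x, f (D.ζ x) =
      if x.v = al D.F t ∨ x.v = -al D.F t then Multiplicative.ofAdd 1 else 1 := D.lift_ζ _ _
  refine ⟨f, (sub_induction (p := fun g => D.ρ (wq M g)⁻¹ (al D.R t) ≤ 0 ↔ f (D.φ g) ≠ 1)
    ?_ ?_ ?_ hg).1 h, fun x h1 h2 => by rw [hf, if_neg (not_or.2 ⟨h1, h2⟩)]⟩
  · refine iff_of_false (hr.ne _ t fun a => ?_) (by simp)
    rw [map_one, inv_one, rep_one, al_apply]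
    split_ifs
    · exact zero_le_one
    · exact le_rfl
  · intro g hg s hs ih
    obtain ⟨s1, s2⟩ := sgn D hr hT (wq_mem hg) hs m
    rw [wq1, D.φ_mul_gen, map_mul f, hf]
    split_ifs with c
    · rw [s1 c, ih, (flp _).1]
    · rw [s2 c, ih, mul_one]
  · intro g hg s hs ih
    obtain ⟨s1, s2⟩ := sgn D hr hT (wq_mem hg) hs m
    rw [wq2, D.φ_mul_gen_inv, map_mul f, map_inv f, hf, neg_v]
    split_ifs with c <;> rw [neg_inj, neg_eq_iff_eq_neg, or_comm] at c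
    · rw [s1 c, ih, (flp _).2]
    · rw [s2 c, ih, inv_one, mul_one]

end Pool.Agent.P.MP_e794d7_al.FC
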