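import Pool.Agent.P.MP_e794d7_al.FC.Step

/-! Artin groups of FC type: statements for type `D`, dihedral types and products. -/

set_option autoImplicit false

namespace Pool.Agent.P.MP_e794d7_al.FC

open scoped Classical

noncomputable section

variable {ι : Type}

section Refl

variable {R : Type} [CommRing R] [Fintype ι] {M : ι → ι → ℕ} {c : ℕ → R}
  {ρ : Wg M →* ((ι → R) ≃ₗ[R] (ι → R))}

theorem refl_mul (w w' : Wg M) (v : ι → R) : ρ (w * w') v = ρ w (ρ w' v) := by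
  rw [map_mul]; rfl

theorem refl_B (h : Cox M) (hρ : ∀ a, ρ (sg M a) = rf M c a) (w : Wg M) (v v' : ι → R) :
    Bm M c (ρ w v) (ρ w v') = Bm M c v v' := by
  have hw : w ∈ sub (sg M) Set.univ := sub_sg_univ ▸ Subgroup.mem_top w
  revert v v'
  refine sg_induction (p := fun w => ∀ v v', Bm M c (ρ w v) (ρ w v') = Bm M c v v')
    (fun v v' => by rw [map_one]; rfl) (fun g _ a _ ih v v' => ?_) hw
  rw [refl_mul, refl_mul, ih, hρ, rf_apply, rf_apply]
  simp only [map_sub, map_smul, LinearMap.sub_apply, LinearMap.smul_apply, smul_eq_mul, Bm_aa,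
    Bm_symm h v (al R a)]
  ring

theorem refl_conj (h : Cox M) (hρ : ∀ a, ρ (sg M a) = rf M c a) (w : Wg M) (a : ι) (v : ι → R) :
    ρ (w * sg M a * w⁻¹) v = v - Bm M c (ρ w (al R a)) v • ρ w (al R a) := by
  have e : ρ w (ρ w⁻¹ v) = v := by rw [← refl_mul, mul_inv_cancel, map_one]; rfl
  rw [refl_mul, refl_mul, hρ, rf_apply, map_sub, map_smul, e, ← refl_B h hρ w (al R a), e]

theorem refl_alt (h : Cox M) (hρ : ∀ a, ρ (sg M a) = rf M c a) {s t : ι} (hst : s ≠ t) (i : ℕ) :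
    ρ (alt (sg M s) (sg M t) i) (al R (el s t i)) =
      U (c (M s t)) (i + 1) • al R s + U (c (M s t)) i • al R t := by
  rw [map_alt, hρ, hρ, ← (rk h hst).root i, el, apply_ite (al R)]

end Refl

/-! ### type `D` -/

/-- the labels of the infinite diagram of type `D`: `0` and `1` are both joined to `2` -/
def labD (i j : ℕ) : ℕ :=
  if i = j then 1 else if max i 1 + 1 = max j 1 ∨ max j 1 + 1 = max i 1 then 3 else 2

/-- `T` is a diagram of type `D n` -/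
structure PathD (M : ι → ι → ℕ) (T : Set ι) (n : ℕ) (t : ℕ → ι) : Prop where
  le : 3 ≤ n
  eq : T = t '' Set.Iio n
  lbl : ∀ i j, i < n → j < n → M (t i) (t j) = labD i j

/-- the generators of the free kernel of the folding map -/
def xD {H : Type} [Group H] (z : ℕ → H) : ℕ → H
  | 0 => 1
  | 1 => z 0 * (z 1)⁻¹
  | j + 2 => z (j + 2) * xD z (j + 1) * (z (j + 2))⁻¹

theorem map_xD {H K : Type} [Group H] [Group K] (f : H →* K) (z : ℕ → H) :
    ∀ j, f (xD z j) = xD (fun i => f (z i)) j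
  | 0 => map_one f
  | 1 => by simp [xD]
  | j + 2 => by rw [xD, xD, map_mul, map_mul, map_inv, map_xD f z (j + 1)]

def S_covD : Prop :=
  ∀ (H : Type) [Group H] (z : ℕ → H) (n : ℕ), 3 ≤ n → Brd labD z (Set.Iio n) →
    (∀ a ∈ sub z (Set.Ico 1 n), ∀ f ∈ sub (xD z) (Set.Ico 1 n),
      a * f * a⁻¹ ∈ sub (xD z) (Set.Ico 1 n)) ∧
    (∀ h ∈ sub z (Set.Iio n), ∃ f ∈ sub (xD z) (Set.Ico 1 n), ∃ a ∈ sub z (Set.Ico 1 n),
      h = f * a) ∧
    ((∀ i, i < n → z i * z i = 1) → Finite (sub (xD z) (Set.Ico 1 n)))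

/-- labels for the roots `± e i ± e j`; the flag is `true` for `± (e i + e j)` -/
structure DR (n : ℕ) {L : Type} [Group L] (lam : ℕ → ℕ → Bool → L) : Prop where
  symm : ∀ i j e, lam i j e = lam j i e
  twin : ∀ i j e e', Commute (lam i j e) (lam i j e')
  comm : ∀ i j k l e e', 1 ≤ i → i ≤ n → 1 ≤ j → j ≤ n → 1 ≤ k → k ≤ n → 1 ≤ l → l ≤ n →
    i ≠ j → i ≠ k → i ≠ l → j ≠ k → j ≠ l → k ≠ l → Commute (lam i j e) (lam k l e')
  brd : ∀ i j k e e', 1 ≤ i → i ≤ n → 1 ≤ j → j ≤ n → 1 ≤ k → k ≤ n → i ≠ j → i ≠ k → j ≠ k →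
    lam i j e * lam i k e' * lam i j e = lam i k e' * lam i j e * lam i k e'

/-- the labels of the simple roots -/
def sD {L : Type} (lam : ℕ → ℕ → Bool → L) (k : ℕ) : L :=
  if k = 0 then lam 1 2 true else lam k (k + 1) false

/-- labels that see the braid group on `n` strands -/
def S_lk : Prop :=
  ∀ (n : ℕ) (G : Type) [Group G] (z : ℕ → G), Brd lab z (Set.Ico 1 n) →
    ∃ (L : Type) (_ : Group L) (τ : ℕ → ℕ → L), (Finite G → Finite L) ∧
      DR n (fun i j _ => τ i j) ∧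
        ∀ h ∈ sub (fun k => (z k, τ k (k + 1))) (Set.Ico 1 n), h.2 = 1 → h.1 = 1

/-- labels that see the free kernel -/
def S_pv : Prop :=
  ∀ (n : ℕ), 3 ≤ n → ∀ (G : Type) [Group G] (u : ℕ → G),
    ∃ (L : Type) (_ : Group L) (lam : ℕ → ℕ → Bool → L), (Finite G → Finite L) ∧ DR n lam ∧
      ∀ h ∈ sub (fun j => (u j, xD (sD lam) j)) (Set.Ico 1 n), h.2 = 1 → h.1 = 1

section PV

variable {N G : Type} [Group G]

/-- the curve `s` seen from the base point `t` -/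
def pvZ (r : N → ℕ) (u : N ⊕ N × N → G) (t s : N) : G :=
  u (.inr (t, s)) * (u (.inr (s, t)))⁻¹ * u (.inl s) ^ (if r s < r t then 1 else -1 : ℤ) *
    (u (.inr (t, s)) * (u (.inr (s, t)))⁻¹)⁻¹

/-- the twist along the curve `s`, acting on tuples -/
def pvF (adj : N → N → Prop) (r : N → ℕ) (s : N) (e : ℤ) (u : N ⊕ N × N → G) : N ⊕ N × N → G
  | .inl t => if adj s t then pvZ r u t s ^ e * u (.inl t) else u (.inl t)
  | .inr (t, w) => if adj s t ∧ (r s < r w ∨ (w = s ∧ r t < r s)) then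
      pvZ r u t s ^ e * u (.inr (t, w)) else u (.inr (t, w))

/-- the twists as permutations -/
structure PVF (adj : N → N → Prop) (r : N → ℕ) (P : N → Equiv.Perm (N ⊕ N × N → G)) : Prop where
  app : ∀ s u, P s u = pvF adj r s 1 u
  inv : ∀ s u, (P s)⁻¹ u = pvF adj r s (-1) u

end PV

def S_pvr : Prop :=
  ∀ (N G : Type) [Group G] (adj : N → N → Prop) (r : N → ℕ), Function.Injective r →
    (∀ s t, adj s t → adj t s) → (∀ s, ¬ adj s s) →
      ∃ P : N → Equiv.Perm (N ⊕ N × N → G), PVF adj r P ∧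
        (∀ s t, ¬ adj s t → Commute (P s) (P t)) ∧
          ∀ s t, adj s t → P s * P t * P s = P t * P s * P t

def S_pvd : Prop :=
  ∀ (N G : Type) [Group G] (adj : N → N → Prop) (r : N → ℕ)
    (P : N → Equiv.Perm (N ⊕ N × N → G)), PVF adj r P → ∀ (n : ℕ) (s : ℕ → N), 3 ≤ n →
      (∀ k, k < n → r (s k) = k) → (∀ i j, i < n → j < n → (adj (s i) (s j) ↔ labD i j = 3)) →
        ∀ u : ℕ → G, ∀ h ∈ sub (fun j => (u j, xD (fun k => P (s k)) j)) (Set.Ico 1 n),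
          h.2 = 1 → h.1 = 1

/-- a subdiagram of the diagram of type `D` -/
def SubD (M : ι → ι → ℕ) (S : Set ι) : Prop :=
  ∃ e : ι → ℕ, ∀ a ∈ S, ∀ b ∈ S, a ≠ b → M a b = labD (e a) (e b)

def S_splitD : Prop :=
  ∀ (ι : Type) (M : ι → ι → ℕ), Cox M → ∀ S : Set ι, S.Finite → SubD M S →
    Cls M S ∨ ∃ n t S₁ S₂, S = S₁ ∪ S₂ ∧ PathD M S₁ n t ∧ Cls M S₂ ∧
      ∀ a ∈ S₁, ∀ b ∈ S₂, M a b = 2

/-! ### dihedral types -/

/-- the generators of the kernel of the length map -/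
def cI {H : Type} [Group H] (A B : H) (i : ℕ) : H := A ^ i * B * (A ^ (i + 1))⁻¹

def S_dih : Prop :=
  ∀ m : ℕ, 2 ≤ m →
    (∀ (H : Type) [Group H] (A B : H), alt A B m = alt B A m →
      (∀ a ∈ Subgroup.zpowers A, ∀ f ∈ sub (cI A B) (Set.Iio (m - 1)),
        a * f * a⁻¹ ∈ sub (cI A B) (Set.Iio (m - 1))) ∧
      (∀ h ∈ Subgroup.closure {A, B}, ∃ f ∈ sub (cI A B) (Set.Iio (m - 1)),
        ∃ a ∈ Subgroup.zpowers A, h = f * a) ∧
      (A * A = 1 → B * B = 1 → Finite (Subgroup.closure ({A, B} : Set H)))) ∧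
    ∃ (H : Type) (_ : Group H) (A B : H), alt A B m = alt B A m ∧
      Function.Injective (FreeGroup.lift fun i : Set.Iio (m - 1) => cI A B i)

/-- the group of type `G 2` has index `8` in the braid group on three strands -/
def S_g2 : Prop :=
  ∀ (G : Type) [Group G] (A B : G), alt A B 6 = alt B A 6 →
    ∃ (L : Type) (_ : Group L) (s t : L), (Finite G → Finite L) ∧ s * t * s = t * s * t ∧
      ∀ h ∈ Subgroup.closure ({(A, t), (B, s ^ 3)} : Set (G × L)), h.2 = 1 → h.1 = 1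

/-! ### products -/

def S_pfp : Prop :=
  ∀ (G : Type) [Group G] (A B : Subgroup G), (∀ a ∈ A, ∀ b ∈ B, Commute a b) → A ⊓ B = ⊥ →
    VPF A → VPF B → VPF (A ⊔ B)

namespace RD

variable [Fintype ι] {M : ι → ι → ℕ} {𝒯 : Set (Set ι)} (D : RD M 𝒯)

/-- labels on a simply laced system of vectors give a homomorphism seen by the cocycle -/
def KF : Prop :=
  ∀ (L : Type) [Group L] (Act : Set (ι → D.F)) (lam : (ι → D.F) → L),
    (∀ v ∈ Act, -v ∈ Act) →
    (∀ v ∈ Act, ∀ v' ∈ Act, v' - D.B v v' • v ∈ Act) →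
    (∀ v ∈ Act, D.B v v = 2) →
    (∀ v ∈ Act, ∀ v' ∈ Act, D.B v v' ∈ ({0, 1, -1, 2, -2} : Set D.F)) →
    (∀ v ∈ Act, ∀ v' ∈ Act, D.B v v' = 0 → Commute (lam v) (lam v')) →
    (∀ v ∈ Act, ∀ v' ∈ Act, D.B v v' = -1 → lam v * lam v' * lam v = lam v' * lam v * lam v') →
    ∃ N : Subgroup D.PG, (Finite L → N.FiniteIndex) ∧
      ∀ h ∈ sub (fun a => (lam (al D.F a), Art.gen M a)) {a | al D.F a ∈ Act},
        D.φ h.2 ∈ N → h.1 = 1

def PsiD (n : ℕ) (t : ℕ → ι) : Prop :=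
  ∀ (L : Type) [Group L] (lam : ℕ → ℕ → Bool → L), DR n lam →
    ∃ N : Subgroup D.PG, (Finite L → N.FiniteIndex) ∧
      ∀ h ∈ sub (fun k => (sD lam k, Art.gen M (t k))) (Set.Iio n), D.φ h.2 ∈ N → h.1 = 1

/-- labels on the colours of a dihedral parabolic subgroup -/
def LiftI (a b : ι) : Prop :=
  ∀ (L : Type) [Group L] (ℓ : ℕ → L), (∀ j, ℓ (j + 2 * M a b) = ℓ j) →
    (∀ j k, 2 * k = M a b → Commute (ℓ j) (ℓ (j + k))) →
    (∀ j k, 3 * k = M a b → (M a b = 6 → Even j) →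
      ℓ j * ℓ (j + k) * ℓ (j + 2 * k) = ℓ (j + 2 * k) * ℓ (j + k) * ℓ j) →
    (∀ j, ((List.range (M a b)).map fun i => ℓ (j + i)).prod =
      ((List.range (M a b)).reverse.map fun i => ℓ (j + i)).prod) →
    ∃ ψ : D.PG →* L, ∀ j, ψ (D.ζ (D.cone 1 a b j)) = ℓ j

def KI (a b : ι) : Prop :=
  ∀ (L : Type) [Group L] (lam : ℤ → L), (∀ j, lam (j + 2 * M a b) = lam j) →
    (∀ (j : ℤ) (k : ℕ), 2 * k = M a b → Commute (lam j) (lam (j + k))) →
    (∀ (j : ℤ) (k : ℕ), 3 * k = M a b → (M a b = 6 → Even j) →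
      lam j * lam (j + 2 * k) * lam j = lam (j + 2 * k) * lam j * lam (j + 2 * k)) →
    (∀ j, alt (lam j) (lam (j + (M a b - 1))) (M a b) =
      alt (lam (j + (M a b - 1))) (lam j) (M a b)) →
    ∃ N : Subgroup D.PG, (Finite L → N.FiniteIndex) ∧
      ∀ h ∈ Subgroup.closure ({(lam 0, Art.gen M a), (lam (M a b - 1), Art.gen M b)} :
        Set (L × Art M)), D.φ h.2 ∈ N → h.1 = 1

/-- what the induction needs about a clique -/
def Fine (T : Set ι) : Prop := D.FI T ∧ VPF (sub (Art.gen M) T)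

end RD

end

end Pool.Agent.P.MP_e794d7_al.FC
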