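import Pool.Agent.P.MP_e794d7_al.FC.Main
import Pool.Agent.P.MP_e794d7_al.FC.Stmt2

/-! Cliques of classical type. -/

set_option autoImplicit false

namespace Pool.Agent.P.MP_e794d7_al.FC

open scoped Classical

variable {ι : Type}

/-- a piece: a subdiagram of type `B` or `D`, or at most two vertices -/
def Pc (M : ι → ι → ℕ) (S : Set ι) : Prop :=
  Cls M S ∨ SubD M S ∨ (Clq M S ∧ ∀ a ∈ S, ∀ b ∈ S, ∀ c ∈ S, a = b ∨ a = c ∨ b = c)

/-- a commuting union of pieces -/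
def Cl (M : ι → ι → ℕ) (T : Set ι) : Prop :=
  ∃ c : ι → ℕ, (∀ a ∈ T, ∀ b ∈ T, c a ≠ c b → M a b = 2) ∧ ∀ k, Pc M {a | a ∈ T ∧ c a = k}

variable {M : ι → ι → ℕ}

theorem Cls.mono {S S' : Set ι} (h : Cls M S) (hS : S' ⊆ S) : Cls M S' :=
  nice_AB.mono ι M S S' h hS

theorem Pc.mono {S S' : Set ι} (h : Pc M S) (hS : S' ⊆ S) : Pc M S' := by
  rcases h with h | ⟨e, h⟩ | ⟨h1, h2⟩
  · exact Or.inl (h.mono hS)
  · exact Or.inr (Or.inl ⟨e, fun a ha b hb => h a (hS ha) b (hS hb)⟩)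
  · exact Or.inr (Or.inr ⟨fun a ha b hb => h1 a (hS ha) b (hS hb),
      fun a ha b hb c hc => h2 a (hS ha) b (hS hb) c (hS hc)⟩)

theorem Cl.mono {T T' : Set ι} (h : Cl M T) (hT : T' ⊆ T) : Cl M T' := by
  obtain ⟨c, h1, h2⟩ := h
  exact ⟨c, fun a ha b hb => h1 a (hT ha) b (hT hb),
    fun k => (h2 k).mono fun a ha => ⟨hT ha.1, ha.2⟩⟩

theorem Pc.res {S : Set ι} {T : Set S} (h : Pc M (Subtype.val '' T)) : Pc (Art.res M S) T := by
  have m : ∀ a ∈ T, a.1 ∈ Subtype.val '' T := fun a ha => ⟨a, ha, rfl⟩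
  rcases h with h | ⟨e, h⟩ | ⟨h1, h2⟩
  · exact Or.inl (nice_AB.res ι M S T h)
  · exact Or.inr (Or.inl ⟨fun a => e a, fun a ha b hb hab =>
      h a (m a ha) b (m b hb) fun e => hab (Subtype.ext e)⟩)
  · exact Or.inr (Or.inr ⟨fun a ha b hb => h1 a (m a ha) b (m b hb), fun a ha b hb c hc => by
      simpa only [Subtype.ext_iff] using h2 a (m a ha) b (m b hb) c (m c hc)⟩)

theorem cls_pair (hM : Cox M) {a b : ι} (h0 : M a b ≠ 0) (h5 : M a b < 5) : Cls M {a, b} := by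
  by_cases hab : a = b
  · exact nice_AB.small ι M _ (by simp [hab])
  have h1 := hM.off a b hab
  have key : ∀ i j, i ≠ j → lab i j = M a b → lab j i = M a b → Cls M {a, b} := fun i j h e e' => by
    refine ⟨0, fun x => if x = a then i else j, ?_⟩
    rintro x (rfl | rfl) y (rfl | rfl) hxy
    · exact (hxy rfl).elim
    · simp [Ne.symm hxy, e]
    · simp [hxy, e', hM.symm x y]
    · exact (hxy rfl).elim
  obtain h | h | h : M a b = 2 ∨ M a b = 3 ∨ M a b = 4 := by omega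
  · exact key 0 2 (by omega) (by rw [h]; rfl) (by rw [h]; rfl)
  · exact key 1 2 (by omega) (by rw [h]; rfl) (by rw [h]; rfl)
  · exact key 0 1 (by omega) (by rw [h]; rfl) (by rw [h]; rfl)

theorem PathD.cls {T : Set ι} {n : ℕ} {t : ℕ → ι} (h : PathD M T n t) (hM : Cox M) :
    Cls M (t '' Set.Ico 1 n) := by
  refine ⟨0, fun a => if h : ∃ i, i < n ∧ t i = a then h.choose else 0, ?_⟩
  have key : ∀ i, i < n → (if h : ∃ j, j < n ∧ t j = t i then h.choose else 0) = i := fun i hi => by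
    have h1 : ∃ j, j < n ∧ t j = t i := ⟨i, hi, rfl⟩
    rw [dif_pos h1]
    have h2 := h.lbl _ i h1.choose_spec.1 hi
    rw [h1.choose_spec.2, hM.diag, labD] at h2
    by_contra hne
    rw [if_neg hne] at h2
    split_ifs at h2 <;> omega
  rintro _ ⟨i, hi, rfl⟩ _ ⟨j, hj, rfl⟩ -
  simp only [Pi.zero_apply, if_true, key i hi.2, key j hj.2]
  rw [h.lbl i j hi.2 hj.2, labD, lab, max_eq_left hi.1, max_eq_left hj.1]
  have := hi.1
  have := hj.1
  split_ifs <;> omega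

/-- induction over the cliques of classical type -/
theorem Cl.induction [Finite ι] (hM : Cox M) (hs : S_splitD) {Q : Set ι → Prop}
    (h1 : ∀ S, Cls M S → Q S) (h2 : ∀ S n t, PathD M S n t → Q S)
    (h3 : ∀ a b, a ≠ b → 5 ≤ M a b → Q {a, b})
    (h4 : ∀ S₁ S₂, (∀ a ∈ S₁, ∀ b ∈ S₂, M a b = 2) → Q S₁ → Q S₂ → Q (S₁ ∪ S₂))
    {T : Set ι} (h : Cl M T) : Q T := by
  have pc : ∀ S, Pc M S → Q S := by
    rintro S (h | h | ⟨h, h'⟩)
    · exact h1 S h
    · rcases hs ι M hM S (Set.toFinite S) h with h | ⟨n, t, S₁, S₂, rfl, p1, p2, p3⟩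
      · exact h1 S h
      · exact h4 _ _ p3 (h2 _ n t p1) (h1 _ p2)
    · by_cases h5 : S.Subsingleton
      · exact h1 S (nice_AB.small ι M S h5)
      obtain ⟨a, ha, b, hb, hab⟩ := Set.not_subsingleton_iff.1 h5
      have e : S = {a, b} := by
        refine Set.Subset.antisymm (fun c hc => ?_) (by rintro c (rfl | rfl) <;> assumption)
        rcases h' a ha b hb c hc with h | h | h
        exacts [(hab h).elim, Or.inl h.symm, Or.inr h.symm]
      rw [e]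
      rcases Nat.lt_or_ge (M a b) 5 with h6 | h6
      · exact h1 _ (cls_pair hM (h a ha b hb) h6)
      · exact h3 a b hab h6
  generalize hk : T.ncard = k
  induction k using Nat.strong_induction_on generalizing T with
  | _ k ih =>
  rcases T.eq_empty_or_nonempty with rfl | ⟨a, ha⟩
  · exact h1 _ (nice_AB.small ι M _ Set.subsingleton_empty)
  obtain ⟨c, c1, c2⟩ := id h
  have e : T = {b | b ∈ T ∧ c b = c a} ∪ {b | b ∈ T ∧ c b ≠ c a} := by
    ext b
    simp only [Set.mem_union, Set.mem_setOf_eq]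
    tauto
  rw [e]
  refine h4 _ _ (fun x hx y hy => c1 x hx.1 y hy.1 fun h => hy.2 (h ▸ hx.2)) (pc _ (c2 _))
    (ih _ ?_ (h.mono fun b hb => hb.1) rfl)
  rw [← hk]
  exact Set.ncard_lt_ncard ⟨fun b hb => hb.1, fun h => (h ha).2 rfl⟩

theorem RD.fine_cls [Fintype ι] {𝒯 : Set (Set ι)} (D : RD M 𝒯) {T : Set ι} (hT : Cls M T) :
    D.Fine T := by
  generalize hk : T.ncard = k
  induction k generalizing T with
  | zero =>
    rw [(Set.ncard_eq_zero (Set.toFinite T)).1 hk, RD.Fine, sub_empty]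
    exact ⟨D.fi_empty, vpf_bot⟩
  | succ k ih =>
    obtain ⟨lo, n, t, hp⟩ := p_path ι M D.cox T (Set.toFinite T)
      (Set.nonempty_of_ncard_ne_zero (by omega)) hT
    have := ih (hT.mono (Set.diff_subset (t := {t (n - 1)}))) (by
      rw [Set.ncard_diff_singleton_of_mem (hp.mem _ (by have := hp.lt; omega)
        (by have := hp.lt; omega)), hk]
      rfl)
    obtain ⟨hw, hd⟩ := D.path hp
    exact ⟨D.fi_step (p_cov ι M D.cox T lo n t hp) D.rets hw hd this.1,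
      D.vpf_step p_pfs hp (p_cov ι M D.cox T lo n t hp) D.rets hw hd this.2⟩

theorem nice_cl (hs : S_splitD)
    (w2 : ∀ (ι : Type) (M : ι → ι → ℕ) T n t, PathD M T n t →
      Finite (sub (sg M) (t '' Set.Ico 1 n)) → Finite (sub (sg M) T))
    (w3 : ∀ (ι : Type) (M : ι → ι → ℕ), Cox M → ∀ a b, a ≠ b → M a b ≠ 0 →
      Finite (sub (sg M) {a, b}))
    (w4 : ∀ (ι : Type) (M : ι → ι → ℕ) (T₁ T₂ : Set ι), (∀ a ∈ T₁, ∀ b ∈ T₂, M a b = 2) →
      Finite (sub (sg M) T₁) → Finite (sub (sg M) T₂) → Finite (sub (sg M) (T₁ ∪ T₂)))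
    (f : ∀ (ι : Type) [Fintype ι] (M : ι → ι → ℕ) (𝒯 : Set (Set ι)) (D : RD M 𝒯),
      (∀ T n t, PathD M T n t → VPF (sub (Art.gen M) (t '' Set.Ico 1 n)) → D.Fine T) ∧
      (∀ a b, a ≠ b → 5 ≤ M a b → VPF (sub (Art.gen M) {a}) → D.Fine {a, b}) ∧
      ∀ T₁ T₂ : Set ι, (∀ a ∈ T₁, ∀ b ∈ T₂, M a b = 2) → D.Fine T₁ → D.Fine T₂ →
        D.Fine (T₁ ∪ T₂)) :
    Nice fun _ M T => Cl M T where
  mono := fun _ _ _ _ h hT => h.mono hT
  small := fun ι M T h => ⟨0, fun _ _ _ _ h => (h rfl).elim,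
    fun _ => Or.inl (nice_AB.small ι M _ (h.anti fun _ ha => ha.1))⟩
  res := fun _ _ _ _ ⟨c, h1, h2⟩ => ⟨fun a => c a, fun a ha b hb =>
    h1 a ⟨a, ha, rfl⟩ b ⟨b, hb, rfl⟩, fun k => Pc.res ((h2 k).mono (by
      rintro _ ⟨a, ha, rfl⟩
      exact ⟨⟨a, ha.1, rfl⟩, ha.2⟩))⟩
  finw := fun ι _ M _ hM h => h.induction hM hs (Q := fun T => Finite (sub (sg M) T))
    (fun S => nice_AB.finw ι M S hM)
    (fun S n t h => w2 ι M S n t h (nice_AB.finw ι M _ hM (h.cls hM)))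
    (fun a b h h' => w3 ι M hM a b h (by omega)) (w4 ι M)
  fi := fun ι _ M D _ h => h.induction D.cox hs (Q := D.Fine) (fun _ => D.fine_cls)
    (fun S n t h => (f ι M _ D).1 S n t h (D.fine_cls (h.cls D.cox)).2)
    (fun a b h h' => (f ι M _ D).2.1 a b h h'
      (D.fine_cls (nice_AB.small ι M _ Set.subsingleton_singleton)).2) (f ι M _ D).2.2

end Pool.Agent.P.MP_e794d7_al.FC
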