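import Pool.Agent.P.MP_e794d7_al.FC.Stmt

/-! The fibre of a braid group of type `A` or `B` over the smaller parabolic subgroup. -/

set_option autoImplicit false

namespace Pool.Agent.P.MP_e794d7_al.FC

open scoped Classical

namespace CovAux

section Grp

variable {H : Type} [Group H]

/-- the braid relations along a path -/
structure ZR (z : ℕ → H) (lo n : ℕ) : Prop where
  cm : ∀ i j, lo ≤ i → i + 1 < j → j < n → Commute (z i) (z j)
  br : ∀ i, 1 ≤ i → lo ≤ i → i + 1 < n → z i * z (i + 1) * z i = z (i + 1) * z i * z (i + 1)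
  b4 : lo = 0 → 1 < n → z 0 * z 1 * z 0 * z 1 = z 1 * z 0 * z 1 * z 0

/-- the product `z (n-1) * .. * z m` -/
def dp (z : ℕ → H) (n m : ℕ) : H := dl z n (n - m)

variable {z : ℕ → H} {lo n : ℕ}

theorem P_top : dp z n n = 1 := by rw [dp, Nat.sub_self, dl]

theorem P_succ {k : ℕ} (h : k < n) : dp z n k = dp z n (k + 1) * z k := by
  have e1 : n - k = n - (k + 1) + 1 := by omega
  have e2 : n - 1 - (n - (k + 1)) = k := by omega
  rw [dp, dp, e1, dl, e2]

theorem xx_eq (i : ℕ) :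
    xx z n i = dp z n (i + 1) * z i ^ (if i = 0 then 1 else 2) * (dp z n (i + 1))⁻¹ := by
  have e : n - 1 - i = n - (i + 1) := by omega
  rw [xx, dp, e]

theorem xx_zero : xx z n 0 = dp z n 1 * z 0 * (dp z n 1)⁻¹ := by
  rw [xx_eq, if_pos rfl, pow_one]

theorem xx_pos {i : ℕ} (h : 1 ≤ i) :
    xx z n i = dp z n (i + 1) * (z i * z i) * (dp z n (i + 1))⁻¹ := by
  rw [xx_eq, if_neg (by omega), pow_two]

theorem comm_dl {w : H} : ∀ d, d ≤ n → (∀ j, n ≤ j + d → j < n → Commute w (z j)) →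
    Commute w (dl z n d)
  | 0, _, _ => Commute.one_right w
  | d + 1, hd, h => by
      rw [dl]
      exact (comm_dl d (by omega) fun j h1 h2 => h j (by omega) h2).mul_right
        (h _ (by omega) (by omega))

theorem comm_P {w : H} {m : ℕ} (h : ∀ j, m ≤ j → j < n → Commute w (z j)) :
    Commute w (dp z n m) :=
  comm_dl _ (Nat.sub_le _ _) fun j h1 h2 => h j (by omega) h2

theorem comm_xx {w : H} {i : ℕ} (hi : i < n) (h : ∀ j, i ≤ j → j < n → Commute w (z j)) :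
    Commute w (xx z n i) := by
  have h1 : Commute w (dp z n (i + 1)) := comm_P fun j h1 h2 => h j (by omega) h2
  rw [xx_eq]
  exact (h1.mul_right ((h i le_rfl hi).pow_right _)).mul_right h1.inv_right

theorem ZR.cP (R : ZR z lo n) {k m : ℕ} (h0 : lo ≤ k) (h1 : k + 1 < m) :
    Commute (z k) (dp z n m) :=
  comm_P fun j h2 h3 => R.cm k j h0 (by omega) h3

theorem ZR.shift (R : ZR z lo n) {k : ℕ} (hk : k + 1 < n) : ∀ j m, m + j = k → lo ≤ m → 1 ≤ m →
    dp z n m * z (k + 1) = z k * dp z n m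
  | 0, m, e, h0, h1 => by
      obtain rfl : m = k := by omega
      have c := (R.cP (k := m) (m := m + 1 + 1) h0 (by omega)).eq
      have b := R.br m h1 h0 hk
      rw [P_succ (k := m) (by omega), P_succ hk]
      calc dp z n (m + 1 + 1) * z (m + 1) * z m * z (m + 1)
          = dp z n (m + 1 + 1) * (z (m + 1) * z m * z (m + 1)) := by simp only [mul_assoc]
        _ = dp z n (m + 1 + 1) * z m * (z (m + 1) * z m) := by rw [← b]; simp only [mul_assoc]
        _ = z m * (dp z n (m + 1 + 1) * z (m + 1) * z m) := by rw [← c]; simp only [mul_assoc]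
  | j + 1, m, e, h0, h1 => by
      have ih := R.shift hk j (m + 1) (by omega) (by omega) (by omega)
      have c := (R.cm m (k + 1) h0 (by omega) hk).eq
      rw [P_succ (k := m) (by omega), mul_assoc, c, ← mul_assoc, ih, mul_assoc]

theorem ZR.low (R : ZR z lo n) {k i : ℕ} (hk : k + 1 < n) (h0 : lo ≤ i) (h1 : i < k) :
    Commute (z k) (xx z n i) := by
  have s := R.shift hk (k - (i + 1)) (i + 1) (by omega) (by omega) (by omega)
  have c := ((R.cm i (k + 1) h0 (by omega) hk).pow_left (if i = 0 then 1 else 2)).eq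
  have e : z k = dp z n (i + 1) * z (k + 1) * (dp z n (i + 1))⁻¹ := by
    rw [s, mul_inv_cancel_right]
  rw [xx_eq, e]
  show _ * _ = _ * _
  simp only [mul_assoc, inv_mul_cancel_left]
  rw [← mul_assoc (z (k + 1)), ← c, mul_assoc]

theorem conj_of_comm {F : Subgroup H} {w f : H} (c : Commute w f) (hf : f ∈ F) :
    w * f * w⁻¹ ∈ F ∧ w⁻¹ * f * w ∈ F := by
  rw [c.eq, mul_inv_cancel_right, mul_assoc, ← c.eq, inv_mul_cancel_left]
  exact ⟨hf, hf⟩

theorem conj_in {Q a u : H} (c : Commute a Q) :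
    a * (Q * u * Q⁻¹) * a⁻¹ = Q * (a * u * a⁻¹) * Q⁻¹ := by
  have h1 := c.eq
  have h2 := c.inv_inv.eq
  simp only [← mul_assoc]
  rw [h1, mul_assoc _ Q⁻¹, ← h2, ← mul_assoc]

theorem three {F : Subgroup H} {Q a b u v : H} (c : Commute a Q) (h : a * b * a = b * a * b)
    (eu : u = Q * b * (a * a) * (Q * b)⁻¹) (ev : v = Q * (b * b) * Q⁻¹) (hu : u ∈ F)
    (hv : v ∈ F) : (a * u * a⁻¹ ∈ F ∧ a⁻¹ * u * a ∈ F) ∧ (a * v * a⁻¹ ∈ F ∧ a⁻¹ * v * a ∈ F) := by
  have eu' : u = Q * (b * (a * a) * b⁻¹) * Q⁻¹ := by rw [eu]; group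
  have k1 : a * (b * a * b⁻¹) * a⁻¹ = b := by
    calc a * (b * a * b⁻¹) * a⁻¹ = a * b * a * b⁻¹ * a⁻¹ := by group
      _ = b := by rw [h]; group
  have k2 : a * b * a⁻¹ = b⁻¹ * a * b := by
    calc a * b * a⁻¹ = b⁻¹ * (b * a * b) * a⁻¹ := by group
      _ = b⁻¹ * a * b := by rw [← h]; group
  have e1 : a * u * a⁻¹ = v := by
    rw [eu', conj_in c, ev]
    congr 2
    calc a * (b * (a * a) * b⁻¹) * a⁻¹
        = (a * (b * a * b⁻¹) * a⁻¹) * (a * (b * a * b⁻¹) * a⁻¹) := by group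
      _ = b * b := by rw [k1]
  have e2 : a * v * a⁻¹ = v⁻¹ * u * v := by
    have : a * (b * b) * a⁻¹ = b⁻¹ * (a * a) * b := by
      calc a * (b * b) * a⁻¹ = (a * b * a⁻¹) * (a * b * a⁻¹) := by group
        _ = b⁻¹ * (a * a) * b := by rw [k2]; group
    rw [eu', ev, conj_in c, this]
    group
  have e3 : a⁻¹ * v * a = u := by rw [← e1]; group
  have e4 : a⁻¹ * u * a = u * v * u⁻¹ := by
    have : a * (u * v * u⁻¹) * a⁻¹ = u := by
      calc a * (u * v * u⁻¹) * a⁻¹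
          = (a * u * a⁻¹) * (a * v * a⁻¹) * (a * u * a⁻¹)⁻¹ := by group
        _ = u := by rw [e1, e2]; group
    calc a⁻¹ * u * a = a⁻¹ * (a * (u * v * u⁻¹) * a⁻¹) * a := by rw [this]
      _ = u * v * u⁻¹ := by group
  rw [e1, e2, e3, e4]
  exact ⟨⟨hv, F.mul_mem (F.mul_mem hu hv) (F.inv_mem hu)⟩,
    F.mul_mem (F.mul_mem (F.inv_mem hv) hu) hv, hu⟩

theorem four {F : Subgroup H} {Q a b u v : H} (c : Commute a Q)
    (h : a * b * a * b = b * a * b * a)
    (eu : u = Q * b * a * (Q * b)⁻¹) (ev : v = Q * (b * b) * Q⁻¹) (hu : u ∈ F)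
    (hv : v ∈ F) : (a * u * a⁻¹ ∈ F ∧ a⁻¹ * u * a ∈ F) ∧ (a * v * a⁻¹ ∈ F ∧ a⁻¹ * v * a ∈ F) := by
  have ca : Commute (a * b * a * b) a := by
    show a * b * a * b * a = a * (a * b * a * b)
    calc a * b * a * b * a = a * (b * a * b * a) := by group
      _ = a * (a * b * a * b) := by rw [h]
  have cb : Commute (a * b * a * b) b := by
    show a * b * a * b * b = b * (a * b * a * b)
    calc a * b * a * b * b = b * a * b * a * b := by rw [h]
      _ = b * (a * b * a * b) := by group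
  have key : ∀ w, Commute (a * b * a * b) w → Q * w * Q⁻¹ ∈ F →
      a * (Q * w * Q⁻¹) * a⁻¹ ∈ F ∧ a⁻¹ * (Q * w * Q⁻¹) * a ∈ F := by
    intro w cw hw
    have huv : u * v = Q * (b * a * b) * Q⁻¹ := by rw [eu, ev]; group
    have e1 : a⁻¹ * w * a⁻¹⁻¹ = (b * a * b) * w * (b * a * b)⁻¹ := by
      calc a⁻¹ * w * a⁻¹⁻¹ = a⁻¹ * (w * (a * b * a * b)) * (b * a * b)⁻¹ := by group
        _ = (b * a * b) * w * (b * a * b)⁻¹ := by rw [← cw.eq]; group
    have e2 : a * w * a⁻¹ = (b * a * b)⁻¹ * w * (b * a * b) := by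
      calc a * w * a⁻¹ = (b * a * b)⁻¹ * ((b * a * b * a) * w) * a⁻¹ := by group
        _ = (b * a * b)⁻¹ * w * (b * a * b) := by rw [← h, cw.eq, h]; group
    constructor
    · have : a * (Q * w * Q⁻¹) * a⁻¹ = (u * v)⁻¹ * (Q * w * Q⁻¹) * (u * v) := by
        rw [conj_in c, e2, huv]; group
      rw [this]
      exact F.mul_mem (F.mul_mem (F.inv_mem (F.mul_mem hu hv)) hw) (F.mul_mem hu hv)
    · have : a⁻¹ * (Q * w * Q⁻¹) * a⁻¹⁻¹ = (u * v) * (Q * w * Q⁻¹) * (u * v)⁻¹ := by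
        rw [conj_in c.inv_left, e1, huv]; group
      rw [inv_inv] at this
      rw [this]
      exact F.mul_mem (F.mul_mem (F.mul_mem hu hv) hw) (F.inv_mem (F.mul_mem hu hv))
  have eu' : u = Q * (b * a * b⁻¹) * Q⁻¹ := by rw [eu]; group
  refine ⟨?_, ?_⟩
  · have := key (b * a * b⁻¹) ((cb.mul_right ca).mul_right cb.inv_right) (eu' ▸ hu)
    rwa [← eu'] at this
  · have := key (b * b) (cb.mul_right cb) (ev ▸ hv)
    rwa [← ev] at this

theorem xx_mem {i : ℕ} (h0 : lo ≤ i) (h1 : i < n) : xx z n i ∈ Fb z lo n := mem_sub ⟨h0, h1⟩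

theorem ZR.gen (R : ZR z lo n) {k i : ℕ} (h0 : lo ≤ k) (hk : k + 1 < n) (i0 : lo ≤ i)
    (i1 : i < n) :
    z k * xx z n i * (z k)⁻¹ ∈ Fb z lo n ∧ (z k)⁻¹ * xx z n i * z k ∈ Fb z lo n := by
  by_cases c1 : i < k
  · exact conj_of_comm (R.low hk i0 c1) (xx_mem i0 i1)
  by_cases c2 : k + 1 < i
  · exact conj_of_comm (comm_xx i1 fun j h1 h2 => R.cm k j h0 (by omega) h2) (xx_mem i0 i1)
  have cQ := R.cP (k := k) (m := k + 1 + 1) h0 (by omega)
  have hu : xx z n k ∈ Fb z lo n := xx_mem h0 (by omega)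
  have hv : xx z n (k + 1) ∈ Fb z lo n := xx_mem (by omega) hk
  have both : (z k * xx z n k * (z k)⁻¹ ∈ Fb z lo n ∧ (z k)⁻¹ * xx z n k * z k ∈ Fb z lo n) ∧
      (z k * xx z n (k + 1) * (z k)⁻¹ ∈ Fb z lo n ∧
        (z k)⁻¹ * xx z n (k + 1) * z k ∈ Fb z lo n) := by
    rcases Nat.eq_zero_or_pos k with rfl | hp
    · exact four cQ (R.b4 (by omega) hk) (by rw [xx_zero, P_succ hk]) (xx_pos le_rfl) hu hv
    · exact three cQ (R.br k hp h0 hk) (by rw [xx_pos hp, P_succ hk]) (xx_pos (by omega)) hu hv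
  rcases (by omega : i = k ∨ i = k + 1) with rfl | rfl
  · exact both.1
  · exact both.2

theorem conj_Fb {w : H} (h : ∀ i, lo ≤ i → i < n → w * xx z n i * w⁻¹ ∈ Fb z lo n) :
    ∀ f ∈ Fb z lo n, w * f * w⁻¹ ∈ Fb z lo n :=
  fun _ hf => sub_le (S := (Fb z lo n).comap (MulAut.conj w).toMonoidHom)
    (fun i hi => h i hi.1 hi.2) hf

/-- the elements of the cover -/
def Cv (z : ℕ → H) (lo n : ℕ) (A : Subgroup H) (h : H) : Prop :=
  ∃ f ∈ Fb z lo n, ∃ a ∈ A, ∃ m, lo ≤ m ∧ 1 ≤ m ∧ m ≤ n ∧ h = f * a * dp z n m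

theorem cv_comm {A : Subgroup H} {w : H} {m : ℕ} (h0 : lo ≤ m) (h1 : 1 ≤ m) (h2 : m ≤ n)
    (hw : w ∈ A) (c : Commute w (dp z n m)) :
    Cv z lo n A (dp z n m * w) ∧ Cv z lo n A (dp z n m * w⁻¹) :=
  ⟨⟨1, one_mem _, w, hw, m, h0, h1, h2, by rw [one_mul, c.eq]⟩,
    ⟨1, one_mem _, w⁻¹, inv_mem hw, m, h0, h1, h2, by rw [one_mul, c.inv_left.eq]⟩⟩

theorem ZR.step (R : ZR z lo n) {A : Subgroup H} (hA : ∀ j, lo ≤ j → j + 1 < n → z j ∈ A)
    {k m : ℕ} (k0 : lo ≤ k) (k1 : k < n) (h0 : lo ≤ m) (h1 : 1 ≤ m) (h2 : m ≤ n) :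
    Cv z lo n A (dp z n m * z k) ∧ Cv z lo n A (dp z n m * (z k)⁻¹) := by
  by_cases c1 : k + 1 < m
  · exact cv_comm h0 h1 h2 (hA k k0 (by omega)) (R.cP k0 c1)
  by_cases c2 : k + 1 = m
  · subst c2
    rcases Nat.eq_zero_or_pos k with rfl | hp
    · exact ⟨⟨_, xx_mem k0 k1, 1, one_mem _, 1, h0, h1, h2, by rw [xx_zero]; group⟩,
        ⟨_, inv_mem (xx_mem k0 k1), 1, one_mem _, 1, h0, h1, h2, by rw [xx_zero]; group⟩⟩
    · exact ⟨⟨1, one_mem _, 1, one_mem _, k, k0, hp, k1.le, by rw [P_succ k1]; group⟩,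
        ⟨_, inv_mem (xx_mem k0 k1), 1, one_mem _, k, k0, hp, k1.le, by
          rw [xx_pos hp, P_succ k1]; group⟩⟩
  by_cases c3 : k = m
  · subst c3
    exact ⟨⟨_, xx_mem k0 k1, 1, one_mem _, k + 1, by omega, by omega, k1, by
        rw [xx_pos h1, P_succ k1]; group⟩,
      ⟨1, one_mem _, 1, one_mem _, k + 1, by omega, by omega, k1, by rw [P_succ k1]; group⟩⟩
  obtain ⟨j, rfl⟩ : ∃ j, k = j + 1 := ⟨k - 1, by omega⟩
  have s := R.shift k1 (j - m) m (by omega) h0 h1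
  have hj := hA j (by omega) k1
  refine ⟨⟨1, one_mem _, _, hj, m, h0, h1, h2, by rw [one_mul, s]⟩,
    ⟨1, one_mem _, _, inv_mem hj, m, h0, h1, h2, ?_⟩⟩
  rw [one_mul, eq_inv_mul_iff_mul_eq, ← mul_assoc, ← s, mul_inv_cancel_right]

theorem cv_mul {A : Subgroup H} (hn : ∀ a ∈ A, ∀ f ∈ Fb z lo n, a * f * a⁻¹ ∈ Fb z lo n) {g w : H}
    (hg : Cv z lo n A g) (hw : ∀ m, lo ≤ m → 1 ≤ m → m ≤ n → Cv z lo n A (dp z n m * w)) :
    Cv z lo n A (g * w) := by
  obtain ⟨f, hf, a, ha, m, h0, h1, h2, rfl⟩ := hg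
  obtain ⟨f', hf', a', ha', m', h0', h1', h2', e⟩ := hw m h0 h1 h2
  refine ⟨f * (a * f' * a⁻¹), mul_mem hf (hn a ha f' hf'), a * a', mul_mem ha ha', m', h0', h1',
    h2', ?_⟩
  rw [mul_assoc (f * a), e]
  group

end Grp

variable {ι : Type} {M : ι → ι → ℕ} {T : Set ι} {lo n : ℕ} {t : ℕ → ι}
  {H : Type} [Group H] {y : ι → H}

theorem zr (p : Path M T lo n t) (hb : Brd M y T) : ZR (fun i => y (t i)) lo n := by
  refine ⟨fun i j h0 h1 h2 => ?_, fun i h1 h0 h2 => ?_, fun h0 h1 => ?_⟩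
  · have h := hb _ (p.mem i h0 (by omega)) _ (p.mem j (by omega) h2)
    rw [p.lbl i j h0 (by omega) (by omega) h2, lab, if_neg (by omega), if_neg (by omega),
      alt_two, alt_two] at h
    exact h
  · have h := hb _ (p.mem i h0 (by omega)) _ (p.mem (i + 1) (by omega) h2)
    rw [p.lbl i (i + 1) h0 (by omega) (by omega) h2, lab, if_neg (by omega), if_pos (by omega),
      if_neg (by omega), alt_succ, alt_succ _ _ 2, alt_two, alt_two, if_pos (by decide),
      if_pos (by decide)] at h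
    exact h
  · have h := hb _ (p.mem 0 h0.le (by omega)) _ (p.mem 1 (by omega) h1)
    rw [p.lbl 0 1 h0.le (by omega) (by omega) h1, lab, if_neg (by omega), if_pos (by omega),
      if_pos (by omega), alt_even _ _ 2, alt_even _ _ 2] at h
    simpa only [pow_two, mul_assoc] using h

theorem far_comm (p : Path M T lo n t) (hb : Brd M y T) {a : ι} (ha : a ∈ T)
    (hf : ∀ i, lo ≤ i → i < n → a ≠ t i) (j : ℕ) (h0 : lo ≤ j) (h1 : j < n) :
    Commute (y a) (y (t j)) := by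
  have h := hb _ ha _ (p.mem j h0 h1)
  rw [p.far a ha hf j h0 h1, alt_two, alt_two] at h
  exact h

theorem norm (p : Path M T lo n t) (hb : Brd M y T) : ∀ a ∈ sub y (T \ {t (n - 1)}),
    ∀ f ∈ Fb (fun i => y (t i)) lo n, a * f * a⁻¹ ∈ Fb (fun i => y (t i)) lo n := by
  have gen : ∀ a ∈ T \ {t (n - 1)}, ∀ i, lo ≤ i → i < n →
      y a * xx (fun i => y (t i)) n i * (y a)⁻¹ ∈ Fb (fun i => y (t i)) lo n ∧
        (y a)⁻¹ * xx (fun i => y (t i)) n i * y a ∈ Fb (fun i => y (t i)) lo n := by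
    intro a ha i i0 i1
    by_cases hf : ∀ i, lo ≤ i → i < n → a ≠ t i
    · exact conj_of_comm (comm_xx i1 fun j h1 h2 => far_comm p hb ha.1 hf j (by omega) h2)
        (xx_mem i0 i1)
    · push Not at hf
      obtain ⟨k, k0, k1, rfl⟩ := hf
      have hk : k ≠ n - 1 := fun e => ha.2 (by rw [e]; rfl)
      exact (zr p hb).gen k0 (by omega) i0 i1
  intro a ha
  refine sub_induction (p := fun a => ∀ f ∈ Fb (fun i => y (t i)) lo n,
    a * f * a⁻¹ ∈ Fb (fun i => y (t i)) lo n) ?_ ?_ ?_ ha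
  · intro f hf
    simpa using hf
  · intro g _ c hc ih f hf
    have := ih _ (conj_Fb (fun i i0 i1 => (gen c hc i i0 i1).1) f hf)
    simpa only [mul_inv_rev, mul_assoc] using this
  · intro g _ c hc ih f hf
    have := ih _ (conj_Fb (w := (y c)⁻¹)
      (fun i i0 i1 => by rw [inv_inv]; exact (gen c hc i i0 i1).2) f hf)
    simpa only [mul_inv_rev, mul_assoc] using this

theorem cov (hM : Cox M) (p : Path M T lo n t) (hb : Brd M y T) {h : H} (hh : h ∈ sub y T) :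
    Cv (fun i => y (t i)) lo n (sub y (T \ {t (n - 1)})) h := by
  have hlt := p.lt
  have hA : ∀ j, lo ≤ j → j + 1 < n → y (t j) ∈ sub y (T \ {t (n - 1)}) := by
    intro j j0 j1
    refine mem_sub ⟨p.mem j j0 (by omega), fun e => ?_⟩
    have e' : t j = t (n - 1) := e
    have h1 := p.lbl j (n - 1) j0 (by omega) (by omega) (by omega)
    rw [← e', hM.diag, lab, if_neg (by omega)] at h1
    split_ifs at h1 <;> omega
  have st : ∀ c ∈ T, ∀ m, lo ≤ m → 1 ≤ m → m ≤ n →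
      Cv (fun i => y (t i)) lo n (sub y (T \ {t (n - 1)})) (dp (fun i => y (t i)) n m * y c) ∧
      Cv (fun i => y (t i)) lo n (sub y (T \ {t (n - 1)})) (dp (fun i => y (t i)) n m * (y c)⁻¹) := by
    intro c hc m h0 h1 h2
    by_cases hf : ∀ i, lo ≤ i → i < n → c ≠ t i
    · exact cv_comm h0 h1 h2 (mem_sub ⟨hc, hf (n - 1) (by omega) (by omega)⟩)
        (comm_P fun j j0 j1 => far_comm p hb hc hf j (by omega) j1)
    · push Not at hf
      obtain ⟨k, k0, k1, rfl⟩ := hf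
      exact (zr p hb).step hA k0 k1 h0 h1 h2
  refine sub_induction ?_ ?_ ?_ hh
  · exact ⟨1, one_mem _, 1, one_mem _, n, by omega, by omega, le_rfl, by rw [P_top]; group⟩
  · exact fun g _ c hc ih => cv_mul (norm p hb) ih fun m h0 h1 h2 => (st c hc m h0 h1 h2).1
  · exact fun g _ c hc ih => cv_mul (norm p hb) ih fun m h0 h1 h2 => (st c hc m h0 h1 h2).2

end CovAux

theorem p_cov : S_cov := by
  intro ι M hM T lo n t p
  refine ⟨fun H _ y hb => CovAux.norm p hb, fun H _ y hb h hh => ?_⟩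
  obtain ⟨f, hf, a, ha, m, h0, h1, h2, e⟩ := CovAux.cov hM p hb hh
  exact ⟨f, hf, a, ha, n - m, by omega, e⟩

end Pool.Agent.P.MP_e794d7_al.FC
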