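import Pool.Agent.P.MP_e794d7_al.FC.Stmt2

/-! The kernel of the folding map from type `D` to type `A`. -/

set_option autoImplicit false

namespace Pool.Agent.P.MP_e794d7_al.FC

namespace CovD

variable {H : Type} [Group H]

theorem alt3 (a b : H) : alt a b 3 = a * b * a := by simpa using alt_odd a b 1

theorem conj_comm {w f : H} (c : Commute w f) : w * f * w⁻¹ = f := by
  rw [c.eq, mul_inv_cancel_right]

theorem comm_conj {w f s : H} (c : Commute w s) (c' : Commute w f) : Commute w (s * f * s⁻¹) :=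
  (c.mul_right c').mul_right c.inv_right

theorem conj_sub {y : ℕ → H} {T : Set ℕ} {w : H} (h : ∀ j ∈ T, w * y j * w⁻¹ ∈ sub y T) {f : H}
    (hf : f ∈ sub y T) : w * f * w⁻¹ ∈ sub y T :=
  sub_le (S := (sub y T).comap (MulAut.conj w).toMonoidHom) h hf

theorem fin_comm {y : ℕ → H} : ∀ m : ℕ, (∀ i, 1 ≤ i → i < m → y i * y i = 1) →
    (∀ i j, 1 ≤ i → i < j → j < m → Commute (y i) (y j)) →
    (sub y (Set.Ico 1 m) : Set H).Finite
  | 0, _, _ => by simp [sub_empty]
  | m + 1, h1, h2 => by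
    have ih := fin_comm m (fun i a b => h1 i a (by omega)) fun i j a b c => h2 i j a b (by omega)
    refine (ih.union (ih.image (· * y m))).subset fun g hg => ?_
    have st : ∀ g : H, ∀ a ∈ Set.Ico 1 (m + 1),
        g ∈ (sub y (Set.Ico 1 m) : Set H) ∪ (· * y m) '' (sub y (Set.Ico 1 m) : Set H) →
        g * y a ∈ (sub y (Set.Ico 1 m) : Set H) ∪ (· * y m) '' (sub y (Set.Ico 1 m) : Set H) := by
      rintro g a ⟨a1, a2⟩ (hg | ⟨s, hs, rfl⟩)
      · rcases Nat.lt_succ_iff_lt_or_eq.1 a2 with h | rfl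
        · exact Or.inl (Subgroup.mul_mem _ hg (mem_sub ⟨a1, h⟩))
        · exact Or.inr ⟨g, hg, rfl⟩
      · rcases Nat.lt_succ_iff_lt_or_eq.1 a2 with h | rfl
        · refine Or.inr ⟨s * y a, Subgroup.mul_mem _ hs (mem_sub ⟨a1, h⟩), ?_⟩
          simp only [mul_assoc, (h2 a m a1 h (by omega)).eq]
        · left
          simpa only [mul_assoc, h1 a a1 a2, mul_one] using hs
    refine sub_induction (p := fun g => g ∈ (sub y (Set.Ico 1 m) : Set H) ∪
      (· * y m) '' (sub y (Set.Ico 1 m) : Set H)) (Or.inl (Subgroup.one_mem _))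
      (fun g _ a ha h => st g a ha h) (fun g _ a ha h => ?_) hg
    rw [inv_eq_of_mul_eq_one_right (h1 a ha.1 ha.2)]
    exact st g a ha h

/-- the relations of type `D` -/
structure DRel (z : ℕ → H) (n : ℕ) : Prop where
  le : 3 ≤ n
  cm : ∀ i j, i + 1 < j → 2 < j → j < n → Commute (z i) (z j)
  c01 : Commute (z 0) (z 1)
  br : ∀ i, 1 ≤ i → i + 1 < n → z i * z (i + 1) * z i = z (i + 1) * z i * z (i + 1)
  b02 : z 0 * z 2 * z 0 = z 2 * z 0 * z 2

theorem drel {z : ℕ → H} {n : ℕ} (hn : 3 ≤ n) (h : Brd labD z (Set.Iio n)) : DRel z n := by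
  refine ⟨hn, fun i j a b c => ?_, ?_, fun i a b => ?_, ?_⟩
  · have := h i (show i < n by omega) j c
    rwa [labD, if_neg (by omega), if_neg (by omega), alt_two, alt_two] at this
  · have := h 0 (show 0 < n by omega) 1 (show 1 < n by omega)
    rwa [labD, if_neg (by omega), if_neg (by omega), alt_two, alt_two] at this
  · have := h i (show i < n by omega) (i + 1) b
    rwa [labD, if_neg (by omega), if_pos (by omega), alt3, alt3] at this
  · have := h 0 (show 0 < n by omega) 2 (show 2 < n by omega)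
    rwa [labD, if_neg (by omega), if_pos (by omega), alt3, alt3] at this

variable {z : ℕ → H} {n : ℕ}

theorem x_one : xD z 1 = z 0 * (z 1)⁻¹ := rfl

theorem x_succ {j : ℕ} (h : 1 ≤ j) : xD z (j + 1) = z (j + 1) * xD z j * (z (j + 1))⁻¹ := by
  obtain ⟨k, rfl⟩ : ∃ k, j = k + 1 := ⟨j - 1, by omega⟩
  rfl

theorem DRel.low (R : DRel z n) {i : ℕ} (hi : i < n) {j : ℕ} (h1 : 1 ≤ j) :
    j + 1 < i → Commute (z i) (xD z j) := by
  induction j, h1 using Nat.le_induction with
  | base =>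
    intro h
    exact (R.cm 0 i (by omega) (by omega) hi).symm.mul_right
      (R.cm 1 i (by omega) (by omega) hi).symm.inv_right
  | succ j hj ih =>
    intro h
    rw [x_succ hj]
    exact comm_conj (R.cm (j + 1) i h (by omega) hi).symm (ih (by omega))

theorem DRel.high (R : DRel z n) {i : ℕ} (hi : 1 ≤ i) {j : ℕ} (h1 : i + 2 ≤ j) :
    j < n → Commute (z (i + 1)) (xD z j) := by
  induction j, h1 using Nat.le_induction with
  | base =>
    intro h
    have c := conj_comm (R.low h hi (by omega))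
    have b := R.br (i + 1) (by omega) h
    rw [x_succ (j := i + 1) (by omega), x_succ hi]
    generalize z (i + 1) = a at c b ⊢
    generalize z (i + 1 + 1) = s at c b ⊢
    generalize xD z i = x at c ⊢
    have : a * (s * (a * x * a⁻¹) * s⁻¹) * a⁻¹ = s * (a * x * a⁻¹) * s⁻¹ :=
      calc a * (s * (a * x * a⁻¹) * s⁻¹) * a⁻¹ = (a * s * a) * x * (a * s * a)⁻¹ := by group
        _ = s * (a * (s * x * s⁻¹) * a⁻¹) * s⁻¹ := by rw [b]; group
        _ = _ := by rw [c]
    exact mul_inv_eq_iff_eq_mul.1 this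
  | succ j hj ih =>
    intro h
    rw [x_succ (by omega)]
    exact comm_conj (R.cm (i + 1) (j + 1) (by omega) (by omega) h) (ih (by omega))

theorem br_conj {a s : H} (h : a * s * a = s * a * s) : s⁻¹ * a * s = a * s * a⁻¹ :=
  calc s⁻¹ * a * s = s⁻¹ * (a * s * a) * a⁻¹ := by group
    _ = _ := by rw [h]; group

theorem DRel.key (R : DRel z n) {j : ℕ} (h1 : 1 ≤ j) : j + 1 < n →
    (z (j + 1))⁻¹ * xD z j * z (j + 1) = xD z j * (xD z (j + 1))⁻¹ * xD z j := by
  induction j, h1 using Nat.le_induction with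
  | base =>
    intro h
    have c := R.c01.inv_left.eq
    have ba := R.b02
    have bb := R.br 1 le_rfl h
    rw [x_succ le_rfl, x_one]
    change _ * z 2 * _ = z 2 * _ * z 2 at bb
    change (z 2)⁻¹ * _ * z 2 = _ * (z 2 * _ * (z 2)⁻¹)⁻¹ * _
    generalize z 0 = a at c ba ⊢
    generalize z 1 = b at c bb ⊢
    generalize z 2 = s at ba bb ⊢
    calc s⁻¹ * (a * b⁻¹) * s = (s⁻¹ * a * s) * (s⁻¹ * b * s)⁻¹ := by group
      _ = a * s * (a⁻¹ * b) * s⁻¹ * b⁻¹ := by rw [br_conj ba, br_conj bb]; group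
      _ = a * (s * b * s⁻¹) * (s * a * s⁻¹)⁻¹ * b⁻¹ := by rw [c]; group
      _ = _ := by rw [← br_conj ba.symm, ← br_conj bb.symm]; group
  | succ j hj ih =>
    intro h
    have k := ih (by omega)
    have c := conj_comm (R.low h hj (by omega))
    have b := R.br (j + 1) (by omega) h
    rw [x_succ (j := j + 1) (by omega)]
    rw [x_succ hj] at k ⊢
    generalize z (j + 1) = a at c b k ⊢
    generalize z (j + 1 + 1) = s at c b ⊢
    generalize xD z j = x at c k ⊢
    have e1 : a * s * a * (a * s)⁻¹ = s := by rw [b]; group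
    have e2 : a * s * x * (a * s)⁻¹ = a * x * a⁻¹ :=
      calc a * s * x * (a * s)⁻¹ = a * (s * x * s⁻¹) * a⁻¹ := by group
        _ = _ := by rw [c]
    generalize a * s = g at e1 e2
    rw [← e2, ← e1]
    calc _ = g * (a⁻¹ * x * a) * g⁻¹ := by group
      _ = _ := by rw [k]; group

theorem DRel.c1 (R : DRel z n) : Commute (z 1) (xD z 1) :=
  R.c01.symm.mul_right (Commute.refl _).inv_right

theorem DRel.one (R : DRel z n) {j : ℕ} (h1 : 2 ≤ j) : j < n →
    z 1 * xD z j * (z 1)⁻¹ = (xD z 1)⁻¹ * xD z j := by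
  induction j, h1 using Nat.le_induction with
  | base =>
    intro h
    have ba := R.b02
    have bb := R.br 1 le_rfl h
    rw [x_succ le_rfl, x_one]
    change _ * z 2 * _ = z 2 * _ * z 2 at bb
    change _ * (z 2 * _ * (z 2)⁻¹) * _ = _ * (z 2 * _ * (z 2)⁻¹)
    generalize z 0 = a at ba ⊢
    generalize z 1 = b at bb ⊢
    generalize z 2 = s at ba bb ⊢
    calc b * (s * (a * b⁻¹) * s⁻¹) * b⁻¹ = b * s * a * (b * s * b)⁻¹ := by group
      _ = b * (s * a * s⁻¹) * b⁻¹ * s⁻¹ := by rw [bb]; group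
      _ = _ := by rw [← br_conj ba.symm]; group
  | succ j hj ih =>
    intro h
    have c1 := (R.cm 1 (j + 1) (by omega) (by omega) h).eq
    have c2 := conj_comm (R.low h le_rfl (by omega)).inv_right
    rw [x_succ (j := j) (by omega)]
    calc _ = (z 1 * z (j + 1)) * xD z j * (z 1 * z (j + 1))⁻¹ := by group
      _ = z (j + 1) * (z 1 * xD z j * (z 1)⁻¹) * (z (j + 1))⁻¹ := by rw [c1]; group
      _ = z (j + 1) * (xD z 1)⁻¹ * (z (j + 1))⁻¹ * (z (j + 1) * xD z j * (z (j + 1))⁻¹) := by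
        rw [ih (by omega)]; group
      _ = _ := by rw [c2]

theorem DRel.gen (R : DRel z n) {i j : ℕ} (hi : i ∈ Set.Ico 1 n) (hj : j ∈ Set.Ico 1 n) :
    z i * xD z j * (z i)⁻¹ ∈ sub (xD z) (Set.Ico 1 n) ∧
      (z i)⁻¹ * xD z j * (z i)⁻¹⁻¹ ∈ sub (xD z) (Set.Ico 1 n) := by
  have cm : Commute (z i) (xD z j) → z i * xD z j * (z i)⁻¹ ∈ sub (xD z) (Set.Ico 1 n) ∧
      (z i)⁻¹ * xD z j * (z i)⁻¹⁻¹ ∈ sub (xD z) (Set.Ico 1 n) := fun c => by
    rw [conj_comm c, conj_comm c.inv_left]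
    exact ⟨mem_sub hj, mem_sub hj⟩
  have mj : xD z j ∈ sub (xD z) (Set.Ico 1 n) := mem_sub hj
  obtain ⟨i1, i2⟩ := hi
  obtain ⟨j1, j2⟩ := hj
  rcases Nat.lt_or_ge 1 i with h | h
  · obtain ⟨k, rfl⟩ : ∃ k, i = k + 1 := ⟨i - 1, by omega⟩
    have mk : xD z k ∈ sub (xD z) (Set.Ico 1 n) := mem_sub ⟨by omega, by omega⟩
    have mk' : xD z (k + 1) ∈ sub (xD z) (Set.Ico 1 n) := mem_sub ⟨by omega, by omega⟩
    have key := R.key (j := k) (by omega) i2
    have xs := x_succ (z := z) (j := k) (by omega)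
    rcases Nat.lt_or_ge j k with a | a
    · exact cm (R.low i2 j1 (by omega))
    rcases Nat.lt_or_ge (k + 1) j with b | b
    · exact cm (R.high (by omega) b j2)
    obtain rfl | rfl : j = k ∨ j = k + 1 := by omega
    · rw [inv_inv, key, ← xs]
      exact ⟨mk', Subgroup.mul_mem _ (Subgroup.mul_mem _ mk (Subgroup.inv_mem _ mk')) mk⟩
    · have e1 : (z (k + 1))⁻¹ * xD z (k + 1) * (z (k + 1))⁻¹⁻¹ = xD z k := by rw [xs]; group
      have e2 : z (k + 1) * xD z (k + 1) * (z (k + 1))⁻¹ =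
          xD z (k + 1) * (xD z k)⁻¹ * xD z (k + 1) := by
        have e3 : xD z (k + 1) = xD z k * ((z (k + 1))⁻¹ * xD z k * z (k + 1))⁻¹ * xD z k := by
          rw [key]; group
        calc _ = z (k + 1) * (xD z k * ((z (k + 1))⁻¹ * xD z k * z (k + 1))⁻¹ * xD z k) *
              (z (k + 1))⁻¹ := by rw [← e3]
          _ = _ := by rw [xs]; group
      rw [e1, e2]
      exact ⟨Subgroup.mul_mem _ (Subgroup.mul_mem _ mk' (Subgroup.inv_mem _ mk)) mk', mk⟩
  · obtain rfl : i = 1 := by omega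
    have m1 : xD z 1 ∈ sub (xD z) (Set.Ico 1 n) := mem_sub ⟨le_rfl, i2⟩
    rcases Nat.lt_or_ge 1 j with a | a
    · have e1 := R.one a j2
      have e2 : (z 1)⁻¹ * xD z j * (z 1)⁻¹⁻¹ = xD z 1 * xD z j :=
        calc _ = (z 1)⁻¹ * xD z 1 * (z 1)⁻¹⁻¹ * ((z 1)⁻¹ * ((xD z 1)⁻¹ * xD z j) * z 1) := by group
          _ = _ := by rw [← e1, conj_comm R.c1.inv_left]; group
      rw [e1, e2]
      exact ⟨Subgroup.mul_mem _ (Subgroup.inv_mem _ m1) mj, Subgroup.mul_mem _ m1 mj⟩
    · obtain rfl : j = 1 := by omega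
      exact cm R.c1

theorem DRel.norm (R : DRel z n) {a : H} (ha : a ∈ sub z (Set.Ico 1 n)) :
    ∀ f ∈ sub (xD z) (Set.Ico 1 n), a * f * a⁻¹ ∈ sub (xD z) (Set.Ico 1 n) := by
  refine sub_induction (p := fun a => ∀ f ∈ sub (xD z) (Set.Ico 1 n),
    a * f * a⁻¹ ∈ sub (xD z) (Set.Ico 1 n)) (fun f hf => by simpa using hf)
    (fun g _ i hi ih f hf => ?_) (fun g _ i hi ih f hf => ?_) ha
  · have := ih _ (conj_sub (fun j hj => (R.gen hi hj).1) hf)
    simpa only [mul_assoc, mul_inv_rev] using this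
  · have := ih _ (conj_sub (fun j hj => (R.gen hi hj).2) hf)
    simpa only [mul_assoc, mul_inv_rev] using this

theorem DRel.cov (R : DRel z n) {h : H} (hh : h ∈ sub z (Set.Iio n)) :
    ∃ f ∈ sub (xD z) (Set.Ico 1 n), ∃ a ∈ sub z (Set.Ico 1 n), h = f * a := by
  have n1 : 1 ∈ Set.Ico 1 n := ⟨le_rfl, by have := R.le; omega⟩
  have m1 : xD z 1 ∈ sub (xD z) (Set.Ico 1 n) := mem_sub n1
  have z1 : z 1 ∈ sub z (Set.Ico 1 n) := mem_sub n1
  refine sub_induction (p := fun h => ∃ f ∈ sub (xD z) (Set.Ico 1 n),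
    ∃ a ∈ sub z (Set.Ico 1 n), h = f * a)
    ⟨1, Subgroup.one_mem _, 1, Subgroup.one_mem _, (mul_one _).symm⟩ ?_ ?_ hh
  · rintro _ - i hi ⟨f, hf, a, ha, rfl⟩
    rcases Nat.eq_zero_or_pos i with rfl | h
    · exact ⟨_, Subgroup.mul_mem _ hf (R.norm ha _ m1), _, Subgroup.mul_mem _ ha z1, by
        rw [x_one]; group⟩
    · exact ⟨f, hf, _, Subgroup.mul_mem _ ha (mem_sub ⟨h, hi⟩), mul_assoc _ _ _⟩
  · rintro _ - i hi ⟨f, hf, a, ha, rfl⟩
    rcases Nat.eq_zero_or_pos i with rfl | h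
    · exact ⟨_, Subgroup.mul_mem _ hf (R.norm ha _ (Subgroup.inv_mem _ m1)), _,
        Subgroup.mul_mem _ ha (Subgroup.inv_mem _ z1), by
        rw [x_one, R.c01.inv_right.eq]; group⟩
    · exact ⟨f, hf, _, Subgroup.mul_mem _ ha (Subgroup.inv_mem _ (mem_sub ⟨h, hi⟩)),
        mul_assoc _ _ _⟩

theorem sq_conj {s x : H} (h : x * x = 1) : s * x * s⁻¹ * (s * x * s⁻¹) = 1 :=
  calc _ = s * (x * x) * s⁻¹ := by group
    _ = 1 := by rw [h]; group

theorem DRel.fin (R : DRel z n) (h : ∀ i, i < n → z i * z i = 1) :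
    Finite (sub (xD z) (Set.Ico 1 n)) := by
  have hn := R.le
  have sq : ∀ j, 1 ≤ j → xD z j * xD z j = 1 := fun j hj => by
    induction j, hj using Nat.le_induction with
    | base =>
      rw [x_one, inv_eq_of_mul_eq_one_right (h 1 (by omega)), R.c01.symm.mul_mul_mul_comm,
        h 0 (by omega), h 1 (by omega), mul_one]
    | succ j hj ih =>
      rw [x_succ hj]
      exact sq_conj ih
  have cm : ∀ i, 1 ≤ i → ∀ j, i < j → j < n → Commute (xD z i) (xD z j) := fun i hi => by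
    induction i, hi using Nat.le_induction with
    | base =>
      intro j a b
      have e := sq_conj (s := z 1) (sq j (by omega))
      rw [R.one a b, inv_eq_of_mul_eq_one_right (sq 1 le_rfl)] at e
      have e' := inv_eq_of_mul_eq_one_right e
      rw [mul_inv_rev, inv_eq_of_mul_eq_one_right (sq 1 le_rfl),
        inv_eq_of_mul_eq_one_right (sq j (by omega))] at e'
      exact e'.symm
    | succ i hi ih =>
      intro j a b
      rw [x_succ hi]
      exact (comm_conj (R.high hi a b).symm (ih j (by omega) b).symm).symm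
  exact fin_comm n (fun i a _ => sq i a) fun i j a b c => cm i a j b c

end CovD

theorem p_covD : S_covD := fun _ _ _ _ hn h =>
  ⟨fun _ ha => (CovD.drel hn h).norm ha, fun _ hh => (CovD.drel hn h).cov hh, (CovD.drel hn h).fin⟩

end Pool.Agent.P.MP_e794d7_al.FC
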