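import Pool.Agent.P.MP_e794d7_al.FC.Stmt

/-! Package Dc: double cosets of parabolic subgroups modulo `K`. -/

set_option autoImplicit false

namespace Pool.Agent.P.MP_e794d7_al.FC

open scoped Classical

noncomputable section

variable {ι : Type} [Fintype ι] {M : ι → ι → ℕ} {𝒯 : Set (Set ι)}

namespace Dc

variable {D : RD M 𝒯} {N : Subgroup D.PG} {T X Y : Set ι}

theorem fix_v {k : Art M} (hk : k ∈ D.K N) (v : ι → D.F) : D.ρ1 (wq M k) v = v :=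
  congrArg RD.X.v (hk.1 ⟨v, 1, 1⟩)

theorem not_in {t : ι} (h : t ∉ X) {v : ι → D.F} (hv : In X v) :
    v ≠ al D.F t ∧ v ≠ -al D.F t := by
  have h0 := hv t h
  constructor
  · rintro rfl
    rw [al_apply, if_pos rfl] at h0
    exact one_ne_zero h0
  · rintro rfl
    rw [Pi.neg_apply, al_apply, if_pos rfl, neg_eq_zero] at h0
    exact one_ne_zero h0

theorem phi_eq {a b e : Art M} :
    D.φ e = D.φ a * D.aut (wq M a) (D.φ b) * D.aut (wq M (a * b)) (D.φ ((a * b)⁻¹ * e)) := by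
  rw [← D.φ_mul, ← D.φ_mul, mul_inv_cancel_left]

/-- a vector with nonpositive coordinates supported on positive roots -/
theorem rho_nonpos {w : Wg M} {r : ι → D.R} (hr : r ≤ 0)
    (h : ∀ a, r a ≠ 0 → 0 ≤ D.ρ w (al D.R a)) : D.ρ w r ≤ 0 := by
  have e : r = ∑ a, r a • al D.R a := by
    funext b
    simp [Finset.sum_apply, al_apply]
  rw [e, map_sum]
  refine Finset.sum_nonpos fun a _ => ?_
  rw [map_smul]
  by_cases ha : r a = 0
  · rw [ha, zero_smul]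
  · intro b
    exact mul_nonpos_of_nonpos_of_nonneg (hr a) (h a ha b)

theorem coreA (hs : D.Sign) (ht : D.Ret) (hp : D.Parl) (hE : Ev N) (hT : T ∈ 𝒯) {e a b : Art M}
    (he : e ∈ sub (Art.gen M) T) (ha : a ∈ sub (Art.gen M) X) (hb : b ∈ sub (Art.gen M) Y)
    (hk : (a * b)⁻¹ * e ∈ D.K N)
    (h1 : ∀ t ∈ T ∩ X, ¬ D.ρ (wq M e)⁻¹ (al D.R t) ≤ 0)
    (h2 : ∀ t ∈ T ∩ Y, ¬ D.ρ (wq M e) (al D.R t) ≤ 0) : wq M e = 1 := by
  by_contra hne
  have hw : (wq M e)⁻¹ ∈ sub (sg M) T := Subgroup.inv_mem _ (wq_mem he)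
  obtain ⟨t, htT, hneg⟩ := hs.desc T _ hw (by simpa using hne)
  obtain ⟨f, hf, hf1⟩ := hp T hT e he t htT hneg
  have e3 : f (D.aut (wq M (a * b)) (D.φ ((a * b)⁻¹ * e))) = 1 :=
    hE (f.comp (D.aut (wq M (a * b))).toMonoidHom) _ hk.2
  have e1 : f (D.φ a) = 1 := by
    have htX : t ∉ X := fun h => h1 t ⟨htT, h⟩ hneg
    have : f.comp (D.ret X) = 1 := D.hom_ext fun x => by
      rw [MonoidHom.comp_apply, ht.ζ]
      split_ifs with hx
      · exact hf1 x (not_in htX hx).1 (not_in htX hx).2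
      · exact map_one f
    rw [← ht.fix X a ha]
    exact DFunLike.congr_fun this _
  have e2 : f (D.aut (wq M a) (D.φ b)) = 1 := by
    have key : ¬ In Y (D.ρ1 (wq M a)⁻¹ (al D.F t)) := by
      intro hin
      have hin2 : In Y (D.ρ1 (wq M e)⁻¹ (al D.F t)) := by
        have e4 : (wq M e)⁻¹ = wq M ((a * b)⁻¹ * e)⁻¹ * ((wq M b)⁻¹ * (wq M a)⁻¹) := by
          simp [mul_assoc]
        rw [e4, rep_mul, fix_v (Subgroup.inv_mem _ hk), rep_mul,
          rep_in _ (Subgroup.inv_mem _ (wq_mem hb))]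
        exact hin
      have hY : In Y (D.ρ (wq M e)⁻¹ (al D.R t)) := fun c hc =>
        D.sep0 T hT _ hw t htT c ((congrFun (D.red_ρ _ t) c).trans (hin2 c hc))
      have hTT : In T (D.ρ (wq M e)⁻¹ (al D.R t)) := (rep_in _ hw _).2 (in_al htT)
      have h3 := rho_nonpos (w := wq M e) hneg fun c hc =>
        (hs.sgn _ c).resolve_right (h2 c ⟨by_contra fun h => hc (hTT c h),
          by_contra fun h => hc (hY c h)⟩)
      rw [rep_rep_inv] at h3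
      have h4 := h3 t
      rw [al_apply, if_pos rfl] at h4
      exact absurd h4 (not_le.2 zero_lt_one)
    have : (f.comp (D.aut (wq M a)).toMonoidHom).comp (D.ret Y) = 1 := D.hom_ext fun x => by
      rw [MonoidHom.comp_apply, ht.ζ]
      split_ifs with hx
      · change f (D.aut (wq M a) (D.ζ x)) = 1
        rw [D.aut_ζ]
        refine hf1 _ (fun h => key ?_) fun h => key ?_
        · rw [← h, D.smul_v, rep_inv_rep]
          exact hx
        · rw [← neg_neg (al D.F t), ← h, map_neg, D.smul_v, rep_inv_rep]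
          exact fun c hc => by rw [Pi.neg_apply, hx c hc, neg_zero]
      · exact map_one _
    rw [← ht.fix Y b hb]
    exact DFunLike.congr_fun this _
  apply hf
  rw [phi_eq (a := a) (b := b), map_mul, map_mul, e1, e2, e3, one_mul, one_mul]

theorem filt (hr : D.Roots) (hc : D.C1) (hT : T ∈ 𝒯) {e : Art M} (he : e ∈ sub (Art.gen M) T)
    (h1 : wq M e = 1) (Z : Set ι) :
    ∃ g ∈ sub (Art.gen M) (T ∩ Z), D.φ g = D.ret Z (D.φ e) ∧ wq M g = 1 := by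
  obtain ⟨g, hg, h2, h3⟩ := hc T hT Z e he
  rw [h1, inv_one, one_mul] at h3
  exact ⟨g, hg, h2, hr.triv _ _ (wq_mem hg) h3⟩

theorem coreB (hr : D.Roots) (ht : D.Ret) (hc : D.C1) (hF : FInv N) (hT : T ∈ 𝒯) {e a b : Art M}
    (he : e ∈ sub (Art.gen M) T) (ha : a ∈ sub (Art.gen M) X) (hb : b ∈ sub (Art.gen M) Y)
    (hk : (a * b)⁻¹ * e ∈ D.K N) (h1 : wq M e = 1) :
    ∃ a' ∈ sub (Art.gen M) (T ∩ X), ∃ b' ∈ sub (Art.gen M) (T ∩ Y), (a' * b')⁻¹ * e ∈ D.K N := by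
  obtain ⟨eX, mX, pX, wX⟩ := filt hr hc hT he h1 X
  obtain ⟨eY, mY, pY, wY⟩ := filt hr hc hT he h1 Y
  obtain ⟨eZ, mZ, pZ, wZ⟩ := filt hr hc hT he h1 (X ∩ Y)
  refine ⟨eX * eZ⁻¹, Subgroup.mul_mem _ mX (Subgroup.inv_mem _
    (sub_mono (Set.inter_subset_inter_right _ Set.inter_subset_left) mZ)), eY, mY,
    fun x => by simp [wX, wY, wZ, h1], ?_⟩
  have := hF.normal
  have hab : D.aut (wq M a) = D.aut (wq M b)⁻¹ := D.aut_congr fun x => by
    have e4 : wq M a = wq M ((a * b)⁻¹ * e)⁻¹ * (wq M b)⁻¹ := by simp [h1]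
    rw [e4, mul_smul, (Subgroup.inv_mem _ hk).1]
  have hP : D.ret X (D.φ a) = D.φ a := ht.fix X a ha
  have hQ : D.ret Y (D.aut (wq M a) (D.φ b)) = D.aut (wq M a) (D.φ b) := by
    rw [hab, ht.aut Y _ (Subgroup.inv_mem _ (wq_mem hb)), ht.fix Y b hb]
  have hn : D.aut (wq M (a * b)) (D.φ ((a * b)⁻¹ * e)) ∈ N :=
    hF (D.aut (wq M (a * b))).toMonoidHom _ hk.2
  have hE := phi_eq (D := D) (a := a) (b := b) (e := e)
  generalize D.aut (wq M (a * b)) (D.φ ((a * b)⁻¹ * e)) = n at hn hE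
  generalize D.aut (wq M a) (D.φ b) = Q at hQ hE
  generalize D.φ a = P at hP hE
  have hP' : D.ret (X ∩ Y) P = D.ret Y P := by rw [Set.inter_comm, ← ht.inter, hP]
  have hQ' : D.ret (X ∩ Y) Q = D.ret X Q := by rw [← ht.inter, hQ]
  have e5 : D.φ ((eX * eZ⁻¹ * eY)⁻¹ * e) = (D.φ eX * (D.φ eZ)⁻¹ * D.φ eY)⁻¹ * D.φ e := by
    simp [D.φ_mul, D.φ_inv, wX, wY, wZ, mul_assoc]
  have z : ∀ m ∈ N, QuotientGroup.mk' N m = 1 := fun m hm => (QuotientGroup.eq_one_iff m).2 hm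
  rw [e5, pX, pY, pZ, hE, ← QuotientGroup.eq_one_iff]
  change QuotientGroup.mk' N _ = 1
  simp only [map_mul, map_inv, hP, hQ, hP', hQ', z n hn, z _ (hF _ n hn)]
  group

end Dc

theorem RD.p_dc (D : RD M 𝒯) (hs : D.Sign) (hr : D.Roots) (ht : D.Ret) (hc : D.C1)
    (hp : D.Parl) : D.DC := by
  intro N hF hE T hT X Y g hg a ha b hb hk
  have hK := D.K_normal hF
  obtain ⟨ℓ, hℓ⟩ := hs.len
  have hex : ∃ n, ∃ a' ∈ sub (Art.gen M) (T ∩ X), ∃ b' ∈ sub (Art.gen M) (T ∩ Y),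
      ℓ (wq M (a'⁻¹ * g * b'⁻¹)) = n := ⟨_, 1, Subgroup.one_mem _, 1, Subgroup.one_mem _, rfl⟩
  obtain ⟨a', ha', b', hb', hn⟩ := Nat.find_spec hex
  have hmin : ∀ a₁ ∈ sub (Art.gen M) (T ∩ X), ∀ b₁ ∈ sub (Art.gen M) (T ∩ Y),
      ℓ (wq M (a'⁻¹ * g * b'⁻¹)) ≤ ℓ (wq M (a₁⁻¹ * g * b₁⁻¹)) := fun a₁ h₁ b₁ h₂ =>
    hn ▸ Nat.find_min' hex ⟨a₁, h₁, b₁, h₂, rfl⟩
  have he : a'⁻¹ * g * b'⁻¹ ∈ sub (Art.gen M) T :=
    Subgroup.mul_mem _ (Subgroup.mul_mem _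
      (Subgroup.inv_mem _ (sub_mono Set.inter_subset_left ha')) hg)
      (Subgroup.inv_mem _ (sub_mono Set.inter_subset_left hb'))
  have ha1 : a'⁻¹ * a ∈ sub (Art.gen M) X :=
    Subgroup.mul_mem _ (Subgroup.inv_mem _ (sub_mono Set.inter_subset_right ha')) ha
  have hb1 : b * b'⁻¹ ∈ sub (Art.gen M) Y :=
    Subgroup.mul_mem _ hb (Subgroup.inv_mem _ (sub_mono Set.inter_subset_right hb'))
  have hk1 : (a'⁻¹ * a * (b * b'⁻¹))⁻¹ * (a'⁻¹ * g * b'⁻¹) ∈ D.K N := by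
    have := hK.conj_mem _ hk b'
    convert this using 1
    group
  have h1 : wq M (a'⁻¹ * g * b'⁻¹) = 1 := by
    refine Dc.coreA hs ht hp hE hT he ha1 hb1 hk1 (fun t htt hle => ?_) fun t htt hle => ?_
    · have h2 := hmin _ (Subgroup.mul_mem _ ha' (Subgroup.inv_mem _ (mem_sub htt))) b' hb'
      have h3 := (hℓ _ t).2 hle
      have e : wq M ((a' * (Art.gen M t)⁻¹)⁻¹ * g * b'⁻¹) = sg M t * wq M (a'⁻¹ * g * b'⁻¹) := by
        rw [← wq_gen, ← map_mul]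
        congr 1
        group
      rw [e] at h2
      omega
    · have h2 := hmin a' ha' _ (Subgroup.mul_mem _ (Subgroup.inv_mem _ (mem_sub htt)) hb')
      have h3 := (hℓ _ t).1 hle
      have e : wq M (a'⁻¹ * g * ((Art.gen M t)⁻¹ * b')⁻¹) = wq M (a'⁻¹ * g * b'⁻¹) * sg M t := by
        rw [← wq_gen, ← map_mul]
        congr 1
        group
      rw [e] at h2
      omega
  obtain ⟨a₂, ha₂, b₂, hb₂, hk₂⟩ := Dc.coreB hr ht hc hF hT he ha1 hb1 hk1 h1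
  refine ⟨a' * a₂, Subgroup.mul_mem _ ha' ha₂, b₂ * b', Subgroup.mul_mem _ hb₂ hb', ?_⟩
  have := hK.conj_mem _ hk₂ b'⁻¹
  convert this using 1
  group

end

end Pool.Agent.P.MP_e794d7_al.FC
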