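import Pool.Agent.P.MP_e794d7_al.Main

/-! Artin groups of FC type: definitions and the basic interface. -/

set_option autoImplicit false

namespace Pool.Agent.P.MP_e794d7_al.FC

open scoped Classical

noncomputable section

variable {ι : Type}

/-- the labels form a Coxeter matrix, `0` stands for infinity -/
structure Cox (M : ι → ι → ℕ) : Prop where
  symm : ∀ a b, M a b = M b a
  diag : ∀ a, M a a = 1
  off : ∀ a b, a ≠ b → M a b ≠ 1

/-- all labels in `T` are finite -/
def Clq (M : ι → ι → ℕ) (T : Set ι) : Prop := ∀ a ∈ T, ∀ b ∈ T, M a b ≠ 0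

/-- the subgroup generated by the letters of `T` -/
def sub {H : Type} [Group H] (y : ι → H) (T : Set ι) : Subgroup H := Subgroup.closure (y '' T)

/-- the braid relations hold on `T` -/
def Brd (M : ι → ι → ℕ) {H : Type} [Group H] (y : ι → H) (T : Set ι) : Prop :=
  ∀ a ∈ T, ∀ b ∈ T, alt (y a) (y b) (M a b) = alt (y b) (y a) (M a b)

/-- the letter number `n` of the alternating word -/
def el (a b : ι) (n : ℕ) : ι := if Even n then a else b

/-- the vector is supported in `Y` -/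
def In {R : Type} [Zero R] (Y : Set ι) (v : ι → R) : Prop := ∀ a, a ∉ Y → v a = 0

section Sub

variable {H K : Type} [Group H] [Group K] {y : ι → H} {T T' : Set ι}

theorem mem_sub {a : ι} (h : a ∈ T) : y a ∈ sub y T := Subgroup.subset_closure ⟨a, h, rfl⟩

theorem sub_mono (h : T ⊆ T') : sub y T ≤ sub y T' := Subgroup.closure_mono (Set.image_mono h)

theorem sub_le {S : Subgroup H} (h : ∀ a ∈ T, y a ∈ S) : sub y T ≤ S := by
  rw [sub, Subgroup.closure_le]
  rintro _ ⟨a, ha, rfl⟩
  exact h a ha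

theorem sub_empty : sub y (∅ : Set ι) = ⊥ := by simp [sub]

theorem map_sub_eq (f : H →* K) : (sub y T).map f = sub (fun a => f (y a)) T := by
  rw [sub, sub, MonoidHom.map_closure, Set.image_image]

theorem map_mem_sub (f : H →* K) {g : H} (h : g ∈ sub y T) : f g ∈ sub (fun a => f (y a)) T :=
  map_sub_eq f ▸ Subgroup.mem_map_of_mem f h

theorem exists_of_mem_sub (f : H →* K) {k : K} (h : k ∈ sub (fun a => f (y a)) T) :
    ∃ g ∈ sub y T, f g = k := by
  rw [← map_sub_eq] at h
  exact h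

/-- induction by appending letters on the right -/
theorem sub_induction {p : H → Prop} (one : p 1)
    (mul : ∀ g ∈ sub y T, ∀ a ∈ T, p g → p (g * y a))
    (inv : ∀ g ∈ sub y T, ∀ a ∈ T, p g → p (g * (y a)⁻¹)) {g : H} (hg : g ∈ sub y T) : p g := by
  induction hg using Subgroup.closure_induction_right with
  | one => exact one
  | mul_right x hx _ hy ih =>
    obtain ⟨a, ha, rfl⟩ := hy
    exact mul x hx a ha ih
  | mul_inv_cancel x hx _ hy ih =>
    obtain ⟨a, ha, rfl⟩ := hy
    exact inv x hx a ha ih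

theorem Brd.mono {M : ι → ι → ℕ} (h : Brd M y T') (hT : T ⊆ T') : Brd M y T :=
  fun a ha b hb => h a (hT ha) b (hT hb)

theorem Brd.map {M : ι → ι → ℕ} (h : Brd M y T) (f : H →* K) : Brd M (fun a => f (y a)) T :=
  fun a ha b hb => by rw [← map_alt, ← map_alt, h a ha b hb]

theorem Brd.prod {M : ι → ι → ℕ} {y' : ι → K} (h : Brd M y T) (h' : Brd M y' T) :
    Brd M (fun a => (y a, y' a)) T := fun a ha b hb =>
  Prod.ext ((map_alt (MonoidHom.fst H K) (y a, y' a) (y b, y' b) _).trans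
      ((h a ha b hb).trans (map_alt (MonoidHom.fst H K) (y b, y' b) (y a, y' a) _).symm))
    ((map_alt (MonoidHom.snd H K) (y a, y' a) (y b, y' b) _).trans
      ((h' a ha b hb).trans (map_alt (MonoidHom.snd H K) (y b, y' b) (y a, y' a) _).symm))

theorem brd_gen (M : ι → ι → ℕ) (T : Set ι) : Brd M (Art.gen M) T := fun a _ b _ => Art.rel a b

theorem alt_el (a b : ι) (k : ℕ) :
    alt (y a) (y b) (k + 1) = alt (y a) (y b) k * y (el a b k) := by
  rw [alt_succ, el, apply_ite y]

end Sub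

/-! ### diagrams of type `A` and `B` -/

/-- the labels of the infinite diagram of type `B` on `0, 1, 2, ..` -/
def lab (i j : ℕ) : ℕ :=
  if i = j then 1 else if i + 1 = j ∨ j + 1 = i then (if i = 0 ∨ j = 0 then 4 else 3) else 2

/-- `T` is a subdiagram of a disjoint union of diagrams of type `B` -/
def Cls (M : ι → ι → ℕ) (T : Set ι) : Prop :=
  ∃ c e : ι → ℕ, ∀ a ∈ T, ∀ b ∈ T, a ≠ b → M a b = if c a = c b then lab (e a) (e b) else 2

/-- `t lo, .., t (n-1)` is a connected component of `T`, of type `B` if `lo = 0`, else `A` -/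
structure Path (M : ι → ι → ℕ) (T : Set ι) (lo n : ℕ) (t : ℕ → ι) : Prop where
  lt : lo < n
  mem : ∀ i, lo ≤ i → i < n → t i ∈ T
  lbl : ∀ i j, lo ≤ i → i < n → lo ≤ j → j < n → M (t i) (t j) = lab i j
  far : ∀ a ∈ T, (∀ i, lo ≤ i → i < n → a ≠ t i) → ∀ i, lo ≤ i → i < n → M a (t i) = 2

section Braid

variable {H K : Type} [Group H] [Group K]

/-- the product `z (n-1) * .. * z (n-d)` -/
def dl (z : ℕ → H) (n : ℕ) : ℕ → H
  | 0 => 1
  | d + 1 => dl z n d * z (n - 1 - d)

/-- the top strand goes round strand number `i` -/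
def xx (z : ℕ → H) (n i : ℕ) : H :=
  dl z n (n - 1 - i) * z i ^ (if i = 0 then 1 else 2) * (dl z n (n - 1 - i))⁻¹

/-- the free fibre -/
def Fb (z : ℕ → H) (lo n : ℕ) : Subgroup H := sub (xx z n) (Set.Ico lo n)

theorem map_dl (f : H →* K) (z : ℕ → H) (n : ℕ) : ∀ d, f (dl z n d) = dl (fun i => f (z i)) n d
  | 0 => map_one f
  | d + 1 => by rw [dl, dl, map_mul, map_dl f z n d]

theorem map_xx (f : H →* K) (z : ℕ → H) (n i : ℕ) : f (xx z n i) = xx (fun i => f (z i)) n i := by
  rw [xx, xx, map_mul, map_mul, map_inv, map_pow, map_dl]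

end Braid

/-! ### the Coxeter group and its reflection representations -/

/-- the Coxeter group -/
def Wg (M : ι → ι → ℕ) : Type :=
  Art M ⧸ Subgroup.normalClosure (Set.range fun a => Art.gen M a * Art.gen M a)

instance (M : ι → ι → ℕ) : Group (Wg M) :=
  inferInstanceAs (Group (Art M ⧸ Subgroup.normalClosure
    (Set.range fun a => Art.gen M a * Art.gen M a)))

/-- the quotient map to the Coxeter group -/
def wq (M : ι → ι → ℕ) : Art M →* Wg M := QuotientGroup.mk' _

/-- the simple reflections -/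
def sg (M : ι → ι → ℕ) (a : ι) : Wg M := wq M (Art.gen M a)

section W

variable {M : ι → ι → ℕ}

@[simp] theorem wq_gen (a : ι) : wq M (Art.gen M a) = sg M a := rfl

theorem wq_surj : Function.Surjective (wq M) := QuotientGroup.mk'_surjective _

@[simp] theorem sg_sq (a : ι) : sg M a * sg M a = 1 := by
  rw [sg, ← map_mul]
  exact (QuotientGroup.eq_one_iff _).2 (Subgroup.subset_normalClosure ⟨a, rfl⟩)

@[simp] theorem sg_inv (a : ι) : (sg M a)⁻¹ = sg M a := inv_eq_of_mul_eq_one_right (sg_sq a)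

theorem brd_sg (M : ι → ι → ℕ) (T : Set ι) : Brd M (sg M) T := (brd_gen M T).map (wq M)

theorem sub_gen_univ : sub (Art.gen M) Set.univ = ⊤ := Art.eq_top fun _ => mem_sub trivial

theorem sub_sg_univ : sub (sg M) Set.univ = ⊤ := by
  have := map_sub_eq (y := Art.gen M) (T := Set.univ) (wq M)
  rw [sub_gen_univ, Subgroup.map_top_of_surjective _ wq_surj] at this
  exact this.symm

theorem wq_mem {T : Set ι} {g : Art M} (h : g ∈ sub (Art.gen M) T) : wq M g ∈ sub (sg M) T :=
  map_mem_sub (wq M) h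

theorem exists_wq {T : Set ι} {w : Wg M} (h : w ∈ sub (sg M) T) :
    ∃ g ∈ sub (Art.gen M) T, wq M g = w := exists_of_mem_sub (wq M) h

/-- induction in a parabolic subgroup of the Coxeter group -/
theorem sg_induction {T : Set ι} {p : Wg M → Prop} (one : p 1)
    (mul : ∀ g ∈ sub (sg M) T, ∀ a ∈ T, p g → p (g * sg M a)) {g : Wg M}
    (hg : g ∈ sub (sg M) T) : p g :=
  sub_induction one mul (fun g hg a ha h => by rw [sg_inv]; exact mul g hg a ha h) hg

/-- homomorphisms out of the Coxeter group -/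
def Wlift {P : Type} [Group P] (g : ι → P)
    (h : ∀ a b, alt (g a) (g b) (M a b) = alt (g b) (g a) (M a b)) (h2 : ∀ a, g a * g a = 1) :
    Wg M →* P :=
  QuotientGroup.lift _ (Art.lift g h) fun x hx =>
    (Subgroup.normalClosure_le_normal (N := (Art.lift g h).ker) (by
      rintro _ ⟨a, rfl⟩
      simp [MonoidHom.mem_ker, h2])) hx

@[simp] theorem Wlift_sg {P : Type} [Group P] (g : ι → P)
    (h : ∀ a b, alt (g a) (g b) (M a b) = alt (g b) (g a) (M a b)) (h2 : ∀ a, g a * g a = 1)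
    (a : ι) : Wlift g h h2 (sg M a) = g a := Art.lift_gen g h a

end W

section Rep

variable {R S : Type} [CommRing R] [CommRing S]

/-- the simple roots -/
def al (R : Type) [CommRing R] (a : ι) : ι → R := Pi.single a 1

theorem al_apply (a b : ι) : al R a b = if b = a then 1 else 0 := Pi.single_apply _ _ _

theorem in_al {Y : Set ι} {a : ι} (h : a ∈ Y) : In Y (al R a) := fun b hb => by
  rw [al_apply, if_neg]
  rintro rfl
  exact hb h

theorem comp_al (f : R →+* S) (a : ι) : f ∘ al R a = al S a := by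
  funext b
  simp only [Function.comp_apply, al_apply]
  split_ifs <;> simp

/-- the number `2 cos (k π / m)` in terms of `c = 2 cos (π / m)` -/
def Ck (c : R) (k : ℕ) : R := 2 * U c (k + 1) - c * U c k

theorem map_Ck (f : R →+* S) (c : R) (k : ℕ) : f (Ck c k) = Ck (f c) k := by
  simp only [Ck, map_sub, map_mul, map_ofNat, map_U]

theorem U_zero_even : ∀ k, U (0 : R) (2 * k) = 0
  | 0 => rfl
  | k + 1 => by rw [Nat.mul_succ, U, U_zero_even k]; ring

theorem U_dbl (c : R) : ∀ k, U c (2 * k) = c * U (c ^ 2 - 2) k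
  | 0 => by simp [U]
  | 1 => by simp [U]
  | k + 2 => by
    have h1 := U_dbl c (k + 1)
    have h2 := U_dbl c k
    rw [show 2 * (k + 1) = 2 * k + 2 by ring, U] at h1
    rw [show 2 * (k + 2) = 2 * k + 2 + 2 by ring, U, U, U, U]
    linear_combination (c ^ 2 - 2) * h1 - h2

theorem U_add_of_zero {c : R} {m : ℕ} (h : U c m = 0) : ∀ k, U c (m + k) = U c (m + 1) * U c k
  | 0 => by simp [U, h]
  | 1 => by simp [U]
  | k + 2 => by
    rw [← add_assoc, U, U, add_assoc m k 1, U_add_of_zero h (k + 1), U_add_of_zero h k]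
    ring

/-- constants for which the reflections satisfy the braid relations -/
structure Ok (M : ι → ι → ℕ) (c : ℕ → R) : Prop where
  cox : Cox M
  top : ∀ a b, a ≠ b → M a b ≠ 0 → U (c (M a b)) (M a b) = 0 ∧ U (c (M a b)) (M a b - 1) = 1

theorem Ok.map {M : ι → ι → ℕ} {c : ℕ → R} (h : Ok M c) (f : R →+* S) : Ok M fun m => f (c m) :=
  ⟨h.cox, fun a b h1 h2 => by
    rw [← map_U, ← map_U, (h.top a b h1 h2).1, (h.top a b h1 h2).2, map_zero, map_one]
    exact ⟨rfl, rfl⟩⟩

variable [Fintype ι]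

/-- the bilinear form -/
def Bm (M : ι → ι → ℕ) (c : ℕ → R) : (ι → R) →ₗ[R] (ι → R) →ₗ[R] R :=
  Matrix.toBilin' (Matrix.of fun a b => if a = b then 2 else -c (M a b))

variable {M : ι → ι → ℕ} {c : ℕ → R}

theorem Bm_al (a b : ι) : Bm M c (al R a) (al R b) = if a = b then 2 else -c (M a b) :=
  Matrix.toBilin'_single _ a b

theorem Bm_aa (a : ι) : Bm M c (al R a) (al R a) = 2 := by rw [Bm_al, if_pos rfl]

theorem Bm_symm (h : Cox M) (v v' : ι → R) : Bm M c v v' = Bm M c v' v := by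
  simp only [Bm, Matrix.toBilin'_apply, Matrix.of_apply]
  rw [Finset.sum_comm]
  refine Finset.sum_congr rfl fun a _ => Finset.sum_congr rfl fun b _ => ?_
  rw [h.symm b a]
  by_cases hab : a = b
  · rw [if_pos hab, if_pos hab.symm]; ring
  · rw [if_neg hab, if_neg (Ne.symm hab)]; ring

theorem map_Bm (f : R →+* S) (v v' : ι → R) :
    f (Bm M c v v') = Bm M (fun m => f (c m)) (f ∘ v) (f ∘ v') := by
  simp only [Bm, Matrix.toBilin'_apply, Matrix.of_apply, map_sum, map_mul, Function.comp_apply]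
  refine Finset.sum_congr rfl fun a _ => Finset.sum_congr rfl fun b _ => ?_
  split_ifs
  · rw [map_ofNat]
  · rw [map_neg]

/-- the simple reflections as linear maps -/
def rf (M : ι → ι → ℕ) (c : ℕ → R) (a : ι) : (ι → R) ≃ₗ[R] (ι → R) :=
  Module.reflection (x := al R a) (f := Bm M c (al R a)) (Bm_aa a)

theorem rf_apply (a : ι) (v : ι → R) : rf M c a v = v - Bm M c (al R a) v • al R a :=
  Module.reflection_apply _ _

theorem rf_sq (a : ι) : rf M c a * rf M c a = 1 :=
  LinearEquiv.ext fun v => Module.involutive_reflection (Bm_aa a) v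

theorem rk (h : Cox M) {a b : ι} (hab : a ≠ b) :
    Rk2 (Bm M c) (c (M a b)) (al R a) (al R b) (rf M c a) (rf M c b) :=
  ⟨Bm_aa a, Bm_aa b, by rw [Bm_al, if_neg hab], by rw [Bm_al, if_neg hab.symm, h.symm],
    rf_apply a, rf_apply b⟩

/-- the reflection representation -/
def rep (h : Ok M c) : Wg M →* ((ι → R) ≃ₗ[R] (ι → R)) :=
  Wlift (rf M c) (fun a b => by
    by_cases hab : a = b
    · rw [hab]
    by_cases h0 : M a b = 0
    · rw [h0]; rfl
    exact (rk h.cox hab).braid (h.top a b hab h0).1) rf_sq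

theorem rep_sg (h : Ok M c) (a : ι) : rep h (sg M a) = rf M c a := Wlift_sg _ _ _ a

theorem rep_sg_apply (h : Ok M c) (a : ι) (v : ι → R) :
    rep h (sg M a) v = v - Bm M c (al R a) v • al R a := by rw [rep_sg, rf_apply]

theorem rep_mul (h : Ok M c) (w w' : Wg M) (v : ι → R) :
    rep h (w * w') v = rep h w (rep h w' v) := by rw [map_mul]; rfl

theorem rep_one (h : Ok M c) (v : ι → R) : rep h 1 v = v := by rw [map_one]; rfl

theorem rep_inv_rep (h : Ok M c) (w : Wg M) (v : ι → R) : rep h w⁻¹ (rep h w v) = v := by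
  rw [← rep_mul, inv_mul_cancel, rep_one]

theorem rep_rep_inv (h : Ok M c) (w : Wg M) (v : ι → R) : rep h w (rep h w⁻¹ v) = v := by
  rw [← rep_mul, mul_inv_cancel, rep_one]

theorem rep_sg_al (h : Ok M c) (a : ι) : rep h (sg M a) (al R a) = -al R a := by
  rw [rep_sg_apply, Bm_aa]
  module

theorem rep_B (h : Ok M c) (w : Wg M) (v v' : ι → R) :
    Bm M c (rep h w v) (rep h w v') = Bm M c v v' := by
  have hw : w ∈ sub (sg M) Set.univ := sub_sg_univ ▸ Subgroup.mem_top w
  revert v v'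
  refine sg_induction (p := fun w => ∀ v v', Bm M c (rep h w v) (rep h w v') = Bm M c v v')
    (fun v v' => by rw [rep_one, rep_one]) (fun g _ a _ ih v v' => ?_) hw
  rw [rep_mul, rep_mul, ih, rep_sg_apply, rep_sg_apply]
  simp only [map_sub, map_smul, LinearMap.sub_apply, LinearMap.smul_apply, smul_eq_mul, Bm_aa,
    Bm_symm h.cox v (al R a)]
  ring

theorem rep_map (h : Ok M c) (f : R →+* S) (w : Wg M) (v : ι → R) :
    f ∘ rep h w v = rep (h.map f) w (f ∘ v) := by
  have hw : w ∈ sub (sg M) Set.univ := sub_sg_univ ▸ Subgroup.mem_top w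
  revert v
  refine sg_induction (p := fun w => ∀ v, f ∘ rep h w v = rep (h.map f) w (f ∘ v))
    (fun v => by rw [rep_one, rep_one]) (fun g _ a _ ih v => ?_) hw
  rw [rep_mul, rep_mul, ih, rep_sg_apply, rep_sg_apply, ← comp_al f a, ← map_Bm]
  congr 1
  funext b
  simp

/-- a parabolic subgroup does not change the other coordinates -/
theorem rep_coord (h : Ok M c) {Z : Set ι} {w : Wg M} (hw : w ∈ sub (sg M) Z) {b : ι}
    (hb : b ∉ Z) (v : ι → R) : rep h w v b = v b := by
  revert v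
  refine sg_induction (p := fun w => ∀ v, rep h w v b = v b)
    (fun v => by rw [rep_one]) (fun g _ a ha ih v => ?_) hw
  rw [rep_mul, ih, rep_sg_apply, Pi.sub_apply, Pi.smul_apply, in_al ha b hb, smul_zero, sub_zero]

theorem rep_in (h : Ok M c) {Z : Set ι} {w : Wg M} (hw : w ∈ sub (sg M) Z) (v : ι → R) :
    In Z (rep h w v) ↔ In Z v :=
  forall₂_congr fun b hb => by rw [rep_coord h hw hb]

/-- a parabolic subgroup fixes the vectors orthogonal to its roots -/
theorem rep_fix (h : Ok M c) {Z : Set ι} {w : Wg M} (hw : w ∈ sub (sg M) Z) {v : ι → R}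
    (hv : ∀ a ∈ Z, Bm M c (al R a) v = 0) : rep h w v = v := by
  refine sg_induction (p := fun w => rep h w v = v) (rep_one h v) (fun g _ a ha ih => ?_) hw
  rw [rep_mul, rep_sg_apply, hv a ha, zero_smul, sub_zero, ih]

/-- the roots of a dihedral parabolic subgroup -/
theorem rep_alt (h : Ok M c) {s t : ι} (hst : s ≠ t) (i : ℕ) :
    rep h (alt (sg M s) (sg M t) i) (al R (el s t i)) =
      U (c (M s t)) (i + 1) • al R s + U (c (M s t)) i • al R t := by
  rw [map_alt, rep_sg, rep_sg, ← (rk h.cox hst).root i, el, apply_ite (al R)]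

/-- the action of a conjugate of a simple reflection -/
theorem rep_conj (h : Ok M c) (w : Wg M) (a : ι) (v : ι → R) :
    rep h (w * sg M a * w⁻¹) v = v - Bm M c (rep h w (al R a)) v • rep h w (al R a) := by
  rw [rep_mul, rep_mul, rep_sg_apply, map_sub, map_smul, rep_rep_inv,
    ← rep_B h w (al R a), rep_rep_inv]

end Rep

/-- the value `y` of `2 cos (k π / m)` modulo the prime determines the special angles -/
structure SepC {F : Type} [CommRing F] (q y : F) (k m : ℕ) : Prop where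
  zero : y = 0 ↔ 2 * k = m
  one : y = 1 ↔ 3 * k = m
  neg_one : y = -1 ↔ 3 * k = 2 * m
  rt : y = q ↔ 4 * k = m
  neg_rt : y = -q ↔ 4 * k = 3 * m
  two : y ≠ 2
  neg_two : y ≠ -2

/-- root data: an ordered ring for the reflection representation, a reduction to a finite field
that is faithful on the roots of the sets in `𝒯`, and a finite quotient `χ` -/
structure RD [Fintype ι] (M : ι → ι → ℕ) (𝒯 : Set (Set ι)) where
  R : Type
  [r1 : CommRing R]
  [r2 : LinearOrder R]
  [r3 : IsStrictOrderedRing R]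
  F : Type
  [f1 : Field F]
  [f2 : Finite F]
  Q : Type
  [q1 : Group Q]
  [q2 : Finite Q]
  c : ℕ → R
  q : F
  red : R →+* F
  χ : Wg M →* Q
  ok : Ok M c
  c2 : c 2 = 0
  c3 : c 3 = 1
  c4 : red (c 4) = q
  qq : q * q = 2
  two : (2 : F) ≠ 0
  three : (3 : F) ≠ 0
  pos : ∀ a b, a ≠ b → ∀ k, M a b = 0 ∨ k ≤ M a b → 0 ≤ U (c (M a b)) k
  sepU : ∀ a b, a ≠ b → ∀ k, 0 < k → k < M a b → red (U (c (M a b)) k) ≠ 0
  sepC : ∀ a b, a ≠ b → ∀ k, 0 < k → k < M a b → SepC q (red (Ck (c (M a b)) k)) k (M a b)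
  sep0 : ∀ T ∈ 𝒯, ∀ w ∈ sub (sg M) T, ∀ t ∈ T, ∀ a,
    red (rep ok w (al R t) a) = 0 → rep ok w (al R t) a = 0
  sep1 : ∀ T ∈ 𝒯, ∀ w ∈ sub (sg M) T, ∀ t ∈ T, ∀ w' ∈ sub (sg M) T, ∀ t' ∈ T,
    red ∘ rep ok w (al R t) = red ∘ rep ok w' (al R t') → rep ok w (al R t) = rep ok w' (al R t')
  χe : ∀ a b, M a b ≠ 0 → Even (M a b) → Commute (χ (sg M a)) (χ (sg M b))
  χne : ∀ a b, a ≠ b → χ (sg M a) ≠ χ (sg M b)

attribute [instance] RD.r1 RD.r2 RD.r3 RD.f1 RD.f2 RD.q1 RD.q2

namespace RD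

variable [Fintype ι] {M : ι → ι → ℕ} {𝒯 : Set (Set ι)} (D : RD M 𝒯)

include D in
theorem cox : Cox M := D.ok.cox

theorem ok1 : Ok M fun m => D.red (D.c m) := D.ok.map D.red

/-- the representation over the ordered ring -/
abbrev ρ : Wg M →* ((ι → D.R) ≃ₗ[D.R] (ι → D.R)) := rep D.ok

/-- the representation over the finite field -/
abbrev ρ1 : Wg M →* ((ι → D.F) ≃ₗ[D.F] (ι → D.F)) := rep D.ok1

/-- the form over the finite field -/
abbrev B : (ι → D.F) →ₗ[D.F] (ι → D.F) →ₗ[D.F] D.F := Bm M fun m => D.red (D.c m)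

theorem red_ρ (w : Wg M) (a : ι) : D.red ∘ D.ρ w (al D.R a) = D.ρ1 w (al D.F a) := by
  rw [rep_map, comp_al]

/-- twisted constants: the label `m` is kept, the other labels are made small -/
def cT (m m' : ℕ) : D.F :=
  if m' = m then D.red (D.c m) else if Even m' then 0 else if m' = 3 then 1
    else D.red (D.c m') ^ 2 - 2

theorem U_cT (m : ℕ) {a b : ι} (hab : a ≠ b) (h0 : M a b ≠ 0) :
    U (D.cT m (M a b)) (M a b) = 0 := by
  have h1 := (D.ok1.top a b hab h0).1
  rw [cT]
  split_ifs with e1 e2 e3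
  · rwa [← e1]
  · obtain ⟨k, hk⟩ := e2
    rw [hk, ← two_mul, U_zero_even]
  · rw [e3]
    simp [U]
  · have h2 := D.sepU a b hab 2 (by omega) (by
      have := D.cox.off a b hab
      rcases Nat.lt_or_ge 2 (M a b) with h | h
      · exact h
      · exact (e2 (by rw [show M a b = 2 by omega]; exact even_two)).elim)
    rw [map_U] at h2
    simp only [U, mul_one, sub_zero] at h2
    have h3 := U_dbl (D.red (D.c (M a b))) (M a b)
    rw [two_mul, U_add_of_zero h1, h1, mul_zero] at h3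
    exact (mul_eq_zero.1 h3.symm).resolve_left h2

/-- the twisted representations -/
def tw (m : ℕ) : Wg M →* ((ι → D.F) ≃ₗ[D.F] (ι → D.F)) :=
  Wlift (rf M (D.cT m)) (fun a b => by
    by_cases hab : a = b
    · rw [hab]
    by_cases h0 : M a b = 0
    · rw [h0]; rfl
    exact (rk D.cox hab).braid (D.U_cT m hab h0)) rf_sq

theorem tw_sg (m : ℕ) (a : ι) : D.tw m (sg M a) = rf M (D.cT m) a := Wlift_sg _ _ _ a

/-- all twisted representations that belong to a label -/
def τ : Wg M →* (ι × ι → ((ι → D.F) ≃ₗ[D.F] (ι → D.F))) :=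
  Pi.monoidHom fun p => D.tw (M p.1 p.2)

theorem τ_apply (w : Wg M) (p : ι × ι) : D.τ w p = D.tw (M p.1 p.2) w := rfl

instance : Finite ((ι → D.F) ≃ₗ[D.F] (ι → D.F)) :=
  Finite.of_injective (fun f => (f : (ι → D.F) → ι → D.F)) DFunLike.coe_injective

/-- the finite set of colours -/
@[ext] structure X where
  v : ι → D.F
  k : D.Q
  k2 : ι × ι → ((ι → D.F) ≃ₗ[D.F] (ι → D.F))

instance : Finite D.X :=
  Finite.of_injective (fun x : D.X => (x.v, x.k, x.k2)) fun _ _ h =>
    X.ext (congrArg Prod.fst h) (congrArg (fun p => p.2.1) h) (congrArg (fun p => p.2.2) h)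

instance : MulAction (Wg M) D.X where
  smul w x := ⟨D.ρ1 w x.v, D.χ w * x.k * (D.χ w)⁻¹, D.τ w * x.k2 * (D.τ w)⁻¹⟩
  one_smul x := X.ext (rep_one _ _) (by change D.χ 1 * x.k * (D.χ 1)⁻¹ = x.k; simp)
    (by change D.τ 1 * x.k2 * (D.τ 1)⁻¹ = x.k2; simp)
  mul_smul w w' x := X.ext (rep_mul _ _ _ _) (by
    change D.χ (w * w') * x.k * (D.χ (w * w'))⁻¹ =
      D.χ w * (D.χ w' * x.k * (D.χ w')⁻¹) * (D.χ w)⁻¹
    simp [mul_assoc]) (by
    change D.τ (w * w') * x.k2 * (D.τ (w * w'))⁻¹ =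
      D.τ w * (D.τ w' * x.k2 * (D.τ w')⁻¹) * (D.τ w)⁻¹
    simp [mul_assoc])

theorem smul_v (w : Wg M) (x : D.X) : (w • x).v = D.ρ1 w x.v := rfl

theorem smul_k (w : Wg M) (x : D.X) : (w • x).k = D.χ w * x.k * (D.χ w)⁻¹ := rfl

theorem smul_k2 (w : Wg M) (x : D.X) : (w • x).k2 = D.τ w * x.k2 * (D.τ w)⁻¹ := rfl

/-- the colour of a generator -/
def x (a : ι) : D.X := ⟨al D.F a, D.χ (sg M a), D.τ (sg M a)⟩

/-- the colours of the walls through a vertex -/
def cone (w : Wg M) (s t : ι) (i : ℕ) : D.X := (w * alt (sg M s) (sg M t) i) • D.x (el s t i)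

theorem smul_cone (w w' : Wg M) (s t : ι) (i : ℕ) :
    w • D.cone w' s t i = D.cone (w * w') s t i := by
  rw [cone, cone, smul_smul, mul_assoc]

theorem cone_v (w : Wg M) {s t : ι} (hst : s ≠ t) (i : ℕ) :
    (D.cone w s t i).v = U (D.red (D.c (M s t))) (i + 1) • D.ρ1 w (al D.F s) +
      U (D.red (D.c (M s t))) i • D.ρ1 w (al D.F t) := by
  rw [cone, smul_v, rep_mul, x, rep_alt D.ok1 hst, map_add, map_smul, map_smul]

/-- the product of `f` over the first `m` walls -/
def cw {L : Type} [Group L] (f : D.X → L) (w : Wg M) (s t : ι) (m : ℕ) : L :=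
  ((List.range m).map fun i => f (D.cone w s t i)).prod

theorem map_cw {L L' : Type} [Group L] [Group L'] (g : L →* L') (f : D.X → L) (w : Wg M)
    (s t : ι) (m : ℕ) : g (D.cw f w s t m) = D.cw (fun x => g (f x)) w s t m := by
  rw [cw, cw, map_list_prod, List.map_map]
  rfl

/-- `f` satisfies the relations of the colour group -/
def Rel {L : Type} [Group L] (f : D.X → L) : Prop :=
  ∀ w s t, D.cw f w s t (M s t) = D.cw f w t s (M s t)

/-- the colour group -/
def PG : Type := PresentedGroup (Set.range fun p : Wg M × ι × ι =>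
  D.cw FreeGroup.of p.1 p.2.1 p.2.2 (M p.2.1 p.2.2) *
    (D.cw FreeGroup.of p.1 p.2.2 p.2.1 (M p.2.1 p.2.2))⁻¹)

instance : Group D.PG := inferInstanceAs (Group (PresentedGroup _))

/-- the generators of the colour group -/
def ζ (x : D.X) : D.PG := PresentedGroup.of x

theorem rel_ζ : D.Rel D.ζ := fun w s t => by
  have := PresentedGroup.one_of_mem (rels := Set.range fun p : Wg M × ι × ι =>
    D.cw FreeGroup.of p.1 p.2.1 p.2.2 (M p.2.1 p.2.2) *
      (D.cw FreeGroup.of p.1 p.2.2 p.2.1 (M p.2.1 p.2.2))⁻¹) ⟨(w, s, t), rfl⟩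
  rw [map_mul, map_inv, map_cw, map_cw, mul_inv_eq_one] at this
  exact this

/-- homomorphisms out of the colour group -/
def lift {L : Type} [Group L] (f : D.X → L) (h : D.Rel f) : D.PG →* L :=
  PresentedGroup.toGroup (f := f) (by
    rintro _ ⟨p, rfl⟩
    rw [map_mul, map_inv, map_cw, map_cw, mul_inv_eq_one]
    simpa using h p.1 p.2.1 p.2.2)

@[simp] theorem lift_ζ {L : Type} [Group L] (f : D.X → L) (h : D.Rel f) (x : D.X) :
    D.lift f h (D.ζ x) = f x := PresentedGroup.toGroup.of _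

theorem hom_ext {L : Type} [Group L] {f g : D.PG →* L} (h : ∀ x, f (D.ζ x) = g (D.ζ x)) :
    f = g := PresentedGroup.ext h

theorem closure_ζ : Subgroup.closure (Set.range D.ζ) = ⊤ := PresentedGroup.closure_range_of _

/-- an element of the Coxeter group permutes the colours -/
def aut0 (w : Wg M) : D.PG →* D.PG :=
  D.lift (fun x => D.ζ (w • x)) fun w' s t => by
    simpa only [cw, smul_cone] using D.rel_ζ (w * w') s t

/-- the action of the Coxeter group on the colour group -/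
def aut : Wg M →* MulAut D.PG where
  toFun w := MonoidHom.toMulEquiv (D.aut0 w) (D.aut0 w⁻¹)
    (D.hom_ext fun x => by simp [aut0]) (D.hom_ext fun x => by simp [aut0])
  map_one' := MulEquiv.toMonoidHom_injective (D.hom_ext fun x => by simp [aut0])
  map_mul' w w' := MulEquiv.toMonoidHom_injective (D.hom_ext fun x => by simp [aut0, mul_smul])

@[simp] theorem aut_ζ (w : Wg M) (x : D.X) : D.aut w (D.ζ x) = D.ζ (w • x) := by
  simp [aut, aut0]

theorem aut_congr {w w' : Wg M} (h : ∀ x : D.X, w • x = w' • x) : D.aut w = D.aut w' :=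
  MulEquiv.toMonoidHom_injective (D.hom_ext fun x => by simp [h])

theorem alt_sd (s t : ι) (k : ℕ) :
    alt (⟨D.ζ (D.x s), sg M s⟩ : D.PG ⋊[D.aut] Wg M) ⟨D.ζ (D.x t), sg M t⟩ k =
      ⟨D.cw D.ζ 1 s t k, alt (sg M s) (sg M t) k⟩ := by
  induction k with
  | zero => rfl
  | succ k ih =>
    rw [alt_succ, ih, alt_succ, cw, cw, List.range_succ, List.map_append, List.prod_append]
    by_cases hk : Even k <;> ext <;> simp [hk, cone, el]

/-- the Artin group acts through the colour group -/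
def Φ : Art M →* D.PG ⋊[D.aut] Wg M :=
  Art.lift (fun a => ⟨D.ζ (D.x a), sg M a⟩) fun a b => by
    rw [alt_sd, alt_sd, D.rel_ζ 1 a b, brd_sg M Set.univ a trivial b trivial]

/-- the cocycle -/
def φ (g : Art M) : D.PG := (D.Φ g).left

theorem Φ_right (g : Art M) : (D.Φ g).right = wq M g :=
  DFunLike.congr_fun (Art.hom_ext (f := SemidirectProduct.rightHom.comp D.Φ) (g := wq M)
    fun a => by simp [Φ]) g

@[simp] theorem φ_one : D.φ 1 = 1 := by simp [φ]

@[simp] theorem φ_gen (a : ι) : D.φ (Art.gen M a) = D.ζ (D.x a) := by simp [φ, Φ]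

theorem φ_mul (g h : Art M) : D.φ (g * h) = D.φ g * D.aut (wq M g) (D.φ h) := by
  simp [φ, Φ_right]

theorem φ_inv (g : Art M) : D.φ g⁻¹ = (D.aut (wq M g)⁻¹ (D.φ g))⁻¹ := by
  simp [φ, Φ_right]

theorem φ_mul_gen (g : Art M) (a : ι) :
    D.φ (g * Art.gen M a) = D.φ g * D.ζ (wq M g • D.x a) := by
  rw [φ_mul, φ_gen, aut_ζ]

theorem φ_mul_inv (g h : Art M) :
    D.φ (g * h⁻¹) = D.φ g * (D.aut (wq M g * (wq M h)⁻¹) (D.φ h))⁻¹ := by
  rw [φ_mul, φ_inv, map_inv, map_mul]
  rfl

theorem φ_mul_gen_inv (g : Art M) (a : ι) :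
    D.φ (g * (Art.gen M a)⁻¹) = D.φ g * (D.ζ ((wq M g * sg M a) • D.x a))⁻¹ := by
  rw [φ_mul_inv, φ_gen, aut_ζ, wq_gen, sg_inv]

/-- the retraction that kills the colours not supported in `Y` -/
def ret (Y : Set ι) : D.PG →* D.PG :=
  if h : D.Rel fun x => if In Y x.v then D.ζ x else 1 then D.lift _ h else 1

/-- the elements that fix all colours and have their cocycle in `N` -/
def K (N : Subgroup D.PG) : Subgroup (Art M) where
  carrier := {g | (∀ x : D.X, wq M g • x = x) ∧ D.φ g ∈ N}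
  one_mem' := ⟨fun x => by simp, by simpa using N.one_mem⟩
  mul_mem' := fun {g h} hg hh => ⟨fun x => by rw [map_mul, mul_smul, hh.1, hg.1], by
    rw [φ_mul, D.aut_congr (w' := 1) fun x => by rw [hg.1, one_smul], map_one]
    exact N.mul_mem hg.2 hh.2⟩
  inv_mem' := fun {g} hg => ⟨fun x => by rw [map_inv, inv_smul_eq_iff, hg.1], by
    rw [φ_inv, D.aut_congr (w := wq M g) (w' := 1) (fun x => by rw [hg.1, one_smul]) |>
      fun h => show D.aut (wq M g)⁻¹ = 1 by rw [map_inv, h, map_one, inv_one]]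
    exact N.inv_mem hg.2⟩

theorem mem_K {N : Subgroup D.PG} {g : Art M} :
    g ∈ D.K N ↔ (∀ x : D.X, wq M g • x = x) ∧ D.φ g ∈ N := Iff.rfl

/-- the vectors `e_i` of a path; only their differences matter in type `A` -/
def E (lo : ℕ) (t : ℕ → ι) (i : ℕ) : ι → D.F :=
  (if lo = 0 then (D.q * 2⁻¹) • al D.F (t 0) else 0) + ∑ k ∈ Finset.Ico (max lo 1) i, al D.F (t k)

end RD

end

end Pool.Agent.P.MP_e794d7_al.FC
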