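import Pool.Agent.P.MP_e794d7_al.FC.Stmt

/-! Artin groups of FC type: the cocycle detects the free fibre. -/

set_option autoImplicit false

namespace Pool.Agent.P.MP_e794d7_al.FC

open scoped Classical RegularWreathProduct

namespace Det

section Act

variable {σ G : Type} [Group G]

/-- the permutation multiplies the coordinate `top` by `g` -/
def Act (v : σ → G) (top : σ) (p : Equiv.Perm (σ → G)) (g : G) : Prop :=
  ∀ τ, p (Function.update v top τ) = Function.update v top (g * τ)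

variable {v : σ → G} {top : σ}

theorem Act.one : Act v top 1 1 := fun τ => by rw [one_mul]; rfl

theorem Act.mul {p p' : Equiv.Perm (σ → G)} {g g' : G} (h : Act v top p g) (h' : Act v top p' g') :
    Act v top (p * p') (g * g') := fun τ => by
  rw [Equiv.Perm.mul_apply, h', h, mul_assoc]

theorem Act.inv {p : Equiv.Perm (σ → G)} {g : G} (h : Act v top p g) : Act v top p⁻¹ g⁻¹ :=
  fun τ => by rw [Equiv.Perm.inv_eq_iff_eq, h, mul_inv_cancel_left]

theorem Act.eq_one {g : G} (h : Act v top 1 g) : g = 1 := by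
  have := congrFun (h 1) top
  simpa using this.symm

theorem Act.eps {p : Equiv.Perm (σ → G)} {j : σ} (hj : j ≠ top)
    (h : ∀ u, p u = Function.update u top (u j * u top)) : Act v top p (v j) := fun τ => by
  rw [h, Function.update_idem, Function.update_of_ne hj, Function.update_self]

end Act

section Wr

variable {L S : Type} [Group L] [Group S]

/-- trivial at the state `s` -/
def Tr (s : S) : Subgroup (L ≀ᵣ S) where
  carrier := {a | a.left s = 1 ∧ a.right = 1}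
  one_mem' := ⟨rfl, rfl⟩
  mul_mem' := fun {a b} ha hb => ⟨by simp [ha.1, ha.2, hb.1], by simp [ha.2, hb.2]⟩
  inv_mem' := fun {a} ha => ⟨by simp [ha.1, ha.2], by simp [ha.2]⟩

theorem mul_left (a b : L ≀ᵣ S) (s : S) : (a * b).left s = a.left s * b.left (a.right⁻¹ * s) := rfl

theorem inv_left (a : L ≀ᵣ S) (s : S) : a⁻¹.left s = (a.left (a.right * s))⁻¹ := rfl

end Wr

end Det

open Det

variable {ι : Type} [Fintype ι] {M : ι → ι → ℕ} {𝒯 : Set (Set ι)}

theorem RD.p_detA (D : RD M 𝒯) {lo n : ℕ} {t : ℕ → ι} (hv : S_vp) (hlo : 1 ≤ lo)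
    (h2 : D.EC2 lo n t) (hψ : D.PsiA lo n t) : D.Det lo n t := by
  intro G _ u
  obtain ⟨ε, hε, e1, e2⟩ := hv (Fin (n + 1)) G (Fin.last n)
  obtain ⟨ψ, hψ⟩ := hψ _ ε hε
  have hm : max lo 1 = lo := max_eq_left hlo
  have ne : ∀ {k : ℕ} (hk : k < n), (⟨k, by omega⟩ : Fin (n + 1)) ≠ Fin.last n := fun hk e =>
    hk.ne (congrArg Fin.val e)
  have up : Subgroup.closure (D.Up lo n t) ≤ ψ.ker := by
    rw [Subgroup.closure_le]
    rintro _ ⟨x, k, k1, k2, hx, rfl⟩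
    exact (hψ x ⟨k, by omega⟩ (Fin.last n) (by simp; omega) (by simp; omega) (ne k2) hx).trans
      (e1 _)
  have key : ∀ i ∈ Set.Ico lo n, wq M (xx (fun i => Art.gen M (t i)) n i) = 1 ∧
      Act (fun j : Fin (n + 1) => u j) (Fin.last n)
        (ψ (D.φ (xx (fun i => Art.gen M (t i)) n i))) (u i) := by
    rintro i ⟨i1, i2⟩
    obtain ⟨a1, π, hπ, x, x', hx, hx', a2⟩ := h2.φx i (by omega) i2
    refine ⟨(map_xx _ _ _ _).trans a1, ?_⟩
    have b0 : ψ π = 1 := up hπ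
    have b1 := hψ x ⟨i, by omega⟩ (Fin.last n) i1 (by simp; omega) (ne i2) hx
    have b2 := hψ x' (Fin.last n) ⟨i, by omega⟩ (by simp; omega) i1 (ne i2).symm hx'
    rw [a2, map_mul, map_mul, map_mul, map_inv, b0, b1, b2, e1, inv_one, mul_one, one_mul, one_mul]
    exact Act.eps (ne i2) (e2 _ (ne i2))
  refine ⟨ψ.ker, fun _ => Subgroup.finiteIndex_ker ψ, fun h hh hN => ?_⟩
  have inv : wq M h.2 = 1 ∧ Act (fun j : Fin (n + 1) => u j) (Fin.last n) (ψ (D.φ h.2)) h.1 := by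
    refine sub_induction (p := fun h : G × Art M => wq M h.2 = 1 ∧
      Act (fun j : Fin (n + 1) => u j) (Fin.last n) (ψ (D.φ h.2)) h.1) ?_ ?_ ?_ hh
    · exact ⟨map_one _, by simpa using Act.one⟩
    · rintro g - i hi ⟨g1, g2⟩
      refine ⟨by rw [Prod.snd_mul, map_mul, g1, (key i hi).1, one_mul], ?_⟩
      rw [Prod.snd_mul, Prod.fst_mul, D.φ_mul, g1, map_one, MulAut.one_apply, map_mul]
      exact g2.mul (key i hi).2
    · rintro g - i hi ⟨g1, g2⟩
      refine ⟨by rw [Prod.snd_mul, Prod.snd_inv, map_mul, map_inv, g1, (key i hi).1, one_mul,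
        inv_one], ?_⟩
      rw [Prod.snd_mul, Prod.fst_mul, Prod.snd_inv, Prod.fst_inv, D.φ_mul_inv, g1, (key i hi).1,
        inv_one, one_mul, map_one, MulAut.one_apply, map_mul, map_inv]
      exact g2.mul (key i hi).2.inv
  have h1 : ψ (D.φ h.2) = 1 := hN
  exact (h1 ▸ inv.2).eq_one

theorem RD.p_detB (D : RD M 𝒯) {n : ℕ} {t : ℕ → ι} (hv : S_vp)
    (h2 : D.EC2 0 n t) (hψ : D.PsiB n t) : D.Det 0 n t := by
  intro G _ u
  obtain ⟨ε, hε, e1, e2⟩ := hv (Fin (n + 1)) G (Fin.last n)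
  obtain ⟨ψ, hL, hS⟩ := hψ _ ε hε
  refine ⟨ψ.ker, fun _ => Subgroup.finiteIndex_ker ψ, fun h hh hN => ?_⟩
  rcases Nat.eq_zero_or_pos n with rfl | hn
  · rw [Set.Ico_self, sub_empty, Subgroup.mem_bot] at hh
    rw [hh]; rfl
  have ne : ∀ {k : ℕ} (hk : k < n), (⟨k, by omega⟩ : Fin (n + 1)) ≠ Fin.last n := fun hk e =>
    hk.ne (congrArg Fin.val e)
  have ne0 : ∀ {k : ℕ} (hk : k < n), 1 ≤ k → (⟨k, by omega⟩ : Fin (n + 1)) ≠ 0 := fun hk h1 e =>
    absurd (congrArg Fin.val e) (by simp; omega)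
  have t0 : Fin.last n ≠ 0 := fun e => absurd (congrArg Fin.val e) (by simp; omega)
  have rsq := h2.r_sq rfl
  have rχ := h2.r_χ rfl
  have rtop := h2.r_top rfl
  have rlow := h2.r_low rfl
  have φ0 := h2.φ0 rfl
  have wr : wq M (xx (fun i => Art.gen M (t i)) n 0) = xx (fun i => sg M (t i)) n 0 :=
    map_xx _ _ _ _
  generalize xx (fun i => sg M (t i)) n 0 = r at rsq rχ rtop rlow φ0 wr
  obtain ⟨f, hf⟩ : ∃ f : Fin (n + 1) → ℤˣ, f = Pi.mulSingle (Fin.last n) (-1) := ⟨_, rfl⟩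
  have fsq : f * f = 1 := by rw [hf, ← Pi.mulSingle_mul]; simp
  let St : Wg M → (Fin (n + 1) → ℤˣ) → Prop := fun w s => (w = 1 ∧ s = 1) ∨ (w = r ∧ s = f)
  have smul : ∀ {w s w' s'}, St w s → St w' s' → St (w * w') (s * s') := by
    rintro w s w' s' (⟨rfl, rfl⟩ | ⟨rfl, rfl⟩) (⟨rfl, rfl⟩ | ⟨rfl, rfl⟩)
    · exact Or.inl ⟨one_mul _, one_mul _⟩
    · exact Or.inr ⟨one_mul _, one_mul _⟩
    · exact Or.inr ⟨mul_one _, mul_one _⟩
    · exact Or.inl ⟨rsq, fsq⟩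
  have sinv : ∀ {w s}, St w s → w⁻¹ = w ∧ s⁻¹ = s := by
    rintro w s (⟨rfl, rfl⟩ | ⟨rfl, rfl⟩)
    · exact ⟨inv_one, inv_one⟩
    · exact ⟨inv_eq_of_mul_eq_one_right rsq, inv_eq_of_mul_eq_one_right fsq⟩
  have stop : ∀ {w s}, St w s → D.ρ1 w (D.E 0 t n) = s (Fin.last n) • D.E 0 t (Fin.last n) := by
    rintro w s (⟨rfl, rfl⟩ | ⟨rfl, rfl⟩)
    · rw [rep_one, Pi.one_apply, one_smul]; rfl
    · rw [rtop, hf, Pi.mulSingle_eq_same, Units.neg_smul, one_smul]; rfl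
  have slow : ∀ {w s}, St w s → ∀ {k : ℕ} (hk : k < n), 1 ≤ k →
      D.ρ1 w (D.E 0 t k) = s ⟨k, by omega⟩ • D.E 0 t k := by
    rintro w s (⟨rfl, rfl⟩ | ⟨rfl, rfl⟩) k hk h1
    · rw [rep_one, Pi.one_apply, one_smul]
    · rw [rlow k h1 hk, hf, Pi.mulSingle_eq_of_ne (ne hk), one_smul]
  have sχ : ∀ {w s}, St w s → D.χ w * D.χ (sg M (t 0)) * (D.χ w)⁻¹ = D.χ (sg M (t 0)) := by
    rintro w s (⟨rfl, rfl⟩ | ⟨rfl, rfl⟩)
    · simp
    · rw [rχ, mul_inv_cancel_right]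
  have up : ∀ {w s}, St w s → ∀ π ∈ Subgroup.closure (D.Up 0 n t), ψ (D.aut w π) ∈ Tr s := by
    intro w s hs π hπ
    have : Subgroup.closure (D.Up 0 n t) ≤ (Tr s).comap (ψ.comp (D.aut w).toMonoidHom) := by
      rw [Subgroup.closure_le]
      rintro _ ⟨x, k, k1, k2, hx, rfl⟩
      have k3 : 1 ≤ k := by omega
      have := hL (w • x) s ⟨k, by omega⟩ (Fin.last n) (ne0 k2 k3) t0 (ne k2)
        (by rw [D.smul_v, hx, map_sub, stop hs, slow hs k2 k3])
      change ψ (D.aut w (D.ζ x)) ∈ Tr s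
      rw [D.aut_ζ]
      exact ⟨this.1.trans (e1 _), this.2⟩
    exact this hπ
  have key : ∀ i ∈ Set.Ico 0 n, ∃ ρ, St (wq M (xx (fun i => Art.gen M (t i)) n i)) ρ ∧
      ∀ w s, St w s → (ψ (D.aut w (D.φ (xx (fun i => Art.gen M (t i)) n i)))).right = ρ ∧
        Act (fun j : Fin (n + 1) => u j) (Fin.last n)
          ((ψ (D.aut w (D.φ (xx (fun i => Art.gen M (t i)) n i)))).left s) (u i) := by
    rintro i ⟨-, i2⟩
    rcases Nat.eq_zero_or_pos i with rfl | i1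
    · refine ⟨f, Or.inr ⟨wr, rfl⟩, fun w s hs => ?_⟩
      obtain ⟨π, hπ, x, hx, hk, a2⟩ := φ0
      have hs' : St (w * r) (s * f) := smul hs (Or.inr ⟨rfl, rfl⟩)
      obtain ⟨b1, b2⟩ := up hs π hπ
      obtain ⟨b3, b4⟩ := (Tr (s * f)).inv_mem (up hs' π hπ)
      obtain ⟨b5, b6⟩ := hS (w • x) s (Fin.last n) t0
        (by rw [D.smul_v, hx, map_smul, stop hs, smul_comm])
        (by rw [D.smul_k, hk, sχ hs])
      rw [← hf] at b6
      have e : D.aut w (D.aut r π) = D.aut (w * r) π := by rw [map_mul]; rfl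
      rw [a2]
      simp only [map_mul (D.aut w), map_inv (D.aut w), e, D.aut_ζ, map_mul ψ, map_inv ψ]
      refine ⟨by rw [RegularWreathProduct.mul_right, RegularWreathProduct.mul_right, b2, b4, b6,
        one_mul, mul_one], ?_⟩
      rw [mul_left, mul_left, RegularWreathProduct.mul_right, b1, b2, b6, inv_one, one_mul, one_mul,
        one_mul, b5, inv_eq_of_mul_eq_one_right fsq, mul_comm f s, b3, e1, one_mul, mul_one]
      exact Act.eps t0.symm (e2 _ t0.symm)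
    · obtain ⟨a1, π, hπ, x, x', hx, hx', a2⟩ := h2.φx i (by omega) i2
      refine ⟨1, Or.inl ⟨(map_xx _ _ _ _).trans a1, rfl⟩, fun w s hs => ?_⟩
      obtain ⟨b1, b2⟩ := up hs π hπ
      obtain ⟨b3, b4⟩ := (Tr s).inv_mem (up hs π hπ)
      obtain ⟨b5, b6⟩ := hL (w • x) s ⟨i, by omega⟩ (Fin.last n) (ne0 i2 i1) t0 (ne i2)
        (by rw [D.smul_v, hx, map_sub, stop hs, slow hs i2 i1])
      obtain ⟨b7, b8⟩ := hL (w • x') s (Fin.last n) ⟨i, by omega⟩ t0 (ne0 i2 i1) (ne i2).symm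
        (by rw [D.smul_v, hx', map_sub, stop hs, slow hs i2 i1])
      rw [a2]
      simp only [map_mul (D.aut w), map_inv (D.aut w), D.aut_ζ, map_mul ψ, map_inv ψ]
      refine ⟨by simp only [RegularWreathProduct.mul_right, b2, b4, b6, b8, mul_one], ?_⟩
      simp only [mul_left, RegularWreathProduct.mul_right, b1, b2, b3, b5, b6, b7, b8, e1, inv_one,
        one_mul, mul_one]
      exact Act.eps (ne i2) (e2 _ (ne i2))
  have inv : St (wq M h.2) (ψ (D.φ h.2)).right ∧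
      Act (fun j : Fin (n + 1) => u j) (Fin.last n) ((ψ (D.φ h.2)).left 1) h.1 := by
    refine sub_induction (p := fun h : G × Art M => St (wq M h.2) (ψ (D.φ h.2)).right ∧
      Act (fun j : Fin (n + 1) => u j) (Fin.last n) ((ψ (D.φ h.2)).left 1) h.1) ?_ ?_ ?_ hh
    · exact ⟨Or.inl ⟨map_one _, by simp⟩, by simpa using Act.one⟩
    · rintro g - i hi ⟨g1, g2⟩
      obtain ⟨ρ, k1, k2⟩ := key i hi
      obtain ⟨k3, k4⟩ := k2 _ _ g1
      rw [Prod.snd_mul, Prod.fst_mul, D.φ_mul, map_mul, map_mul, RegularWreathProduct.mul_right,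
        mul_left, k3, mul_one, (sinv g1).2]
      exact ⟨smul g1 k1, g2.mul k4⟩
    · rintro g - i hi ⟨g1, g2⟩
      obtain ⟨ρ, k1, k2⟩ := key i hi
      obtain ⟨k3, k4⟩ := k2 _ _ (smul g1 k1)
      rw [Prod.snd_mul, Prod.fst_mul, Prod.snd_inv, Prod.fst_inv, D.φ_mul_inv, map_mul, map_mul,
        map_inv, map_inv, (sinv k1).1, RegularWreathProduct.mul_right,
        RegularWreathProduct.inv_right, mul_left, inv_left, k3, mul_one, (sinv g1).2, (sinv k1).2,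
        mul_comm ρ]
      exact ⟨smul g1 k1, g2.mul k4.inv⟩
  have h1 : ψ (D.φ h.2) = 1 := hN
  have h3 := inv.2
  rw [h1] at h3
  exact Act.eq_one h3

end Pool.Agent.P.MP_e794d7_al.FC
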