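import Pool.Agent.P.MP_e794d7_al.FC.Stmt2

/-! Dihedral Artin groups are free by cyclic. -/

set_option autoImplicit false

namespace Pool.Agent.P.MP_e794d7_al.FC

noncomputable section

namespace Dih

variable {H K : Type} [Group H] [Group K]

/-- the product of the `c i` with `i < k` of the parity of `r` -/
def Pr (c : ℕ → H) (r : ℕ) : ℕ → H
  | 0 => 1
  | k + 1 => Pr c r k * if (k + r) % 2 = 0 then c k else 1

theorem Pr.mod (c : ℕ → H) {r r' : ℕ} (h : r % 2 = r' % 2) : ∀ k, Pr c r k = Pr c r' k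
  | 0 => rfl
  | k + 1 => by rw [Pr, Pr, Pr.mod c h k, show (k + r) % 2 = (k + r') % 2 by omega]

theorem Pr.map (f : H →* K) {c : ℕ → H} {c' : ℕ → K} (r : ℕ) :
    ∀ k, (∀ i, i < k → f (c i) = c' i) → f (Pr c r k) = Pr c' r k
  | 0, _ => map_one f
  | k + 1, h => by
    rw [Pr, Pr, map_mul, Pr.map f r k fun i hi => h i (by omega), apply_ite f, map_one,
      h k (by omega)]

theorem Pr.mem (c : ℕ → H) (r : ℕ) {n : ℕ} : ∀ k, k ≤ n → Pr c r k ∈ sub c (Set.Iio n)
  | 0, _ => one_mem _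
  | k + 1, h => by
    refine mul_mem (Pr.mem c r k (by omega)) ?_
    split_ifs
    · exact mem_sub (show k < n by omega)
    · exact one_mem _

theorem Pr.succ' (c : ℕ → H) (r : ℕ) : ∀ k, Pr c r (k + 1) =
    (if r % 2 = 0 then c 0 else 1) * Pr (fun i => c (i + 1)) (r + 1) k
  | 0 => by simp [Pr]
  | k + 1 => by
    rw [Pr, Pr.succ' c r k, Pr, mul_assoc, show k + 1 + r = k + (r + 1) by omega]

/-- the relation -/
def Rel (c : ℕ → H) (n : ℕ) : Prop := Pr c 0 (n + 1) = Pr c 1 (n + 1)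

theorem rel_top (c : ℕ → H) (n : ℕ) : Rel c n ↔ c n = (Pr c n n)⁻¹ * Pr c (n + 1) n := by
  have h1 : Pr c n (n + 1) = Pr c n n * c n := by rw [Pr, if_pos (by omega)]
  have h2 : Pr c (n + 1) (n + 1) = Pr c (n + 1) n := by rw [Pr, if_neg (by omega), mul_one]
  rw [eq_inv_mul_iff_mul_eq, ← h1, ← h2, Rel]
  rcases Nat.mod_two_eq_zero_or_one n with h | h
  · rw [Pr.mod c (r := n) (r' := 0) h, Pr.mod c (r := n + 1) (r' := 1) (by omega)]
  · rw [Pr.mod c (r := n) (r' := 1) h, Pr.mod c (r := n + 1) (r' := 0) (by omega), eq_comm]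

theorem rel_bot (c : ℕ → H) (n : ℕ) :
    Rel c n ↔ c 0 = Pr (fun i => c (i + 1)) 0 n * (Pr (fun i => c (i + 1)) 1 n)⁻¹ := by
  rw [Rel, Pr.succ', Pr.succ', if_pos rfl, if_neg (by omega), one_mul, eq_mul_inv_iff_mul_eq,
    Pr.mod _ (r := 1 + 1) (r' := 0) rfl]

theorem alt_AB (A B : H) : ∀ k, alt A B k = Pr (cI A B) 1 k * A ^ k
  | 0 => by simp [alt_zero, Pr]
  | k + 1 => by
    rw [alt_succ, alt_AB A B k, Pr]
    by_cases h : Even k
    · rw [if_pos h, if_neg (by rw [Nat.even_iff] at h; omega), mul_one, pow_succ, mul_assoc]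
    · rw [if_neg h, if_pos (by rw [Nat.even_iff] at h; omega), cI]
      group

theorem alt_BA (A B : H) : ∀ k, alt B A k = Pr (cI A B) 0 k * A ^ k
  | 0 => by simp [alt_zero, Pr]
  | k + 1 => by
    rw [alt_succ, alt_BA A B k, Pr]
    by_cases h : Even k
    · rw [if_pos h, if_pos (by rw [Nat.even_iff] at h; omega), cI]
      group
    · rw [if_neg h, if_neg (by rw [Nat.even_iff] at h; omega), mul_one, pow_succ, mul_assoc]

theorem rel_iff (A B : H) (n : ℕ) : alt A B (n + 1) = alt B A (n + 1) ↔ Rel (cI A B) n := by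
  rw [alt_AB, alt_BA, mul_left_inj, Rel, eq_comm]

theorem cI_succ (A B : H) (i : ℕ) : cI A B (i + 1) = A * cI A B i * A⁻¹ := by
  simp only [cI]
  group

theorem norm {A B : H} {n : ℕ} (h : Rel (cI A B) n) :
    Subgroup.zpowers A ≤ Subgroup.normalizer (sub (cI A B) (Set.Iio n)) := by
  have h1 : ∀ f ∈ sub (cI A B) (Set.Iio n), A * f * A⁻¹ ∈ sub (cI A B) (Set.Iio n) := by
    intro f hf
    refine sub_le (fun i hi => ?_) (map_mem_sub (MulAut.conj A).toMonoidHom hf)
    change A * cI A B i * A⁻¹ ∈ _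
    rw [← cI_succ]
    rcases Nat.lt_or_eq_of_le (show i + 1 ≤ n from hi) with h2 | h2
    · exact mem_sub h2
    · rw [h2, (rel_top _ n).1 h]
      exact mul_mem (inv_mem (Pr.mem _ _ n le_rfl)) (Pr.mem _ _ n le_rfl)
  have e : ∀ i, (MulAut.conj A⁻¹).toMonoidHom (cI A B (i + 1)) = cI A B i := fun i => by
    change A⁻¹ * cI A B (i + 1) * A⁻¹⁻¹ = _
    rw [cI_succ]
    group
  have h2 : ∀ f ∈ sub (cI A B) (Set.Iio n), A⁻¹ * f * A⁻¹⁻¹ ∈ sub (cI A B) (Set.Iio n) := by
    intro f hf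
    refine sub_le (fun i hi => ?_) (map_mem_sub (MulAut.conj A⁻¹).toMonoidHom hf)
    rcases i with _ | i
    · rw [(rel_bot _ n).1 h, map_mul, map_inv (MulAut.conj A⁻¹).toMonoidHom,
        Pr.map _ 0 n fun i _ => e i, Pr.map _ 1 n fun i _ => e i]
      exact mul_mem (Pr.mem _ _ n le_rfl) (inv_mem (Pr.mem _ _ n le_rfl))
    · rw [e]
      exact mem_sub (Nat.lt_of_succ_lt hi)
  rw [Subgroup.zpowers_le, Subgroup.mem_normalizer_iff]
  refine fun f => ⟨h1 f, fun hf => ?_⟩
  have := h2 _ hf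
  rwa [show A⁻¹ * (A * f * A⁻¹) * A⁻¹⁻¹ = f by group] at this

theorem fin {A B : H} {m : ℕ} (hm : 0 < m) (h : alt A B m = alt B A m) (hA : A * A = 1)
    (hB : B * B = 1) : Finite (Subgroup.closure ({A, B} : Set H)) := by
  have iA : A⁻¹ = A := inv_eq_of_mul_eq_one_right hA
  have iB : B⁻¹ = B := inv_eq_of_mul_eq_one_right hB
  have iAB : (A * B)⁻¹ = B * A := by rw [mul_inv_rev, iA, iB]
  have h1 : ∀ k, alt A B k = (A * B) ^ k * alt B A k := fun k => by
    induction k with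
    | zero => simp [alt_zero]
    | succ k ih =>
      have e : alt B A k = (B * A) ^ k * alt A B k := by
        rw [ih, ← iAB, inv_pow, inv_mul_cancel_left]
      rw [alt_succ', alt_succ', e, ← mul_assoc, ← mul_pow_mul, pow_succ, mul_assoc _ (A * B),
        mul_assoc A B, ← mul_assoc B B, hB, one_mul, mul_assoc]
  have h2 : IsOfFinOrder (A * B) :=
    isOfFinOrder_iff_pow_eq_one.2 ⟨m, hm, mul_right_cancel ((h1 m).symm.trans (by rw [h, one_mul]))⟩
  have h3 := h2.finite_zpowers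
  refine ((h3.union (h3.image (· * A))).subset fun g hg => ?_).to_subtype
  have key : ∀ g, g ∈ (Subgroup.zpowers (A * B) : Set H) ∪ (· * A) '' Subgroup.zpowers (A * B) →
      ∀ y ∈ ({A, B} : Set H),
        g * y ∈ (Subgroup.zpowers (A * B) : Set H) ∪ (· * A) '' Subgroup.zpowers (A * B) := by
    rintro g (hg | ⟨g, hg, rfl⟩) y (rfl | rfl)
    · exact Or.inr ⟨g, hg, rfl⟩
    · refine Or.inr ⟨g * (A * y)⁻¹, mul_mem hg (inv_mem (Subgroup.mem_zpowers _)), ?_⟩
      simp only [iAB, mul_assoc, hA, mul_one]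
    · exact Or.inl (by simpa only [mul_assoc, hA, mul_one] using hg)
    · exact Or.inl ((mul_assoc g A y).symm ▸ mul_mem hg (Subgroup.mem_zpowers _))
  induction hg using Subgroup.closure_induction_right with
  | one => exact Or.inl (one_mem _)
  | mul_right g _ y hy ih => exact key g ih y hy
  | mul_inv_cancel g _ y hy ih =>
    have e : y⁻¹ = y := by
      rcases hy with rfl | rfl
      exacts [iA, iB]
    exact e.symm ▸ key g ih y hy

/-- the free generators -/
def x0 (n i : ℕ) : FreeGroup (Set.Iio n) := if h : i < n then FreeGroup.of ⟨i, h⟩ else 1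

/-- the free generators and the solution of the relation -/
def xx (n i : ℕ) : FreeGroup (Set.Iio n) :=
  if i < n then x0 n i else (Pr (x0 n) n n)⁻¹ * Pr (x0 n) (n + 1) n

/-- the shifted sequence -/
def yy (n : ℕ) : ℕ → FreeGroup (Set.Iio n)
  | 0 => Pr (xx n) 0 n * (Pr (xx n) 1 n)⁻¹
  | i + 1 => xx n i

theorem xx_of {n : ℕ} (i : Set.Iio n) : xx n i = FreeGroup.of i := by
  rw [xx, if_pos (show i.1 < n from i.2), x0, dif_pos (show i.1 < n from i.2)]

theorem rel_xx (n : ℕ) : Rel (xx n) n := by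
  have e : ∀ r, Pr (x0 n) r n = Pr (xx n) r n := fun r =>
    Pr.map (MonoidHom.id _) r n fun i hi => (if_pos hi).symm
  rw [rel_top, ← e, ← e, xx, if_neg (lt_irrefl n)]

theorem lift_xx {n : ℕ} (c : ℕ → H) {i : ℕ} (hi : i < n) :
    FreeGroup.lift (fun j : Set.Iio n => c j) (xx n i) = c i := by
  rw [xx_of ⟨i, hi⟩, FreeGroup.lift_apply_of]

/-- the shift -/
def sh (n : ℕ) : MulAut (FreeGroup (Set.Iio n)) :=
  MonoidHom.toMulEquiv (FreeGroup.lift fun j : Set.Iio n => xx n (j + 1))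
    (FreeGroup.lift fun j : Set.Iio n => yy n j)
    (FreeGroup.ext_hom _ _ fun j => by
      rw [MonoidHom.comp_apply, FreeGroup.lift_apply_of, MonoidHom.id_apply, ← xx_of]
      rcases Nat.lt_or_eq_of_le (show j.1 + 1 ≤ n from j.2) with h | h
      · exact lift_xx (yy n) h
      · have e := (rel_top _ n).1 ((rel_bot (yy n) n).2 rfl)
        rw [h, (rel_top _ n).1 (rel_xx n), map_mul, map_inv,
          Pr.map _ _ n fun i hi => lift_xx (yy n) hi, Pr.map _ _ n fun i hi => lift_xx (yy n) hi,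
          ← e]
        exact congrArg (yy n) h.symm)
    (FreeGroup.ext_hom _ _ fun j => by
      rw [MonoidHom.comp_apply, FreeGroup.lift_apply_of, MonoidHom.id_apply, ← xx_of]
      obtain ⟨_ | j, hj⟩ := j
      · have e := fun r => Pr.map (FreeGroup.lift fun j : Set.Iio n => xx n (j + 1)) r n
          fun i hi => lift_xx (fun i => xx n (i + 1)) hi
        rw [yy, map_mul, map_inv, e, e]
        exact ((rel_bot _ n).1 (rel_xx n)).symm
      · exact lift_xx (fun i => xx n (i + 1)) (Nat.lt_of_succ_lt hj))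

theorem model (n : ℕ) : ∃ (H : Type) (_ : Group H) (A B : H), Rel (cI A B) n ∧
    Function.Injective (FreeGroup.lift fun i : Set.Iio n => cI A B i) := by
  let φ := zpowersHom _ (sh n)
  let A : FreeGroup (Set.Iio n) ⋊[φ] Multiplicative ℤ := .inr (.ofAdd 1)
  have e : ∀ i, i ≤ n → SemidirectProduct.inl (xx n i) = cI A (.inl (xx n 0) * A) i := by
    intro i hi
    induction i with
    | zero => simp [cI]
    | succ i ih =>
      rw [cI_succ, ← ih (by omega), ← map_inv, ← SemidirectProduct.inl_aut]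
      refine congrArg _ ?_
      change _ = (sh n ^ (1 : ℤ)) _
      rw [zpow_one]
      exact (lift_xx (fun i => xx n (i + 1)) hi).symm
  refine ⟨_, inferInstance, A, .inl (xx n 0) * A, ?_, ?_⟩
  · rw [Rel, ← Pr.map SemidirectProduct.inl 0 _ fun i hi => e i (by omega),
      ← Pr.map SemidirectProduct.inl 1 _ fun i hi => e i (by omega), rel_xx n]
  · have : (FreeGroup.lift fun i : Set.Iio n => cI A (.inl (xx n 0) * A) i) =
        SemidirectProduct.inl := FreeGroup.ext_hom _ _ fun j => by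
      rw [FreeGroup.lift_apply_of, ← e j (le_of_lt j.2), xx_of]
    rw [this]
    exact SemidirectProduct.inl_injective

end Dih

open Dih

theorem p_dih : S_dih := by
  intro m hm
  obtain ⟨n, rfl⟩ : ∃ n, m = n + 1 := ⟨m - 1, by omega⟩
  simp only [Nat.add_sub_cancel]
  refine ⟨fun H _ A B h => ?_, ?_⟩
  · have h1 : ∀ a ∈ Subgroup.zpowers A, ∀ f ∈ sub (cI A B) (Set.Iio n),
        a * f * a⁻¹ ∈ sub (cI A B) (Set.Iio n) := fun a ha f hf =>
      (Subgroup.mem_normalizer_iff.1 (norm ((rel_iff A B n).1 h) ha) f).1 hf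
    refine ⟨h1, fun g hg => ?_, fin (by omega) h⟩
    induction hg using Subgroup.closure_induction with
    | mem y hy =>
      rcases hy with rfl | rfl
      · exact ⟨1, one_mem _, y, Subgroup.mem_zpowers _, (one_mul _).symm⟩
      · exact ⟨cI A y 0, mem_sub (show 0 < n by omega), A, Subgroup.mem_zpowers _, by simp [cI]⟩
    | one => exact ⟨1, one_mem _, 1, one_mem _, (one_mul _).symm⟩
    | mul g g' _ _ ih ih' =>
      obtain ⟨f, hf, a, ha, rfl⟩ := ih
      obtain ⟨f', hf', a', ha', rfl⟩ := ih'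
      exact ⟨f * (a * f' * a⁻¹), mul_mem hf (h1 a ha f' hf'), a * a', mul_mem ha ha', by group⟩
    | inv g _ ih =>
      obtain ⟨f, hf, a, ha, rfl⟩ := ih
      exact ⟨_, h1 a⁻¹ (inv_mem ha) f⁻¹ (inv_mem hf), a⁻¹, inv_mem ha, by group⟩
  · obtain ⟨H, _, A, B, h1, h2⟩ := model n
    exact ⟨H, inferInstance, A, B, (rel_iff A B n).2 h1, h2⟩

end

end Pool.Agent.P.MP_e794d7_al.FC
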