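import Pool.Agent.P.MP_e794d7_al.FC.Stmt

/-! Artin groups of FC type: the forms of the vectors `e_i` of a path. -/

set_option autoImplicit false

namespace Pool.Agent.P.MP_e794d7_al.FC

open scoped Classical

namespace Ec1

theorem const {F : Type} {f : ℕ → F} {L n : ℕ} (h : ∀ k, L ≤ k → k < n → f (k + 1) = f k)
    {i : ℕ} (h1 : L ≤ i) (h2 : i ≤ n) : f i = f L := by
  induction i, h1 using Nat.le_induction with
  | base => rfl
  | succ k hk ih => rw [h k hk (by omega), ih (by omega)]

variable {ι : Type} [Fintype ι] {M : ι → ι → ℕ} {𝒯 : Set (Set ι)} (D : RD M 𝒯)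
  {T : Set ι} {lo n : ℕ} {t : ℕ → ι}

include D in
theorem inj (h : Path M T lo n t) {i j : ℕ} (hi : lo ≤ i) (hi' : i < n) (hj : lo ≤ j)
    (hj' : j < n) (e : t i = t j) : i = j := by
  have h1 := h.lbl i j hi hi' hj hj'
  rw [e, D.cox.diag, lab] at h1
  by_contra hne
  rw [if_neg hne] at h1
  split_ifs at h1 <;> omega

/-- the Gram matrix of the path -/
theorem gram (h : Path M T lo n t) {i j : ℕ} (hi : lo ≤ i) (hi' : i < n) (hj : lo ≤ j)
    (hj' : j < n) : D.B (al D.F (t i)) (al D.F (t j)) =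
      if i = j then 2 else if i + 1 = j ∨ j + 1 = i then (if i = 0 ∨ j = 0 then -D.q else -1)
        else 0 := by
  rw [Bm_al]
  by_cases hij : i = j
  · rw [if_pos hij, if_pos (congrArg t hij)]
  · rw [if_neg hij, if_neg fun e => hij (inj D h hi hi' hj hj' e), h.lbl i j hi hi' hj hj', lab,
      if_neg hij]
    split_ifs
    · rw [D.c4]
    · rw [D.c3, map_one]
    · rw [D.c2, map_zero, neg_zero]

theorem succ {k : ℕ} (hk : max lo 1 ≤ k) : D.E lo t (k + 1) = D.E lo t k + al D.F (t k) := by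
  rw [RD.E, RD.E, Finset.sum_Ico_succ_top hk, add_assoc]

theorem one_eq : D.E 0 t 1 = (D.q * 2⁻¹) • al D.F (t 0) := by
  simp [RD.E]

theorem half : D.q * (D.q * 2⁻¹) = 1 := by
  rw [← mul_assoc, D.qq, mul_inv_cancel₀ D.two]

/-- the pairing of a root of the path with the vectors `e_j` -/
theorem root (h : Path M T lo n t) {k j : ℕ} (hk : max lo 1 ≤ k) (hk' : k < n)
    (hj : max lo 1 ≤ j) (hj' : j ≤ n) :
    D.B (al D.F (t k)) (D.E lo t j) - ((if k + 1 = j then 1 else 0) - if k = j then 1 else 0) =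
      D.B (al D.F (t k)) (D.E lo t (max lo 1)) + if k = max lo 1 then 1 else 0 := by
  have := const (f := fun j => D.B (al D.F (t k)) (D.E lo t j) -
    ((if k + 1 = j then 1 else 0) - if k = j then 1 else 0)) (L := max lo 1) (n := n)
    (fun m hm hm' => by
      rw [succ D hm, map_add, gram D h (by omega) hk' (by omega) hm']
      split_ifs <;> first | omega | ring1) hj hj'
  rw [this, if_neg (by omega)]
  ring

theorem rootB (h : Path M T 0 n t) {k j : ℕ} (hk : 1 ≤ k) (hk' : k < n) (hj : 1 ≤ j)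
    (hj' : j ≤ n) : D.B (al D.F (t k)) (D.E 0 t j) =
      (if k + 1 = j then 1 else 0) - if k = j then 1 else 0 := by
  have h1 := root D h (k := k) (j := j) (by omega) hk' (by omega) hj'
  rw [show max 0 1 = 1 from rfl, one_eq, map_smul, gram D h (by omega) hk' le_rfl (by omega),
    smul_eq_mul] at h1
  rw [← sub_eq_zero, h1]
  have := half D
  by_cases h2 : k = 1
  · subst h2
    rw [if_neg (by omega), if_pos (by omega), if_pos (by omega), if_pos rfl]
    linear_combination -this
  · rw [if_neg (by omega), if_neg (by omega), if_neg h2]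
    ring

theorem orth (h : Path M T 0 n t) {i j : ℕ} (hi : 1 ≤ i) (hi' : i ≤ n) (hj : 1 ≤ j)
    (hj' : j ≤ n) : D.B (D.E 0 t i) (D.E 0 t j) = if i = j then 1 else 0 := by
  have key : ∀ i j, 1 ≤ i → i ≤ n → 1 ≤ j → j ≤ n →
      D.B (D.E 0 t i) (D.E 0 t j) - (if i = j then 1 else 0) =
        D.B (D.E 0 t 1) (D.E 0 t j) - if 1 = j then 1 else 0 := fun i j hi hi' hj hj' =>
    const (f := fun i => D.B (D.E 0 t i) (D.E 0 t j) - if i = j then 1 else 0) (L := 1) (n := n)
      (fun m hm hm' => by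
        rw [succ D (by omega), map_add, LinearMap.add_apply, rootB D h hm hm' hj hj']
        ring) hi hi'
  have h1 := key i j hi hi' hj hj'
  have h2 := key j 1 hj hj' le_rfl (by omega)
  have h3 : D.B (D.E 0 t 1) (D.E 0 t 1) = 1 := by
    rw [one_eq, map_smul, map_smul, LinearMap.smul_apply, Bm_aa, smul_eq_mul, smul_eq_mul,
      mul_assoc D.q _ 2, inv_mul_cancel₀ D.two, mul_one, mul_comm, half]
  rw [h3, if_pos rfl, sub_self, Bm_symm D.cox] at h2
  rw [← sub_eq_zero, h1]
  simpa only [eq_comm (a := j)] using h2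

theorem pair (h : Path M T lo n t) {i j k l : ℕ} (hi : max lo 1 ≤ i) (hi' : i ≤ n)
    (hj : max lo 1 ≤ j) (hj' : j ≤ n) (hk : max lo 1 ≤ k) (hk' : k ≤ n) (hl : max lo 1 ≤ l)
    (hl' : l ≤ n) : D.B (D.E lo t j - D.E lo t i) (D.E lo t l - D.E lo t k) =
      (if j = l then 1 else 0) - (if j = k then 1 else 0) - (if i = l then 1 else 0) +
        if i = k then 1 else 0 := by
  have key : ∀ i, max lo 1 ≤ i → i ≤ n → D.B (D.E lo t i) (D.E lo t l - D.E lo t k) -
      ((if i = l then 1 else 0) - if i = k then 1 else 0) = _ := fun i hi hi' =>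
    const (f := fun i => D.B (D.E lo t i) (D.E lo t l - D.E lo t k) -
      ((if i = l then 1 else 0) - if i = k then 1 else 0)) (L := max lo 1) (n := n)
      (fun m hm hm' => by
        have h1 := root D h hm hm' hl hl'
        have h2 := root D h hm hm' hk hk'
        rw [succ D hm, map_add, LinearMap.add_apply, map_sub (D.B (al D.F (t m)))]
        linear_combination h1 - h2) hi hi'
  have h1 := key i hi hi'
  have h2 := key j hj hj'
  rw [map_sub D.B, LinearMap.sub_apply]
  linear_combination h2 - h1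

theorem low (h : Path M T lo n t) {i : ℕ} (hi : max lo 1 ≤ i) (hi' : i < n) :
    D.E lo t i (t (n - 1)) = 0 := by
  have key : ∀ k, lo ≤ k → k < i → al D.F (t k) (t (n - 1)) = 0 := fun k hk hk' => by
    rw [al_apply, if_neg]
    intro e
    have := inj D h (by omega) (by omega) hk (by omega) e
    omega
  rw [RD.E, Pi.add_apply, Finset.sum_apply, Finset.sum_eq_zero fun k hk =>
    key k (by have := (Finset.mem_Ico.1 hk).1; omega) (Finset.mem_Ico.1 hk).2, add_zero]
  split_ifs with h0
  · rw [Pi.smul_apply, key 0 h0.le (by omega), smul_zero]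
  · rfl

theorem top (h : Path M T lo n t) : D.E lo t n (t (n - 1)) ≠ 0 := by
  have hlt := h.lt
  by_cases hn : max lo 1 ≤ n - 1
  · have e := succ D (t := t) hn
    rw [show n - 1 + 1 = n by omega] at e
    rw [e, Pi.add_apply, low D h hn (by omega), al_apply, if_pos rfl, zero_add]
    exact one_ne_zero
  · obtain rfl : lo = 0 := by omega
    obtain rfl : n = 1 := by omega
    rw [one_eq, Pi.smul_apply, al_apply, if_pos rfl, smul_eq_mul, mul_one]
    exact right_ne_zero_of_mul_eq_one (half D)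

theorem al_zero : al D.F (t 0) = D.q • D.E 0 t 1 := by
  rw [one_eq, smul_smul, half, one_smul]

theorem fix (h : Path M T 0 n t) {w : Wg M} (hw : w ∈ sub (sg M) (T \ {t (n - 1)})) :
    D.ρ1 w (D.E 0 t n) = D.E 0 t n := by
  have hlt := h.lt
  refine rep_fix D.ok1 hw fun a ha => ?_
  by_cases hex : ∃ i, i < n ∧ a = t i
  · obtain ⟨i, hi, rfl⟩ := hex
    have hne : i ≠ n - 1 := fun e => ha.2 (by rw [e]; rfl)
    rcases Nat.eq_zero_or_pos i with rfl | h0
    · change D.B _ _ = 0
      rw [al_zero D, map_smul, LinearMap.smul_apply, orth D h le_rfl hlt hlt le_rfl,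
        if_neg (by omega), smul_zero]
    · change D.B _ _ = 0
      rw [rootB D h h0 hi hlt le_rfl, if_neg (by omega), if_neg (by omega), sub_zero]
  · have key : ∀ i, i < n → D.B (al D.F a) (al D.F (t i)) = 0 := fun i hi => by
      rw [Bm_al, if_neg fun e => hex ⟨i, hi, e⟩,
        h.far a ha.1 (fun j _ hj e => hex ⟨j, hj, e⟩) i (Nat.zero_le i) hi, D.c2, map_zero,
        neg_zero]
    change D.B _ _ = 0
    rw [RD.E, if_pos rfl, map_add, map_smul, key 0 hlt, smul_zero, zero_add, map_sum]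
    exact Finset.sum_eq_zero fun k hk => key k (Finset.mem_Ico.1 hk).2

end Ec1

variable {ι : Type} [Fintype ι] {M : ι → ι → ℕ} {𝒯 : Set (Set ι)}

theorem RD.p_ec1 (D : RD M 𝒯) {T : Set ι} {lo n : ℕ} {t : ℕ → ι} (h : Path M T lo n t) :
    D.EC1 T lo n t where
  al_eq k hk := by rw [Ec1.succ D hk, add_sub_cancel_left]
  al_zero h0 := by
    subst h0
    exact Ec1.al_zero D
  pair _ _ _ _ hi hi' hj hj' hk hk' hl hl' := Ec1.pair D h hi hi' hj hj' hk hk' hl hl'
  orth h0 _ _ hi hi' hj hj' := by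
    subst h0
    exact Ec1.orth D h hi hi' hj hj'
  low _ hi hi' := Ec1.low D h hi hi'
  top := Ec1.top D h
  fix h0 _ hw := by
    subst h0
    exact Ec1.fix D h hw

end Pool.Agent.P.MP_e794d7_al.FC
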