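import Pool.Agent.P.MP_e794d7_al.FC.Stmt

/-! Artin groups of FC type: the cocycle on the generators of the free fibre. -/

set_option autoImplicit false

namespace Pool.Agent.P.MP_e794d7_al.FC

open scoped Classical

variable {ι : Type} [Fintype ι] {M : ι → ι → ℕ} {𝒯 : Set (Set ι)}

namespace Ec2

variable {D : RD M 𝒯} {T : Set ι} {lo n : ℕ} {t : ℕ → ι}

theorem reflA (h1 : D.EC1 T lo n t) {k m : ℕ} (hk : max lo 1 ≤ k) (hm : k < m) (hn : m < n) :
    D.ρ1 (sg M (t m)) (D.E lo t m - D.E lo t k) = D.E lo t (m + 1) - D.E lo t k := by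
  have e := h1.pair m (m + 1) k m (by omega) (by omega) (by omega) (by omega) hk (by omega)
    (by omega) (by omega)
  rw [if_neg (by omega), if_neg (by omega), if_pos rfl, if_neg (by omega)] at e
  rw [rep_sg_apply, h1.al_eq m (by omega), e]
  module

theorem reflB (h1 : D.EC1 T lo n t) (hlo : lo = 0) {m : ℕ} (hm : 1 ≤ m) (hn : m < n) :
    D.ρ1 (sg M (t m)) (D.E lo t m) = D.E lo t (m + 1) := by
  have e1 := h1.orth hlo (m + 1) m (by omega) (by omega) hm (by omega)
  have e2 := h1.orth hlo m m hm (by omega) hm (by omega)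
  rw [if_neg (by omega)] at e1
  rw [if_pos rfl] at e2
  rw [rep_sg_apply, h1.al_eq m (by omega), map_sub, LinearMap.sub_apply, e1, e2]
  module

theorem dlA (h1 : D.EC1 T lo n t) : ∀ d k, max lo 1 ≤ k → k + d < n →
    D.ρ1 (dl (fun i => sg M (t i)) n d) (D.E lo t (n - d) - D.E lo t k) =
      D.E lo t n - D.E lo t k
  | 0, _, _, _ => rep_one _ _
  | d + 1, k, hk, hd => by
    rw [dl, rep_mul, show n - (d + 1) = n - 1 - d by omega, reflA h1 hk (by omega) (by omega),
      show n - 1 - d + 1 = n - d by omega]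
    exact dlA h1 d k hk (by omega)

theorem dlB (h1 : D.EC1 T lo n t) (hlo : lo = 0) : ∀ d, d + 1 ≤ n →
    D.ρ1 (dl (fun i => sg M (t i)) n d) (D.E lo t (n - d)) = D.E lo t n
  | 0, _ => rep_one _ _
  | d + 1, hd => by
    rw [dl, rep_mul, show n - (d + 1) = n - 1 - d by omega, reflB h1 hlo (by omega) (by omega),
      show n - 1 - d + 1 = n - d by omega]
    exact dlB h1 hlo d (by omega)

omit [Fintype ι] in
theorem wq_dl (n d : ℕ) (t : ℕ → ι) :
    wq M (dl (fun i => Art.gen M (t i)) n d) = dl (fun i => sg M (t i)) n d := map_dl _ _ _ _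

/-- the image of the simple root number `i` -/
theorem rootA (h1 : D.EC1 T lo n t) {i : ℕ} (hi : max lo 1 ≤ i) (hn : i < n) :
    D.ρ1 (dl (fun i => sg M (t i)) n (n - 1 - i)) (al D.F (t i)) = D.E lo t n - D.E lo t i := by
  rw [h1.al_eq i hi, show i + 1 = n - (n - 1 - i) by omega]
  exact dlA h1 _ i hi (by omega)

theorem rootB (h1 : D.EC1 T lo n t) (hlo : lo = 0) (hn : 0 < n) :
    D.ρ1 (dl (fun i => sg M (t i)) n (n - 1 - 0)) (al D.F (t 0)) = D.q • D.E lo t n := by
  have e := dlB h1 hlo (n - 1 - 0) (by omega)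
  rw [show n - (n - 1 - 0) = 1 by omega] at e
  rw [h1.al_zero hlo, map_smul, e]

theorem φ_dl (h1 : D.EC1 T lo n t) : ∀ d, d + max lo 1 ≤ n →
    D.φ (dl (fun i => Art.gen M (t i)) n d) ∈ Subgroup.closure (D.Up lo n t)
  | 0, _ => by
    rw [dl, RD.φ_one]
    exact Subgroup.one_mem _
  | d + 1, hd => by
    rw [dl, RD.φ_mul_gen]
    refine Subgroup.mul_mem _ (φ_dl h1 d (by omega))
      (Subgroup.subset_closure ⟨_, n - 1 - d, by omega, by omega, ?_, rfl⟩)
    have e := rootA h1 (i := n - 1 - d) (by omega) (by omega)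
    rw [show n - 1 - (n - 1 - d) = d by omega] at e
    rw [RD.smul_v, wq_dl]
    exact e

theorem χ_dl (h : Path M T lo n t) (hlo : lo = 0) : ∀ d, d + 1 ≤ n →
    Commute (D.χ (dl (fun i => sg M (t i)) n d)) (D.χ (sg M (t 0)))
  | 0, _ => by
    rw [dl, map_one]
    exact Commute.one_left _
  | d + 1, hd => by
    rw [dl, map_mul]
    have e := h.lbl (n - 1 - d) 0 (by omega) (by omega) (by omega) (by omega)
    rw [lab, if_neg (by omega), if_pos (Or.inr rfl : n - 1 - d = 0 ∨ 0 = 0)] at e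
    refine Commute.mul_left (χ_dl h hlo d (by omega)) (D.χe _ _ ?_ ?_)
    · rw [e]; split_ifs <;> decide
    · rw [e]; split_ifs <;> decide

theorem xx_zero {H : Type} [Group H] (z : ℕ → H) (n : ℕ) :
    xx z n 0 = dl z n (n - 1 - 0) * z 0 * (dl z n (n - 1 - 0))⁻¹ := by
  rw [xx, if_pos rfl, pow_one]

theorem xx_pos {H : Type} [Group H] (z : ℕ → H) (n : ℕ) {i : ℕ} (hi : i ≠ 0) :
    xx z n i = dl z n (n - 1 - i) * z i * z i * (dl z n (n - 1 - i))⁻¹ := by
  rw [xx, if_neg hi, pow_two, ← mul_assoc]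

theorem r_act (h1 : D.EC1 T lo n t) (hlo : lo = 0) (hn : 0 < n) (v : ι → D.F) :
    D.ρ1 (xx (fun i => sg M (t i)) n 0) v = v - (2 * D.B (D.E lo t n) v) • D.E lo t n := by
  rw [xx_zero, rep_conj, rootB h1 hlo hn, map_smul, LinearMap.smul_apply, smul_smul, ← D.qq,
    smul_eq_mul]
  congr 2
  ring

end Ec2

open Ec2 in
theorem RD.p_ec2 (D : RD M 𝒯) {T : Set ι} {lo n : ℕ} {t : ℕ → ι} (h : Path M T lo n t)
    (h1 : D.EC1 T lo n t) : D.EC2 lo n t where
  dlA := dlA h1
  dlB := dlB h1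
  φx i hi hn := by
    have hi0 : i ≠ 0 := by omega
    have e : ∀ w : Wg M, w * sg M (t i) * sg M (t i) = w := fun w => by
      rw [mul_assoc, sg_sq, mul_one]
    refine ⟨by rw [xx_pos _ _ hi0, e, mul_inv_cancel], _, φ_dl h1 (n - 1 - i) (by omega),
      dl (fun i => sg M (t i)) n (n - 1 - i) • D.x (t i),
      (dl (fun i => sg M (t i)) n (n - 1 - i) * sg M (t i)) • D.x (t i), rootA h1 hi hn, ?_, ?_⟩
    · change D.ρ1 _ (al D.F (t i)) = _
      rw [rep_mul, rep_sg_al, map_neg, rootA h1 hi hn, neg_sub]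
    · rw [xx_pos _ _ hi0, RD.φ_mul_inv, RD.φ_mul_gen, RD.φ_mul_gen,
        map_mul (wq M) (_ * _), map_mul (wq M), wq_dl, wq_gen, e, mul_inv_cancel, map_one]
      rfl
  φ0 hlo := by
    have hn : 0 < n := by have := h.lt; omega
    refine ⟨_, φ_dl h1 (n - 1 - 0) (by omega), dl (fun i => sg M (t i)) n (n - 1 - 0) • D.x (t 0),
      rootB h1 hlo hn, (χ_dl h hlo _ (by omega)).mul_inv_cancel, ?_⟩
    rw [xx_zero, xx_zero, RD.φ_mul_inv, RD.φ_mul_gen, map_mul (wq M), wq_dl, wq_gen]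
  r_sq _ := by
    rw [xx_zero, conj_mul, sg_sq, mul_one, mul_inv_cancel]
  r_χ hlo := by
    have hn : 0 < n := by have := h.lt; omega
    rw [xx_zero, map_mul, map_mul, map_inv]
    exact (χ_dl h hlo _ (by omega)).mul_inv_cancel
  r_top hlo := by
    have hn : 0 < n := by have := h.lt; omega
    rw [r_act h1 hlo hn, h1.orth hlo n n hn le_rfl hn le_rfl, if_pos rfl]
    module
  r_low hlo k hk hkn := by
    rw [r_act h1 hlo (by omega), h1.orth hlo n k (by omega) le_rfl hk hkn.le, if_neg hkn.ne',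
      mul_zero, zero_smul, sub_zero]

end Pool.Agent.P.MP_e794d7_al.FC
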