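import Pool.Agent.P.MP_e794d7_al.FC.Stmt2

/-! The inductive step for a diagram of type `D`. -/

set_option autoImplicit false

namespace Pool.Agent.P.MP_e794d7_al.FC

open scoped Classical

namespace FineD

section Grp

variable {H K : Type} [Group H] [Group K]

theorem sub_image {ι κ : Type} (y : ι → H) (t : κ → ι) (S : Set κ) :
    sub y (t '' S) = sub (fun k => y (t k)) S := by
  rw [sub, sub, Set.image_image]

theorem sub_congr {κ : Type} {y y' : κ → H} {S : Set κ} (h : ∀ k ∈ S, y k = y' k) :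
    sub y S = sub y' S := by
  rw [sub, sub, Set.image_congr h]

theorem alt_three (a b : H) : alt a b 3 = a * b * a := by
  rw [alt_succ, alt_two, if_pos (by decide)]

theorem xD_mem {z : ℕ → H} {n : ℕ} : ∀ j, j < n → xD z j ∈ sub z (Set.Iio n)
  | 0, _ => one_mem _
  | 1, h => mul_mem (mem_sub (show 0 < n by omega)) (inv_mem (mem_sub h))
  | j + 2, h => mul_mem (mul_mem (mem_sub h) (xD_mem (j + 1) (by omega))) (inv_mem (mem_sub h))

theorem xD_one {z : ℕ → H} (h : z 0 = z 1) : ∀ j, xD z j = 1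
  | 0 => rfl
  | 1 => by rw [xD, h, mul_inv_cancel]
  | j + 2 => by rw [xD, xD_one h (j + 1), mul_one, mul_inv_cancel]

theorem xD_prod (z : ℕ → H) (z' : ℕ → K) :
    xD (fun i => (z i, z' i)) = fun i => (xD z i, xD z' i) :=
  funext fun i => Prod.ext (map_xD (MonoidHom.fst H K) _ i) (map_xD (MonoidHom.snd H K) _ i)

theorem brd_sD {n : ℕ} {lam : ℕ → ℕ → Bool → H} (h : DR n lam) :
    Brd lab (sD lam) (Set.Ico 1 n) := by
  have key : ∀ i, 1 ≤ i → i + 1 < n → alt (lam i (i + 1) false) (lam (i + 1) (i + 1 + 1) false) 3 =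
      alt (lam (i + 1) (i + 1 + 1) false) (lam i (i + 1) false) 3 := fun i h1 h2 => by
    rw [alt_three, alt_three, h.symm i]
    exact h.brd _ _ _ _ _ (by omega) (by omega) (by omega) (by omega) (by omega) (by omega)
      (by omega) (by omega) (by omega)
  rintro i ⟨h1, h2⟩ j ⟨h3, h4⟩
  by_cases e : i = j
  · rw [e]
  rw [sD, sD, if_neg (by omega), if_neg (by omega), lab, if_neg e]
  by_cases e1 : i + 1 = j
  · subst e1
    rw [if_pos (Or.inl rfl), if_neg (by omega)]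
    exact key i h1 h4
  by_cases e2 : j + 1 = i
  · subst e2
    rw [if_pos (Or.inr rfl), if_neg (by omega)]
    exact (key j h3 h2).symm
  rw [if_neg (by omega), alt_two, alt_two]
  exact h.comm _ _ _ _ _ _ (by omega) (by omega) (by omega) (by omega) (by omega) (by omega)
    (by omega) (by omega) (by omega) (by omega) (by omega) (by omega) (by omega) (by omega)

theorem dr_prod {n : ℕ} {l : ℕ → ℕ → Bool → H} {l' : ℕ → ℕ → Bool → K} (h : DR n l)
    (h' : DR n l') : DR n fun i j e => (l i j e, l' i j e) where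
  symm i j e := Prod.ext (h.symm i j e) (h'.symm i j e)
  twin i j e e' := Prod.ext (h.twin i j e e') (h'.twin i j e e')
  comm i j k m e e' a1 a2 a3 a4 a5 a6 a7 a8 b1 b2 b3 b4 b5 b6 :=
    Prod.ext (h.comm i j k m e e' a1 a2 a3 a4 a5 a6 a7 a8 b1 b2 b3 b4 b5 b6)
      (h'.comm i j k m e e' a1 a2 a3 a4 a5 a6 a7 a8 b1 b2 b3 b4 b5 b6)
  brd i j k e e' a1 a2 a3 a4 a5 a6 b1 b2 b3 :=
    Prod.ext (h.brd i j k e e' a1 a2 a3 a4 a5 a6 b1 b2 b3)
      (h'.brd i j k e e' a1 a2 a3 a4 a5 a6 b1 b2 b3)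

theorem brdD {ι : Type} {M : ι → ι → ℕ} {T : Set ι} {n : ℕ} {t : ℕ → ι} (h : PathD M T n t)
    {y : ι → H} (hy : Brd M y T) : Brd labD (fun k => y (t k)) (Set.Iio n) := fun i hi j hj => by
  rw [← h.lbl i j hi hj]
  exact hy _ (h.eq ▸ ⟨i, hi, rfl⟩) _ (h.eq ▸ ⟨j, hj, rfl⟩)

theorem brd_lab {n : ℕ} {z : ℕ → H} (h : Brd labD z (Set.Iio n)) : Brd lab z (Set.Ico 1 n) :=
  fun i hi j hj => by
    have e : lab i j = labD i j := by
      have h1 := hi.1
      have h2 := hj.1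
      rw [lab, labD, max_eq_left h1, max_eq_left h2, if_neg (show ¬ (i = 0 ∨ j = 0) by omega)]
    rw [e]
    exact h i hi.2 j hj.2

end Grp

variable {ι : Type} [Fintype ι] {M : ι → ι → ℕ} {𝒯 : Set (Set ι)}

/-- the cocycle sees both factors of the decomposition -/
theorem core (D : RD M 𝒯) {n : ℕ} {t : ℕ → ι} (hn : 3 ≤ n) (hψ : D.PsiD n t) (hl : S_lk)
    (hp : S_pv) (G G' : Type) [Group G] [Group G'] (z : ℕ → G) (hz : Brd lab z (Set.Ico 1 n))
    (u : ℕ → G') :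
    ∃ N : Subgroup D.PG, (Finite G → Finite G' → N.FiniteIndex) ∧
      ∀ f ∈ sub (fun j => (u j, xD (fun i => Art.gen M (t i)) j)) (Set.Ico 1 n),
        ∀ a ∈ sub (fun k => (z k, Art.gen M (t k))) (Set.Ico 1 n),
          D.φ (f.2 * a.2) ∈ N → f.1 = 1 ∧ a.1 = 1 := by
  obtain ⟨L2, _, l2, f2, d2, H2⟩ := hp n hn G' u
  obtain ⟨L1, _, τ, f1, d1, H1⟩ := hl n (G × L2) (fun k => (z k, sD l2 k)) (hz.prod (brd_sD d2))
  obtain ⟨N, fN, HN⟩ := hψ (L1 × L2) _ (dr_prod d1 d2)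
  refine ⟨N, fun hG hG' => fN (by
    have := f2 hG'
    have := f1 inferInstance
    infer_instance), fun f hf a ha e => ?_⟩
  obtain ⟨w, hw⟩ : ∃ w : ℕ → (L1 × L2) × Art M,
      w = fun k => (sD (fun i j e => (τ i j, l2 i j e)) k, Art.gen M (t k)) := ⟨_, rfl⟩
  rw [← hw] at HN
  have w1 : ∀ k, (w k).1.1 = sD (fun i j _ => τ i j) k := fun k => by
    rw [hw]
    exact apply_ite Prod.fst _ _ _
  have w2 : ∀ k, (w k).1.2 = sD l2 k := fun k => by
    rw [hw]
    exact apply_ite Prod.snd _ _ _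
  have w3 : ∀ k, (w k).2 = Art.gen M (t k) := fun k => by rw [hw]
  obtain ⟨q1, hq1⟩ : ∃ q : (L1 × L2) × Art M →* L1, ∀ x, q x = x.1.1 :=
    ⟨(MonoidHom.fst L1 L2).comp (MonoidHom.fst _ _), fun _ => rfl⟩
  obtain ⟨q2, hq2⟩ : ∃ q : (L1 × L2) × Art M →* L2, ∀ x, q x = x.1.2 :=
    ⟨(MonoidHom.snd L1 L2).comp (MonoidHom.fst _ _), fun _ => rfl⟩
  obtain ⟨q3, hq3⟩ : ∃ q : (L1 × L2) × Art M →* Art M, ∀ x, q x = x.2 :=
    ⟨MonoidHom.snd _ _, fun _ => rfl⟩
  obtain ⟨⟨f0, f'⟩, hf', rfl⟩ := exists_of_mem_sub (y := fun j => (u j, xD w j))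
    (T := Set.Ico 1 n) ((MonoidHom.id G').prodMap q3) (k := f) (by
      simp only [MonoidHom.coe_prodMap, Prod.map, MonoidHom.id_apply, map_xD]
      simp only [hq3, w3]
      exact hf)
  obtain ⟨⟨a0, a'⟩, ha', rfl⟩ := exists_of_mem_sub (y := fun k => (z k, w k))
    (T := Set.Ico 1 n) ((MonoidHom.id G).prodMap q3) (k := a) (by
      simp only [MonoidHom.coe_prodMap, Prod.map, MonoidHom.id_apply, hq3, w3]
      exact ha)
  simp only [MonoidHom.coe_prodMap, Prod.map, MonoidHom.id_apply, hq3] at e ⊢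
  have m1 := map_mem_sub (MonoidHom.snd G' _) hf'
  have m2 := map_mem_sub (MonoidHom.snd G _) ha'
  simp only [MonoidHom.coe_snd] at m1 m2
  have e1 := HN (f' * a') (mul_mem (sub_le (fun j hj => xD_mem j hj.2) m1)
    (sub_mono Set.Ico_subset_Iio_self m2)) e
  have e2 : f'.1.1 = 1 := by
    have m3 := map_mem_sub q1 m1
    rw [hq1] at m3
    refine Subgroup.mem_bot.1 (sub_le (fun j _ => ?_) m3)
    rw [map_xD, xD_one (by rw [hq1, hq1, w1, w1]; rfl)]
    exact one_mem _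
  have e3 : a'.1.1 = 1 := by
    have := congrArg Prod.fst e1
    rwa [Prod.fst_mul, Prod.fst_mul, e2, one_mul] at this
  have m4 := map_mem_sub (((MonoidHom.id G).prodMap q2).prod (q1.comp (MonoidHom.snd G _))) ha'
  simp only [MonoidHom.prod_apply, MonoidHom.coe_prodMap, Prod.map, MonoidHom.id_apply,
    MonoidHom.comp_apply, MonoidHom.coe_snd, hq1, hq2, w1, w2] at m4
  have e0 : sub (fun k => ((z k, sD l2 k), sD (fun i j _ => τ i j) k)) (Set.Ico 1 n) =
      sub (fun k => ((z k, sD l2 k), τ k (k + 1))) (Set.Ico 1 n) :=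
    sub_congr fun k hk => Prod.ext rfl (if_neg (show k ≠ 0 by have := hk.1; omega))
  rw [e0] at m4
  have e4 := H1 ((a0, a'.1.2), a'.1.1) m4 e3
  have e5 : f'.1.2 = 1 := by
    have := congrArg Prod.snd e1
    rwa [Prod.fst_mul, Prod.snd_mul, show a'.1.2 = 1 from congrArg Prod.snd e4, mul_one] at this
  have m5 := map_mem_sub ((MonoidHom.id G').prodMap q2) hf'
  simp only [MonoidHom.coe_prodMap, Prod.map, MonoidHom.id_apply, map_xD] at m5
  simp only [hq2, w2] at m5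
  exact ⟨H2 (f0, f'.1.2) m5 e5, congrArg Prod.fst e4⟩

end FineD

theorem RD.p_fineD {ι : Type} [Fintype ι] {M : ι → ι → ℕ} {𝒯 : Set (Set ι)} (D : RD M 𝒯)
    {T : Set ι} {n : ℕ} {t : ℕ → ι} (h : PathD M T n t) (hψ : D.PsiD n t) (hc : S_covD)
    (hl : S_lk) (hp : S_pv) (hs : S_pfs) (h1 : VPF (sub (Art.gen M) (t '' Set.Ico 1 n))) :
    D.Fine T := by
  refine ⟨fun G _ y hy => ?_, ?_⟩
  · obtain ⟨N, fN, HN⟩ := FineD.core D h.le hψ hl hp G G _ (FineD.brd_lab (FineD.brdD h hy))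
      (xD fun k => y (t k))
    refine ⟨N, fun hG => fN hG hG, fun g hg _ e => ?_⟩
    rw [h.eq, FineD.sub_image] at hg
    obtain ⟨f, hf, a, ha, rfl⟩ :=
      (hc _ _ n h.le (FineD.brdD h (hy.prod (brd_gen M T)))).2.1 g hg
    rw [FineD.xD_prod] at hf
    obtain ⟨e1, e2⟩ := HN f hf a ha e
    rw [Prod.fst_mul, e1, e2, mul_one]
  · obtain ⟨c1, c2, -⟩ := hc _ _ n h.le (FineD.brdD h (brd_gen M T))
    let j : FreeGroup (Set.Ico 1 n) →* Art M :=
      FreeGroup.lift fun i => xD (fun i => Art.gen M (t i)) i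
    have hj : j.range = sub (xD fun i => Art.gen M (t i)) (Set.Ico 1 n) := by
      rw [FreeGroup.range_lift_eq_closure, sub, Set.image_eq_range]
    have key : ∀ w, ∀ a ∈ sub (fun i => Art.gen M (t i)) (Set.Ico 1 n), j w * a = 1 → w = 1 :=
      fun w a ha e => by
      obtain ⟨N, -, HN⟩ := FineD.core D h.le hψ hl hp Unit (FreeGroup (Set.Ico 1 n)) (fun _ => 1)
        (fun _ _ _ _ => rfl) fun i => if h : i ∈ Set.Ico 1 n then FreeGroup.of ⟨i, h⟩ else 1
      have m := map_mem_sub (MonoidHom.inr Unit (Art M)) ha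
      refine (HN (w, j w) ?_ (1, a) m (by rw [e, D.φ_one]; exact N.one_mem)).1
      have h1 : (Subgroup.comap ((MonoidHom.id _).prod j) (sub (fun i =>
          ((if h : i ∈ Set.Ico 1 n then FreeGroup.of ⟨i, h⟩ else 1 : FreeGroup (Set.Ico 1 n)),
            xD (fun i => Art.gen M (t i)) i)) (Set.Ico 1 n))) = ⊤ := by
        rw [eq_top_iff, ← FreeGroup.closure_range_of, Subgroup.closure_le]
        rintro _ ⟨i, rfl⟩
        have := mem_sub (y := fun i => ((if h : i ∈ Set.Ico 1 n then FreeGroup.of ⟨i, h⟩ else 1 :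
          FreeGroup (Set.Ico 1 n)), xD (fun i => Art.gen M (t i)) i)) i.2
        rw [dif_pos i.2] at this
        simpa [j] using this
      exact (h1 ▸ Subgroup.mem_top w :)
    rw [FineD.sub_image] at h1
    rw [h.eq, FineD.sub_image]
    refine hs (Art M) _ j ((injective_iff_map_eq_one j).2 fun w e =>
      key w 1 (one_mem _) (by rw [e, mul_one])) _ _ {1} (Set.finite_singleton _) ?_
      (sub_mono Set.Ico_subset_Iio_self) ?_ ?_ (fun g hg => ?_) h1
    · rw [hj]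
      exact sub_le fun k hk => FineD.xD_mem k hk.2
    · rw [hj]
      exact c1
    · rw [eq_bot_iff]
      rintro _ ⟨⟨w, rfl⟩, h2⟩
      rw [key w _ (inv_mem h2) (mul_inv_cancel _), map_one]
      exact one_mem _
    · obtain ⟨f, hf, a, ha, e⟩ := c2 g hg
      exact ⟨f, hj ▸ hf, a, ha, 1, rfl, by rw [e, mul_one]⟩

theorem finw_D {ι : Type} {M : ι → ι → ℕ} {T : Set ι} {n : ℕ} {t : ℕ → ι} (h : PathD M T n t)
    (hc : S_covD) (h1 : Finite (sub (sg M) (t '' Set.Ico 1 n))) : Finite (sub (sg M) T) := by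
  obtain ⟨-, c2, c3⟩ := hc _ _ n h.le (FineD.brdD h (brd_sg M T))
  have h2 := c3 fun i _ => sg_sq _
  rw [FineD.sub_image] at h1
  rw [h.eq, FineD.sub_image]
  refine Set.Finite.subset (Set.Finite.image2 (fun f a => f * a) h2 h1) fun g hg => ?_
  obtain ⟨f, hf, a, ha, e⟩ := c2 g hg
  exact ⟨f, hf, a, ha, e.symm⟩

end Pool.Agent.P.MP_e794d7_al.FC
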