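import Pool.Agent.P.MP_e794d7_al.FC.Stmt2

/-! Artin groups of FC type: dihedral cliques. -/

set_option autoImplicit false

namespace Pool.Agent.P.MP_e794d7_al.FC

open scoped Classical

namespace FineI

section grp

variable {H K : Type} [Group H] [Group K]

theorem sub_pair {ι : Type} (y : ι → H) (a b : ι) :
    sub y {a, b} = Subgroup.closure {y a, y b} := by rw [sub, Set.image_pair]

theorem sub_single {ι : Type} (y : ι → H) (a : ι) : sub y {a} = Subgroup.zpowers (y a) := by
  rw [sub, Set.image_singleton, Subgroup.zpowers_eq_closure]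

theorem map_pair (f : H →* K) (x y : H) :
    (Subgroup.closure {x, y}).map f = Subgroup.closure {f x, f y} := by
  rw [MonoidHom.map_closure, Set.image_pair]

theorem map_cI (f : H →* K) (A B : H) (i : ℕ) : f (cI A B i) = cI (f A) (f B) i := by
  simp only [cI, map_mul, map_pow, map_inv]

theorem cI_mem (A B : H) (i : ℕ) : cI A B i ∈ Subgroup.closure ({A, B} : Set H) := by
  have hA : A ∈ Subgroup.closure ({A, B} : Set H) := Subgroup.subset_closure (Or.inl rfl)
  have hB : B ∈ Subgroup.closure ({A, B} : Set H) := Subgroup.subset_closure (Or.inr rfl)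
  exact mul_mem (mul_mem (pow_mem hA _) hB) (inv_mem (pow_mem hA _))

theorem alt_one {m : ℕ} (hm : Even m) (x : H) : alt x 1 m = alt 1 x m := by
  obtain ⟨k, rfl⟩ := hm
  rw [← two_mul, alt_even, alt_even, mul_one, one_mul]

theorem alt_g2 {s t : H} (h : s * t * s = t * s * t) : alt t (s ^ 3) 6 = alt (s ^ 3) t 6 := by
  obtain ⟨D, hD⟩ : ∃ D, D = s * t * s := ⟨_, rfl⟩
  have h1 : D * t = s * D := by
    conv_rhs => rw [hD, h]
    rw [hD]
    group
  have h2 : D * s = t * D := by
    conv_lhs => rw [hD, h]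
    rw [hD]
    group
  have h3 : ∀ x, D * (t * x) = s * (D * x) := fun x => by rw [← mul_assoc, h1, mul_assoc]
  have h4 : ∀ x, D * (s * x) = t * (D * x) := fun x => by rw [← mul_assoc, h2, mul_assoc]
  have h5 : ∀ x, s * (t * (s * x)) = D * x := fun x => by rw [hD]; group
  have h6 : ∀ x, t * (s * (t * x)) = D * x := fun x => by rw [hD, h]; group
  rw [show 6 = 2 * 3 from rfl, alt_even, alt_even]
  have e1 : (t * s ^ 3) ^ 3 = t * (s * (s * (D * (s * (D * (s * s)))))) := by
    rw [hD]
    simp only [pow_succ, pow_zero, one_mul, mul_assoc]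
  have e2 : (s ^ 3 * t) ^ 3 = s * (s * (D * (s * (D * (s * (s * t)))))) := by
    rw [hD]
    simp only [pow_succ, pow_zero, one_mul, mul_assoc]
  rw [e1, e2]
  simp only [h1, h2, h3, h4]
  rw [h5 (s * (D * D)), h5 (s * (t * (D * D)))]
  simp only [h3, h4]
  rw [h5, h6]

theorem tri {L : Type} [Group L] {A B : H} {t u : L} {x y : K} {P : K → Prop}
    (h1 : ∀ h ∈ Subgroup.closure ({(t, x), (u, y)} : Set (L × K)), P h.2 → h.1 = 1)
    (h2 : ∀ h ∈ Subgroup.closure ({(A, t), (B, u)} : Set (H × L)), h.2 = 1 → h.1 = 1) :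
    ∀ h ∈ Subgroup.closure ({(A, x), (B, y)} : Set (H × K)), P h.2 → h.1 = 1 := by
  intro g hg e
  let p1 : (H × L) × K →* H × K := (MonoidHom.fst H L).prodMap (MonoidHom.id _)
  let p2 : (H × L) × K →* L × K := (MonoidHom.snd H L).prodMap (MonoidHom.id _)
  have q1 : ∀ v w z, p1 ((v, w), z) = (v, z) := fun _ _ _ => rfl
  have q2 : ∀ v w z, p2 ((v, w), z) = (w, z) := fun _ _ _ => rfl
  rw [← q1 A t, ← q1 B u, ← map_pair] at hg
  obtain ⟨⟨⟨v, w⟩, z⟩, hg', rfl⟩ := hg
  have h3 := Subgroup.mem_map_of_mem p2 hg'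
  have h4 := Subgroup.mem_map_of_mem (MonoidHom.fst (H × L) K) hg'
  rw [map_pair, q2, q2, q2] at h3
  rw [map_pair] at h4
  simp only [MonoidHom.coe_fst] at h4
  exact h2 (v, w) h4 (h1 (w, z) h3 e)

end grp

variable {ι : Type} [Fintype ι] {M : ι → ι → ℕ} {𝒯 : Set (Set ι)} (D : RD M 𝒯) {a b : ι}

/-- the cocycle sees the dihedral Artin group -/
def Core (a b : ι) {G : Type} [Group G] (A B : G) : Prop :=
  ∃ N : Subgroup D.PG, (Finite G → N.FiniteIndex) ∧
    ∀ h ∈ Subgroup.closure ({(A, Art.gen M a), (B, Art.gen M b)} : Set (G × Art M)),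
      D.φ h.2 ∈ N → h.1 = 1

theorem core_even (hm : 5 ≤ M a b) (hk : D.KI a b) (he : Even (M a b)) (h6 : M a b ≠ 6)
    {G : Type} [Group G] {A B : G} (h : alt A B (M a b) = alt B A (M a b)) :
    Core D a b A B := by
  obtain ⟨m, hm'⟩ : ∃ m : ℤ, m = M a b := ⟨_, rfl⟩
  let lam : ℤ → G := fun j =>
    if 2 * m ∣ 3 * j then A else if 2 * m ∣ 3 * (j - (m - 1)) then B else 1
  have per : ∀ j d : ℤ, 2 * m ∣ 3 * d → lam (j + d) = lam j := fun j d hd => by
    have e1 : 2 * m ∣ 3 * (j + d) ↔ 2 * m ∣ 3 * j := by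
      rw [mul_add]
      exact dvd_add_left hd
    have e2 : 2 * m ∣ 3 * (j + d - (m - 1)) ↔ 2 * m ∣ 3 * (j - (m - 1)) := by
      rw [show 3 * (j + d - (m - 1)) = 3 * (j - (m - 1)) + 3 * d by ring]
      exact dvd_add_left hd
    simp only [lam, e1, e2]
  have hne : ¬ 2 * m ∣ 3 * (m - 1) := fun hd => by
    have := (dvd_mul_right 2 m).trans hd
    obtain ⟨k, hk⟩ := he
    omega
  have l0 : lam 0 = A := if_pos (by simp)
  have l1 : lam (m - 1) = B := (if_neg hne).trans (if_pos (by simp))
  have := hk G lam (fun j => per j _ (by rw [← hm']; exact dvd_mul_left _ _))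
    (fun j k hk => ?_) (fun j k hk _ => ?_) fun j => ?_
  · rwa [← hm', l0, l1] at this
  · have hk4 : (4 : ℤ) ≤ k := by omega
    have hmk : m = 2 * k := by omega
    simp only [lam]
    split_ifs with c1 c2 c3 c4 c5 c6 <;>
      with_reducible first
        | exact Commute.refl _ | exact Commute.one_right _ | exact Commute.one_left _ | skip
    · have h1 : 2 * m ∣ 3 * (k - 1 : ℤ) := by
        rw [show 3 * (k - 1 : ℤ) = 3 * j - 3 * (j + k - (m - 1)) by omega]
        exact dvd_sub c1 c3
      have := Int.le_of_dvd (by omega) h1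
      omega
    · have h1 : 2 * m ∣ (k - 3 : ℤ) := by
        rw [show (k - 3 : ℤ) = 3 * (j + k) - 3 * (j - (m - 1)) - 2 * m * 2 by omega]
        exact dvd_sub (dvd_sub c5 c4) (dvd_mul_right (2 * m) 2)
      have := Int.le_of_dvd (by omega) h1
      omega
  · rw [per j (2 * k) ⟨1, by omega⟩]
  · generalize j + ((M a b : ℤ) - 1) = j'
    simp only [lam]
    split_ifs <;> with_reducible first
      | rfl | exact h | exact h.symm | exact alt_one he _ | exact (alt_one he _).symm

theorem core_odd (hm : 5 ≤ M a b) (hk : D.KI a b) (he : ¬ Even (M a b))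
    {G : Type} [Group G] {A B : G} (h : alt A B (M a b) = alt B A (M a b)) :
    Core D a b A B := by
  obtain ⟨m, hm'⟩ : ∃ m : ℤ, m = M a b := ⟨_, rfl⟩
  let lam : ℤ → G := fun j => if 2 ∣ j then (if m ∣ 3 * j then A else B) else 1
  have per : ∀ j d : ℤ, 2 ∣ d → m ∣ 3 * d → lam (j + d) = lam j := fun j d h2 hd => by
    have e1 : m ∣ 3 * (j + d) ↔ m ∣ 3 * j := by
      rw [mul_add]
      exact dvd_add_left hd
    simp only [lam, e1, dvd_add_left h2]
  have h2 : 2 ∣ m - 1 := by
    rw [Nat.even_iff] at he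
    omega
  have hne : ¬ m ∣ 3 * (m - 1) := fun hd => by
    have h1 : m ∣ 3 := by
      rw [show (3 : ℤ) = 3 * m - 3 * (m - 1) by ring]
      exact dvd_sub (dvd_mul_left m 3) hd
    have := Int.le_of_dvd (by omega) h1
    omega
  have l0 : lam 0 = A := (if_pos (by simp)).trans (if_pos (by simp))
  have l1 : lam (m - 1) = B := (if_pos h2).trans (if_neg hne)
  have := hk G lam (fun j => per j _ (dvd_mul_right _ _) ⟨6, by rw [← hm']; ring⟩)
    (fun j k hk => absurd ⟨k, by omega⟩ he) (fun j k hk _ => ?_) fun j => ?_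
  · rwa [← hm', l0, l1] at this
  · rw [per j (2 * k) (dvd_mul_right _ _) ⟨2, by omega⟩]
  · rw [← hm']
    simp only [lam, dvd_add_left h2]
    split_ifs <;> with_reducible first | rfl | exact h | exact h.symm

theorem core_six (hk : D.KI a b) (hg : S_g2) (h6 : M a b = 6)
    {G : Type} [Group G] {A B : G} (h : alt A B (M a b) = alt B A (M a b)) :
    Core D a b A B := by
  obtain ⟨L, _, s, t, hL, hst, hs⟩ := hg G A B (h6 ▸ h)
  let lam : ℤ → L := fun j => if j % 12 = 0 ∨ j % 12 = 4 then t else if j % 12 = 8 then s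
    else if j % 12 = 5 then s ^ 3 else 1
  have h6' : (M a b : ℤ) = 6 := by rw [h6]; rfl
  have e6 : Even 6 := by decide
  obtain ⟨N, hN, H⟩ := hk L lam (fun j => by
      simp only [lam, h6', show (j + 2 * 6) % 12 = j % 12 by omega])
    (fun j k hk => by
      obtain rfl : k = 3 := by omega
      simp only [lam]
      split_ifs <;> first
        | omega
        | with_reducible exact Commute.one_right _
        | with_reducible exact Commute.one_left _
        | exact (Commute.refl s).pow_left 3)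
    (fun j k hk hj => by
      obtain rfl : k = 2 := by omega
      obtain ⟨i, hi⟩ := hj h6
      simp only [lam]
      split_ifs <;> first
        | omega
        | with_reducible rfl
        | with_reducible exact hst
        | exact hst.symm)
    (fun j => by
      rw [h6', h6]
      simp only [lam]
      split_ifs <;> first
        | omega
        | with_reducible exact alt_g2 hst
        | with_reducible exact alt_one e6 _
        | exact (alt_one e6 _).symm)
  have l0 : lam 0 = t := if_pos (by decide)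
  have l1 : lam (6 - 1) = s ^ 3 :=
    (if_neg (by decide)).trans ((if_neg (by decide)).trans (if_pos (by decide)))
  rw [h6', l0, l1] at H
  exact ⟨N, fun hG => hN (hL hG), tri (P := fun g => D.φ g ∈ N) H hs⟩

theorem core (hm : 5 ≤ M a b) (hk : D.KI a b) (hg : S_g2) {G : Type} [Group G] {A B : G}
    (h : alt A B (M a b) = alt B A (M a b)) : Core D a b A B := by
  by_cases h6 : M a b = 6
  · exact core_six D hk hg h6 h
  by_cases he : Even (M a b)
  · exact core_even D hm hk he h6 h
  · exact core_odd D hm hk he h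

end FineI

open FineI

theorem RD.p_fineI {ι : Type} [Fintype ι] {M : ι → ι → ℕ} {𝒯 : Set (Set ι)} (D : RD M 𝒯)
    {a b : ι} (_hab : a ≠ b) (hm : 5 ≤ M a b) (hk : D.KI a b) (hg : S_g2) (hd : S_dih)
    (hs : S_pfs) (h1 : VPF (sub (Art.gen M) {a})) : D.Fine {a, b} := by
  refine ⟨fun G _ y hy => ?_, ?_⟩
  · obtain ⟨N, hN, H⟩ := core D hm hk hg (hy a (Or.inl rfl) b (Or.inr rfl))
    exact ⟨N, hN, fun h hh _ e => H h (by rwa [sub_pair] at hh) e⟩
  obtain ⟨h2, H, _, A, B, hAB, hinj⟩ := hd (M a b) (by omega)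
  obtain ⟨h3, h4, -⟩ := h2 _ _ _ (Art.rel (M := M) a b)
  obtain ⟨N, -, hN⟩ := core D hm hk hg hAB
  let j : FreeGroup (Set.Iio (M a b - 1)) →* Art M :=
    FreeGroup.lift fun i => cI (Art.gen M a) (Art.gen M b) i
  have hj : j.range = sub (cI (Art.gen M a) (Art.gen M b)) (Set.Iio (M a b - 1)) := by
    rw [FreeGroup.range_lift_eq_closure, sub, Set.image_eq_range]
  rw [sub_single] at h1
  rw [sub_pair]
  refine hs (Art M) _ j ((injective_iff_map_eq_one j).2 fun w e => ?_)
    (Subgroup.zpowers (Art.gen M a)) _ {1} (Set.finite_singleton _) ?_ ?_ ?_ ?_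
    (fun g hg => ?_) h1
  · let F : FreeGroup (Set.Iio (M a b - 1)) →* H × Art M :=
      FreeGroup.lift fun i => cI (A, Art.gen M a) (B, Art.gen M b) i
    have f1 : (MonoidHom.fst _ _).comp F =
        FreeGroup.lift fun i : Set.Iio (M a b - 1) => cI A B i :=
      FreeGroup.ext_hom _ _ fun i => by
        rw [MonoidHom.comp_apply, FreeGroup.lift_apply_of, FreeGroup.lift_apply_of, map_cI]
        rfl
    have f2 : (MonoidHom.snd _ _).comp F = j :=
      FreeGroup.ext_hom _ _ fun i => by
        rw [MonoidHom.comp_apply, FreeGroup.lift_apply_of, FreeGroup.lift_apply_of, map_cI]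
        rfl
    have f3 : F.range ≤ Subgroup.closure {(A, Art.gen M a), (B, Art.gen M b)} := by
      rw [FreeGroup.range_lift_eq_closure, Subgroup.closure_le]
      rintro _ ⟨i, rfl⟩
      exact cI_mem _ _ _
    have f4 : (F w).2 = 1 := (DFunLike.congr_fun f2 w).trans e
    have f5 := hN (F w) (f3 ⟨w, rfl⟩) (by rw [f4, D.φ_one]; exact N.one_mem)
    exact (injective_iff_map_eq_one _).1 hinj w ((DFunLike.congr_fun f1 w).symm.trans f5)
  · rw [hj]
    exact sub_le fun i _ => cI_mem _ _ _
  · rw [Subgroup.zpowers_eq_closure]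
    exact Subgroup.closure_mono (Set.singleton_subset_iff.2 (Or.inl rfl))
  · rw [hj]
    exact h3
  · rw [eq_bot_iff, hj]
    rintro _ ⟨h5, n, rfl⟩
    have h6 : sub (cI (Art.gen M a) (Art.gen M b)) (Set.Iio (M a b - 1)) ≤ (Art.len M).ker :=
      sub_le fun i _ => by
        rw [MonoidHom.mem_ker, map_cI, Art.len, Art.lift_gen, Art.lift_gen, cI, ← pow_succ,
          mul_inv_cancel]
    have h7 := h6 h5
    rw [MonoidHom.mem_ker, map_zpow, Art.len, Art.lift_gen, ← ofAdd_zsmul, smul_eq_mul, mul_one,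
      ofAdd_eq_one] at h7
    simp [h7]
  · obtain ⟨f, hf, c, hc, e⟩ := h4 g hg
    exact ⟨f, hj ▸ hf, c, hc, 1, rfl, by rw [mul_one, e]⟩

theorem finw_I {ι : Type} {M : ι → ι → ℕ} (hM : Cox M) {a b : ι} (hab : a ≠ b) (h0 : M a b ≠ 0)
    (hd : S_dih) : Finite (sub (sg M) {a, b}) := by
  have := hM.off a b hab
  rw [sub_pair]
  exact ((hd (M a b) (by omega)).1 _ _ _ (brd_sg M Set.univ a trivial b trivial)).2.2
    (sg_sq a) (sg_sq b)

end Pool.Agent.P.MP_e794d7_al.FC
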