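import Pool.Agent.P.MP_e794d7_al.FC.Stmt2

/-! Artin groups of FC type: the group of type `G 2` inside the braid group on three strands. -/

set_option autoImplicit false

namespace Pool.Agent.P.MP_e794d7_al.FC

open scoped Classical

namespace G2

variable {G : Type} [Group G]

/-- a permutation of the states together with labels -/
def act (π : Equiv.Perm (Fin 8)) (lab : Fin 8 → G) : Equiv.Perm (Fin 8 × G) where
  toFun x := (π x.1, lab x.1 * x.2)
  invFun x := (π.symm x.1, (lab (π.symm x.1))⁻¹ * x.2)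
  left_inv x := by simp
  right_inv x := by simp

theorem act_apply (π : Equiv.Perm (Fin 8)) (lab : Fin 8 → G) (i : Fin 8) (γ : G) :
    act π lab (i, γ) = (π i, lab i * γ) := rfl

/-- the first generator on the states -/
def ps : Equiv.Perm (Fin 8) :=
  ⟨![1, 2, 0, 3, 7, 4, 6, 5], ![2, 0, 1, 3, 5, 7, 6, 4], by decide, by decide⟩

/-- the second generator on the states -/
def pt : Equiv.Perm (Fin 8) :=
  ⟨![0, 3, 5, 4, 1, 6, 2, 7], ![0, 4, 6, 1, 3, 2, 5, 7], by decide, by decide⟩

/-- the labels of the first generator -/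
def ls (A B : G) : Fin 8 → G := ![1, B, 1, A, 1, A, A, B * A * B * A⁻¹ * B⁻¹ * A⁻¹]

/-- the labels of the second generator -/
def lt (A B : G) : Fin 8 → G :=
  ![A, 1, 1, A * B * A⁻¹, 1, A⁻¹ * B * A, 1, A * B * A * B⁻¹ * A⁻¹]

theorem lab_eq {A B : G} (h : A * B * A * B * A * B = B * A * B * A * B * A) (i : Fin 8) :
    ls A B (pt (ps i)) * (lt A B (ps i) * ls A B i) =
      lt A B (ps (pt i)) * (ls A B (pt i) * lt A B i) := by
  fin_cases i
  · change A * (1 * 1) = 1 * (1 * A)
    group
  · change A * (1 * B) = (A * B * A⁻¹) * (A * 1)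
    group
  · change 1 * (A * 1) = 1 * (A * 1)
    group
  · change 1 * ((A * B * A⁻¹) * A) = (A * B * A * B⁻¹ * A⁻¹) * (1 * (A * B * A⁻¹))
    group
  · change (B * A * B * A⁻¹ * B⁻¹ * A⁻¹) * ((A * B * A * B⁻¹ * A⁻¹) * 1) = 1 * (B * 1)
    group
  · change B * (1 * A) = 1 * (A * (A⁻¹ * B * A))
    group
  · change 1 * (1 * A) = A * (1 * 1)
    group
  · change A * ((A⁻¹ * B * A) * (B * A * B * A⁻¹ * B⁻¹ * A⁻¹)) =
      (A⁻¹ * B * A) * ((B * A * B * A⁻¹ * B⁻¹ * A⁻¹) * (A * B * A * B⁻¹ * A⁻¹))
    calc _ = A⁻¹ * (A * B * A * B * A * B) * (A⁻¹ * B⁻¹ * A⁻¹) := by group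
      _ = _ := by
        rw [h]
        group

theorem state_eq (i : Fin 8) : ps (pt (ps i)) = pt (ps (pt i)) := by
  revert i
  decide

end G2

open G2

theorem p_g2 : S_g2 := by
  intro G _ A B h
  have h' : A * B * A * B * A * B = B * A * B * A * B * A := by
    simpa only [alt_succ', alt_zero, mul_one, mul_assoc] using h
  refine ⟨Equiv.Perm (Fin 8 × G), inferInstance, act ps (ls A B), act pt (lt A B),
    fun _ => inferInstance, Equiv.ext fun x => Prod.ext (state_eq x.1) ?_, fun g hg h2 => ?_⟩
  · have := congrArg (· * x.2) (lab_eq h' x.1)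
    simp only [mul_assoc] at this
    exact this
  · have key : ∀ γ : G, g.2 (0, γ) = (0, g.1 * γ) := by
      clear h2
      induction hg using Subgroup.closure_induction with
      | mem x hx =>
        rcases hx with rfl | rfl
        · exact fun γ => rfl
        · intro γ
          change ((0 : Fin 8), 1 * (B * (1 * γ))) = (0, B * γ)
          rw [one_mul, one_mul]
      | one => exact fun γ => by simp
      | mul x y _ _ hx hy =>
        intro γ
        rw [Prod.snd_mul, Equiv.Perm.mul_apply, hy, hx, Prod.fst_mul, mul_assoc]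
      | inv x _ hx =>
        intro γ
        rw [Prod.snd_inv, Prod.fst_inv, Equiv.Perm.inv_def, Equiv.symm_apply_eq, hx,
          mul_inv_cancel_left]
    have := key 1
    rw [h2, Equiv.Perm.one_apply, mul_one] at this
    exact (congrArg Prod.snd this).symm

end Pool.Agent.P.MP_e794d7_al.FC
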