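import Pool.Agent.P.MP_e794d7_al.FC.Stmt2

/-! Labels on a simply laced system of vectors give a homomorphism seen by the cocycle. -/

set_option autoImplicit false

namespace Pool.Agent.P.MP_e794d7_al.FC

open scoped Classical RegularWreathProduct

noncomputable section

namespace Kf

variable {F V : Type} [Field F] [AddCommGroup V] [Module F V]

/-- the linear maps that keep the form and the set of vectors -/
def Gam (B : V →ₗ[F] V →ₗ[F] F) (Act : Set V) : Subgroup (V ≃ₗ[F] V) where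
  carrier := {f | (∀ v v', B (f v) (f v') = B v v') ∧ ∀ v, f v ∈ Act ↔ v ∈ Act}
  one_mem' := ⟨fun _ _ => rfl, fun _ => Iff.rfl⟩
  mul_mem' := fun {f g} hf hg => ⟨fun v v' => (hf.1 (g v) (g v')).trans (hg.1 v v'),
    fun v => (hf.2 (g v)).trans (hg.2 v)⟩
  inv_mem' := fun {f} hf => ⟨fun v v' => by
    have := hf.1 (f.symm v) (f.symm v')
    rw [f.apply_symm_apply, f.apply_symm_apply] at this
    exact this.symm, fun v => by
    have := hf.2 (f.symm v)
    rw [f.apply_symm_apply] at this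
    exact this.symm⟩

variable {B : V →ₗ[F] V →ₗ[F] F} {Act : Set V}

theorem ap_mul (y z : Gam B Act) (v : V) : (y * z).1 v = y.1 (z.1 v) := rfl

theorem ap_inv (y : Gam B Act) (v : V) : y⁻¹.1 (y.1 v) = v := by
  rw [← ap_mul, inv_mul_cancel]; rfl

theorem ap_inv' (y : Gam B Act) (v : V) : y.1 (y⁻¹.1 v) = v := by
  rw [← ap_mul, mul_inv_cancel]; rfl

theorem gext {y z : Gam B Act} (h : ∀ v, y.1 v = z.1 v) : y = z :=
  Subtype.ext (LinearEquiv.ext h)

/-- the reflections -/
structure Rf (r : V → Gam B Act) : Prop where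
  symm : ∀ v v', B v v' = B v' v
  two : ∀ v ∈ Act, B v v = 2
  app : ∀ v ∈ Act, ∀ u, (r v).1 u = u - B v u • v

theorem exists_r (hs : ∀ v v', B v v' = B v' v) (h2 : ∀ v ∈ Act, B v v = 2)
    (hc : ∀ v ∈ Act, ∀ v' ∈ Act, v' - B v v' • v ∈ Act) : ∃ r : V → Gam B Act, Rf r := by
  have key : ∀ v, ∃ f : Gam B Act, v ∈ Act → ∀ u, f.1 u = u - B v u • v := by
    intro v
    by_cases hv : v ∈ Act
    · have e : ∀ u, Module.reflection (h2 v hv) u = u - B v u • v :=
        fun u => Module.reflection_apply _ _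
      refine ⟨⟨Module.reflection (h2 v hv), fun u u' => ?_, fun u => ⟨fun hu => ?_, fun hu => ?_⟩⟩,
        fun _ => e⟩
      · rw [e, e]
        simp only [map_sub, map_smul, LinearMap.sub_apply, LinearMap.smul_apply, smul_eq_mul,
          h2 v hv, hs u v]
        ring
      · have := hc v hv _ hu
        rwa [← e, Module.involutive_reflection (h2 v hv) u] at this
      · rw [e]; exact hc v hv u hu
    · exact ⟨1, fun h => (hv h).elim⟩
  choose r hr using key
  exact ⟨r, hs, h2, hr⟩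

variable {r : V → Gam B Act}

theorem Rf.self (h : Rf r) {v : V} (hv : v ∈ Act) : (r v).1 v = -v := by
  rw [h.app v hv, h.two v hv]
  module

theorem Rf.conj (h : Rf r) (y : Gam B Act) {v : V} (hv : v ∈ Act) :
    r (y.1 v) = y * r v * y⁻¹ := gext fun u => by
  rw [h.app _ ((y.2.2 v).2 hv), ap_mul, ap_mul, h.app v hv, map_sub, map_smul, ap_inv',
    ← y.2.1 v, ap_inv']

theorem Rf.sq (h : Rf r) {v : V} (hv : v ∈ Act) : r v * r v = 1 := gext fun u => by
  rw [ap_mul, h.app v hv, h.app v hv]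
  simp only [map_sub, map_smul, smul_eq_mul, h.two v hv]
  change _ = u
  module

theorem Rf.inv (h : Rf r) {v : V} (hv : v ∈ Act) : (r v)⁻¹ = r v :=
  inv_eq_of_mul_eq_one_right (h.sq hv)

variable {L : Type} [Group L]

/-- the labels in the wreath product -/
def lb (r : V → Gam B Act) (lam : V → L) (v : V) : L ≀ᵣ Gam B Act :=
  if v ∈ Act then ⟨fun y => lam (y⁻¹.1 v), r v⟩ else 1

variable {lam : V → L}

theorem lb_right {v : V} (hv : v ∈ Act) : (lb r lam v).right = r v := by rw [lb, if_pos hv]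

theorem lb_left {v : V} (hv : v ∈ Act) (y : Gam B Act) :
    (lb r lam v).left y = lam (y⁻¹.1 v) := by rw [lb, if_pos hv]

theorem mul_lb (a : L ≀ᵣ Gam B Act) {v : V} (hv : v ∈ Act) (y : Gam B Act) :
    (a * lb r lam v).left y = a.left y * lam (y⁻¹.1 (a.right.1 v)) := by
  rw [RegularWreathProduct.mul_left, Pi.mul_apply, lb_left hv, mul_inv_rev, inv_inv, ap_mul]

theorem Rf.comm (h : Rf r)
    (h0 : ∀ v ∈ Act, ∀ v' ∈ Act, B v v' = 0 → Commute (lam v) (lam v')) {v v' : V}
    (hv : v ∈ Act) (hv' : v' ∈ Act) (e : B v v' = 0) : Commute (lb r lam v) (lb r lam v') := by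
  have e1 : (r v).1 v' = v' := by rw [h.app v hv, e, zero_smul, sub_zero]
  have e2 : (r v').1 v = v := by rw [h.app v' hv', h.symm, e, zero_smul, sub_zero]
  refine RegularWreathProduct.ext (funext fun y => ?_) ?_
  · rw [mul_lb _ hv', mul_lb _ hv, lb_right hv, lb_right hv', lb_left hv, lb_left hv', e1, e2]
    exact h0 _ ((y⁻¹.2.2 v).2 hv) _ ((y⁻¹.2.2 v').2 hv') ((y⁻¹.2.1 v v').trans e)
  · have := h.conj (r v) hv'
    rw [e1, eq_mul_inv_iff_mul_eq] at this
    rw [RegularWreathProduct.mul_right, RegularWreathProduct.mul_right, lb_right hv, lb_right hv',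
      this]

theorem Rf.tri (h : Rf r)
    (h1 : ∀ v ∈ Act, ∀ v' ∈ Act, B v v' = -1 →
      lam v * lam v' * lam v = lam v' * lam v * lam v') {v v' : V}
    (hv : v ∈ Act) (hv' : v' ∈ Act) (e : B v v' = -1) :
    lb r lam v * lb r lam (v + v') * lb r lam v' = lb r lam v' * lb r lam (v + v') * lb r lam v := by
  have e' : B v' v = -1 := (h.symm _ _).trans e
  have e1 : (r v).1 v' = v + v' := by rw [h.app v hv, e]; module
  have e2 : (r v').1 v = v + v' := by rw [h.app v' hv', e']; module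
  have hs : v + v' ∈ Act := e1 ▸ ((r v).2.2 v').2 hv'
  have e3 : (r v).1 (v + v') = v' := by rw [← e1, ← ap_mul, h.sq hv]; rfl
  have e4 : (r v').1 (v + v') = v := by rw [← e2, ← ap_mul, h.sq hv']; rfl
  have c1 : r v * r (v + v') = r v' * r v := by
    rw [← e1, h.conj (r v) hv', h.inv hv, ← mul_assoc, ← mul_assoc, h.sq hv, one_mul]
  have c2 : r v' * r (v + v') = r v * r v' := by
    rw [← e2, h.conj (r v') hv, h.inv hv', ← mul_assoc, ← mul_assoc, h.sq hv', one_mul]
  refine RegularWreathProduct.ext (funext fun y => ?_) ?_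
  · rw [mul_lb _ hv', mul_lb _ hv, mul_lb _ hs, mul_lb _ hs]
    simp only [RegularWreathProduct.mul_right, lb_right hv, lb_right hv', lb_right hs, lb_left hv,
      lb_left hv']
    rw [c1, c2, ap_mul, ap_mul, e1, e2, e3, e4]
    exact h1 _ ((y⁻¹.2.2 v).2 hv) _ ((y⁻¹.2.2 v').2 hv') ((y⁻¹.2.1 v v').trans e)
  · simp only [RegularWreathProduct.mul_right, lb_right hv, lb_right hv', lb_right hs]
    have c3 : r (v + v') = r v * r v' * r v := by rw [← e1, h.conj (r v) hv', h.inv hv]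
    have c4 : r (v + v') = r v' * r v * r v' := by rw [← e2, h.conj (r v') hv, h.inv hv']
    rw [c1, c2, ← c3, ← c4]

theorem Rf.step (h : Rf r) {a : L ≀ᵣ Gam B Act} {y : Gam B Act} {v : V} (hv : v ∈ Act)
    (ha : a.right = y⁻¹) : (a * lb r lam (y.1 v)).right = (y * r v)⁻¹ ∧
      (a * lb r lam (y.1 v)).left 1 = a.left 1 * lam v := by
  have hy := (y.2.2 v).2 hv
  refine ⟨?_, ?_⟩
  · rw [RegularWreathProduct.mul_right, lb_right hy, ha, h.conj y hv, mul_inv_rev, h.inv hv]
    group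
  · rw [mul_lb _ hy, ha, ap_inv, inv_one]
    rfl

theorem Rf.step_inv (h : Rf r) {a : L ≀ᵣ Gam B Act} {y : Gam B Act} {v : V} (hv : v ∈ Act)
    (ha : a.right = y⁻¹) : (a * (lb r lam ((y * r v).1 v))⁻¹).right = (y * r v)⁻¹ ∧
      (a * (lb r lam ((y * r v).1 v))⁻¹).left 1 = a.left 1 * (lam v)⁻¹ := by
  have hy := ((y * r v).2.2 v).2 hv
  have e : (a * (lb r lam ((y * r v).1 v))⁻¹).right = (y * r v)⁻¹ := by
    rw [RegularWreathProduct.mul_right, RegularWreathProduct.inv_right, lb_right hy, ha,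
      h.conj _ hv, mul_assoc y, h.sq hv]
    group
    rw [zpow_neg_one (r v), h.inv hv]
  have := (h.step (lam := lam) hv e).2
  rw [inv_mul_cancel_right] at this
  exact ⟨e, by rw [this, mul_inv_cancel_right]⟩

end Kf

variable {ι : Type} [Fintype ι] {M : ι → ι → ℕ} {𝒯 : Set (Set ι)}

theorem RD.p_kf (D : RD M 𝒯) (hl : D.Lift) : D.KF := by
  intro L _ Act lam hn hc h2 hv h0 h1
  obtain ⟨r, hr⟩ := Kf.exists_r (Bm_symm D.cox) h2 hc
  have hq : ∀ y : D.F, y * y = 2 → y ∉ ({0, 1, -1, 2, -2} : Set D.F) := by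
    intro y hy hm
    simp only [Set.mem_insert_iff, Set.mem_singleton_iff] at hm
    rcases hm with rfl | rfl | rfl | rfl | rfl
    · exact D.two (by linear_combination -hy)
    · exact one_ne_zero (by linear_combination -hy)
    · exact one_ne_zero (by linear_combination -hy)
    · exact D.two (by linear_combination hy)
    · exact D.two (by linear_combination hy)
  have hrel : D.Rel fun x => Kf.lb r lam x.v := by
    refine hl _ Act _ (fun x hx => if_neg hx) hn hc (fun v a v' b => ?_)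
      (fun x x' a b e _ => hr.comm h0 a b e) (fun x0 x1 x2 a b e e1 => ?_)
      (fun x0 _ _ x3 a b e _ _ _ _ => (hq (-D.q) (by rw [neg_mul_neg, D.qq])
        (e ▸ hv _ a _ b)).elim)
    · have := hv v a v' b
      simp only [Set.mem_insert_iff, Set.mem_singleton_iff] at this ⊢
      tauto
    · rw [e1]
      exact hr.tri h1 a b e
  refine ⟨(D.lift _ hrel).ker, fun _ => inferInstance, fun h hh hN => ?_⟩
  have key : ∃ y : Kf.Gam D.B Act, y.1 = D.ρ1 (wq M h.2) ∧ (D.lift _ hrel (D.φ h.2)).right = y⁻¹ ∧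
      (D.lift _ hrel (D.φ h.2)).left 1 = h.1 := by
    have ρr : ∀ a, al D.F a ∈ Act → (r (al D.F a)).1 = D.ρ1 (sg M a) := fun a ha =>
      LinearEquiv.ext fun u => by rw [hr.app _ ha, rep_sg_apply]
    refine sub_induction (p := fun h : L × Art M => ∃ y : Kf.Gam D.B Act, y.1 = D.ρ1 (wq M h.2) ∧
      (D.lift _ hrel (D.φ h.2)).right = y⁻¹ ∧ (D.lift _ hrel (D.φ h.2)).left 1 = h.1)
      ⟨1, by simp, by simp, by simp⟩ ?_ ?_ hh
    · rintro ⟨l, g⟩ _ a ha ⟨y, e1, e2, e3⟩
      have s := hr.step (lam := lam) ha e2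
      refine ⟨y * r (al D.F a), ?_, ?_⟩
      · change y.1 * (r (al D.F a)).1 = D.ρ1 (wq M (g * Art.gen M a))
        rw [map_mul, map_mul, e1, ρr a ha, wq_gen]
      · change (D.lift _ hrel (D.φ (g * Art.gen M a))).right = _ ∧
          (D.lift _ hrel (D.φ (g * Art.gen M a))).left 1 = l * lam (al D.F a)
        rw [D.φ_mul_gen, map_mul, D.lift_ζ, D.smul_v, ← e1, ← show _ = l from e3]
        exact s
    · rintro ⟨l, g⟩ _ a ha ⟨y, e1, e2, e3⟩
      have s := hr.step_inv (lam := lam) ha e2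
      have e : (y * r (al D.F a)).1 = D.ρ1 (wq M g * sg M a) := by
        change y.1 * (r (al D.F a)).1 = _
        rw [map_mul, e1, ρr a ha]
      refine ⟨y * r (al D.F a), ?_, ?_⟩
      · change _ = D.ρ1 (wq M (g * (Art.gen M a)⁻¹))
        rw [e, map_mul (wq M), map_inv, wq_gen, sg_inv]
      · change (D.lift _ hrel (D.φ (g * (Art.gen M a)⁻¹))).right = _ ∧
          (D.lift _ hrel (D.φ (g * (Art.gen M a)⁻¹))).left 1 = l * (lam (al D.F a))⁻¹
        rw [D.φ_mul_gen_inv, map_mul, map_inv, D.lift_ζ, D.smul_v, ← e, ← show _ = l from e3]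
        exact s
  obtain ⟨y, -, -, e⟩ := key
  rw [← e, MonoidHom.mem_ker.1 hN]
  rfl

end

end Pool.Agent.P.MP_e794d7_al.FC
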