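import Pool.Agent.P.MP_e794d7_al.FC.Stmt2

/-! Artin groups of FC type: labels for a dihedral parabolic subgroup. -/

set_option autoImplicit false

namespace Pool.Agent.P.MP_e794d7_al.FC

open scoped Classical

noncomputable section

namespace Ki

section Lab

variable {L : Type} [Group L] {m : ℕ}

/-- the relations among the labels -/
structure Gd (m : ℕ) (μ : ℤ → L) : Prop where
  per : ∀ j, μ (j + 2 * m) = μ j
  com : ∀ (j : ℤ) (k : ℕ), 2 * k = m → Commute (μ j) (μ (j + k))
  brd : ∀ (j : ℤ) (k : ℕ), 3 * k = m → (m = 6 → Even j) →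
    μ j * μ (j + 2 * k) * μ j = μ (j + 2 * k) * μ j * μ (j + 2 * k)
  alt : ∀ j, alt (μ j) (μ (j + (m - 1))) m = alt (μ (j + (m - 1))) (μ j) m

theorem per_mod {α : Type} {μ : ℤ → α} (h : ∀ j, μ (j + 2 * m) = μ j) {i j : ℤ} (c : ℤ)
    (e : i = j + c * (2 * m)) : μ i = μ j := by
  rw [e]
  exact (Function.Periodic.int_mul (c := 2 * (m : ℤ)) h c) j

theorem Gd.rfl' {μ : ℤ → L} (h : Gd m μ) (t : ℤ) : Gd m fun i => μ (2 * t + m - i) := by
  refine ⟨fun j => per_mod h.per (-1) (by ring), fun j k hk => ?_, fun j k hk he => ?_,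
    fun j => ?_⟩
  · have := (h.com (2 * t + m - (j + k)) k hk).symm
    rwa [show 2 * t + m - (j + k) + k = 2 * t + m - j by ring] at this
  · have := (h.brd (2 * t + m - (j + 2 * k)) k hk fun e => by
      obtain ⟨c, hc⟩ := he e
      exact ⟨t + 3 - c - k, by rw [e, hc]; push_cast; ring⟩).symm
    rwa [show 2 * t + m - (j + 2 * k) + 2 * k = 2 * t + m - j by ring] at this
  · have := (h.alt (2 * t + m - (j + (m - 1)))).symm
    rwa [show 2 * t + m - (j + (m - 1)) + (m - 1) = 2 * t + m - j by ring] at this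

/-- the states -/
def Om (m : ℕ) (L : Type) [Group L] : Type := {μ : ℤ → L // Gd m μ}

theorem finite_Om [Finite L] (hm : 0 < m) : Finite (Om m L) := by
  refine Finite.of_injective (fun (μ : Om m L) (i : Set.Ico (0 : ℤ) (2 * m)) => μ.1 i)
    fun μ ν h => Subtype.ext (funext fun i => ?_)
  have h0 : (0 : ℤ) < 2 * m := by omega
  have e : i = i % (2 * m) + i / (2 * m) * (2 * m) := (Int.emod_add_ediv_mul i _).symm
  rw [per_mod μ.2.per _ e, per_mod ν.2.per _ e]
  exact congrFun h ⟨_, Int.emod_nonneg _ h0.ne', Int.emod_lt_of_pos _ h0⟩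

/-- the reflections, acting on the states -/
def rf (t : ℤ) : Equiv.Perm (Om m L) :=
  Function.Involutive.toPerm (fun μ => ⟨fun i => μ.1 (2 * t + m - i), μ.2.rfl' t⟩)
    fun μ => Subtype.ext (funext fun i => congrArg μ.1 (by ring))

/-- the wreath product -/
abbrev Wr (m : ℕ) (L : Type) [Group L] : Type :=
  (Om m L → L) ⋊[mulAutArrow] Equiv.Perm (Om m L)

/-- the labels in the wreath product -/
def lb (t : ℤ) : Wr m L := ⟨fun μ => μ.1 t, rf t⟩

/-- the new state -/
def rt (g : Wr m L) (μ : Om m L) : Om m L := g.right⁻¹ μ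

theorem wext {g h : Wr m L} (h1 : ∀ μ, g.left μ = h.left μ)
    (h2 : ∀ μ i, (rt g μ).1 i = (rt h μ).1 i) : g = h :=
  SemidirectProduct.ext (funext h1)
    (inv_injective (Equiv.ext fun μ => Subtype.ext (funext (h2 μ))))

theorem left_mul (g h : Wr m L) (μ : Om m L) : (g * h).left μ = g.left μ * h.left (rt g μ) := rfl

theorem rt_mul (g h : Wr m L) (μ : Om m L) : rt (g * h) μ = rt h (rt g μ) := rfl

theorem left_lb (t : ℤ) (μ : Om m L) : (lb t).left μ = μ.1 t := rfl

theorem rt_lb (t : ℤ) (μ : Om m L) (i : ℤ) : (rt (lb t) μ).1 i = μ.1 (2 * t + m - i) := rfl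

theorem left_lb_inv (t : ℤ) (μ : Om m L) : (lb t)⁻¹.left μ = (μ.1 (2 * t + m - t))⁻¹ := rfl

theorem rt_lb_inv (t : ℤ) (μ : Om m L) (i : ℤ) :
    (rt (lb t)⁻¹ μ).1 i = μ.1 (2 * t + m - i) := rfl

theorem lb_per (t : ℤ) : (lb (t + 2 * m) : Wr m L) = lb t :=
  wext (fun μ => μ.2.per t) fun μ i => by
    rw [rt_lb, rt_lb]
    exact per_mod μ.2.per 2 (by ring)

theorem lb_com (j : ℤ) {k : ℕ} (hk : 2 * k = m) : Commute (lb j : Wr m L) (lb (j + k)) := by
  have e : (m : ℤ) = 2 * k := by omega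
  refine wext (fun μ => ?_) fun μ i => ?_
  · simp only [left_mul, left_lb, rt_lb]
    rw [show 2 * j + m - (j + k) = j + k by rw [e]; ring,
      per_mod μ.2.per (i := 2 * (j + k) + m - j) (j := j) 1 (by rw [e]; ring)]
    exact μ.2.com j k hk
  · simp only [rt_mul, rt_lb]
    exact per_mod μ.2.per (-1) (by rw [e]; ring)

theorem lb_brd (j : ℤ) {k : ℕ} (hk : 3 * k = m) (he : m = 6 → Even j) :
    (lb j * lb (j + k) * lb (j + 2 * k) : Wr m L) = lb (j + 2 * k) * lb (j + k) * lb j := by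
  have e : (m : ℤ) = 3 * k := by omega
  refine wext (fun μ => ?_) fun μ i => ?_
  · simp only [left_mul, left_lb, rt_mul, rt_lb]
    rw [show 2 * j + m - (j + k) = j + 2 * k by rw [e]; ring,
      show 2 * j + m - (2 * (j + k) + m - (j + 2 * k)) = j by ring,
      per_mod μ.2.per (i := 2 * (j + 2 * k) + m - (j + k)) (j := j) 1 (by rw [e]; ring),
      show 2 * (j + 2 * k) + m - (2 * (j + k) + m - j) = j + 2 * k by ring]
    exact μ.2.brd j k hk he
  · simp only [rt_mul, rt_lb]
    exact congrArg μ.1 (by ring)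

theorem lb_run (j e : ℤ) (μ : Om m L) (n : ℕ) :
    ((List.range n).map fun i : ℕ => (lb (j + e * i) : Wr m L)).prod.left μ =
      alt (μ.1 j) (μ.1 (j + (m - e))) n ∧
    ∀ i, (rt ((List.range n).map fun i : ℕ => (lb (j + e * i) : Wr m L)).prod μ).1 i =
      μ.1 (if Even n then i - e * n else 2 * j + e * (n - 1) + m - i) := by
  induction n with
  | zero => exact ⟨rfl, fun i => by simp [rt]⟩
  | succ n ih =>
    rw [List.range_succ, List.map_append, List.prod_append, List.map_singleton,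
      List.prod_singleton, left_mul, left_lb, alt_succ, ih.1, ih.2]
    refine ⟨?_, fun i => ?_⟩
    · congr 1
      split_ifs <;> exact congrArg μ.1 (by ring)
    · rw [rt_mul, rt_lb, ih.2]
      by_cases h : Even n
      · rw [if_pos h, if_neg (by simpa [Nat.even_add_one] using h)]
        exact congrArg μ.1 (by push_cast; ring)
      · rw [if_neg h, if_pos (by simpa [Nat.even_add_one] using h)]
        exact congrArg μ.1 (by push_cast; ring)

theorem lb_full (j : ℕ) :
    ((List.range m).map fun i => (lb ((j + i : ℕ) : ℤ) : Wr m L)).prod =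
      ((List.range m).reverse.map fun i => (lb ((j + i : ℕ) : ℤ) : Wr m L)).prod := by
  have e1 : ((List.range m).map fun i => (lb ((j + i : ℕ) : ℤ) : Wr m L)) =
      (List.range m).map fun i : ℕ => lb (j + 1 * i) := by simp
  have e2 : ((List.range m).reverse.map fun i => (lb ((j + i : ℕ) : ℤ) : Wr m L)) =
      (List.range m).map fun i : ℕ => lb (j + (m - 1) + -1 * i) := by
    refine List.ext_getElem (by simp) fun i h1 h2 => ?_
    simp only [List.length_map, List.length_range] at h2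
    simp only [List.getElem_map, List.getElem_reverse, List.getElem_range, List.length_range]
    congr 1
    omega
  rw [e1, e2]
  refine wext (fun μ => ?_) fun μ i => ?_
  · rw [(lb_run _ _ μ m).1, (lb_run _ _ μ m).1,
      per_mod μ.2.per (i := j + (m - 1) + (m - -1)) (j := j) 1 (by ring)]
    exact μ.2.alt j
  · rw [(lb_run _ _ μ m).2, (lb_run _ _ μ m).2]
    split_ifs
    · exact per_mod μ.2.per (-1) (by ring)
    · exact congrArg μ.1 (by ring)

end Lab

variable {ι : Type} [Fintype ι] {M : ι → ι → ℕ} {𝒯 : Set (Set ι)}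

/-- the colours of the dihedral subgroup, with an integer index -/
def XZ (D : RD M 𝒯) (a b : ι) (j : ℤ) : D.X :=
  (sg M a * sg M b) ^ (j / 2) • if Even j then D.x a else sg M a • D.x b

variable {D : RD M 𝒯} {a b : ι}

theorem XZ_nat (j : ℕ) : XZ D a b j = D.cone 1 a b j := by
  obtain ⟨k, rfl | rfl⟩ := Nat.even_or_odd' j
  · rw [XZ, RD.cone, alt_even, one_mul, el, if_pos (even_two_mul k), if_pos (by simp),
      show ((2 * k : ℕ) : ℤ) / 2 = k by omega, zpow_natCast]
  · rw [XZ, RD.cone, alt_odd, one_mul, el, if_neg (show ¬Even (2 * k + 1) by simp),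
      if_neg (by simp), show ((2 * k + 1 : ℕ) : ℤ) / 2 = k by omega, zpow_natCast, mul_smul]

theorem XZ_add (c j : ℤ) : (sg M a * sg M b) ^ c • XZ D a b j = XZ D a b (j + 2 * c) := by
  rw [XZ, XZ, smul_smul, ← zpow_add, show (j + 2 * c) / 2 = c + j / 2 by omega]
  simp only [Int.even_add, even_two, Even.mul_right, iff_true]

omit [Fintype ι] in
theorem rot_pow (a b : ι) : (sg M a * sg M b) ^ M a b = 1 := by
  have h := brd_sg M Set.univ a trivial b trivial
  have e : sg M b * sg M a = (sg M a * sg M b)⁻¹ := by rw [mul_inv_rev, sg_inv, sg_inv]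
  obtain ⟨k, hk | hk⟩ := Nat.even_or_odd' (M a b)
  · rw [hk, alt_even, alt_even, e, inv_pow] at h
    rw [hk, two_mul, pow_add]
    exact mul_eq_one_iff_eq_inv.2 h
  · rw [hk, alt_odd, alt_odd, e, inv_pow] at h
    rw [hk, pow_succ, two_mul, pow_add, mul_assoc, ← mul_assoc _ (sg M a), h, mul_assoc, sg_sq,
      mul_one, mul_inv_cancel]

theorem XZ_per (j : ℤ) : XZ D a b (j + 2 * M a b) = XZ D a b j := by
  rw [← XZ_add, zpow_natCast, rot_pow, one_smul]

theorem XZ_zero : XZ D a b 0 = D.x a := by simp [XZ]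

theorem XZ_b (hr : D.Roots) (hab : a ≠ b) (hm : 0 < M a b) : XZ D a b (M a b - 1) = D.x b := by
  have h := hr.rev 1 b a 0 hab.symm (by rwa [D.cox.symm])
  rw [D.cox.symm b a, ← XZ_nat] at h
  rw [show (M a b : ℤ) - 1 = (M a b - 1 - 0 : ℕ) by omega, h]
  simp [RD.cone, alt_zero, el]

theorem XZ_sa (hr : D.Roots) (hab : a ≠ b) (hm : 0 < M a b) (j : ℤ) :
    sg M a • XZ D a b j = XZ D a b (M a b - j) := by
  have c1 : ∀ c : ℤ, sg M a * (sg M a * sg M b) ^ c = (sg M a * sg M b) ^ (-c) * sg M a := by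
    intro c
    have : SemiconjBy (sg M a) (sg M a * sg M b) (sg M a * sg M b)⁻¹ := by
      rw [SemiconjBy, mul_inv_rev, sg_inv, sg_inv, ← mul_assoc, mul_assoc (sg M b), sg_sq, one_mul,
        mul_one]
    rw [zpow_neg, ← inv_zpow]
    exact this.zpow_right c
  have h0 : sg M a • XZ D a b 0 = XZ D a b (M a b - 0) := by
    have h := hr.rev 1 b a (M a b - 1) hab.symm (by rw [D.cox.symm b a]; omega)
    rw [D.cox.symm b a, Nat.sub_self, ← XZ_nat] at h
    rw [sub_zero, XZ_nat, show ((0 : ℤ)) = (0 : ℕ) from rfl, h]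
    obtain ⟨n, hn⟩ : ∃ n, M a b = n + 1 := ⟨M a b - 1, by omega⟩
    rw [hn, Nat.add_sub_cancel, RD.cone, RD.cone, alt_succ', one_mul, one_mul, mul_smul]
    simp only [el, Nat.even_add_one, ite_not]
  have h1 : sg M a • XZ D a b 1 = XZ D a b (M a b - 1) := by
    rw [XZ_b hr hab hm]
    simp [XZ, smul_smul]
  obtain ⟨k, rfl | rfl⟩ := Int.even_or_odd' j
  · rw [← zero_add (2 * k), ← XZ_add, smul_smul, c1, mul_smul, h0, XZ_add]
    congr 1
    ring
  · rw [add_comm, ← XZ_add, smul_smul, c1, mul_smul, h1, XZ_add]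
    congr 1
    ring

theorem XZ_sb (hr : D.Roots) (hab : a ≠ b) (hm : 0 < M a b) (j : ℤ) :
    sg M b • XZ D a b j = XZ D a b (2 * (M a b - 1) + M a b - j) := by
  have e : sg M b = sg M a * (sg M a * sg M b) ^ (1 : ℤ) := by
    rw [zpow_one, ← mul_assoc, sg_sq, one_mul]
  rw [e, mul_smul, XZ_add, XZ_sa hr hab hm]
  exact per_mod XZ_per (-1) (by ring)

end Ki

open Ki in
theorem RD.p_ki {ι : Type} [Fintype ι] {M : ι → ι → ℕ} {𝒯 : Set (Set ι)} (D : RD M 𝒯)
    (hr : D.Roots) {a b : ι} (hab : a ≠ b) (hm : 5 ≤ M a b) (hl : D.LiftI a b) : D.KI a b := by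
  intro L _ lam h1 h2 h3 h4
  have hm0 : 0 < M a b := by omega
  obtain ⟨ψ, hψ⟩ := hl (Wr (M a b) L) (fun j => lb j) (fun j => by push_cast; exact lb_per _)
    (fun j k hk => by push_cast; exact lb_com _ hk)
    (fun j k hk he => by push_cast; exact lb_brd _ hk fun e => by exact_mod_cast he e) lb_full
  have hZ : ∀ j : ℤ, ψ (D.ζ (XZ D a b j)) = lb j := by
    intro j
    have h0 : (0 : ℤ) < 2 * M a b := by omega
    have e : j = j % (2 * M a b) + j / (2 * M a b) * (2 * M a b) := (Int.emod_add_ediv_mul j _).symm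
    obtain ⟨n, hn⟩ := Int.eq_ofNat_of_zero_le (Int.emod_nonneg j h0.ne')
    rw [per_mod XZ_per _ e, per_mod lb_per _ e, hn, XZ_nat, hψ]
  obtain ⟨μ, hμ⟩ : ∃ μ : Om (M a b) L, μ.1 = lam := ⟨⟨lam, h1, h2, h3, h4⟩, rfl⟩
  refine ⟨ψ.ker, fun hL => ?_, fun h hh e => ?_⟩
  · have := finite_Om (L := L) hm0
    have : Finite (Wr (M a b) L) := Finite.of_equiv _ SemidirectProduct.equivProd.symm
    infer_instance
  have gen : ∀ p ∈ ({(lam 0, Art.gen M a), (lam (M a b - 1), Art.gen M b)} : Set (L × Art M)),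
      ∃ (t : ℤ) (u : ι), p = (lam t, Art.gen M u) ∧ D.x u = XZ D a b t ∧
        ∀ j, sg M u • XZ D a b j = XZ D a b (2 * t + M a b - j) := by
    rintro p (rfl | rfl)
    · exact ⟨0, a, rfl, XZ_zero.symm, fun j => by rw [XZ_sa hr hab hm0, mul_zero, zero_add]⟩
    · exact ⟨_, b, rfl, (XZ_b hr hab hm0).symm, XZ_sb hr hab hm0⟩
  have key : ∃ ε s : ℤ, (ε = 1 ∨ ε = -1) ∧
      (∀ j, wq M h.2 • XZ D a b j = XZ D a b (ε * j + s)) ∧
      (∀ i, (rt (ψ (D.φ h.2)) μ).1 i = lam (ε * (i - s))) ∧ (ψ (D.φ h.2)).left μ = h.1 := by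
    clear e
    induction hh using Subgroup.closure_induction_right with
    | one => exact ⟨1, 0, Or.inl rfl, fun j => by simp, fun i => by simp [rt, hμ], by simp⟩
    | mul_right g _ p hp ih =>
      obtain ⟨t, u, rfl, e1, e2⟩ := gen p hp
      obtain ⟨ε, s, hε, i1, i2, i3⟩ := ih
      refine ⟨-ε, ε * (2 * t + M a b) + s, by omega, fun j => ?_, fun i => ?_, ?_⟩
      · rw [Prod.snd_mul, map_mul, mul_smul, wq_gen, e2, i1]
        congr 1
        ring
      · rw [Prod.snd_mul, RD.φ_mul_gen, map_mul, e1, i1, hZ, rt_mul, rt_lb, i2]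
        rcases hε with rfl | rfl
        · exact congrArg lam (by ring)
        · exact per_mod h1 (-1) (by ring)
      · rw [Prod.snd_mul, RD.φ_mul_gen, map_mul, e1, i1, hZ, left_mul, left_lb, i2, i3,
          Prod.fst_mul]
        congr 2
        rcases hε with rfl | rfl <;> ring
    | mul_inv_cancel g _ p hp ih =>
      obtain ⟨t, u, rfl, e1, e2⟩ := gen p hp
      obtain ⟨ε, s, hε, i1, i2, i3⟩ := ih
      refine ⟨-ε, ε * (2 * t + M a b) + s, by omega, fun j => ?_, fun i => ?_, ?_⟩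
      · rw [Prod.snd_mul, Prod.snd_inv, map_mul, map_inv, mul_smul, wq_gen, sg_inv, e2, i1]
        congr 1
        ring
      · rw [Prod.snd_mul, Prod.snd_inv, RD.φ_mul_gen_inv, map_mul, map_inv, e1, mul_smul, e2, i1,
          hZ, rt_mul, rt_lb_inv, i2]
        rcases hε with rfl | rfl
        · exact per_mod h1 1 (by ring)
        · exact congrArg lam (by ring)
      · rw [Prod.snd_mul, Prod.snd_inv, RD.φ_mul_gen_inv, map_mul, map_inv, e1, mul_smul, e2, i1,
          hZ, left_mul, left_lb_inv, i2, i3, Prod.fst_mul, Prod.fst_inv]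
        congr 2
        rcases hε with rfl | rfl
        · exact per_mod h1 1 (by ring)
        · exact congrArg lam (by ring)
  obtain ⟨-, -, -, -, -, i3⟩ := key
  rw [← i3, MonoidHom.mem_ker.1 e]
  rfl

end

end Pool.Agent.P.MP_e794d7_al.FC
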