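import Pool.Agent.P.MP_e794d7_al.FC.Stmt

/-! The active walls of a dihedral cone form an arithmetic progression. -/

set_option autoImplicit false

namespace Pool.Agent.P.MP_e794d7_al.FC

open scoped Classical

namespace LiftP

section Cheb

variable {R : Type} [CommRing R] (c : R)

theorem U_add (k : ℕ) : ∀ n, U c (n + k) = U c n * U c (k + 1) + (U c (n + 1) - c * U c n) * U c k
  | 0 => by simp [U]
  | 1 => by rw [add_comm]; simp [U]
  | n + 2 => by
    have h1 := U_add k (n + 1)
    have h2 := U_add k n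
    rw [show n + 2 + k = n + k + 2 by ring, U, show n + k + 1 = n + 1 + k by ring, h1, h2]
    simp only [U]
    ring

theorem U_cas : ∀ k, U c (k + 1) ^ 2 - c * U c (k + 1) * U c k + U c k ^ 2 = 1
  | 0 => by simp [U]
  | k + 1 => by
    rw [← U_cas k, U]
    ring

theorem U_two (n k : ℕ) : U c n + U c (n + 2 * k) = Ck c k * U c (n + k) := by
  have h1 := U_add c (n + k) k
  have h2 := U_add c n k
  have h3 := U_add c n (k + 1)
  rw [show k + (n + k) = n + 2 * k by ring] at h1
  rw [add_comm k n] at h2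
  rw [show k + 1 + n = n + k + 1 by ring, U] at h3
  rw [h1, h3, h2, Ck]
  linear_combination (-U c n) * U_cas c k

theorem U_per {m : ℕ} (hm : 0 < m) (h0 : U c m = 0) (h1 : U c (m - 1) = 1) (n : ℕ) :
    U c (n + m) = -U c n := by
  obtain ⟨m, rfl⟩ : ∃ k, m = k + 1 := ⟨m - 1, by omega⟩
  rw [Nat.add_sub_cancel] at h1
  rw [U_add, U, h0, h1]
  ring

end Cheb

section Comb

variable {L : Type} [Monoid L]

theorem prod_filter (F : ℕ → L) (J : ℕ → Prop) (h0 : ∀ i, ¬ J i → F i = 1) :
    ∀ l : List ℕ, (l.map F).prod = ((l.filter fun i => decide (J i)).map F).prod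
  | [] => rfl
  | a :: l => by
    by_cases h : J a
    · rw [List.filter_cons_of_pos (by simpa using h), List.map_cons, List.map_cons, List.prod_cons,
        List.prod_cons, prod_filter F J h0 l]
    · rw [List.filter_cons_of_neg (by simpa using h), List.map_cons, List.prod_cons, h0 a h,
        one_mul, prod_filter F J h0 l]

theorem reduce (F : ℕ → L) (J : ℕ → Prop) (h0 : ∀ i, ¬ J i → F i = 1) (m : ℕ) (l : List ℕ)
    (hl : l.Pairwise (· < ·)) (hm : ∀ i, i ∈ l ↔ i < m ∧ J i)
    (h : (l.map F).prod = (l.reverse.map F).prod) :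
    ((List.range m).map F).prod = ((List.range m).reverse.map F).prod := by
  have e : ((List.range m).filter fun i => decide (J i)) = l :=
    List.Pairwise.eq_of_mem_iff (r := (· < ·)) (List.pairwise_lt_range.filter _) hl fun i => by
      simp [hm]
  rw [prod_filter F J h0, prod_filter F J h0 (List.range m).reverse, List.filter_reverse, e, h]

theorem comb (F : ℕ → L) (J : ℕ → Prop) (m : ℕ) (h0 : ∀ i, ¬ J i → F i = 1)
    (per : ∀ i, J (i + m) ↔ J i) (cl : ∀ i k, J i → J (i + k) → J (i + 2 * k))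
    (dist : ∀ i k, J i → J (i + k) → 0 < k → k < m →
      2 * k = m ∨ 3 * k = m ∨ 3 * k = 2 * m ∨ 4 * k = m ∨ 4 * k = 3 * m)
    (P2 : ∀ a k, 0 < k → 2 * k = m → J a → J (a + k) → (∀ j, 0 < j → j < k → ¬ J (a + j)) →
      F a * F (a + k) = F (a + k) * F a)
    (P3 : ∀ a k, 0 < k → 3 * k = m → J a → J (a + 2 * k) →
      F a * F (a + k) * F (a + 2 * k) = F (a + 2 * k) * F (a + k) * F a)
    (P4 : ∀ a k, 0 < k → 4 * k = m → J a → J (a + 3 * k) →
      F a * F (a + k) * F (a + 2 * k) * F (a + 3 * k) =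
        F (a + 3 * k) * F (a + 2 * k) * F (a + k) * F a) :
    ((List.range m).map F).prod = ((List.range m).reverse.map F).prod := by
  by_cases hex : ∃ a, a < m ∧ J a
  swap
  · exact reduce F J h0 m [] List.Pairwise.nil (fun i => by
      simpa using fun h1 h2 => hex ⟨i, h1, h2⟩) rfl
  have hex' : ∃ a, J a := hex.imp fun _ h => h.2
  obtain ⟨a, ha, amin⟩ : ∃ a, J a ∧ ∀ c, c < a → ¬ J c :=
    ⟨Nat.find hex', Nat.find_spec hex', fun c => Nat.find_min hex'⟩
  have ham : a < m := by
    obtain ⟨b, hb, hb'⟩ := hex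
    by_contra h
    exact amin b (by omega) hb'
  have hk' : ∃ k, 0 < k ∧ J (a + k) := ⟨m, by omega, (per a).2 ha⟩
  obtain ⟨k, ⟨hk, hak⟩, kmin⟩ : ∃ k, (0 < k ∧ J (a + k)) ∧ ∀ j, j < k → ¬ (0 < j ∧ J (a + j)) :=
    ⟨Nat.find hk', Nat.find_spec hk', fun j => Nat.find_min hk'⟩
  have kmin' : ∀ j, 0 < j → j < k → ¬ J (a + j) := fun j h1 h2 h3 => kmin j h2 ⟨h1, h3⟩
  by_cases hkm : k < m
  swap
  · refine reduce F J h0 m [a] (List.pairwise_singleton _ _) (fun i => ?_) rfl
    rw [List.mem_singleton]
    refine ⟨fun h => h ▸ ⟨ham, ha⟩, fun h => ?_⟩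
    by_contra hne
    have h1 : a ≤ i := not_lt.1 fun h' => amin i h' h.2
    exact kmin' (i - a) (by omega) (by omega) (by rw [Nat.add_sub_cancel' h1]; exact h.2)
  have prog : ∀ j, J (a + j * k) ∧ J (a + (j + 1) * k) := fun j => by
    induction j with
    | zero => simpa using ⟨ha, hak⟩
    | succ j ih =>
      refine ⟨ih.2, ?_⟩
      have := cl (a + j * k) k ih.1 (by rw [show a + j * k + k = a + (j + 1) * k by ring]; exact ih.2)
      rwa [show a + j * k + 2 * k = a + (j + 1 + 1) * k by ring] at this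
  have gap : ∀ j r, 0 < r → r < k → ¬ J (a + j * k + r) := fun j => by
    induction j with
    | zero => simpa using kmin'
    | succ j ih =>
      intro r h1 h2 h3
      have h4 : J (a + (j + 1) * k + r + (m - r)) := by
        rw [show a + (j + 1) * k + r + (m - r) = a + (j + 1) * k + m by omega, per]
        exact (prog j).2
      have h5 := cl _ _ h3 h4
      rw [show a + (j + 1) * k + r + 2 * (m - r) = a + j * k + (k - r) + m + m by
        rw [Nat.succ_mul]; omega, per, per] at h5
      exact ih (k - r) (by omega) (by omega) h5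
  have mem : ∀ c, J c → ∃ j, c = a + j * k := fun c hc => by
    have h1 : a ≤ c := not_lt.1 fun h' => amin c h' hc
    have h2 := Nat.div_add_mod' (c - a) k
    have h3 := Nat.mod_lt (c - a) hk
    refine ⟨(c - a) / k, ?_⟩
    by_contra hne
    refine gap ((c - a) / k) ((c - a) % k) (by omega) h3 ?_
    rwa [show a + (c - a) / k * k + (c - a) % k = c by omega]
  have low : ∀ d, (d + 1) * k = m → a < k := fun d hd => by
    by_contra h
    have h1 := (prog d).1
    rw [show a + d * k = a - k + m by rw [← hd, Nat.succ_mul]; omega, per] at h1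
    exact amin _ (by omega) h1
  have bd : ∀ d c, d * k = m → c < m → J c → ∃ j, j < d ∧ c = a + j * k := fun d c hd h1 h2 => by
    obtain ⟨j, rfl⟩ := mem c h2
    refine ⟨j, ?_, rfl⟩
    by_contra h
    have := Nat.mul_le_mul_right k (not_lt.1 h)
    omega
  have j1 := (prog 1).1
  have j2 := (prog 2).1
  have j3 := (prog 3).1
  rw [one_mul] at j1
  rcases dist a k ha hak hk hkm with h | h | h | h | h
  · have hl := low 1 h
    refine reduce F J h0 m [a, a + k] (by simp; omega) (fun i => ⟨fun hi => ?_, fun hi => ?_⟩) ?_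
    · simp only [List.mem_cons, List.not_mem_nil, or_false] at hi
      rcases hi with rfl | rfl
      exacts [⟨ham, ha⟩, ⟨by omega, j1⟩]
    · obtain ⟨j, hj, rfl⟩ := bd 2 i h hi.1 hi.2
      interval_cases j <;> simp
    · simpa using P2 a k hk h ha hak kmin'
  · have hl := low 2 h
    refine reduce F J h0 m [a, a + k, a + 2 * k] (by simp; omega)
      (fun i => ⟨fun hi => ?_, fun hi => ?_⟩) ?_
    · simp only [List.mem_cons, List.not_mem_nil, or_false] at hi
      rcases hi with rfl | rfl | rfl
      exacts [⟨ham, ha⟩, ⟨by omega, j1⟩, ⟨by omega, j2⟩]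
    · obtain ⟨j, hj, rfl⟩ := bd 3 i h hi.1 hi.2
      interval_cases j <;> simp
    · simpa [mul_assoc] using P3 a k hk h ha j2
  · refine (kmin' (2 * k - m) (by omega) (by omega) ?_).elim
    rwa [show a + 2 * k = a + (2 * k - m) + m by omega, per] at j2
  · have hl := low 3 h
    refine reduce F J h0 m [a, a + k, a + 2 * k, a + 3 * k] (by simp; omega)
      (fun i => ⟨fun hi => ?_, fun hi => ?_⟩) ?_
    · simp only [List.mem_cons, List.not_mem_nil, or_false] at hi
      rcases hi with rfl | rfl | rfl | rfl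
      exacts [⟨ham, ha⟩, ⟨by omega, j1⟩, ⟨by omega, j2⟩, ⟨by omega, j3⟩]
    · obtain ⟨j, hj, rfl⟩ := bd 4 i h hi.1 hi.2
      interval_cases j <;> simp
    · simpa [mul_assoc] using P4 a k hk h ha j3
  · refine (kmin' (2 * k - m) (by omega) (by omega) ?_).elim
    rwa [show a + 2 * k = a + (2 * k - m) + m by omega, per] at j2

end Comb

variable {ι : Type} [Fintype ι] {M : ι → ι → ℕ} {𝒯 : Set (Set ι)} (D : RD M 𝒯)

theorem v_pair (w : Wg M) {s t : ι} (hst : s ≠ t) (i k : ℕ) :
    D.B (D.cone w s t i).v (D.cone w s t (i + k)).v = D.red (Ck (D.c (M s t)) k) := by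
  rw [D.cone_v w hst, D.cone_v w hst, ← map_smul, ← map_smul, ← map_smul, ← map_smul, ← map_add,
    ← map_add, rep_B, map_Ck]
  exact (rk (c := fun m => D.red (D.c m)) D.cox hst).pair k i

theorem v_two (w : Wg M) {s t : ι} (hst : s ≠ t) (i k : ℕ) :
    (D.cone w s t i).v + (D.cone w s t (i + 2 * k)).v =
      D.red (Ck (D.c (M s t)) k) • (D.cone w s t (i + k)).v := by
  have h1 := U_two (D.red (D.c (M s t))) i k
  have h2 := U_two (D.red (D.c (M s t))) (i + 1) k
  rw [D.cone_v w hst, D.cone_v w hst, D.cone_v w hst, map_Ck, smul_add, smul_smul, smul_smul,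
    show i + k + 1 = i + 1 + k by ring, show i + 2 * k + 1 = i + 1 + 2 * k by ring, ← h1, ← h2]
  module

theorem v_per (w : Wg M) {s t : ι} (hst : s ≠ t) (h0 : M s t ≠ 0) (i : ℕ) :
    (D.cone w s t (i + M s t)).v = -(D.cone w s t i).v := by
  obtain ⟨h1, h2⟩ := D.ok1.top s t hst h0
  rw [D.cone_v w hst, D.cone_v w hst, show i + M s t + 1 = i + 1 + M s t by ring,
    U_per _ (Nat.pos_of_ne_zero h0) h1 h2, U_per _ (Nat.pos_of_ne_zero h0) h1 h2]
  module

theorem cone_k (w : Wg M) {s t : ι} (h0 : M s t ≠ 0) (he : Even (M s t)) (i : ℕ) :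
    (D.cone w s t i).k = D.χ w * D.χ (sg M (el s t i)) * (D.χ w)⁻¹ := by
  have hc := D.χe s t h0 he
  have h1 : ∀ j n, Commute (D.χ (alt (sg M s) (sg M t) n)) (D.χ (sg M (el s t j))) := fun j n => by
    induction n with
    | zero => simp [alt_zero]
    | succ n ih =>
      rw [alt_el, map_mul]
      refine ih.mul_left ?_
      unfold el
      split_ifs
      exacts [Commute.refl _, hc, hc.symm, Commute.refl _]
  rw [RD.cone, RD.smul_k, RD.x, map_mul, mul_inv_rev]
  have := (h1 i i).eq
  calc _ = D.χ w * (D.χ (alt (sg M s) (sg M t) i) * D.χ (sg M (el s t i)) *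
        (D.χ (alt (sg M s) (sg M t) i))⁻¹) * (D.χ w)⁻¹ := by simp only [mul_assoc]
    _ = _ := by rw [this, mul_inv_cancel_right]

omit [Fintype ι] in
theorem el_add (s t : ι) (i k : ℕ) : el s t (i + 2 * k) = el s t i := by
  simp [el, Nat.even_add]

end LiftP

open LiftP

variable {ι : Type} [Fintype ι] {M : ι → ι → ℕ} {𝒯 : Set (Set ι)}

theorem RD.p_lift (D : RD M 𝒯) (hr : D.Roots) : D.Lift := by
  intro L _ Act ℓ h0 neg refl vals P2 P3 P4 w s t
  by_cases hst : s = t
  · rw [hst]
  by_cases hm : M s t = 0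
  · rw [hm]; rfl
  have hq : D.q ≠ 0 := fun h => D.two (by rw [← D.qq, h, mul_zero])
  have e : D.cw ℓ w t s (M s t) =
      ((List.range (M s t)).reverse.map fun i => ℓ (D.cone w s t i)).prod := by
    rw [RD.cw]
    congr 1
    apply List.ext_getElem
    · simp
    · intro i h1 h2
      have hi : i < M s t := by simpa using h1
      have := hr.rev w s t (M s t - 1 - i) hst (by omega)
      rw [show M s t - 1 - (M s t - 1 - i) = i by omega] at this
      simp [this]
  rw [e, RD.cw]
  have sep := D.sepC s t hst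
  refine comb (fun i => ℓ (D.cone w s t i)) (fun i => (D.cone w s t i).v ∈ Act) (M s t)
    (fun i => h0 _) (fun i => ?_) (fun i k h1 h2 => ?_) (fun i k h1 h2 h3 h4 => ?_)
    (fun a k hk h h1 h2 h3 => ?_) (fun a k hk h h1 h2 => ?_) (fun a k hk h h1 h2 => ?_)
  · rw [v_per D w hst hm]
    exact ⟨fun h => neg_neg (D.cone w s t i).v ▸ neg _ h, neg _⟩
  · have h3 := neg _ (refl _ h2 _ h1)
    rwa [Bm_symm D.cox, v_pair D w hst, ← v_two D w hst, sub_add_cancel_left, neg_neg] at h3
  · have h5 := vals _ h1 _ h2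
    have h6 := sep k h3 h4
    rw [v_pair D w hst] at h5
    simp only [Set.mem_insert_iff, Set.mem_singleton_iff] at h5
    rcases h5 with h | h | h | h | h | h | h
    · exact Or.inl (h6.zero.1 h)
    · exact Or.inr (Or.inl (h6.one.1 h))
    · exact Or.inr (Or.inr (Or.inl (h6.neg_one.1 h)))
    · exact Or.inr (Or.inr (Or.inr (Or.inl (h6.rt.1 h))))
    · exact Or.inr (Or.inr (Or.inr (Or.inr (h6.neg_rt.1 h))))
    · exact (h6.two h).elim
    · exact (h6.neg_two h).elim
  · refine (P2 _ _ h1 h2 ?_ fun hk' v hv hq' => ?_).eq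
    · rw [v_pair D w hst]
      exact (sep k hk (by omega)).zero.2 h
    · have he : Even (M s t) := ⟨k, by omega⟩
      rw [cone_k D w hm he, cone_k D w hm he, mul_left_inj, mul_right_inj] at hk'
      have hel : el s t a = el s t (a + k) := by
        by_contra hne
        exact D.χne _ _ hne hk'
      have hke : Even k := by
        by_contra hko
        unfold el at hel
        by_cases ha : Even a
        · rw [if_pos ha, if_neg (by simp [Nat.even_add, ha, hko])] at hel
          exact hst hel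
        · rw [if_neg ha, if_pos (by simp [Nat.even_add, ha, hko])] at hel
          exact hst hel.symm
      obtain ⟨j, rfl⟩ := hke
      rw [← two_mul, v_two D w hst, (sep j (by omega) (by omega)).rt.2 (by omega)] at hq'
      exact h3 j (by omega) (by omega) (smul_right_injective _ hq hq' ▸ hv)
  · refine P3 _ _ _ h1 h2 ?_ ?_
    · rw [v_pair D w hst]
      exact (sep (2 * k) (by omega) (by omega)).neg_one.2 (by omega)
    · rw [v_two D w hst, (sep k hk (by omega)).one.2 h, one_smul]
  · have he : Even (M s t) := ⟨2 * k, by omega⟩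
    have e1 := v_two D w hst a k
    have e2 := v_two D w hst (a + k) k
    rw [(sep k hk (by omega)).rt.2 h] at e1 e2
    rw [show a + k + 2 * k = a + 3 * k by ring, show a + k + k = a + 2 * k by ring] at e2
    refine P4 _ _ _ _ h1 h2 ?_ ?_ ?_ ?_ ?_
    · rw [v_pair D w hst]
      exact (sep (3 * k) (by omega) (by omega)).neg_rt.2 (by omega)
    · linear_combination (norm := module) -D.q • e1 - e2 - D.qq • (D.cone w s t (a + k)).v
    · linear_combination (norm := module) -e1 - D.q • e2 - D.qq • (D.cone w s t (a + 2 * k)).v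
    · rw [cone_k D w hm he, cone_k D w hm he, el_add]
    · rw [cone_k D w hm he, cone_k D w hm he, show a + 3 * k = a + k + 2 * k by ring, el_add]

end Pool.Agent.P.MP_e794d7_al.FC
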