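import Pool.Agent.P.MP_e794d7_al.FC.Stmt2
import Pool.Agent.P.MP_e794d7_al.FC.Lift

/-! Labels on the colours of a dihedral parabolic subgroup. -/

set_option autoImplicit false

namespace Pool.Agent.P.MP_e794d7_al.FC

open scoped Classical

namespace LiftI

open LiftP

section Cheb

variable {R : Type} [CommRing R] (c : R)

theorem ck_zero : Ck c 0 = 2 := by simp [Ck, U]

theorem ck_one : Ck c 1 = c := by
  simp only [Ck, U]
  ring

theorem ck_two : Ck c 2 = c ^ 2 - 2 := by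
  simp only [Ck, U]
  ring

theorem ck_add (n k : ℕ) : Ck c n + Ck c (n + 2 * k) = Ck c k * Ck c (n + k) := by
  have h1 := U_two c n k
  have h2 := U_two c (n + 1) k
  rw [show n + 1 + 2 * k = n + 2 * k + 1 by ring, show n + 1 + k = n + k + 1 by ring] at h2
  rw [Ck, Ck, Ck.eq_1 c (n + k)]
  linear_combination 2 * h2 - c * h1

theorem ck_rec (n : ℕ) : Ck c (n + 2) = c * Ck c (n + 1) - Ck c n := by
  have := ck_add c n 1
  rw [ck_one, mul_one] at this
  linear_combination this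

theorem ck_sq (k : ℕ) : Ck c (2 * k) = Ck c k ^ 2 - 2 := by
  have := ck_add c 0 k
  rw [ck_zero, zero_add, zero_add] at this
  linear_combination this

theorem ck_dbl : ∀ k, Ck (c ^ 2 - 2) k = Ck c (2 * k)
  | 0 => by rw [ck_zero, ck_zero]
  | 1 => by rw [ck_one, ck_two]
  | k + 2 => by
    have h := ck_add c (2 * k) 2
    rw [ck_two] at h
    rw [ck_rec, ck_dbl (k + 1), ck_dbl k, show 2 * (k + 2) = 2 * k + 2 * 2 by ring,
      show 2 * (k + 1) = 2 * k + 2 by ring]
    linear_combination -h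

theorem ck_per {m : ℕ} (hm : 0 < m) (h0 : U c m = 0) (h1 : U c (m - 1) = 1) (n : ℕ) :
    Ck c (n + m) = -Ck c n := by
  rw [Ck, Ck, show n + m + 1 = n + 1 + m by ring, U_per c hm h0 h1, U_per c hm h0 h1]
  ring

theorem ck0 : ∀ k, Ck (0 : R) k * (Ck (0 : R) k ^ 2 - 4) = 0
  | 0 => by rw [ck_zero]; ring
  | 1 => by rw [ck_one]; ring
  | k + 2 => by
    rw [ck_rec]
    linear_combination -ck0 k

theorem ck1 : ∀ k, (Ck (1 : R) k ^ 2 - 1) * (Ck (1 : R) k ^ 2 - 4) = 0
  | 0 => by rw [ck_zero]; ring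
  | 1 => by rw [ck_one]; ring
  | 2 => by rw [ck_two]; ring
  | k + 3 => by
    rw [ck_rec, ck_rec]
    linear_combination ck1 k

variable {Λ : Type} [AddCommGroup Λ] [Module R Λ]

theorem seq_form {u : ℕ → Λ} (h : ∀ n, u (n + 2) = c • u (n + 1) - u n) :
    ∀ k, u k = U c k • u 1 - (c * U c k - U c (k + 1)) • u 0
  | 0 => by simp [U]
  | 1 => by simp [U]
  | k + 2 => by
    rw [h, seq_form h (k + 1), seq_form h k]
    simp only [U]
    module

end Cheb

section Lin

variable {F Λ : Type} [Field F] [AddCommGroup Λ] [Module F Λ]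

theorem seq_eq (c : F) {u u' : ℕ → Λ} (h : ∀ n, u (n + 2) = c • u (n + 1) - u n)
    (h' : ∀ n, u' (n + 2) = c • u' (n + 1) - u' n) {k : ℕ} (hk : U c k ≠ 0) (e0 : u 0 = u' 0)
    (ek : u k = u' k) (n : ℕ) : u n = u' n := by
  have e1 : u 1 = u' 1 := by
    rw [seq_form c h k, seq_form c h' k, e0, sub_left_inj] at ek
    exact smul_right_injective _ hk ek
  rw [seq_form c h n, seq_form c h' n, e0, e1]

theorem refl_eq (B : Λ →ₗ[F] Λ →ₗ[F] F) (two : (2 : F) ≠ 0) {u u' : Λ} (h : B u u = 2)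
    (h' : B u' u' = 2) (e : u - B u u • u = u - B u' u • u') :
    ∃ ε : F, ε * ε = 1 ∧ u = ε • u' := by
  have e1 : u = (2⁻¹ * B u' u) • u' := by
    rw [sub_right_inj, h] at e
    rw [mul_smul, ← e, smul_smul, inv_mul_cancel₀ two, one_smul]
  refine ⟨_, ?_, e1⟩
  generalize 2⁻¹ * B u' u = ε at e1
  rw [e1] at h
  simp only [map_smul, LinearMap.smul_apply, smul_eq_mul, h'] at h
  exact mul_right_cancel₀ two (by linear_combination h)

end Lin

section Dih

variable {G : Type} [Group G] {s t : G}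

theorem conj_alt (hs : s * s = 1) (ht : t * t = 1) (i : ℕ) :
    alt s t i * (if Even i then s else t) * (alt s t i)⁻¹ = (s * t) ^ i * s := by
  induction i generalizing s t with
  | zero => simp [alt_zero]
  | succ i ih =>
    have e : (if Even (i + 1) then s else t) = if Even i then t else s := by
      by_cases hj : Even i <;> simp [Nat.even_add_one, hj]
    have hs' : s⁻¹ = s := inv_eq_of_mul_eq_one_right hs
    rw [alt_succ', e, ← alt_odd, alt_odd', pow_succ, ← mul_assoc _ t s, mul_inv_rev, hs']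
    calc _ = s * (alt t s i * (if Even i then t else s) * (alt t s i)⁻¹) * s := by
          simp only [mul_assoc]
      _ = _ := by rw [ih ht hs]; simp only [mul_assoc]

theorem flip (hs : s * s = 1) (ht : t * t = 1) (i : ℕ) :
    s * (s * t) ^ i * s = ((s * t) ^ i)⁻¹ := by
  have hs' : s⁻¹ = s := inv_eq_of_mul_eq_one_right hs
  have ht' : t⁻¹ = t := inv_eq_of_mul_eq_one_right ht
  have := conj_pow (a := s) (b := s * t) (i := i)
  rw [hs', ← mul_assoc, hs, one_mul] at this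
  rw [← this, ← inv_pow, mul_inv_rev, hs', ht']

theorem pow_top (hs : s * s = 1) (ht : t * t = 1) {m : ℕ} (h : alt s t m = alt t s m) :
    (s * t) ^ m = 1 := by
  have hs' : s⁻¹ = s := inv_eq_of_mul_eq_one_right hs
  have ht' : t⁻¹ = t := inv_eq_of_mul_eq_one_right ht
  have e : t * s = (s * t)⁻¹ := by rw [mul_inv_rev, hs', ht']
  obtain ⟨k, rfl | rfl⟩ := Nat.even_or_odd' m
  · rw [alt_even, alt_even, e, inv_pow] at h
    rw [two_mul, pow_add]
    exact mul_eq_one_iff_eq_inv.2 h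
  · rw [alt_odd, alt_odd, e, inv_pow] at h
    rw [show 2 * k + 1 = k + (k + 1) by ring, pow_add, pow_succ, ← mul_assoc _ s t, h]
    simp [mul_assoc, ht]

theorem alt_add (m n : ℕ) : alt s t (2 * m + n) = (s * t) ^ m * alt s t n := by
  induction n with
  | zero => rw [add_zero, alt_even, alt_zero, mul_one]
  | succ n ih =>
    rw [← add_assoc, alt_succ, alt_succ, ih, mul_assoc]
    simp [Nat.even_add]

end Dih

theorem ex_add {n : ℕ} (hn : 0 < n) (j j' : ℕ) : ∃ d, d < n ∧ j' ≡ j + d [MOD n] := by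
  obtain ⟨n, rfl⟩ : ∃ k, n = k + 1 := ⟨n - 1, by omega⟩
  refine ⟨(j' + n * j) % (n + 1), Nat.mod_lt _ hn, ?_⟩
  refine Nat.ModEq.trans ?_ ((Nat.mod_modEq _ _).symm.add_left j)
  rw [show j + (j' + n * j) = j' + (n + 1) * j by ring]
  exact (Nat.add_mul_mod_self_left _ _ _).symm

theorem per_mod {α : Type} {f : ℕ → α} {n : ℕ} (h : ∀ j, f (j + n) = f j) {j j' : ℕ}
    (e : j ≡ j' [MOD n]) : f j = f j' := by
  rw [← Function.Periodic.map_mod_nat h j, e, Function.Periodic.map_mod_nat h j']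

theorem rev_map {α : Type} (F G : ℕ → α) (m : ℕ) (h : ∀ n, n < m → F n = G (m - 1 - n)) :
    (List.range m).map F = (List.range m).reverse.map G := by
  apply List.ext_getElem
  · simp
  · intro i h1 h2
    have hi : i < m := by simpa using h1
    simp [h i hi]

variable {ι : Type}

section W

variable {M : ι → ι → ℕ}

/-- the reflection in the wall number `i` -/
def rr (M : ι → ι → ℕ) (w : Wg M) (s t : ι) (i : ℕ) : Wg M :=
  w * alt (sg M s) (sg M t) i * sg M (el s t i) * (w * alt (sg M s) (sg M t) i)⁻¹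

theorem rr_eq (w : Wg M) (s t : ι) (i : ℕ) :
    rr M w s t i = w * ((sg M s * sg M t) ^ i * sg M s) * w⁻¹ := by
  rw [← conj_alt (sg_sq s) (sg_sq t), rr, el, apply_ite (sg M), mul_inv_rev]
  simp only [mul_assoc]

theorem st_top (s t : ι) : (sg M s * sg M t) ^ M s t = 1 :=
  pow_top (sg_sq s) (sg_sq t) (brd_sg M Set.univ s trivial t trivial)

theorem rr_per (w : Wg M) (s t : ι) (i : ℕ) : rr M w s t (i + M s t) = rr M w s t i := by
  rw [rr_eq, rr_eq, pow_add, st_top, mul_one]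

theorem rr_cl (w : Wg M) (s t : ι) (i k : ℕ) :
    rr M w s t (i + 2 * k) = rr M w s t (i + k) * rr M w s t i * rr M w s t (i + k) := by
  have h := flip (sg_sq (M := M) s) (sg_sq t) i
  rw [rr_eq, rr_eq, rr_eq]
  calc _ = w * ((sg M s * sg M t) ^ (i + k) * ((sg M s * sg M t) ^ i)⁻¹ *
        (sg M s * sg M t) ^ (i + k) * sg M s) * w⁻¹ := by group
    _ = _ := by rw [← h]; simp only [mul_assoc, inv_mul_cancel_left]

end W

variable [Fintype ι] {M : ι → ι → ℕ} {𝒯 : Set (Set ι)} (D : RD M 𝒯)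

theorem k2_eq (w : Wg M) (s t : ι) (i : ℕ) (p : ι × ι) :
    (D.cone w s t i).k2 p = D.tw (M p.1 p.2) (rr M w s t i) := by
  rw [RD.cone, RD.smul_k2, RD.x, ← map_inv, ← map_mul, ← map_mul]
  rfl

theorem cone_per (w : Wg M) (s t : ι) (i : ℕ) :
    D.cone w s t (i + 2 * M s t) = D.cone w s t i := by
  rw [RD.cone, RD.cone, el_add, add_comm, alt_add, st_top, one_mul]

/-- the vectors of the twisted representation -/
noncomputable def gv (m : ℕ) (w : Wg M) (s t : ι) (i : ℕ) : ι → D.F :=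
  D.tw m (w * alt (sg M s) (sg M t) i) (al D.F (el s t i))

theorem tw_rr (m : ℕ) (w : Wg M) (s t : ι) (i : ℕ) (y : ι → D.F) :
    D.tw m (rr M w s t i) y = y - Bm M (D.cT m) (gv D m w s t i) y • gv D m w s t i :=
  refl_conj D.cox (D.tw_sg m) _ _ y

theorem gv_eq (m : ℕ) (w : Wg M) {s t : ι} (hst : s ≠ t) (i : ℕ) :
    gv D m w s t i = D.tw m w (U (D.cT m (M s t)) (i + 1) • al D.F s +
      U (D.cT m (M s t)) i • al D.F t) := by
  rw [gv, refl_mul, refl_alt D.cox (D.tw_sg m) hst]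

theorem gv_pair (m : ℕ) (w : Wg M) {s t : ι} (hst : s ≠ t) (i k : ℕ) :
    Bm M (D.cT m) (gv D m w s t i) (gv D m w s t (i + k)) = Ck (D.cT m (M s t)) k := by
  rw [gv_eq D m w hst, gv_eq D m w hst, refl_B D.cox (D.tw_sg m)]
  exact (rk D.cox hst).pair k i

theorem gv_self (m : ℕ) (w : Wg M) {s t : ι} (hst : s ≠ t) (i : ℕ) :
    Bm M (D.cT m) (gv D m w s t i) (gv D m w s t i) = 2 :=
  (gv_pair D m w hst i 0).trans (ck_zero _)

theorem gv_rec (m : ℕ) (w : Wg M) {s t : ι} (hst : s ≠ t) (i : ℕ) :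
    gv D m w s t (i + 2) = D.cT m (M s t) • gv D m w s t (i + 1) - gv D m w s t i := by
  rw [gv_eq D m w hst, gv_eq D m w hst, gv_eq D m w hst, ← map_smul, ← map_sub]
  congr 1
  simp only [U]
  module

theorem cT_self (m : ℕ) : D.cT m m = D.red (D.c m) := if_pos rfl

theorem gv_one {a b : ι} (hab : a ≠ b) (j : ℕ) :
    gv D (M a b) 1 a b j = (D.cone 1 a b j).v := by
  rw [gv_eq D _ 1 hab, D.cone_v 1 hab, cT_self, map_one, rep_one, rep_one]
  rfl

theorem sgn (m : ℕ) {w w' : Wg M} {s t s' t' : ι} (hst : s ≠ t) (hst' : s' ≠ t') {i i' : ℕ}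
    (h : D.tw m (rr M w s t i) = D.tw m (rr M w' s' t' i')) :
    ∃ ε : D.F, ε * ε = 1 ∧ gv D m w s t i = ε • gv D m w' s' t' i' :=
  refl_eq (Bm M (D.cT m)) D.two (gv_self D m w hst i) (gv_self D m w' hst' i') (by
    rw [← tw_rr, h, tw_rr])

theorem of_sgn (m : ℕ) {w w' : Wg M} {s t s' t' : ι} {i i' : ℕ} {ε : D.F} (hε : ε * ε = 1)
    (h : gv D m w s t i = ε • gv D m w' s' t' i') :
    D.tw m (rr M w s t i) = D.tw m (rr M w' s' t' i') := by
  refine LinearEquiv.ext fun y => ?_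
  rw [tw_rr, tw_rr, h, map_smul, LinearMap.smul_apply, smul_smul, smul_eq_mul, mul_right_comm, hε,
    one_mul]

theorem par (w : Wg M) {s t : ι} (hst : s ≠ t) (he : Even (M s t)) (i k : ℕ) :
    D.tw 1 (rr M w s t (i + 2 * k)) = D.tw 1 (rr M w s t i) := by
  have h0 : D.cT 1 (M s t) = 0 := by rw [RD.cT, if_neg (D.cox.off s t hst), if_pos he]
  have h1 := (rk (c := D.cT 1) D.cox hst).braid (m := 2) (by rw [h0]; simp [U])
  have h2 := pow_top (rf_sq s) (rf_sq t) h1
  rw [rr_eq, rr_eq, pow_add, pow_mul]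
  simp only [map_mul, map_pow, D.tw_sg, h2, one_pow, mul_one]

theorem cs {a b : ι} (hab : a ≠ b) (h0 : M a b ≠ 0) {d : ℕ} (hd : d < 2 * M a b) {y : D.F}
    (hy : D.red (Ck (D.c (M a b)) d) = y) :
    (y = 2 → d = 0) ∧ (y = -2 → d = M a b) ∧ (y = 0 → 2 * d = M a b ∨ 2 * d = 3 * M a b) ∧
      (y = 1 → 3 * d = M a b ∨ 3 * d = 5 * M a b) ∧
        (y = -1 → 3 * d = 2 * M a b ∨ 3 * d = 4 * M a b) := by
  have h1 : (1 : D.F) ≠ 0 := one_ne_zero
  have h2 := D.two
  have h3 := D.three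
  have h4 : (4 : D.F) ≠ 0 := fun h => mul_ne_zero h2 h2 (by linear_combination h)
  have z : D.red (Ck (D.c (M a b)) 0) = 2 := by rw [map_Ck, ck_zero]
  rcases Nat.lt_or_ge d (M a b) with h | h
  · rcases Nat.eq_zero_or_pos d with rfl | hp
    · rw [z] at hy
      subst hy
      exact ⟨fun _ => rfl, fun h => (h4 (by linear_combination h)).elim, fun h => (h2 h).elim,
        fun h => (h1 (by linear_combination h)).elim, fun h => (h3 (by linear_combination h)).elim⟩
    · have sp := D.sepC a b hab d hp h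
      rw [hy] at sp
      exact ⟨fun h => (sp.two h).elim, fun h => (sp.neg_two h).elim, fun h => Or.inl (sp.zero.1 h),
        fun h => Or.inl (sp.one.1 h), fun h => Or.inl (sp.neg_one.1 h)⟩
  · obtain ⟨r, rfl⟩ : ∃ r, d = r + M a b := ⟨d - M a b, by omega⟩
    obtain ⟨t0, t1⟩ := D.ok.top a b hab h0
    rw [ck_per _ (Nat.pos_of_ne_zero h0) t0 t1, map_neg, neg_eq_iff_eq_neg] at hy
    rcases Nat.eq_zero_or_pos r with rfl | hp
    · rw [z] at hy
      exact ⟨fun h => (h4 (by linear_combination hy - h)).elim, fun _ => zero_add _,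
        fun h => (h2 (by linear_combination hy - h)).elim,
        fun h => (h3 (by linear_combination hy - h)).elim,
        fun h => (h1 (by linear_combination hy - h)).elim⟩
    · have sp := D.sepC a b hab r hp (by omega)
      rw [hy] at sp
      refine ⟨fun h => (sp.neg_two (by rw [h])).elim,
        fun h => (sp.two (by rw [h, neg_neg])).elim, fun h => Or.inr ?_, fun h => Or.inr ?_,
        fun h => Or.inr ?_⟩
      · have := sp.zero.1 (by rw [h, neg_zero])
        omega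
      · have := sp.neg_one.1 (by rw [h])
        omega
      · have := sp.one.1 (by rw [h, neg_neg])
        omega

theorem ck_mod {a b : ι} (hab : a ≠ b) (h0 : M a b ≠ 0) {d d' : ℕ}
    (e : d ≡ d' [MOD 2 * M a b]) : Ck (D.c (M a b)) d = Ck (D.c (M a b)) d' := by
  obtain ⟨t0, t1⟩ := D.ok.top a b hab h0
  refine per_mod (f := Ck (D.c (M a b))) (fun j => ?_) e
  rw [two_mul, ← add_assoc, ck_per _ (Nat.pos_of_ne_zero h0) t0 t1,
    ck_per _ (Nat.pos_of_ne_zero h0) t0 t1, neg_neg]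

theorem two_dvd {a b : ι} (hab : a ≠ b) (h0 : M a b ≠ 0) {d : ℕ}
    (h : D.red (Ck (D.c (M a b)) d) = 2) : d ≡ 0 [MOD 2 * M a b] := by
  rw [← ck_mod D hab h0 (Nat.mod_modEq d _)] at h
  exact ((cs D hab h0 (Nat.mod_lt _ (by omega)) h).1 rfl).trans (Nat.zero_mod _).symm

theorem same {a b : ι} (hab : a ≠ b) (h0 : M a b ≠ 0) {d k : ℕ} (hk : k < M a b)
    (h : D.red (Ck (D.c (M a b)) k) = D.red (Ck (D.c (M a b)) d)) :
    ∃ e, (e = 1 ∨ e + 1 = 2 * M a b) ∧ d ≡ e * k [MOD 2 * M a b] := by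
  obtain ⟨n, hn⟩ : ∃ n, n + k = d + 2 * M a b := ⟨d + 2 * M a b - k, by omega⟩
  have e0 : n + k ≡ d [MOD 2 * M a b] := by rw [hn]; exact Nat.add_modEq_right
  have e1 := ck_add (D.c (M a b)) n k
  have e2 := ck_add (D.c (M a b)) (2 * k) n
  rw [show 2 * k + 2 * n = 2 * (n + k) by ring, ck_sq, ck_sq, add_comm (2 * k) n] at e2
  rw [ck_mod D hab h0 e0] at e1 e2
  have e3 := congrArg D.red e1
  have e4 := congrArg D.red e2
  simp only [map_add, map_sub, map_mul, map_pow, map_ofNat, ← h] at e3 e4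
  have e5 : (D.red (Ck (D.c (M a b)) n) - 2) * (D.red (Ck (D.c (M a b)) (n + 2 * k)) - 2) = 0 := by
    linear_combination -2 * e3 - e4
  rcases mul_eq_zero.1 e5 with e6 | e6
  · refine ⟨1, Or.inl rfl, e0.symm.trans ?_⟩
    simpa using (two_dvd D hab h0 (sub_eq_zero.1 e6)).add_right k
  · refine ⟨2 * M a b - 1, Or.inr (by omega), Nat.ModEq.add_right_cancel' k ?_⟩
    refine (e0.symm.add_right k).trans ?_
    rw [add_assoc, ← two_mul, ← Nat.succ_mul, show (2 * M a b - 1).succ = 2 * M a b by omega]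
    exact (two_dvd D hab h0 (sub_eq_zero.1 e6)).trans (Nat.mul_mod_right _ _).symm

/-- the colour looks like the wall number `j` of the standard cone -/
def A0 (a b : ι) (x : D.X) (j : ℕ) : Prop :=
  x.v = (D.cone 1 a b j).v ∧ x.k2 (a, b) = D.tw (M a b) (rr M 1 a b j)

/-- the colour carries the label number `j` -/
def A (a b : ι) (x : D.X) (j : ℕ) : Prop :=
  A0 D a b x j ∧ (M a b = 6 → Odd j → x.k2 (a, a) = D.tw 1 (sg M b))

variable {D} {a b s t : ι} {w : Wg M}

theorem k2a (i : ℕ) : (D.cone w s t i).k2 (a, a) = D.tw 1 (rr M w s t i) := by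
  rw [k2_eq, D.cox.diag]

theorem cone_mod {i i' : ℕ} (e : i ≡ i' [MOD 2 * M s t]) : D.cone w s t i = D.cone w s t i' :=
  per_mod (cone_per D w s t) e

theorem A0.mod {x : D.X} {j j' : ℕ} (h : A0 D a b x j) (e : j ≡ j' [MOD 2 * M a b]) :
    A0 D a b x j' := by
  have := cone_mod (D := D) (w := 1) e
  refine ⟨this ▸ h.1, h.2.trans ?_⟩
  rw [← k2_eq D 1 a b j (a, b), this, k2_eq]

theorem A.mod {x : D.X} {j j' : ℕ} (h : A D a b x j) (e : j ≡ j' [MOD 2 * M a b]) :
    A D a b x j' := by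
  refine ⟨h.1.mod e, fun h6 ho => h.2 h6 ?_⟩
  have := e.of_mul_right
  rw [Nat.odd_iff] at *
  exact Eq.trans this ho

theorem A0.uniq (hab : a ≠ b) (h0 : M a b ≠ 0) {x : D.X} {j j' : ℕ} (h : A0 D a b x j)
    (h' : A0 D a b x j') : j ≡ j' [MOD 2 * M a b] := by
  obtain ⟨d, -, e⟩ := ex_add (n := 2 * M a b) (by omega) j j'
  have h1 := v_pair D 1 hab j d
  have h2 := v_pair D 1 hab j 0
  rw [add_zero, map_Ck, ck_zero] at h2
  rw [← (h'.mod e).1, h.1, h2] at h1
  exact ((two_dvd D hab h0 h1.symm).add_left j).symm.trans e.symm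

theorem selfA (hab : a ≠ b) (j : ℕ) : A D a b (D.cone 1 a b j) j := by
  refine ⟨⟨rfl, k2_eq D 1 a b j (a, b)⟩, fun h6 ⟨k, hk⟩ => ?_⟩
  rw [k2a, hk, add_comm, par D 1 hab (by rw [h6]; decide), rr_eq]
  have h1 := (rk (c := D.cT 1) D.cox hab).braid (m := 2) (by
    rw [RD.cT, if_neg (by omega), if_pos (by rw [h6]; decide)]; simp [U])
  rw [alt_two, alt_two] at h1
  simp only [map_mul, D.tw_sg, pow_one, one_mul, inv_one, mul_one]
  rw [h1, mul_assoc, rf_sq, mul_one]

theorem perA (hab : a ≠ b) (h0 : M a b ≠ 0) (hst : s ≠ t) (h1 : M s t ≠ 0) (i j : ℕ) :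
    A D a b (D.cone w s t (i + M s t)) (j + M a b) ↔ A D a b (D.cone w s t i) j := by
  simp only [A, A0, v_per D w hst h1, v_per D 1 hab h0, neg_inj, k2a, k2_eq D w s t _ (a, b),
    rr_per]
  refine and_congr_right fun _ => forall_congr' fun h6 => ?_
  rw [h6, Nat.odd_iff, Nat.odd_iff, show (j + 6) % 2 = j % 2 by omega]

section Pair

variable (hab : a ≠ b) (hst : s ≠ t) {i k j d : ℕ} (h : A0 D a b (D.cone w s t i) j)
  (h' : A0 D a b (D.cone w s t (i + k)) (j + d))

include hab hst h h'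

theorem val : D.red (Ck (D.c (M s t)) k) = D.red (Ck (D.c (M a b)) d) := by
  rw [← v_pair D w hst i k, h.1, h'.1, v_pair D 1 hab]

theorem cl0 : A0 D a b (D.cone w s t (i + 2 * k)) (j + 2 * d) := by
  refine ⟨?_, ?_⟩
  · have e1 := v_two D w hst i k
    rw [val hab hst h h', h.1, h'.1, ← v_two D 1 hab j d] at e1
    exact add_left_cancel e1
  · have e1 := h.2
    have e2 := h'.2
    rw [k2_eq] at e1 e2 ⊢
    simp only [rr_cl, map_mul]
    rw [e1, e2]

theorem val2 : ∃ ε ε' : D.F, ε * ε = 1 ∧ ε' * ε' = 1 ∧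
    gv D (M a b) w s t i = ε • gv D (M a b) 1 a b j ∧
    gv D (M a b) w s t (i + k) = ε' • gv D (M a b) 1 a b (j + d) ∧
    Ck (D.cT (M a b) (M s t)) k = ε * ε' * D.red (Ck (D.c (M s t)) k) := by
  obtain ⟨ε, e1, e2⟩ := sgn D (M a b) hst hab ((k2_eq D w s t i (a, b)).symm.trans h.2)
  obtain ⟨ε', e3, e4⟩ := sgn D (M a b) hst hab ((k2_eq D w s t _ (a, b)).symm.trans h'.2)
  refine ⟨ε, ε', e1, e3, e2, e4, ?_⟩
  rw [← gv_pair D _ w hst i k, e2, e4, val hab hst h h', map_smul, map_smul, LinearMap.smul_apply,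
    gv_pair D _ 1 hab, cT_self, map_Ck, smul_eq_mul, smul_eq_mul]
  ring

theorem even_val (hne : M s t ≠ M a b) (he : Even (M s t)) :
    D.red (Ck (D.c (M s t)) k) ∈ ({0, 2, -2} : Set D.F) := by
  obtain ⟨ε, ε', e1, e2, -, -, e⟩ := val2 hab hst h h'
  have h1 := ck0 (R := D.F) k
  rw [RD.cT, if_neg hne, if_pos he] at e
  rw [e] at h1
  generalize D.red (Ck (D.c (M s t)) k) = y at h1
  have h2 : y * ((y - 2) * (y + 2)) = 0 := by
    linear_combination (ε * ε') * h1 - (y ^ 3 * (ε' * ε') * (ε * ε * (ε' * ε') + ε' * ε') -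
      4 * y * (ε' * ε')) * e1 - (y ^ 3 * (ε' * ε' + 1) - 4 * y) * e2
  simpa [sub_eq_zero, add_eq_zero_iff_eq_neg] using h2

end Pair

theorem cT_odd (m : ℕ) (hne : M s t ≠ m) (ho : ¬ Even (M s t)) (k : ℕ) :
    (M s t = 3 ∧ Ck (D.cT m (M s t)) k = D.red (Ck (D.c (M s t)) k)) ∨
      Ck (D.cT m (M s t)) k = D.red (Ck (D.c (M s t)) k) ^ 2 - 2 := by
  rw [RD.cT, if_neg hne, if_neg ho, map_Ck]
  split_ifs with h3
  · exact Or.inl ⟨h3, by rw [h3, D.c3, map_one]⟩
  · exact Or.inr ((ck_dbl _ k).trans (ck_sq _ k))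

theorem odd_val (hab : a ≠ b) (hst : s ≠ t) {i k j d : ℕ} (h : A0 D a b (D.cone w s t i) j)
    (h' : A0 D a b (D.cone w s t (i + k)) (j + d)) (hne : M s t ≠ M a b) (ho : ¬ Even (M s t)) :
    D.red (Ck (D.c (M s t)) k) ∈ ({1, -1, 2, -2} : Set D.F) := by
  have h1 : (D.red (Ck (D.c (M s t)) k) ^ 2 - 1) * (D.red (Ck (D.c (M s t)) k) ^ 2 - 4) = 0 := by
    rcases cT_odd (D := D) _ hne ho k with ⟨h3, -⟩ | h3
    · rw [h3, D.c3, map_Ck, map_one]
      exact ck1 k
    · obtain ⟨ε, ε', e1, e2, -, -, e⟩ := val2 hab hst h h'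
      rw [h3] at e
      generalize D.red (Ck (D.c (M s t)) k) = y at e
      linear_combination (y ^ 2 - 2 + ε * ε' * y) * e + y ^ 2 * (ε' * ε') * e1 + y ^ 2 * e2
  generalize D.red (Ck (D.c (M s t)) k) = y at h1
  have h2 : (y - 1) * ((y + 1) * ((y - 2) * (y + 2))) = 0 := by linear_combination h1
  simpa [sub_eq_zero, add_eq_zero_iff_eq_neg] using h2

theorem run0 (hab : a ≠ b) (hst : s ≠ t) (hm : M s t = M a b) {i k j j' : ℕ}
    (h : A0 D a b (D.cone w s t i) j) (h' : A0 D a b (D.cone w s t (i + k)) j') (k0 : 0 < k)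
    (k1 : k < M a b) (k2 : 2 * k ≠ M a b) :
    ∃ e, (e = 1 ∨ e + 1 = 2 * M a b) ∧ ∀ n, A0 D a b (D.cone w s t (i + n)) (j + e * n) := by
  have h0 : M a b ≠ 0 := by omega
  obtain ⟨d, -, e0⟩ := ex_add (n := 2 * M a b) (by omega) j j'
  obtain ⟨e, he, hd⟩ := same D hab h0 k1 (hm ▸ val hab hst h (h'.mod e0) :)
  have h2 := h'.mod (e0.trans (hd.add_left j))
  obtain ⟨ε, ε', e1, e2, g1, g2, e3⟩ := val2 hab hst h h2
  rw [hm, cT_self, ← map_Ck] at e3
  have hC : D.red (Ck (D.c (M a b)) k) ≠ 0 := fun hz => k2 ((D.sepC a b hab k k0 k1).zero.1 hz)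
  have hε : ε' = ε := by
    have : ε * ε' = 1 := mul_right_cancel₀ hC (by rw [← e3, one_mul])
    linear_combination ε * this - ε' * e1
  have hU : U (D.red (D.c (M a b))) k ≠ 0 := map_U D.red _ k ▸ D.sepU a b hab k k0 k1
  have hc : D.red (Ck (D.c (M a b)) e) = D.red (D.c (M a b)) := by
    rcases he with rfl | he
    · rw [ck_one]
    · obtain ⟨t0, t1⟩ := D.ok.top a b hab h0
      rw [show e = M a b - 1 + M a b by omega, ck_per _ (by omega) t0 t1, Ck,
        Nat.sub_add_cancel (by omega), t0, t1]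
      simp
  have rV : ∀ n, (D.cone 1 a b (j + e * (n + 2))).v =
      D.red (D.c (M a b)) • (D.cone 1 a b (j + e * (n + 1))).v - (D.cone 1 a b (j + e * n)).v :=
    fun n => by
      have := v_two D 1 hab (j + e * n) e
      rw [hc] at this
      rw [show j + e * (n + 2) = j + e * n + 2 * e by ring,
        show j + e * (n + 1) = j + e * n + e by ring, ← this, add_sub_cancel_left]
  refine ⟨e, he, fun n => ⟨?_, ?_⟩⟩
  · refine seq_eq (D.red (D.c (M a b))) (u := fun n => (D.cone w s t (i + n)).v)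
      (u' := fun n => (D.cone 1 a b (j + e * n)).v) (fun n => ?_) rV hU h.1 h2.1 n
    have := v_two D w hst (i + n) 1
    rw [ck_one, hm] at this
    exact eq_sub_of_add_eq' this
  · rw [k2_eq]
    refine of_sgn D _ e1 ?_
    refine seq_eq (D.red (D.c (M a b))) (u := fun n => gv D (M a b) w s t (i + n))
      (u' := fun n => ε • gv D (M a b) 1 a b (j + e * n)) (fun n => ?_) (fun n => ?_) hU g1
      (hε ▸ g2) n
    · have := gv_rec D (M a b) w hst (i + n)
      rwa [hm, cT_self] at this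
    · simp only [gv_one D hab, rV]
      module

/-- all walls of the cone carry labels -/
def Whole (D : RD M 𝒯) (a b : ι) (w : Wg M) (s t : ι) : Prop :=
  M s t = M a b ∧
    ∃ j e, (e = 1 ∨ e + 1 = 2 * M a b) ∧ ∀ n, A D a b (D.cone w s t n) (j + e * n)

theorem runA (hst : s ≠ t) (hm : M s t = M a b) (h0 : M a b ≠ 0) {i j e : ℕ}
    (he : e = 1 ∨ e + 1 = 2 * M a b) (h : ∀ n, A0 D a b (D.cone w s t (i + n)) (j + e * n))
    (h6 : M a b = 6 → ∃ n, Odd (j + e * n) ∧
      (D.cone w s t (i + n)).k2 (a, a) = D.tw 1 (sg M b)) : Whole D a b w s t := by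
  have h1 : ∀ n, A D a b (D.cone w s t (i + n)) (j + e * n) := fun n => ⟨h n, fun h7 ho => by
    obtain ⟨n', h8, h9⟩ := h6 h7
    have hev : Even (M s t) := by rw [hm, h7]; decide
    obtain ⟨e', rfl⟩ : Odd e := by
      rw [Nat.odd_iff]
      omega
    obtain ⟨k, hk⟩ : Even (n + n') := by
      rw [Nat.odd_iff, Nat.add_mul, mul_assoc] at ho h8
      rw [Nat.even_iff]
      omega
    rw [k2a] at h9 ⊢
    rw [← h9, ← par D w hst hev (i + n) n', ← par D w hst hev (i + n') k]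
    congr 2
    omega⟩
  refine ⟨hm, j + e * ((2 * M a b - 1) * i), e, he, fun n => ?_⟩
  have h2 := h1 ((2 * M a b - 1) * i + n)
  rw [mul_add, ← add_assoc j] at h2
  refine cone_mod (D := D) (w := w) ?_ ▸ h2
  rw [← add_assoc, add_comm i, ← Nat.succ_mul, show (2 * M a b - 1).succ = 2 * M a b by omega, hm,
    add_comm]
  exact Nat.add_mul_mod_self_left _ _ _

theorem clA (hab : a ≠ b) (h0 : M a b ≠ 0) (hst : s ≠ t) {i k j d : ℕ} (hd : d < 2 * M a b)
    (h : A D a b (D.cone w s t i) j) (h' : A D a b (D.cone w s t (i + k)) (j + d)) :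
    A D a b (D.cone w s t (i + 2 * k)) (j + 2 * d) := by
  refine ⟨cl0 hab hst h.1 h'.1, fun h6 ho => ?_⟩
  have oj : Odd j := by
    rw [Nat.odd_iff] at ho ⊢
    omega
  have t1 := h.2 h6 oj
  rw [k2a] at t1 ⊢
  by_cases he : Even (M s t)
  · rw [par D w hst he, t1]
  · have hv := odd_val hab hst h.1 h'.1 (fun e => he (by rw [e, h6]; decide)) he
    obtain ⟨c1, c2, -, c3, c4⟩ := cs D hab h0 hd (val hab hst h.1 h'.1).symm
    have od : Odd (j + d) := by
      rw [Nat.odd_iff] at oj ⊢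
      rcases hv with hv | hv | hv | hv
      · have := c3 hv
        omega
      · have := c4 hv
        omega
      · have := c1 hv
        omega
      · have := c2 hv
        omega
    have t2 := h'.2 h6 od
    rw [k2a] at t2
    rw [rr_cl, map_mul, map_mul, t1, t2, ← map_mul, sg_sq, map_one, one_mul]

theorem distA (hab : a ≠ b) (h0 : M a b ≠ 0) (hst : s ≠ t) (nf : ¬ Whole D a b w s t)
    {i k j j' : ℕ} (h : A D a b (D.cone w s t i) j) (h' : A D a b (D.cone w s t (i + k)) j')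
    (k0 : 0 < k) (k1 : k < M s t) : 2 * k = M s t ∨ 3 * k = M s t ∨ 3 * k = 2 * M s t := by
  by_cases hm : M s t = M a b
  · by_contra hne
    obtain ⟨e, he, hr⟩ := run0 hab hst hm h.1 h'.1 k0 (hm ▸ k1) (by omega)
    refine nf (runA hst hm h0 he hr fun h6 => ?_)
    have u := (A0.uniq hab h0 h'.1 (hr k)).of_mul_right
    by_cases oj : Odd j
    · exact ⟨0, oj, h.2 h6 oj⟩
    · have oe : Odd e := by
        rw [Nat.odd_iff]
        omega
      have ok : Odd k := by
        rw [Nat.odd_iff]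
        omega
      have o2 := (Nat.not_odd_iff_even.1 oj).add_odd (oe.mul ok)
      exact ⟨k, o2, h'.2 h6 (Nat.odd_iff.2 (Eq.trans u (Nat.odd_iff.1 o2)))⟩
  · obtain ⟨d, -, e0⟩ := ex_add (n := 2 * M a b) (by omega) j j'
    have sp := D.sepC s t hst k k0 k1
    by_cases he : Even (M s t)
    · rcases even_val hab hst h.1 (h'.1.mod e0) hm he with hv | hv | hv
      · exact Or.inl (sp.zero.1 hv)
      · exact (sp.two hv).elim
      · exact (sp.neg_two hv).elim
    · rcases odd_val hab hst h.1 (h'.1.mod e0) hm he with hv | hv | hv | hv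
      · exact Or.inr (Or.inl (sp.one.1 hv))
      · exact Or.inr (Or.inr (sp.neg_one.1 hv))
      · exact (sp.two hv).elim
      · exact (sp.neg_two hv).elim

theorem evenA (hab : a ≠ b) (h6 : M a b = 6) (hst : s ≠ t) (nf : ¬ Whole D a b w s t)
    {i k j d : ℕ} (k0 : 0 < k) (k1 : 3 * k = M s t) (hd : Even d)
    (h : A D a b (D.cone w s t i) j) (h' : A D a b (D.cone w s t (i + 2 * k)) (j + d)) :
    Even j := by
  by_contra oj
  rw [Nat.not_even_iff_odd] at oj
  have t1 := h.2 h6 oj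
  by_cases hm : M s t = M a b
  · obtain ⟨e, he, hr⟩ := run0 hab hst hm h.1 h'.1 (by omega) (by omega) (by omega)
    exact nf (runA hst hm (by omega) he hr fun _ => ⟨0, oj, t1⟩)
  have sp := D.sepC s t hst (2 * k) (by omega) (by omega)
  have hv := sp.neg_one.2 (by omega)
  by_cases he : Even (M s t)
  · rcases even_val hab hst h.1 h'.1 hm he with hv' | hv' | hv'
    · have := sp.zero.1 hv'
      omega
    · exact sp.two hv'
    · exact sp.neg_two hv'
  · have t2 := h'.2 h6 (oj.add_even hd)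
    rw [k2a] at t1 t2
    obtain ⟨ε, e1, e2⟩ := sgn D 1 hst hst (t2.trans t1.symm)
    have e3 := gv_pair D 1 w hst i (2 * k)
    rw [e2, map_smul, gv_self D 1 w hst, smul_eq_mul] at e3
    have e4 : Ck (D.cT 1 (M s t)) (2 * k) = -1 := by
      rcases cT_odd (D := D) 1 (D.cox.off s t hst) he (2 * k) with ⟨-, h3⟩ | h3
      · rw [h3, hv]
      · rw [h3, hv]
        ring
    rw [e4] at e3
    exact D.three (by linear_combination (2 * ε - 1) * e3 - 4 * e1)

end LiftI

open LiftP LiftI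

variable {ι : Type} [Fintype ι] {M : ι → ι → ℕ} {𝒯 : Set (Set ι)}

theorem RD.p_liftI (D : RD M 𝒯) (hr : D.Roots) {a b : ι} (hab : a ≠ b) (hm : 5 ≤ M a b) :
    D.LiftI a b := by
  intro L _ ℓ h1 h2 h3 h4
  have h0 : M a b ≠ 0 := by omega
  obtain ⟨f, hf, hf0⟩ : ∃ f : D.X → L, (∀ x j, A D a b x j → f x = ℓ j) ∧
      ∀ x, (¬ ∃ j, A D a b x j) → f x = 1 := by
    refine ⟨fun x => if h : ∃ j, A D a b x j then ℓ h.choose else 1, fun x j h => ?_,
      fun x h => dif_neg h⟩
    have h' : ∃ j, A D a b x j := ⟨j, h⟩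
    exact (dif_pos h').trans (per_mod h1 (A0.uniq hab h0 h'.choose_spec.1 h.1))
  refine ⟨D.lift f fun w s t => ?_, fun j => (D.lift_ζ _ _ _).trans (hf _ _ (selfA hab j))⟩
  by_cases hst : s = t
  · rw [hst]
  by_cases hm0 : M s t = 0
  · rw [hm0]; rfl
  have e : D.cw f w t s (M s t) =
      ((List.range (M s t)).reverse.map fun i => f (D.cone w s t i)).prod :=
    congrArg List.prod (rev_map _ _ _ fun i hi => by
      have := hr.rev w s t (M s t - 1 - i) hst (by omega)
      rw [show M s t - 1 - (M s t - 1 - i) = i by omega] at this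
      rw [this])
  rw [e, RD.cw]
  by_cases nf : Whole D a b w s t
  · obtain ⟨hm1, j, e, he, hA⟩ := nf
    simp only [fun n => hf _ _ (hA n), hm1]
    rcases he with rfl | he
    · simpa only [one_mul] using h4 j
    · have e1 := rev_map (fun n => ℓ (j + e * n)) (fun i => ℓ (j + M a b + 1 + i)) (M a b)
        fun n hn => per_mod h1 (Nat.ModEq.add_right_cancel' n (by
          rw [add_assoc, ← Nat.succ_mul, show e.succ = 2 * M a b from he,
            show j + M a b + 1 + (M a b - 1 - n) + n = j + 2 * M a b * 1 by omega]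
          exact (Nat.add_mul_mod_self_left _ _ _).trans (Nat.add_mul_mod_self_left _ _ _).symm))
      rw [List.map_reverse, e1, List.map_reverse, List.reverse_reverse, ← List.map_reverse, h4]
  have nrm : ∀ {x : D.X} (j : ℕ) {j' : ℕ}, A D a b x j' → ∃ d, d < 2 * M a b ∧ A D a b x (j + d) :=
    fun j j' h => (ex_add (n := 2 * M a b) (by omega) j j').imp fun _ hd => ⟨hd.1, h.mod hd.2⟩
  have per := perA (w := w) (D := D) hab h0 hst hm0
  have sep := D.sepC s t hst
  refine comb (fun i => f (D.cone w s t i)) (fun i => ∃ j, A D a b (D.cone w s t i) j) (M s t)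
    (fun i => hf0 _) (fun i => ⟨fun ⟨j, h⟩ => ?_, fun ⟨j, h⟩ => ⟨_, (per i j).2 h⟩⟩)
    (fun i k ⟨j, h⟩ ⟨j', h'⟩ => ?_) (fun i k ⟨j, h⟩ ⟨j', h'⟩ k0 k1 => ?_)
    (fun i k k0 k1 ⟨j, h⟩ ⟨j', h'⟩ _ => ?_) (fun i k k0 k1 ⟨j, h⟩ ⟨j', h'⟩ => ?_)
    (fun i k k0 k1 ⟨j, h⟩ ⟨j', h'⟩ => ?_)
  · refine ⟨j + M a b, (per i _).1 (h.mod ?_)⟩
    rw [add_assoc, ← two_mul]
    exact Nat.add_modEq_right.symm
  · obtain ⟨d, hd, h'⟩ := nrm j h'
    exact ⟨_, clA hab h0 hst hd h h'⟩
  · have := distA hab h0 hst nf h h' k0 k1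
    omega
  · obtain ⟨d, hd, h'⟩ := nrm j h'
    rw [hf _ _ h, hf _ _ h']
    rcases (cs D hab h0 hd (val hab hst h.1 h'.1).symm).2.2.1
      ((sep k k0 (by omega)).zero.2 k1) with e1 | e1
    · exact (h2 j d e1).eq
    · obtain ⟨r, hr⟩ : ∃ r, d = r + M a b := ⟨d - M a b, by omega⟩
      have := (h2 (j + d) r (by omega)).eq
      rw [show j + d + r = j + 2 * M a b by omega, h1] at this
      exact this.symm
  · obtain ⟨d, hd, h'⟩ := nrm j h'
    have c1 := (cs D hab h0 hd (val hab hst h.1 h'.1).symm).2.2.2.2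
      ((sep (2 * k) (by omega) (by omega)).neg_one.2 (by omega))
    have ev : M a b = 6 → Even j := fun h6 =>
      evenA hab h6 hst nf k0 k1 (by rw [Nat.even_iff]; omega) h h'
    have h5 := clA hab h0 hst hd h h'
    obtain ⟨r, hr⟩ : ∃ r, 3 * r = M a b := ⟨M a b / 3, by omega⟩
    rw [show i + 2 * (2 * k) = i + k + M s t by omega,
      show j + 2 * d = j + (2 * d - M a b) + M a b by omega, per] at h5
    rw [hf _ _ h, hf _ _ h', hf _ _ h5]
    rcases c1 with e1 | e1
    · rw [show d = 2 * r by omega, show 2 * (2 * r) - M a b = r by omega]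
      exact h3 j r hr ev
    · have := h3 (j + d) r hr fun h6 => (ev h6).add (by rw [Nat.even_iff]; omega)
      rw [show j + d + 2 * r = j + 2 * M a b by omega, h1,
        show j + d + r = j + (2 * d - M a b) by omega] at this
      exact this.symm
  · have := distA hab h0 hst nf h h' (by omega) (by omega)
    omega

end Pool.Agent.P.MP_e794d7_al.FC
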