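import Pool.Agent.P.MP_e794d7_al.FC.Stmt

/-! Artin groups of FC type: the canonical completion. -/

set_option autoImplicit false

namespace Pool.Agent.P.MP_e794d7_al.FC

open scoped Classical

noncomputable section

namespace Om

section Inv

variable {Ω : Type} {R R' : Ω → Ω → Prop}

/-- the partner, if there is one -/
def tf (R : Ω → Ω → Prop) (ω : Ω) : Ω := if h : ∃ ω', R ω ω' then h.choose else ω

/-- a matching -/
structure Mat (R : Ω → Ω → Prop) : Prop where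
  symm : ∀ a b, R a b → R b a
  uniq : ∀ a b c, R a b → R a c → b = c

theorem Mat.tf_eq (h : Mat R) {a b : Ω} (hab : R a b) : tf R a = b := by
  have e : ∃ ω', R a ω' := ⟨b, hab⟩
  rw [tf, dif_pos e]
  exact h.uniq a _ _ e.choose_spec hab

theorem tf_no {a : Ω} (h : ¬ ∃ b, R a b) : tf R a = a := dif_neg h

theorem Mat.inv (h : Mat R) (a : Ω) : tf R (tf R a) = a := by
  by_cases e : ∃ b, R a b
  · obtain ⟨b, hb⟩ := e
    rw [h.tf_eq hb, h.tf_eq (h.symm _ _ hb)]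
  · rw [tf_no e, tf_no e]

theorem Mat.comm (h : Mat R) (h' : Mat R')
    (sq : ∀ a b c, R a b → R' a c → ∃ d, R' b d ∧ R c d) (a : Ω) :
    tf R (tf R' a) = tf R' (tf R a) := by
  by_cases e : ∃ b, R a b
  · obtain ⟨b, hb⟩ := e
    by_cases e' : ∃ c, R' a c
    · obtain ⟨c, hc⟩ := e'
      obtain ⟨d, h1, h2⟩ := sq a b c hb hc
      rw [h'.tf_eq hc, h.tf_eq hb, h.tf_eq h2, h'.tf_eq h1]
    · rw [tf_no e', h.tf_eq hb, tf_no]
      rintro ⟨c, hc⟩
      obtain ⟨d, h1, -⟩ := sq b a c (h.symm _ _ hb) hc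
      exact e' ⟨d, h1⟩
  · rw [tf_no e]
    by_cases e' : ∃ c, R' a c
    · obtain ⟨c, hc⟩ := e'
      rw [h'.tf_eq hc, tf_no]
      rintro ⟨b, hb⟩
      obtain ⟨d, -, h2⟩ := sq c b a hb (h'.symm _ _ hc)
      exact e ⟨d, h2⟩
    · rw [tf_no e', tf_no e]

end Inv

variable {ι P Q : Type} [Group P] [Group Q]

/-- conjugates of generators satisfy the braid relations -/
theorem braid {H : Type} [Group H] (M : ι → ι → ℕ) (g : ι → Q) (ρ : Q →* H) (A : ι → H)
    (rel : ∀ a b, alt (g a) (g b) (M a b) = alt (g b) (g a) (M a b))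
    (c1 : ∀ s t, s ≠ t → Commute (A t) (ρ (g s)))
    (c2 : ∀ s t, s ≠ t → M s t ≠ 0 → Commute (A s) (A t)) (a b : ι) :
    alt (A a * ρ (g a) * (A a)⁻¹) (A b * ρ (g b) * (A b)⁻¹) (M a b) =
      alt (A b * ρ (g b) * (A b)⁻¹) (A a * ρ (g a) * (A a)⁻¹) (M a b) := by
  by_cases hab : a = b
  · rw [hab]
  by_cases h0 : M a b = 0
  · rw [h0, alt_zero, alt_zero]
  have e1 : A a * ρ (g a) * (A a)⁻¹ =
      ((MulAut.conj (A a * A b)).toMonoidHom.comp ρ) (g a) := by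
    change _ = A a * A b * ρ (g a) * (A a * A b)⁻¹
    rw [mul_assoc (A a) (A b), (c1 a b hab).eq]
    group
  have e2 : A b * ρ (g b) * (A b)⁻¹ =
      ((MulAut.conj (A a * A b)).toMonoidHom.comp ρ) (g b) := by
    change _ = A a * A b * ρ (g b) * (A a * A b)⁻¹
    rw [(c2 a b hab h0).eq, mul_assoc (A b) (A a), (c1 b a (Ne.symm hab)).eq]
    group
  rw [e1, e2, ← map_alt, ← map_alt, rel]

/-- the hypotheses on the cliques -/
structure Hyp (π : P →* Q) (y : ι → P) (C : Set ι → Prop) : Prop where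
  mono : ∀ T T', T ⊆ T' → C T' → C T
  inj : ∀ T, C T → ∀ h ∈ sub y T, π h = 1 → h = 1
  dc : ∀ T, C T → ∀ X Y : Set ι, ∀ a ∈ sub (fun i => π (y i)) X, ∀ b ∈ sub (fun i => π (y i)) Y,
    a * b ∈ sub (fun i => π (y i)) T → ∃ a' ∈ sub (fun i => π (y i)) (T ∩ X),
      ∃ b' ∈ sub (fun i => π (y i)) (T ∩ Y), a * b = a' * b'

/-- the vertices: a set of letters and a coset -/
def V (y : ι → P) (T : Set ι) (g : P) : Set ι × Set P := (T, {x | g⁻¹ * x ∈ sub y T})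

/-- the label of a wall -/
def Lb (π : P →* Q) (y : ι → P) (s : ι) (c : Q) (g : P) : Prop :=
  c⁻¹ * π g ∈ sub (fun i => π (y i)) {s}ᶜ

/-- the edges with label `(s, c)`, oriented upwards -/
def Up (π : P →* Q) (y : ι → P) (C : Set ι → Prop) (s : ι) (c : Q) (ω ω' : Set ι × Set P) :
    Prop :=
  ∃ T g, C (insert s T) ∧ s ∉ T ∧ Lb π y s c g ∧ ω = V y T g ∧ ω' = V y (insert s T) g

/-- the edges with label `(s, c)` -/
def Ed (π : P →* Q) (y : ι → P) (C : Set ι → Prop) (s : ι) (c : Q) (ω ω' : Set ι × Set P) :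
    Prop :=
  Up π y C s c ω ω' ∨ Up π y C s c ω' ω

variable {π : P →* Q} {y : ι → P} {C : Set ι → Prop}

theorem V_eq {T : Set ι} {g g' : P} (h : g⁻¹ * g' ∈ sub y T) : V y T g = V y T g' := by
  refine Prod.ext rfl (Set.ext fun x => ?_)
  change g⁻¹ * x ∈ sub y T ↔ g'⁻¹ * x ∈ sub y T
  have e : g⁻¹ * x = g⁻¹ * g' * (g'⁻¹ * x) := by group
  rw [e]
  exact Subgroup.mul_mem_cancel_left _ h

theorem V_inj {T T' : Set ι} {g g' : P} (h : V y T g = V y T' g') :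
    T = T' ∧ g⁻¹ * g' ∈ sub y T := by
  have h1 : T = T' := congrArg Prod.fst h
  have h2 : {x | g⁻¹ * x ∈ sub y T} = {x | g'⁻¹ * x ∈ sub y T'} := congrArg Prod.snd h
  refine ⟨h1, ?_⟩
  have : g' ∈ {x | g'⁻¹ * x ∈ sub y T'} := by
    change g'⁻¹ * g' ∈ sub y T'
    rw [inv_mul_cancel]
    exact one_mem _
  rw [← h2] at this
  exact this

theorem Lb.move {s : ι} {c : Q} {g g' : P} {T : Set ι} (h : Lb π y s c g) (hs : s ∉ T)
    (hg : g⁻¹ * g' ∈ sub y T) : Lb π y s c g' := by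
  have h1 : π (g⁻¹ * g') ∈ sub (fun i => π (y i)) {s}ᶜ :=
    sub_mono (Set.subset_compl_singleton_iff.2 hs) (map_mem_sub π hg)
  have e : c⁻¹ * π g' = c⁻¹ * π g * π (g⁻¹ * g') := by
    rw [map_mul, map_inv]
    group
  rw [Lb, e]
  exact mul_mem h h1

theorem Lb_mul {s : ι} (c : Q) {q : Q} (hq : q ∈ sub (fun i => π (y i)) {s}ᶜ) :
    Lb π y s (c * q) = Lb π y s c := by
  funext g
  have e : (c * q)⁻¹ * π g = q⁻¹ * (c⁻¹ * π g) := by group
  rw [Lb, Lb, e, Subgroup.mul_mem_cancel_left _ (inv_mem hq)]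

theorem Ed_mul {s : ι} (c : Q) {q : Q} (hq : q ∈ sub (fun i => π (y i)) {s}ᶜ) :
    Ed π y C s (c * q) = Ed π y C s c := by
  funext ω ω'
  simp only [Ed, Up, Lb_mul c hq]

theorem Up.at {s : ι} {c : Q} {T : Set ι} {g : P} {ω' : Set ι × Set P}
    (h : Up π y C s c (V y T g) ω') :
    C (insert s T) ∧ s ∉ T ∧ Lb π y s c g ∧ ω' = V y (insert s T) g := by
  obtain ⟨T', g', h1, h2, h3, h4, rfl⟩ := h
  obtain ⟨rfl, h5⟩ := V_inj h4.symm
  exact ⟨h1, h2, h3.move h2 h5, V_eq (sub_mono (Set.subset_insert _ _) h5)⟩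

theorem Hyp.down (H : Hyp π y C) {T S : Set ι} (hT : C T) (hS : S ⊆ T) {h : P}
    (hh : h ∈ sub y T) (h' : π h ∈ sub (fun i => π (y i)) S) : h ∈ sub y S := by
  obtain ⟨e, he, he'⟩ := exists_of_mem_sub π h'
  have := H.inj T hT (e⁻¹ * h) (mul_mem (inv_mem (sub_mono hS he)) hh)
    (by rw [map_mul, map_inv, he', inv_mul_cancel])
  rw [← inv_mul_eq_one.1 this]
  exact he

theorem ins_inter {s : ι} {T : Set ι} (h : s ∉ T) : insert s T ∩ {s}ᶜ = T := by
  ext a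
  constructor
  · rintro ⟨h1 | h1, h2⟩
    · exact (h2 h1).elim
    · exact h1
  · intro h1
    exact ⟨Or.inr h1, fun e => h (Set.mem_singleton_iff.1 e ▸ h1)⟩

theorem Hyp.mat (H : Hyp π y C) (s : ι) (c : Q) : Mat (Ed π y C s c) where
  symm _ _ h := h.symm
  uniq := by
    rintro a b d (⟨T, g, h1, h2, h3, rfl, rfl⟩ | ⟨T, g, h1, h2, h3, rfl, rfl⟩) (h | h)
    · exact h.at.2.2.2.symm
    · obtain ⟨T', g', -, -, -, -, h5⟩ := h
      exact (h2 ((V_inj h5).1 ▸ Set.mem_insert s T')).elim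
    · exact (h.at.2.1 (Set.mem_insert s T)).elim
    · obtain ⟨T', g', -, k2, k3, rfl, h5⟩ := h
      obtain ⟨e, h6⟩ := V_inj h5
      obtain rfl : T = T' := by rw [← ins_inter h2, e, ins_inter k2]
      refine V_eq (H.down h1 (Set.subset_insert _ _) h6 ?_)
      have e1 : π (g⁻¹ * g') = (c⁻¹ * π g)⁻¹ * (c⁻¹ * π g') * 1 := by
        rw [map_mul, map_inv]
        group
      obtain ⟨a', ha', b', hb', e2⟩ := H.dc _ h1 {s}ᶜ ∅ _ (mul_mem (inv_mem h3) k3) 1 (one_mem _)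
        (e1 ▸ map_mem_sub π h6)
      rw [Set.inter_empty, sub_empty, Subgroup.mem_bot] at hb'
      rw [e1, e2, hb', mul_one]
      rwa [ins_inter h2] at ha'

theorem Hyp.updown (H : Hyp π y C) {s t : ι} {c : Q} {ω ω1 ω2 : Set ι × Set P}
    (h1 : Up π y C s c ω ω1) (h2 : Up π y C t c ω2 ω) :
    ∃ d, Up π y C t c d ω1 ∧ Up π y C s c ω2 d := by
  obtain ⟨T, g, -, k2, k3, rfl, rfl⟩ := h2
  obtain ⟨l1, l2, l3, rfl⟩ := h1.at
  have hst : t ≠ s := fun e => l2 (e ▸ Set.mem_insert t T)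
  refine ⟨V y (insert s T) g, ⟨insert s T, g, Set.insert_comm s t T ▸ l1, ?_, k3, rfl,
    by rw [Set.insert_comm]⟩, ⟨T, g, H.mono _ _ ?_ l1, fun h => l2 (Or.inr h), l3, rfl, rfl⟩⟩
  · rintro (h | h)
    · exact hst h
    · exact k2 h
  · exact Set.insert_subset_insert (Set.subset_insert _ _)

theorem Hyp.square (H : Hyp π y C) {s t : ι} (hst : s ≠ t)
    (fl : ∀ T, C (insert s T) → C (insert t T) → C (insert s (insert t T))) (c : Q)
    (ω ω1 ω2 : Set ι × Set P) (h1 : Ed π y C s c ω ω1) (h2 : Ed π y C t c ω ω2) :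
    ∃ d, Ed π y C t c ω1 d ∧ Ed π y C s c ω2 d := by
  rcases h1 with h1 | h1 <;> rcases h2 with h2 | h2
  · obtain ⟨T, g, k1, k2, k3, rfl, rfl⟩ := h1
    obtain ⟨l1, l2, l3, rfl⟩ := h2.at
    refine ⟨V y (insert s (insert t T)) g, Or.inl ⟨insert s T, g,
      Set.insert_comm s t T ▸ fl T k1 l1, ?_, l3, rfl, by rw [Set.insert_comm]⟩,
      Or.inl ⟨insert t T, g, fl T k1 l1, ?_, k3, rfl, rfl⟩⟩
    · rintro (h | h)
      · exact hst h.symm
      · exact l2 h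
    · rintro (h | h)
      · exact hst h
      · exact k2 h
  · obtain ⟨d, k1, k2⟩ := H.updown h1 h2
    exact ⟨d, Or.inr k1, Or.inl k2⟩
  · obtain ⟨d, k1, k2⟩ := H.updown h2 h1
    exact ⟨d, Or.inl k2, Or.inr k1⟩
  · obtain ⟨T1, g1, k1, k2, k3, rfl, rfl⟩ := h1
    obtain ⟨T2, g2, l1, l2, l3, rfl, h5⟩ := h2
    obtain ⟨e, h6⟩ := V_inj h5
    have e1 : π (g1⁻¹ * g2) = (c⁻¹ * π g1)⁻¹ * (c⁻¹ * π g2) := by
      rw [map_mul, map_inv]
      group
    obtain ⟨a', ha', b', hb', e2⟩ := H.dc _ k1 {s}ᶜ {t}ᶜ _ (inv_mem k3) _ l3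
      (e1 ▸ map_mem_sub π h6)
    rw [ins_inter k2] at ha'
    rw [e, ins_inter l2] at hb'
    obtain ⟨u, hu, rfl⟩ := exists_of_mem_sub π ha'
    have m1 : g1⁻¹ * (g1 * u) ∈ sub y T1 := by rwa [inv_mul_cancel_left]
    have m2 : (g1 * u)⁻¹ * g2 ∈ sub y T2 := by
      have e3 : (g1 * u)⁻¹ * g2 = u⁻¹ * (g1⁻¹ * g2) := by group
      refine H.down l1 (Set.subset_insert _ _) ?_ ?_
      · rw [e3, ← e]
        exact mul_mem (inv_mem (sub_mono (Set.subset_insert _ _) hu)) h6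
      · rw [e3, map_mul, e1, e2, map_inv, inv_mul_cancel_left]
        exact hb'
    have m3 : g2⁻¹ * (g1 * u) ∈ sub y T2 := by
      have := inv_mem m2
      rwa [mul_inv_rev, inv_inv] at this
    have t1 : t ∈ T1 := by
      have : t ∈ insert s T1 := e ▸ Set.mem_insert t T2
      exact this.resolve_left hst.symm
    have s2 : s ∈ T2 := by
      have : s ∈ insert t T2 := e ▸ Set.mem_insert s T1
      exact this.resolve_left hst
    have f1 : insert t (T1 \ {t}) = T1 := by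
      rw [Set.insert_sdiff_singleton, Set.insert_eq_of_mem t1]
    have f2 : insert s (T1 \ {t}) = T2 := by
      rw [← ins_inter l2, ← e]
      ext a
      constructor
      · rintro (h | h)
        · exact ⟨Or.inl h, fun e' => hst (h.symm.trans e')⟩
        · exact ⟨Or.inr h.1, h.2⟩
      · rintro ⟨h | h, h'⟩
        · exact Or.inl h
        · exact Or.inr ⟨h, h'⟩
    refine ⟨V y (T1 \ {t}) (g1 * u), Or.inr ⟨T1 \ {t}, g1 * u, ?_, fun h => h.2 rfl,
      l3.move l2 m3, rfl, ?_⟩, Or.inr ⟨T1 \ {t}, g1 * u, ?_, fun h => k2 h.1, k3.move k2 m1,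
      rfl, ?_⟩⟩
    · rw [f1]
      exact H.mono _ _ (Set.subset_insert _ _) k1
    · rw [f1]
      exact V_eq m1
    · rw [f2]
      exact H.mono _ _ (Set.subset_insert _ _) l1
    · rw [f2]
      exact V_eq m3

/-- crossing the wall with the current label -/
def Hyp.A (H : Hyp π y C) (s : ι) : Equiv.Perm ((Set ι × Set P) × Q) :=
  Function.Involutive.toPerm (fun x => (tf (Ed π y C s x.2) x.1, x.2))
    fun x => Prod.ext ((H.mat s x.2).inv x.1) rfl

theorem Hyp.A_apply (H : Hyp π y C) (s : ι) (ω : Set ι × Set P) (c : Q) :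
    H.A s (ω, c) = (tf (Ed π y C s c) ω, c) := rfl

theorem Hyp.A_inv (H : Hyp π y C) (s : ι) (ω : Set ι × Set P) (c : Q) :
    (H.A s)⁻¹ (ω, c) = (tf (Ed π y C s c) ω, c) := rfl

/-- right multiplication of the label -/
def rt (Ω Q : Type) [Group Q] : Q →* Equiv.Perm (Ω × Q) where
  toFun q := (Equiv.refl Ω).prodCongr (Equiv.mulRight q⁻¹)
  map_one' := by
    refine Equiv.ext fun x => ?_
    change (x.1, x.2 * 1⁻¹) = x
    rw [inv_one, mul_one]
  map_mul' a b := by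
    refine Equiv.ext fun x => ?_
    change (x.1, x.2 * (a * b)⁻¹) = (x.1, x.2 * b⁻¹ * a⁻¹)
    rw [mul_inv_rev, mul_assoc]

theorem rt_apply {Ω : Type} (q : Q) (ω : Ω) (c : Q) : rt Ω Q q (ω, c) = (ω, c * q⁻¹) := rfl

theorem Hyp.step (H : Hyp π y C) {a : ι} (ha : C {a}) (p : P) {e : P} (he : e ∈ sub y {a}) :
    (H.A a * rt _ Q (π e)⁻¹ * (H.A a)⁻¹ : Equiv.Perm _) (V y ∅ p, π p) =
      (V y ∅ (p * e), π (p * e)) := by
  have up : ∀ p : P, Up π y C a (π p) (V y ∅ p) (V y {a} p) := fun p =>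
    ⟨∅, p, by simpa using ha, Set.notMem_empty a,
      by rw [Lb, inv_mul_cancel]; exact one_mem _, rfl, by simp⟩
  have e1 : V y {a} p = V y {a} (p * e) := V_eq (by rwa [inv_mul_cancel_left])
  rw [Equiv.Perm.mul_apply, Equiv.Perm.mul_apply, H.A_inv, (H.mat a _).tf_eq (Or.inl (up p)),
    rt_apply, inv_inv, ← map_mul, H.A_apply, e1, (H.mat a _).tf_eq (Or.inr (up (p * e)))]

theorem main {M : ι → ι → ℕ} {U : Set ι} (H : Hyp π y C) (one : ∀ a ∈ U, C {a})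
    (fl : ∀ s t, M s t ≠ 0 → ∀ T, C (insert s T) → C (insert t T) → C (insert s (insert t T)))
    (rel : ∀ a b, alt (π (y a)) (π (y b)) (M a b) = alt (π (y b)) (π (y a)) (M a b)) :
    ∃ Φ : Art M →* Equiv.Perm ((Set ι × Set P) × Q), Sep M y U Φ.ker := by
  have c1 : ∀ s t, s ≠ t → Commute (H.A t) (rt _ Q (π (y s))) := fun s t hst => by
    refine Equiv.ext fun ⟨ω, c⟩ => ?_
    rw [Equiv.Perm.mul_apply, Equiv.Perm.mul_apply, rt_apply, H.A_apply, H.A_apply, rt_apply,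
      Ed_mul c (inv_mem (mem_sub (y := fun i => π (y i)) (T := {t}ᶜ) hst))]
  have c2 : ∀ s t, s ≠ t → M s t ≠ 0 → Commute (H.A s) (H.A t) := fun s t hst h0 => by
    refine Equiv.ext fun ⟨ω, c⟩ => ?_
    rw [Equiv.Perm.mul_apply, Equiv.Perm.mul_apply, H.A_apply, H.A_apply, H.A_apply, H.A_apply,
      (H.mat s c).comm (H.mat t c) (H.square hst (fl s t h0) c)]
  let Φ := Art.lift _ (braid M (fun i => π (y i)) (rt _ Q) H.A rel c1 c2)
  have hΦ : ∀ a, Φ (Art.gen M a) = H.A a * rt _ Q (π (y a)) * (H.A a)⁻¹ := Art.lift_gen _ _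
  have key : ∀ h ∈ sub (fun a => (y a, Art.gen M a)) U,
      (Φ h.2)⁻¹ (V y ∅ 1, π 1) = (V y ∅ h.1, π h.1) := by
    intro h hh
    refine sub_induction (p := fun h : P × Art M =>
      (Φ h.2)⁻¹ (V y ∅ 1, π 1) = (V y ∅ h.1, π h.1)) ?_ ?_ ?_ hh
    · rw [Prod.snd_one, map_one, inv_one]
      rfl
    · intro g _ a ha ih
      have e : (Φ (Art.gen M a))⁻¹ = H.A a * rt _ Q (π (y a))⁻¹ * (H.A a)⁻¹ := by
        rw [hΦ, map_inv]
        group
      rw [Prod.snd_mul, map_mul, mul_inv_rev, Equiv.Perm.mul_apply, ih, e]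
      exact H.step (one a ha) g.1 (mem_sub rfl)
    · intro g _ a ha ih
      have e : Φ (Art.gen M a) = H.A a * rt _ Q (π (y a)⁻¹)⁻¹ * (H.A a)⁻¹ := by
        rw [hΦ, map_inv π, inv_inv]
      rw [Prod.snd_mul, map_mul, mul_inv_rev, Equiv.Perm.mul_apply, ih, Prod.snd_inv, map_inv,
        inv_inv, e]
      exact H.step (one a ha) g.1 (inv_mem (mem_sub rfl))
  refine ⟨Φ, fun h hh h1 => ?_⟩
  have h2 := key h hh
  rw [MonoidHom.mem_ker.1 h1, inv_one] at h2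
  have h3 := (V_inj (congrArg Prod.fst h2)).2
  rwa [sub_empty, Subgroup.mem_bot, inv_one, one_mul] at h3

end Om

theorem p_om : S_om := by
  intro ι _ M hM U K hK G _ y h
  let mk : Art M →* Art M ⧸ K := QuotientGroup.mk' K
  let f : G × Art M →* G × (Art M ⧸ K) := (MonoidHom.id G).prodMap mk
  have H : Om.Hyp (MonoidHom.snd G (Art M ⧸ K)) (fun a => (y a, mk (Art.gen M a)))
      (fun T => T ⊆ U ∧ Clq M T) := by
    refine ⟨fun T T' hT h' => ⟨hT.trans h'.1, fun a ha b hb => h'.2 a (hT ha) b (hT hb)⟩,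
      fun T hT g hg h1 => ?_, fun T hT X Y a ha b hb hab => ?_⟩
    · obtain ⟨g', hg', rfl⟩ := exists_of_mem_sub (y := fun a => (y a, Art.gen M a)) f hg
      exact Prod.ext ((h T hT.1 hT.2).1 g' hg' ((QuotientGroup.eq_one_iff _).1 h1)) h1
    · obtain ⟨a, ha0, rfl⟩ := exists_of_mem_sub (y := Art.gen M) mk ha
      obtain ⟨b, hb0, rfl⟩ := exists_of_mem_sub (y := Art.gen M) mk hb
      obtain ⟨g, hg, e⟩ := exists_of_mem_sub (y := Art.gen M) mk hab
      obtain ⟨a', ha', b', hb', e'⟩ := (h T hT.1 hT.2).2 X Y g hg a ha0 b hb0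
        (QuotientGroup.eq.1 ((map_mul mk a b).trans e.symm))
      exact ⟨mk a', map_mem_sub mk ha', mk b', map_mem_sub mk hb',
        e.symm.trans ((QuotientGroup.eq.2 e').symm.trans (map_mul mk a' b'))⟩
  obtain ⟨Φ, hΦ⟩ := Om.main (M := M) (U := U) H (fun a ha => ⟨Set.singleton_subset_iff.2 ha, by
      rintro _ rfl _ rfl
      rw [hM.diag]
      exact one_ne_zero⟩)
    (fun s t h0 T h1 h2 => ⟨Set.insert_subset (h1.1 (Set.mem_insert s T)) h2.1, by
      have k : ∀ b ∈ insert t T, M s b ≠ 0 := by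
        rintro b (rfl | hb)
        · exact h0
        · exact h1.2 s (Or.inl rfl) b (Or.inr hb)
      rintro a (rfl | ha) b (rfl | hb)
      · exact h1.2 _ (Or.inl rfl) _ (Or.inl rfl)
      · exact k b hb
      · rw [hM.symm]
        exact k a ha
      · exact h2.2 a ha b hb⟩)
    (fun a b => ((brd_gen M Set.univ).map mk) a trivial b trivial)
  refine ⟨Φ.ker, fun _ _ => ?_, fun g hg h1 => ?_⟩
  · have : Finite (Art M ⧸ K) := Subgroup.finite_quotient_of_finiteIndex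
    infer_instance
  · have h2 : (f g, g.2) ∈ sub (fun a => ((y a, mk (Art.gen M a)), Art.gen M a)) U :=
      map_mem_sub (y := fun a => (y a, Art.gen M a)) (f.prod (MonoidHom.snd G (Art M))) hg
    have h3 : f g = 1 := hΦ (f g, g.2) h2 h1
    exact congrArg Prod.fst h3

end

end Pool.Agent.P.MP_e794d7_al.FC
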