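import Pool.Agent.P.MP_e794d7_al.FC.Stmt

/-! Components of the diagrams, finiteness of the Coxeter groups, a representation of the virtual
pure braid group. -/

set_option autoImplicit false

namespace Pool.Agent.P.MP_e794d7_al.FC

open scoped Classical

noncomputable section

namespace PathP

theorem lab_self (i : ℕ) : lab i i = 1 := if_pos rfl

theorem lab_far {i j : ℕ} (h : i + 1 < j) : lab i j = 2 := by
  rw [lab, if_neg (by omega), if_neg (by omega)]

theorem fb_sub {ι : Type} (M : ι → ι → ℕ) (t : ℕ → ι) (lo n : ℕ) {f : Wg M}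
    (hf : f ∈ Fb (fun i => sg M (t i)) lo n) : f = 1 ∨ f = xx (fun i => sg M (t i)) n 0 := by
  have h1 : ∀ i, xx (fun i => sg M (t i)) n i = 1 ∨
      xx (fun i => sg M (t i)) n i = xx (fun i => sg M (t i)) n 0 := fun i => by
    by_cases hi : i = 0
    · exact Or.inr (by rw [hi])
    · exact Or.inl (by rw [xx, if_neg hi, pow_two, sg_sq, mul_one, mul_inv_cancel])
  have h2 : xx (fun i => sg M (t i)) n 0 * xx (fun i => sg M (t i)) n 0 = 1 := by
    rw [xx, if_pos rfl, pow_one, conj_mul, sg_sq, mul_one, mul_inv_cancel]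
  have h3 : (xx (fun i => sg M (t i)) n 0)⁻¹ = xx (fun i => sg M (t i)) n 0 :=
    inv_eq_of_mul_eq_one_right h2
  refine sub_induction (p := fun f => f = 1 ∨ f = xx (fun i => sg M (t i)) n 0) (Or.inl rfl)
    (fun g _ i _ ih => ?_) (fun g _ i _ ih => ?_) hf
  · rcases ih with rfl | rfl <;> rcases h1 i with h | h <;> simp [h, h2]
  · rcases ih with rfl | rfl <;> rcases h1 i with h | h <;> simp [h, h2, h3]

variable {σ Q : Type} [Group Q]

/-- the coordinate `i` is acted on by the coordinate `j` -/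
def ep (top i j : σ) : Equiv.Perm (σ → Q) :=
  if h : i = j ∨ j = top then 1 else
    { toFun := fun u => Function.update u i (u j * u i * if i = top then 1 else (u j)⁻¹)
      invFun := fun u => Function.update u i ((u j)⁻¹ * u i * if i = top then 1 else u j)
      left_inv := fun u => by
        have hj : j ≠ i := fun e => h (Or.inl e.symm)
        funext a
        by_cases ha : a = i
        · subst ha
          simp only [Function.update_self, Function.update_of_ne hj]
          split_ifs <;> simp [mul_assoc]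
        · simp [ha]
      right_inv := fun u => by
        have hj : j ≠ i := fun e => h (Or.inl e.symm)
        funext a
        by_cases ha : a = i
        · subst ha
          simp only [Function.update_self, Function.update_of_ne hj]
          split_ifs <;> simp [mul_assoc]
        · simp [ha] }

theorem ep_top (top i : σ) : (ep top i top : Equiv.Perm (σ → Q)) = 1 := dif_pos (Or.inr rfl)

theorem ep_apply {top i j : σ} (h1 : i ≠ j) (h2 : j ≠ top) (u : σ → Q) :
    ep top i j u = Function.update u i (u j * u i * if i = top then 1 else (u j)⁻¹) := by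
  rw [ep, dif_neg (not_or.2 ⟨h1, h2⟩)]
  rfl

theorem ep_comm {top i j k l : σ} (h1 : i ≠ j) (h2 : i ≠ k) (h3 : i ≠ l) (h4 : j ≠ k)
    (h6 : k ≠ l) : Commute (ep top i j : Equiv.Perm (σ → Q)) (ep top k l) := by
  by_cases hj : j = top
  · rw [hj, ep_top]
    exact Commute.one_left _
  by_cases hl : l = top
  · rw [hl, ep_top]
    exact Commute.one_right _
  refine Equiv.ext fun u => ?_
  simp only [Equiv.Perm.mul_apply, ep_apply h1 hj, ep_apply h6 hl, Function.update_of_ne h2,
    Function.update_of_ne h4, Function.update_of_ne h2.symm, Function.update_of_ne h3.symm]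
  exact Function.update_comm h2.symm _ _ _

theorem ep_tri {top i j k : σ} (h1 : i ≠ j) (h2 : i ≠ k) (h3 : j ≠ k) :
    (ep top i j * ep top i k * ep top j k : Equiv.Perm (σ → Q)) =
      ep top j k * ep top i k * ep top i j := by
  by_cases hk : k = top
  · simp [hk, ep_top]
  by_cases hj : j = top
  · have := ep_comm (Q := Q) (top := top) h2 h1 h2 h3.symm h3
    rw [hj, ep_top, one_mul, mul_one, ← hj]
    rw [← hj] at this
    exact this
  refine Equiv.ext fun u => ?_
  simp only [Equiv.Perm.mul_apply, ep_apply h1 hj, ep_apply h2 hk, ep_apply h3 hk,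
    Function.update_of_ne h1, Function.update_of_ne h1.symm, Function.update_of_ne h2.symm,
    Function.update_of_ne h3.symm, Function.update_self, Function.update_idem, if_neg hj]
  rw [Function.update_comm h1.symm]
  congr 2
  by_cases hi : i = top <;> simp [hi, mul_assoc]

end PathP

open PathP

theorem p_path : S_path := by
  rintro ι M hM T hT ⟨a1, ha1⟩ ⟨c, e, hce⟩
  obtain ⟨a0, ⟨ha0, hc0⟩, hmax⟩ := Set.exists_max_image {a ∈ T | c a = c a1} e
    (hT.subset fun _ h => h.1) ⟨a1, ha1, rfl⟩
  have hex : ∃ lo, ∀ i, lo ≤ i → i < e a0 + 1 → ∃ a ∈ T, c a = c a1 ∧ e a = i :=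
    ⟨e a0, fun i h1 h2 => ⟨a0, ha0, hc0, by omega⟩⟩
  have hlo := Nat.find_spec hex
  have hle : Nat.find hex ≤ e a0 := Nat.find_min' hex fun i h1 h2 => ⟨a0, ha0, hc0, by omega⟩
  have hmin := fun m => Nat.find_min hex (m := m)
  generalize Nat.find hex = lo at hlo hle hmin
  have : Nonempty ι := ⟨a0⟩
  choose! t ht1 ht2 ht3 using hlo
  refine ⟨lo, e a0 + 1, t, by omega, ht1, fun i j h1 h2 h3 h4 => ?_, fun a ha hne i h1 h2 => ?_⟩
  · by_cases hij : i = j
    · rw [hij, hM.diag, lab_self]
    · have : t i ≠ t j := fun h => hij (by rw [← ht3 i h1 h2, h, ht3 j h3 h4])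
      rw [hce _ (ht1 i h1 h2) _ (ht1 j h3 h4) this, if_pos ((ht2 i h1 h2).trans (ht2 j h3 h4).symm),
        ht3 i h1 h2, ht3 j h3 h4]
  · rw [hce a ha _ (ht1 i h1 h2) (hne i h1 h2), ht2 i h1 h2, ht3 i h1 h2]
    split_ifs with hc
    · have h3 : e a ≤ e a0 := hmax a ⟨ha, hc⟩
      have h4 : e a < lo := by
        by_contra h4
        have h5 : lo ≤ e a := not_lt.1 h4
        have h6 : e a < e a0 + 1 := by omega
        refine hM.off _ _ (hne _ h5 h6) ?_
        rw [hce a ha _ (ht1 _ h5 h6) (hne _ h5 h6), if_pos (hc.trans (ht2 _ h5 h6).symm),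
          ht3 _ h5 h6, lab_self]
      have h5 : e a + 1 ≠ lo := fun h5 => hmin (e a) h4 fun j h6 h7 => by
        by_cases h8 : j = e a
        · exact ⟨a, ha, hc, h8.symm⟩
        · exact ⟨t j, ht1 j (by omega) h7, ht2 j (by omega) h7, ht3 j (by omega) h7⟩
      exact lab_far (by omega)
    · rfl

theorem p_finw (h : S_cov) : S_finw := by
  intro ι M hM T hT hc
  induction hn : T.ncard using Nat.strong_induction_on generalizing T with
  | _ k ih =>
  rcases T.eq_empty_or_nonempty with rfl | hne
  · rw [sub_empty]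
    infer_instance
  obtain ⟨lo, n, t, hp⟩ := p_path ι M hM T hT hne hc
  have hlt := hp.lt
  have hmem : t (n - 1) ∈ T := hp.mem _ (by omega) (by omega)
  have h1 : Finite (sub (sg M) (T \ {t (n - 1)})) := by
    refine ih _ ?_ _ (hT.subset Set.sdiff_subset) ?_ rfl
    · rw [← hn]
      exact Set.ncard_sdiff_singleton_lt_of_mem hmem hT
    · obtain ⟨c, e, hce⟩ := hc
      exact ⟨c, e, fun a ha b hb => hce a ha.1 b hb.1⟩
  have h2 : ((sub (sg M) (T \ {t (n - 1)}) : Subgroup (Wg M)) : Set (Wg M)).Finite := h1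
  have h3 := ((Set.toFinite ({1, xx (fun i => sg M (t i)) n 0} : Set (Wg M))).prod
    (h2.prod (Set.finite_Iic n))).image
    fun p : Wg M × Wg M × ℕ => p.1 * p.2.1 * dl (fun i => sg M (t i)) n p.2.2
  refine (h3.subset fun g hg => ?_ : ((sub (sg M) T : Subgroup (Wg M)) : Set (Wg M)).Finite)
  obtain ⟨f, hf, a, ha, d, hd, rfl⟩ := (h ι M hM T lo n t hp).cov _ (sg M) (brd_sg M T) g hg
  exact ⟨(f, a, d), ⟨fb_sub M t lo n hf, ha, by change d ≤ n; omega⟩, rfl⟩

theorem p_vp : S_vp := fun _ _ _ top =>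
  ⟨ep top, ⟨fun _ _ _ h1 h2 h3 => ep_tri h1 h2 h3,
    fun _ _ _ _ h1 h2 h3 h4 _ h6 => ep_comm h1 h2 h3 h4 h6⟩, ep_top top, fun j hj u => by
      rw [ep_apply hj.symm hj, if_pos rfl, mul_one]⟩

end

end Pool.Agent.P.MP_e794d7_al.FC
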