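import Pool.Agent.P.MP_e794d7_al.FC.Stmt

/-! Virtually poly-free groups are good. -/

set_option autoImplicit false

namespace Pool.Agent.P.MP_e794d7_al.FC

open scoped Classical RegularWreathProduct

open MulAction

namespace Pfg

variable {S : Type} [Group S] {κ : Type}

theorem fin_hom {N Q : Type} [Group N] [Group Q] (h : Group.FG N) [Finite Q] :
    Finite (N →* Q) := by
  obtain ⟨T, hT, hf⟩ := Group.fg_iff.1 h
  have := hf.to_subtype
  refine Finite.of_injective (fun (f : N →* Q) (x : T) => f x) fun f g hfg => ?_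
  exact MonoidHom.eq_of_eqOn_dense hT fun x hx => congrFun hfg ⟨x, hx⟩

theorem exists_sec (π : S →* FreeGroup κ) (hπ : Function.Surjective π) :
    ∃ s : FreeGroup κ →* S, ∀ w, π (s w) = w := by
  choose u hu using hπ
  refine ⟨FreeGroup.lift fun k => u (FreeGroup.of k), fun w => ?_⟩
  have : π.comp (FreeGroup.lift fun k => u (FreeGroup.of k)) = MonoidHom.id _ := by
    ext k
    simp [hu]
  exact DFunLike.congr_fun this w

theorem mem_ker_sec {π : S →* FreeGroup κ} {s : FreeGroup κ →* S} (hs : ∀ w, π (s w) = w)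
    (g : S) : g * (s (π g))⁻¹ ∈ π.ker := by
  rw [MonoidHom.mem_ker, map_mul, map_inv, hs, mul_inv_cancel]

theorem fg_step [Finite κ] (π : S →* FreeGroup κ) (hπ : Function.Surjective π)
    (h : Group.FG π.ker) : Group.FG S := by
  obtain ⟨s, hs⟩ := exists_sec π hπ
  have e : π.ker ⊔ s.range = ⊤ := by
    refine eq_top_iff.2 fun g _ => ?_
    have := Subgroup.mul_mem_sup (mem_ker_sec hs g) (show s (π g) ∈ s.range from ⟨_, rfl⟩)
    rwa [inv_mul_cancel_right] at this
  rw [Group.fg_def, ← e]
  exact ((Group.fg_iff_subgroup_fg _).1 h).sup ((Group.fg_iff_subgroup_fg _).1 inferInstance)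

theorem full_step (π : S →* FreeGroup κ) (hπ : Function.Surjective π) (h : Group.FG π.ker) :
    Full π.ker.subtype := by
  obtain ⟨s, hs⟩ := exists_sec π hπ
  intro K hK
  have := fin_hom (Q := π.ker ⧸ K.normalCore) h
  let K' : Subgroup π.ker := ⨅ f : π.ker →* π.ker ⧸ K.normalCore, f.ker
  have hK' : K'.FiniteIndex := Subgroup.finiteIndex_iInf fun f => Subgroup.finiteIndex_ker f
  let K'' : Subgroup S := K'.map π.ker.subtype
  have hn : ∀ a : S, ∀ x ∈ K'', a * x * a⁻¹ ∈ K'' := by
    rintro a _ ⟨x, hx, rfl⟩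
    refine ⟨MulAut.conjNormal a x, Subgroup.mem_iInf.2 fun f => ?_, rfl⟩
    exact Subgroup.mem_iInf.1 hx (f.comp (MulAut.conjNormal a).toMonoidHom)
  let L : Subgroup S :=
    { carrier := {g | g * (s (π g))⁻¹ ∈ K''}
      one_mem' := by simp
      mul_mem' := fun {g g'} hg hg' => by
        have := K''.mul_mem hg (hn (s (π g)) _ hg')
        show g * g' * (s (π (g * g')))⁻¹ ∈ K''
        rw [map_mul, map_mul]
        convert this using 1
        group
      inv_mem' := fun {g} hg => by
        have := hn g⁻¹ _ (K''.inv_mem hg)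
        show g⁻¹ * (s (π g⁻¹))⁻¹ ∈ K''
        rw [map_inv, map_inv]
        convert this using 1
        group }
  have hL : Finite (S ⧸ L) := by
    refine Finite.of_surjective (fun q : π.ker ⧸ K' => (((q.out : π.ker) : S) : S ⧸ L))
      fun q => ?_
    induction q using QuotientGroup.induction_on with
    | H g =>
      obtain ⟨k, hk⟩ := QuotientGroup.mk_out_eq_mul K' (⟨_, mem_ker_sec hs g⟩ : π.ker)
      refine ⟨(⟨_, mem_ker_sec hs g⟩ : π.ker), QuotientGroup.eq.2 ?_⟩
      rw [hk]
      have e : (g * (s (π g))⁻¹ * ((k : π.ker) : S))⁻¹ * g = ((k : π.ker) : S)⁻¹ * s (π g) := by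
        group
      show (g * (s (π g))⁻¹ * ((k : π.ker) : S))⁻¹ * g ∈ L
      rw [e]
      show _ * (s (π _))⁻¹ ∈ K''
      rw [map_mul, map_inv, MonoidHom.mem_ker.1 (k : π.ker).2, inv_one, one_mul, hs,
        mul_inv_cancel_right]
      exact K''.inv_mem ⟨k, k.2, rfl⟩
  refine ⟨L, Subgroup.finiteIndex_of_finite_quotient, fun x hx => ?_⟩
  have h1 : (x : S) * (s (π x))⁻¹ ∈ K'' := hx
  rw [MonoidHom.mem_ker.1 x.2, map_one, inv_one, mul_one] at h1
  obtain ⟨y, hy, e⟩ := h1
  obtain rfl : y = x := Subtype.ext e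
  have h2 := Subgroup.mem_iInf.1 hy (QuotientGroup.mk' K.normalCore)
  rw [QuotientGroup.ker_mk'] at h2
  exact K.normalCore_le h2

theorem forest (M : Type) [AddCommGroup M] (b : FreeGroup κ × κ → M) :
    ∃ a : FreeGroup κ → M, ∀ e : FreeGroup κ × κ, a (e.1 * FreeGroup.of e.2) - a e.1 = b e := by
  let f : FreeGroup κ →* Multiplicative M ≀ᵣ FreeGroup κ :=
    FreeGroup.lift fun k => ⟨fun x => Multiplicative.ofAdd (b (x⁻¹, k)), FreeGroup.of k⟩
  have hr : ∀ w, (f w).right = w := fun w => by
    have : RegularWreathProduct.rightHom.comp f = MonoidHom.id _ := by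
      ext k
      simp [f]
    exact DFunLike.congr_fun this w
  refine ⟨fun w => Multiplicative.toAdd ((f w).left 1), fun e => ?_⟩
  simp only [map_mul, RegularWreathProduct.mul_left, Pi.mul_apply, hr, toAdd_mul]
  simp [f]

theorem good_step [Finite κ] (π : S →* FreeGroup κ) (hπ : Function.Surjective π)
    (h : Group.FG π.ker) (hg : Good π.ker) : Good S := by
  have hN : RGood S π.ker := by
    have := hg.rgood π.ker.subtype_injective (full_step π hπ h)
    rwa [Subgroup.range_subtype] at this
  let _ : MulAction S (FreeGroup κ) := MulAction.compHom _ π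
  let _ : MulAction S κ := { smul := fun _ k => k, one_smul := fun _ => rfl
                             mul_smul := fun _ _ _ => rfl }
  have sm : ∀ (g : S) (w : FreeGroup κ), g • w = π g * w := fun _ _ => rfl
  have sm' : ∀ (g : S) (e : FreeGroup κ × κ), g • e = (π g * e.1, e.2) := fun _ _ => rfl
  refine good_of_tree (V := FreeGroup κ) (E := FreeGroup κ × κ) (fun e => e.1)
    (fun e => e.1 * FreeGroup.of e.2) (fun _ _ => rfl) (fun g e => mul_assoc _ _ _) ?_ ?_ ?_ ?_
    1 ?_ forest
  · refine Finite.of_surjective (fun _ : Unit => Quotient.mk _ (1 : FreeGroup κ)) fun q => ?_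
    induction q using Quotient.inductionOn with
    | h w =>
      obtain ⟨g, hg⟩ := hπ w⁻¹
      exact ⟨(), Quotient.sound ⟨g, by show π g * w = 1; rw [hg, inv_mul_cancel]⟩⟩
  · refine Finite.of_surjective (fun k : κ => Quotient.mk _ ((1 : FreeGroup κ), k)) fun q => ?_
    induction q using Quotient.inductionOn with
    | h e =>
      obtain ⟨g, hg⟩ := hπ e.1⁻¹
      exact ⟨e.2, Quotient.sound ⟨g, by
        show (π g * e.1, e.2) = (1, e.2)
        rw [hg, inv_mul_cancel]⟩⟩
  · intro v
    have : stabilizer S v = π.ker := by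
      ext g
      rw [mem_stabilizer_iff, sm, MonoidHom.mem_ker, mul_eq_right]
    rwa [this]
  · intro e
    have : stabilizer S e = π.ker := by
      ext g
      rw [mem_stabilizer_iff, sm', MonoidHom.mem_ker, Prod.ext_iff, mul_eq_right]
      simp
    rwa [this]
  · intro M a ha v
    refine const_of_gen a (Set.range FreeGroup.of) (FreeGroup.closure_range_of κ) ?_ v
    rintro _ ⟨k, rfl⟩ g
    exact ha (g, k)

theorem pfn {G : Type} [Group G] : ∀ (n : ℕ) (T : Subgroup G), PFn n T → Group.FG T ∧ Good T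
  | 0, T, h => by
    obtain rfl : T = ⊥ := h
    exact ⟨inferInstance, good_of_subsingleton⟩
  | n + 1, T, ⟨κ, _, π, hπ, h⟩ => by
    obtain ⟨h1, h2⟩ := pfn n _ h
    let e := (π.ker.equivMapOfInjective T.subtype T.subtype_injective).symm
    have h3 : Group.FG π.ker := Group.fg_of_surjective (f := e.toMonoidHom) e.surjective
    exact ⟨fg_step π hπ h3, good_step π hπ h3 (h2.of_equiv e)⟩

theorem good_of_fi {G : Type} [Group G] (T : Subgroup G) [T.FiniteIndex] (h : Good T) :
    Good G := by
  have hT : RGood G T := by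
    have := h.rgood T.subtype_injective
      (@full_of_range _ _ _ _ _ T.subtype_injective (by rwa [Subgroup.range_subtype]))
    rwa [Subgroup.range_subtype] at this
  intro X _ hX hne M _ hM n N hN z hz hinv
  obtain ⟨N', hN', c, hc, hc'⟩ := hT X hX hne M hM n N hN z hz fun g _ hg => hinv g trivial hg
  exact ⟨N' ⊓ T, inferInstance, c, hc, fun g _ hg => hc' g hg.2 hg.1⟩

end Pfg

theorem p_pfg : S_pfg := by
  rintro G _ ⟨T, -, ⟨n, hn⟩, C, hC, h⟩
  have := hC.to_subtype
  have : Finite (G ⧸ T) := by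
    refine Finite.of_surjective (fun c : C => (((c : G)⁻¹ : G) : G ⧸ T)) fun q => ?_
    induction q using QuotientGroup.induction_on with
    | H g =>
      obtain ⟨c, hc, e⟩ := h g⁻¹ trivial
      exact ⟨⟨c, hc⟩, (QuotientGroup.eq.2 e).symm⟩
  have : T.FiniteIndex := Subgroup.finiteIndex_of_finite_quotient
  exact Pfg.good_of_fi T (Pfg.pfn n T hn).2

end Pool.Agent.P.MP_e794d7_al.FC
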