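import Pool.Agent.P.MP_e794d7_al.FC.Stmt

/-! Artin groups of FC type: a free group extended by a virtually poly-free group. -/

set_option autoImplicit false

namespace Pool.Agent.P.MP_e794d7_al.FC

open scoped Classical

namespace Pfs

variable {G : Type} [Group G]

theorem mul_eq (f a f' a' : G) : f * a * (f' * a') = f * (a * f' * a⁻¹) * (a * a') := by
  group

/-- the product of a subgroup with a subgroup normalising it -/
theorem ex_prod (F A : Subgroup G) (h : ∀ a ∈ A, ∀ f ∈ F, a * f * a⁻¹ ∈ F) :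
    ∃ S : Subgroup G, ∀ g, g ∈ S ↔ ∃ f ∈ F, ∃ a ∈ A, g = f * a := by
  refine ⟨⟨⟨⟨{g | ∃ f ∈ F, ∃ a ∈ A, g = f * a}, ?_⟩, ?_⟩, ?_⟩, fun g => Iff.rfl⟩
  · rintro _ _ ⟨f, hf, a, ha, rfl⟩ ⟨f', hf', a', ha', rfl⟩
    exact ⟨_, F.mul_mem hf (h a ha f' hf'), _, A.mul_mem ha ha', mul_eq f a f' a'⟩
  · exact ⟨1, F.one_mem, 1, A.one_mem, (mul_one 1).symm⟩
  · rintro _ ⟨f, hf, a, ha, rfl⟩
    refine ⟨_, h a⁻¹ (A.inv_mem ha) f⁻¹ (F.inv_mem hf), _, A.inv_mem ha, ?_⟩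
    group

theorem uniq {F A : Subgroup G} (hd : F ⊓ A = ⊥) {f a f' a' : G} (hf : f ∈ F) (ha : a ∈ A)
    (hf' : f' ∈ F) (ha' : a' ∈ A) (e : f * a = f' * a') : a = a' := by
  have e1 : f'⁻¹ * f = a' * a⁻¹ := by
    calc f'⁻¹ * f = f'⁻¹ * (f * a) * a⁻¹ := by group
      _ = a' * a⁻¹ := by rw [e]; group
  have h1 : a' * a⁻¹ ∈ F ⊓ A :=
    ⟨by rw [← e1]; exact F.mul_mem (F.inv_mem hf') hf, A.mul_mem ha' (A.inv_mem ha)⟩
  rw [hd, Subgroup.mem_bot, mul_inv_eq_one] at h1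
  exact h1.symm

/-- the projection onto the second factor -/
theorem ex_pr {F A S : Subgroup G} (h : ∀ a ∈ A, ∀ f ∈ F, a * f * a⁻¹ ∈ F) (hd : F ⊓ A = ⊥)
    (hS : ∀ g, g ∈ S ↔ ∃ f ∈ F, ∃ a ∈ A, g = f * a) :
    ∃ p : S →* A, ∀ (g : S) (f : G) (a : A), f ∈ F → (g : G) = f * a → p g = a := by
  have ex : ∀ g : S, ∃ a : A, ∃ f ∈ F, (g : G) = f * a := fun g => by
    obtain ⟨f, hf, a, ha, e⟩ := (hS g).1 g.2
    exact ⟨⟨a, ha⟩, f, hf, e⟩
  choose p hp using ex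
  have key : ∀ (g : S) (f : G) (a : A), f ∈ F → (g : G) = f * a → p g = a := fun g f a hf e => by
    obtain ⟨f', hf', e'⟩ := hp g
    exact Subtype.ext (uniq hd hf' (p g).2 hf a.2 (e'.symm.trans e))
  refine ⟨MonoidHom.mk' p fun g g' => ?_, key⟩
  obtain ⟨f, hf, e⟩ := hp g
  obtain ⟨f', hf', e'⟩ := hp g'
  refine key (g * g') (f * (p g * f' * (p g : G)⁻¹)) (p g * p g')
    (F.mul_mem hf (h _ (p g).2 f' hf')) ?_
  rw [Subgroup.coe_mul, Subgroup.coe_mul, ← mul_eq, ← e, ← e']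

theorem pfn_succ {κ : Type} [Finite κ] (j : FreeGroup κ →* G) (hj : Function.Injective j) :
    ∀ (n : ℕ) (A S : Subgroup G), (∀ a ∈ A, ∀ f ∈ j.range, a * f * a⁻¹ ∈ j.range) →
      j.range ⊓ A = ⊥ → (∀ g, g ∈ S ↔ ∃ f ∈ j.range, ∃ a ∈ A, g = f * a) → PFn n A →
        PFn (n + 1) S := by
  intro n
  induction n with
  | zero =>
    intro A S _ _ hS hA
    have hA' : A = ⊥ := hA
    have e : S = j.range := by
      ext g
      rw [hS, hA']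
      constructor
      · rintro ⟨f, hf, a, ha, rfl⟩
        rw [Subgroup.mem_bot] at ha
        rw [ha, mul_one]
        exact hf
      · intro hg
        exact ⟨g, hg, 1, Subgroup.one_mem _, (mul_one g).symm⟩
    subst e
    refine ⟨κ, inferInstance, (MonoidHom.ofInjective hj).symm.toMonoidHom,
      (MonoidHom.ofInjective hj).symm.surjective, ?_⟩
    have hk : (MonoidHom.ofInjective hj).symm.toMonoidHom.ker = ⊥ :=
      (MonoidHom.ker_eq_bot_iff _).2 (MonoidHom.ofInjective hj).symm.injective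
    rw [hk, Subgroup.map_bot]
    rfl
  | succ n ih =>
    intro A S h hd hS hA
    obtain ⟨κ', hκ', π, hπ, hK⟩ := hA
    obtain ⟨p, hp⟩ := ex_pr h hd hS
    have hle : π.ker.map A.subtype ≤ A := Subgroup.map_subtype_le _
    refine ⟨κ', hκ', π.comp p, fun y => ?_, ih (π.ker.map A.subtype) _
      (fun a ha => h a (hle ha)) ?_ (fun g => ?_) hK⟩
    · obtain ⟨a, rfl⟩ := hπ y
      have ha : (a : G) ∈ S := (hS a).2 ⟨1, Subgroup.one_mem _, a, a.2, (one_mul _).symm⟩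
      refine ⟨⟨a, ha⟩, ?_⟩
      rw [MonoidHom.comp_apply, hp ⟨a, ha⟩ 1 a (Subgroup.one_mem _) (one_mul _).symm]
    · rw [eq_bot_iff, ← hd]
      exact inf_le_inf_left _ hle
    · constructor
      · rintro ⟨g, hg, rfl⟩
        obtain ⟨f, hf, a, ha, e⟩ := (hS g).1 g.2
        refine ⟨f, hf, a, ⟨⟨a, ha⟩, ?_, rfl⟩, e⟩
        have hg' : π (p g) = 1 := hg
        rw [hp g f ⟨a, ha⟩ hf e] at hg'
        exact hg'
      · rintro ⟨f, hf, _, ⟨a, ha, rfl⟩, rfl⟩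
        have hm : f * (a : G) ∈ S := (hS _).2 ⟨f, hf, a, a.2, rfl⟩
        refine ⟨⟨_, hm⟩, ?_, rfl⟩
        show π (p ⟨_, hm⟩) = 1
        rw [hp ⟨_, hm⟩ f a hf rfl]
        exact ha

end Pfs

theorem p_pfs : S_pfs := by
  intro G _ κ _ j hj A S C hC hFS hAS h hd hcov hA
  obtain ⟨A', hA', ⟨n, hn⟩, C', hC', hcov'⟩ := hA
  have h' : ∀ a ∈ A', ∀ f ∈ j.range, a * f * a⁻¹ ∈ j.range := fun a ha => h a (hA' ha)
  have hd' : j.range ⊓ A' = ⊥ := by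
    rw [eq_bot_iff, ← hd]
    exact inf_le_inf_left _ hA'
  obtain ⟨S', hS'⟩ := Pfs.ex_prod j.range A' h'
  refine ⟨S', fun g hg => ?_, ⟨n + 1, Pfs.pfn_succ j hj n A' S' h' hd' hS' hn⟩,
    Set.image2 (· * ·) C' C, hC'.image2 _ hC, fun g hg => ?_⟩
  · obtain ⟨f, hf, a, ha, rfl⟩ := (hS' g).1 hg
    exact S.mul_mem (hFS hf) (hAS (hA' ha))
  · obtain ⟨f, hf, a, ha, c, hc, rfl⟩ := hcov g hg
    obtain ⟨c', hc', ha'⟩ := hcov' a ha
    refine ⟨c' * c, Set.mem_image2_of_mem hc' hc, (hS' _).2 ⟨f, hf, _, ha', ?_⟩⟩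
    group

end Pool.Agent.P.MP_e794d7_al.FC
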