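import Pool.Agent.P.MP_e794d7_al.FC.Stmt

/-! Package PsiA: the detector in type `A`. -/

set_option autoImplicit false

namespace Pool.Agent.P.MP_e794d7_al.FC

open scoped Classical

namespace PsiA

/-- the Kronecker symbol -/
noncomputable def kr {σ : Type} (i j : σ) : ℤ := if i = j then 1 else 0

/-- the integral form on the roots of type `A` -/
noncomputable def g {σ : Type} (i j k l : σ) : ℤ := kr j l - kr j k - kr i l + kr i k

variable {σ : Type} {i j k l : σ}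

theorem g_bd (_hij : i ≠ j) (_hkl : k ≠ l) : -2 ≤ g i j k l ∧ g i j k l ≤ 2 := by
  unfold g kr
  split_ifs <;> omega

theorem g_self (hij : i ≠ j) : g i j i j = 2 := by
  unfold g kr
  rw [if_pos rfl, if_pos rfl, if_neg hij, if_neg hij.symm]
  rfl

theorem g_two (h : g i j k l = 2) : i = k ∧ j = l := by
  unfold g kr at h
  split_ifs at h <;> first | omega | exact ⟨‹_›, ‹_›⟩

theorem g_zero (hij : i ≠ j) (hkl : k ≠ l) (h : g i j k l = 0) :
    i ≠ k ∧ i ≠ l ∧ j ≠ k ∧ j ≠ l := by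
  unfold g kr at h
  split_ifs at h <;> first | omega | grind

theorem g_neg (_hij : i ≠ j) (hkl : k ≠ l) (h : g i j k l = -1) :
    (j = k ∧ i ≠ l) ∨ (i = l ∧ j ≠ k) := by
  unfold g kr at h
  split_ifs at h <;> first | omega | grind

variable {F : Type} [Field F]

theorem cast_inj (h2 : (2 : F) ≠ 0) (h3 : (3 : F) ≠ 0) {a b : ℤ} (ha : -2 ≤ a ∧ a ≤ 2)
    (hb : -2 ≤ b ∧ b ≤ 2) (h : (a : F) = b) : a = b := by
  have h4 : (4 : F) ≠ 0 := by
    have := mul_ne_zero h2 h2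
    rwa [show (2 : F) * 2 = 4 by norm_num] at this
  obtain ⟨d, hd⟩ : ∃ d : ℤ, d = a - b := ⟨_, rfl⟩
  have h0 : (d : F) = 0 := by rw [hd, Int.cast_sub, h, sub_self]
  have h1 : -4 ≤ d := by omega
  have h5 : d ≤ 4 := by omega
  clear h
  interval_cases d <;> first | omega | (exfalso; clear hd ha hb h1 h5; simp_all)

theorem sw [DecidableEq σ] {V : Type} [AddCommGroup V] [Module F V] (e : σ → V) (hij : i ≠ j) (l : σ) :
    e (Equiv.swap i j l) = e l - (((kr j l - kr i l : ℤ) : F)) • (e j - e i) := by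
  unfold kr
  by_cases h1 : j = l
  · subst h1
    simp [hij]
  by_cases h2 : i = l
  · subst h2
    simp [hij.symm]
  · rw [Equiv.swap_apply_of_ne_of_ne (Ne.symm h2) (Ne.symm h1)]
    simp [h1, h2]

end PsiA

open PsiA

variable {ι : Type} [Fintype ι] {M : ι → ι → ℕ} {𝒯 : Set (Set ι)}

theorem RD.p_psiA (D : RD M 𝒯) {T : Set ι} {lo n : ℕ} {t : ℕ → ι} (hl : D.Lift) (hlo : 1 ≤ lo)
    (h1 : D.EC1 T lo n t) : D.PsiA lo n t := by
  intro L _ ε hε
  obtain ⟨e, he⟩ : ∃ e : Fin (n + 1) → ι → D.F, e = fun i : Fin (n + 1) => D.E lo t i :=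
    ⟨_, rfl⟩
  have hB : ∀ i j k l : Fin (n + 1), lo ≤ i → lo ≤ j → lo ≤ k → lo ≤ l →
      D.B (e j - e i) (e l - e k) = (g i j k l : ℤ) := by
    intro i j k l hi hj hk hl
    have b : ∀ x : Fin (n + 1), (x : ℕ) ≤ n := fun x => Nat.lt_succ_iff.1 x.2
    rw [he, h1.pair i j k l (max_le hi (hlo.trans hi)) (b i) (max_le hj (hlo.trans hj)) (b j)
      (max_le hk (hlo.trans hk)) (b k) (max_le hl (hlo.trans hl)) (b l)]
    simp only [g, kr, Fin.val_inj, Int.cast_add, Int.cast_sub, Int.cast_ite, Int.cast_one,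
      Int.cast_zero]
  let P : (ι → D.F) → Fin (n + 1) × Fin (n + 1) → Prop := fun v p =>
    lo ≤ p.1 ∧ lo ≤ p.2 ∧ p.1 ≠ p.2 ∧ v = e p.2 - e p.1
  have huniq : ∀ v p p', P v p → P v p' → p = p' := by
    rintro v ⟨i, j⟩ ⟨k, l⟩ ⟨hi, hj, hij, e1⟩ ⟨hk, hl, hkl, e2⟩
    have a1 := hB i j k l hi hj hk hl
    have a2 := hB k l k l hk hl hk hl
    rw [← e1, e2, a2] at a1
    have a3 := cast_inj D.two D.three (g_bd hkl hkl) (g_bd hij hkl) a1
    rw [g_self hkl] at a3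
    exact Prod.ext (g_two a3.symm).1 (g_two a3.symm).2
  let ℓ : D.X → L := fun x => if h : ∃ p, P x.v p then ε h.choose.1 h.choose.2 else 1
  have hℓ : ∀ (x : D.X) (i j : Fin (n + 1)), P x.v (i, j) → ℓ x = ε i j := by
    intro x i j h
    have hex : ∃ p, P x.v p := ⟨_, h⟩
    have := huniq _ _ _ hex.choose_spec h
    simp only [ℓ, dif_pos hex, this]
  have hrel : D.Rel ℓ := by
    refine hl L {v | ∃ p, P v p} ℓ (fun x hx => dif_neg hx) ?_ ?_ ?_ ?_ ?_ ?_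
    · rintro _ ⟨⟨i, j⟩, hi, hj, hij, rfl⟩
      exact ⟨(j, i), hj, hi, hij.symm, neg_sub _ _⟩
    · rintro _ ⟨⟨i, j⟩, hi, hj, hij, rfl⟩ _ ⟨⟨k, l⟩, hk, hl, hkl, rfl⟩
      have hs : ∀ x : Fin (n + 1), lo ≤ x → lo ≤ (Equiv.swap i j x : Fin (n + 1)) := by
        intro x hx
        rw [Equiv.swap_apply_def]
        split_ifs
        exacts [hj, hi, hx]
      refine ⟨(Equiv.swap i j k, Equiv.swap i j l), hs k hk, hs l hl,
        (Equiv.swap i j).injective.ne hkl, ?_⟩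
      change _ = e (Equiv.swap i j l) - e (Equiv.swap i j k)
      rw [hB i j k l hi hj hk hl, sw (F := D.F) (i := i) (j := j) e hij k,
        sw (F := D.F) (i := i) (j := j) e hij l]
      simp only [g, Int.cast_add, Int.cast_sub]
      module
    · rintro _ ⟨⟨i, j⟩, hi, hj, hij, rfl⟩ _ ⟨⟨k, l⟩, hk, hl, hkl, rfl⟩
      rw [hB i j k l hi hj hk hl]
      obtain ⟨a1, a2⟩ := g_bd hij hkl
      generalize g i j k l = a at a1 a2
      interval_cases a <;> simp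
    · rintro x x' ⟨⟨i, j⟩, hp⟩ ⟨⟨k, l⟩, hp'⟩ h0 -
      rw [hℓ x i j hp, hℓ x' k l hp']
      obtain ⟨hi, hj, hij, e1⟩ := hp
      obtain ⟨hk, hl, hkl, e2⟩ := hp'
      rw [e1, e2, hB i j k l hi hj hk hl] at h0
      obtain ⟨b1, b2, b3, b4⟩ := g_zero hij hkl
        (cast_inj D.two D.three (g_bd hij hkl) (by omega) (h0.trans Int.cast_zero.symm))
      exact hε.comm i j k l hij b1 b2 b3 b4 hkl
    · rintro x0 x1 x2 ⟨⟨i, j⟩, hp⟩ ⟨⟨k, l⟩, hp'⟩ h0 hx
      rw [hℓ x0 i j hp, hℓ x2 k l hp']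
      obtain ⟨hi, hj, hij, e1⟩ := hp
      obtain ⟨hk, hl, hkl, e2⟩ := hp'
      rw [e1, e2] at hx
      rw [e1, e2, hB i j k l hi hj hk hl] at h0
      rcases g_neg hij hkl (cast_inj D.two D.three (b := -1) (g_bd hij hkl) (by omega)
        (h0.trans (by simp))) with ⟨rfl, b⟩ | ⟨rfl, b⟩
      · rw [hℓ x1 i l ⟨hi, hl, b, hx.trans (by abel)⟩]
        exact hε.tri i j l hij b hkl
      · rw [hℓ x1 k j ⟨hk, hj, b.symm, hx.trans (by abel)⟩]
        exact (hε.tri k i j hkl b.symm hij).symm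
    · rintro x0 x1 x2 x3 ⟨⟨i, j⟩, hi, hj, hij, e1⟩ ⟨⟨k, l⟩, hk, hl, hkl, e2⟩ h0
      exfalso
      rw [e1, e2, hB i j k l hi hj hk hl] at h0
      have hq : ((g i j k l * g i j k l - 2 : ℤ) : D.F) = (0 : ℤ) := by
        rw [Int.cast_sub, Int.cast_mul, h0, neg_mul_neg, D.qq]
        simp
      obtain ⟨a1, a2⟩ := g_bd hij hkl
      generalize g i j k l = a at a1 a2 hq
      have := cast_inj D.two D.three (a := a * a - 2) (b := 0) (by interval_cases a <;> omega)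
        (by omega) hq
      interval_cases a <;> omega
  refine ⟨D.lift ℓ hrel, fun x i j hi hj hij hx => ?_⟩
  rw [RD.lift_ζ]
  exact hℓ x i j ⟨hi, hj, hij, he ▸ hx⟩

end Pool.Agent.P.MP_e794d7_al.FC
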