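import Pool.Agent.P.MP_e794d7_al.FC.Stmt

/-! The detector in type `B`. -/

namespace Pool.Agent.P.MP_e794d7_al.FC

open scoped Classical RegularWreathProduct

noncomputable section

namespace PsiB

section G

variable {σ L : Type} [Group L] {o : σ}

theorem m_ne : (-1 : ℤˣ) ≠ 1 := by decide

/-- `x` if both signs are positive, `y` if both are negative -/
def g (u w : ℤˣ) (x y : L) : L := if u = 1 ∧ w = 1 then x else if u = -1 ∧ w = -1 then y else 1

/-- `x` in the state `+` -/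
def h (u : ℤˣ) (x : L) : L := if u = 1 then x else 1

@[simp] theorem g_pp (x y : L) : g 1 1 x y = x := if_pos ⟨rfl, rfl⟩

@[simp] theorem g_mm (x y : L) : g (-1) (-1) x y = y :=
  (if_neg fun e => m_ne e.1).trans (if_pos ⟨rfl, rfl⟩)

@[simp] theorem g_pm (x y : L) : g 1 (-1) x y = 1 :=
  (if_neg fun e => m_ne e.2).trans (if_neg fun e => m_ne e.1.symm)

@[simp] theorem g_mp (x y : L) : g (-1) 1 x y = 1 :=
  (if_neg fun e => m_ne e.1).trans (if_neg fun e => m_ne e.2.symm)

@[simp] theorem h_p (x : L) : h 1 x = x := if_pos rfl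

@[simp] theorem h_m (x : L) : h (-1) x = 1 := if_neg m_ne

theorem g_comm {u w : ℤˣ} {x y z : L} (h1 : Commute x z) (h2 : Commute y z) :
    Commute (g u w x y) z := by
  unfold g
  split_ifs
  exacts [h1, h2, Commute.one_left z]

theorem h_comm {u : ℤˣ} {x z : L} (h1 : Commute x z) : Commute (h u x) z := by
  unfold h
  split_ifs
  exacts [h1, Commute.one_left z]

/-- signed letters -/
abbrev Lt (o : σ) : Type := {i : σ // i ≠ o} × ℤˣ

/-- the opposite letter -/
def ng (a : Lt o) : Lt o := (a.1, -a.2)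

@[simp] theorem ng_fst (a : Lt o) : (ng a).1 = a.1 := rfl

/-- the state of a letter -/
def st (s : σ → ℤˣ) (a : Lt o) : ℤˣ := s a.1 * a.2

theorem st_ng (s : σ → ℤˣ) (a : Lt o) : st s (ng a) = -st s a := mul_neg _ _

variable (ε : σ → σ → L)

/-- the label of a long root -/
def lng (a b : Lt o) : L ≀ᵣ (σ → ℤˣ) :=
  ⟨fun s => g (st s a) (st s b) (ε a.1 b.1) (ε b.1 a.1), 1⟩

theorem lng_left (a b : Lt o) (s : σ → ℤˣ) :
    (lng ε a b).left s = g (st s a) (st s b) (ε a.1 b.1) (ε b.1 a.1) := rfl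

theorem lng_right (a b : Lt o) : (lng ε a b).right = 1 := rfl

theorem ml {Q : Type} [Group Q] (x y : L ≀ᵣ Q) (s : Q) :
    (x * y).left s = x.left s * y.left (x.right⁻¹ * s) := rfl

theorem lng_symm (a b : Lt o) : lng ε (ng b) (ng a) = lng ε a b := by
  refine RegularWreathProduct.ext (funext fun s => ?_) rfl
  rw [lng_left, lng_left, st_ng, st_ng]
  rcases Int.units_eq_one_or (st s a) with h1 | h1 <;>
    rcases Int.units_eq_one_or (st s b) with h2 | h2 <;> simp [h1, h2]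

theorem ll_same (a b : Lt o) : Commute (lng ε a b) (lng ε (ng a) b) := by
  refine RegularWreathProduct.ext (funext fun s => ?_) rfl
  simp only [ml, lng_left, lng_right, inv_one, one_mul, st_ng]
  rcases Int.units_eq_one_or (st s a) with h1 | h1 <;>
    rcases Int.units_eq_one_or (st s b) with h2 | h2 <;> simp [h1, h2]

variable {ε}

theorem nv {a b : Lt o} (h : a.1 ≠ b.1) : (a.1 : σ) ≠ b.1 := fun e => h (Subtype.ext e)

theorem ll_far (hε : VP ε) {a b c d : Lt o} (h1 : a.1 ≠ b.1) (h2 : a.1 ≠ c.1) (h3 : a.1 ≠ d.1)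
    (h4 : b.1 ≠ c.1) (h5 : b.1 ≠ d.1) (h6 : c.1 ≠ d.1) : Commute (lng ε a b) (lng ε c d) := by
  refine RegularWreathProduct.ext (funext fun s => ?_) rfl
  simp only [ml, lng_left, lng_right, inv_one, one_mul]
  exact g_comm
    (g_comm (hε.comm _ _ _ _ (nv h1) (nv h2) (nv h3) (nv h4) (nv h5) (nv h6)).symm
      (hε.comm _ _ _ _ (nv h1) (nv h3) (nv h2) (nv h5) (nv h4) (nv h6).symm).symm).symm
    (g_comm (hε.comm _ _ _ _ (nv h1).symm (nv h4) (nv h5) (nv h2) (nv h3) (nv h6)).symm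
      (hε.comm _ _ _ _ (nv h1).symm (nv h5) (nv h4) (nv h3) (nv h2) (nv h6).symm).symm).symm

theorem tri3 (hε : VP ε) {a b c : Lt o} (h1 : a.1 ≠ b.1) (h2 : a.1 ≠ c.1) (h3 : b.1 ≠ c.1) :
    lng ε a b * lng ε a c * lng ε b c = lng ε b c * lng ε a c * lng ε a b := by
  refine RegularWreathProduct.ext (funext fun s => ?_) rfl
  simp only [ml, lng_left, lng_right, RegularWreathProduct.mul_right, inv_one, one_mul]
  have t1 := hε.tri _ _ _ (nv h1) (nv h2) (nv h3)
  have t2 := hε.tri _ _ _ (nv h3).symm (nv h2).symm (nv h1).symm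
  rcases Int.units_eq_one_or (st s a) with e1 | e1 <;>
    rcases Int.units_eq_one_or (st s b) with e2 | e2 <;>
    rcases Int.units_eq_one_or (st s c) with e3 | e3 <;>
    simp only [e1, e2, e3, g_pp, g_pm, g_mp, g_mm, one_mul, mul_one]
  exacts [t1, t2.symm]

theorem key (hε : VP ε) {i j : σ} (hi : i ≠ o) (hj : j ≠ o) (hij : i ≠ j) :
    ε o i * ε i o * ε i j * (ε o j * ε j o) * ε j i =
      ε i j * (ε o j * ε j o) * ε j i * (ε o i * ε i o) :=
  calc ε o i * ε i o * ε i j * (ε o j * ε j o) * ε j i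
      = ε o i * (ε i o * ε i j * ε o j) * ε j o * ε j i := by simp only [mul_assoc]
    _ = (ε o i * ε o j * ε i j) * (ε i o * ε j o * ε j i) := by
      rw [hε.tri i o j hi hij hj.symm]
      simp only [mul_assoc]
    _ = ε i j * ε o j * (ε o i * ε j i * ε j o) * ε i o := by
      rw [hε.tri o i j hi.symm hj.symm hij, ← hε.tri j i o hij.symm hj hi]
      simp only [mul_assoc]
    _ = _ := by
      rw [← hε.tri j o i hj hij.symm hi.symm]
      simp only [mul_assoc]

variable [DecidableEq σ]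

theorem st_flip (s : σ → ℤˣ) (a : Lt o) :
    st ((Pi.mulSingle (a.1 : σ) (-1) : σ → ℤˣ)⁻¹ * s) a = -st s a := by
  simp [st]

theorem st_flip_ne (s : σ → ℤˣ) {a b : Lt o} (h : a.1 ≠ b.1) :
    st ((Pi.mulSingle (a.1 : σ) (-1) : σ → ℤˣ)⁻¹ * s) b = st s b := by
  simp [st, Pi.mulSingle_eq_of_ne (nv h).symm]

variable (ε) in
/-- the label of a short root -/
def sht (a : Lt o) : L ≀ᵣ (σ → ℤˣ) :=
  ⟨fun s => h (st s a) (ε o a.1 * ε a.1 o), Pi.mulSingle (a.1 : σ) (-1)⟩

theorem sht_left (a : Lt o) (s : σ → ℤˣ) :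
    (sht ε a).left s = h (st s a) (ε o a.1 * ε a.1 o) := rfl

theorem sht_right (a : Lt o) : (sht ε a).right = Pi.mulSingle (a.1 : σ) (-1) := rfl

theorem sl_far (hε : VP ε) {a c d : Lt o} (h1 : a.1 ≠ c.1) (h2 : a.1 ≠ d.1) (h3 : c.1 ≠ d.1) :
    Commute (sht ε a) (lng ε c d) := by
  refine RegularWreathProduct.ext (funext fun s => ?_) (mul_comm _ _)
  simp only [ml, lng_left, lng_right, sht_left, sht_right, inv_one, one_mul, st_flip_ne s h1,
    st_flip_ne s h2]
  have ha := a.1.2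
  have hc := c.1.2
  have hd := d.1.2
  exact h_comm (g_comm
    ((hε.comm _ _ _ _ ha.symm hc.symm hd.symm (nv h1) (nv h2) (nv h3)).mul_left
      (hε.comm _ _ _ _ ha (nv h1) (nv h2) hc.symm hd.symm (nv h3))).symm
    ((hε.comm _ _ _ _ ha.symm hd.symm hc.symm (nv h2) (nv h1) (nv h3).symm).mul_left
      (hε.comm _ _ _ _ ha (nv h2) (nv h1) hd.symm hc.symm (nv h3).symm)).symm).symm

theorem quad (hε : VP ε) {a b : Lt o} (h1 : a.1 ≠ b.1) :
    sht ε a * lng ε (ng a) b * sht ε b * lng ε a b =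
      lng ε a b * sht ε b * lng ε (ng a) b * sht ε a := by
  refine RegularWreathProduct.ext (funext fun s => ?_) ?_
  · simp only [ml, lng_left, lng_right, sht_left, sht_right, RegularWreathProduct.mul_right,
      inv_one, one_mul, mul_one, mul_inv_rev, mul_assoc _ _ s, st_ng, st_flip, st_flip_ne _ h1,
      st_flip_ne _ h1.symm, ng_fst, neg_neg]
    have t := key hε a.1.2 b.1.2 (nv h1)
    rcases Int.units_eq_one_or (st s a) with e1 | e1 <;>
      rcases Int.units_eq_one_or (st s b) with e2 | e2 <;>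
      simp only [e1, e2, neg_neg, g_pp, g_pm, g_mp, g_mm, h_p, h_m, one_mul, mul_one]
    exact t
  · simp only [RegularWreathProduct.mul_right, lng_right, sht_right, one_mul, mul_one]
    exact mul_comm _ _

end G

section V

variable {σ F V : Type} [Field F] [AddCommGroup V] [Module F V] {o : σ}
  {B : V →ₗ[F] V →ₗ[F] F} {e : σ → V} {q : F}

/-- an orthonormal family -/
structure On (o : σ) (B : V →ₗ[F] V →ₗ[F] F) (e : σ → V) (q : F) : Prop where
  one : ∀ i, i ≠ o → B (e i) (e i) = 1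
  zero : ∀ i j, i ≠ o → j ≠ o → i ≠ j → B (e i) (e j) = 0
  qq : q * q = 2
  two : (2 : F) ≠ 0
  three : (3 : F) ≠ 0

/-- the vector of a letter -/
def vec (e : σ → V) (a : Lt o) : V := a.2 • e a.1

theorem vec_ng (a : Lt o) : vec e (ng a) = -vec e a := Units.neg_smul _ _

theorem On.b1 (H : On o B e q) (a : Lt o) : B (vec e a) (vec e a) = 1 := by
  have := H.one _ a.1.2
  rcases Int.units_eq_one_or a.2 with h | h <;> simp [vec, h, this]

theorem On.b0 (H : On o B e q) {a b : Lt o} (hab : a.1 ≠ b.1) : B (vec e a) (vec e b) = 0 := by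
  have := H.zero _ _ a.1.2 b.1.2 (nv hab)
  rcases Int.units_eq_one_or a.2 with h | h <;> rcases Int.units_eq_one_or b.2 with h' | h' <;>
    simp [vec, h, h', this]

theorem tri_lt (a b : Lt o) : a.1 ≠ b.1 ∨ b = a ∨ b = ng a := by
  obtain ⟨i, u⟩ := a
  obtain ⟨j, w⟩ := b
  by_cases h : i = j
  · subst h
    rcases Int.units_eq_one_or u with rfl | rfl <;> rcases Int.units_eq_one_or w with rfl | rfl <;>
      simp [ng]
  · exact Or.inl h

theorem On.q0 (H : On o B e q) : q ≠ 0 := fun h => H.two (by rw [← H.qq, h, zero_mul])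

theorem On.q1 (H : On o B e q) : q ≠ 1 := fun h =>
  one_ne_zero (α := F) (by linear_combination (q + 1) * h - H.qq)

theorem On.q1' (H : On o B e q) : q ≠ -1 := fun h =>
  one_ne_zero (α := F) (by linear_combination (q - 1) * h - H.qq)

theorem On.q2 (H : On o B e q) : q ≠ 2 := fun h =>
  H.two (by linear_combination H.qq - (q + 2) * h)

theorem On.q2' (H : On o B e q) : q ≠ -2 := fun h =>
  H.two (by linear_combination H.qq - (q - 2) * h)

theorem On.vec_inj (H : On o B e q) {a b : Lt o} (h : vec e a = vec e b) : b = a := by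
  have h1 := H.b1 a
  rcases tri_lt a b with h2 | h2 | h2
  · nth_rewrite 2 [h] at h1
    exact absurd ((H.b0 h2).symm.trans h1) zero_ne_one
  · exact h2
  · nth_rewrite 2 [h] at h1
    rw [h2, vec_ng, map_neg, H.b1] at h1
    exact (H.two (by linear_combination -h1)).elim

theorem On.long_inj (H : On o B e q) {a b c d : Lt o} (hab : a.1 ≠ b.1) (hcd : c.1 ≠ d.1)
    (h : vec e b - vec e a = vec e d - vec e c) : (c = a ∧ d = b) ∨ (c = ng b ∧ d = ng a) := by
  have h1 := congrArg (B (vec e b)) h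
  rw [map_sub, map_sub, H.b1, H.b0 hab.symm, sub_zero] at h1
  rcases tri_lt b d with h2 | rfl | rfl
  · rw [H.b0 h2] at h1
    rcases tri_lt b c with h3 | rfl | rfl
    · rw [H.b0 h3, sub_zero] at h1
      exact absurd h1 one_ne_zero
    · rw [H.b1] at h1
      exact (H.two (by linear_combination h1)).elim
    · refine Or.inr ⟨rfl, H.vec_inj ?_⟩
      rw [vec_ng, sub_neg_eq_add, sub_eq_neg_add] at h
      rw [vec_ng]
      exact add_right_cancel h
  · exact Or.inl ⟨H.vec_inj (sub_right_injective h), rfl⟩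
  · rw [vec_ng, map_neg, H.b1, H.b0 (a := b) hcd.symm] at h1
    exact (H.two (by linear_combination h1)).elim

/-- the active vectors -/
def Act (o : σ) (e : σ → V) (q : F) : Set V :=
  {v | (∃ a b : Lt o, a.1 ≠ b.1 ∧ v = vec e b - vec e a) ∨ ∃ a : Lt o, v = q • vec e a}

theorem lg_mem {a b : Lt o} (h : a.1 ≠ b.1) {v : V} (hv : v = vec e b - vec e a) :
    v ∈ Act o e q := Or.inl ⟨a, b, h, hv⟩

theorem sh_mem (a : Lt o) {v : V} (hv : v = q • vec e a) : v ∈ Act o e q := Or.inr ⟨a, hv⟩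

theorem neg_mem {v : V} (hv : v ∈ Act o e q) : -v ∈ Act o e q := by
  rcases hv with ⟨a, b, h, rfl⟩ | ⟨a, rfl⟩
  · exact lg_mem h.symm (neg_sub _ _)
  · exact sh_mem (ng a) (by rw [vec_ng, smul_neg])

theorem share (e : σ → V) (b : Lt o) {c d : Lt o} (h : c.1 ≠ d.1) : (b.1 ≠ c.1 ∧ b.1 ≠ d.1) ∨
    ∃ c' : Lt o, b.1 ≠ c'.1 ∧
      (vec e d - vec e c = vec e c' - vec e b ∨ vec e d - vec e c = vec e b - vec e c') := by
  rcases tri_lt b c with h1 | rfl | rfl
  · rcases tri_lt b d with h2 | rfl | rfl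
    · exact Or.inl ⟨h1, h2⟩
    · exact Or.inr ⟨c, h1, Or.inr rfl⟩
    · exact Or.inr ⟨ng c, h1, Or.inl (by rw [vec_ng, vec_ng]; abel)⟩
  · exact Or.inr ⟨d, h, Or.inl rfl⟩
  · exact Or.inr ⟨ng d, h, Or.inr (by rw [vec_ng, vec_ng]; abel)⟩

/-- the relative positions of two active vectors -/
inductive Cl (o : σ) (e : σ → V) (q : F) (v w : V) (m : F) : Prop
  | far (a b c d : Lt o) (h1 : a.1 ≠ b.1) (h2 : a.1 ≠ c.1) (h3 : a.1 ≠ d.1) (h4 : b.1 ≠ c.1)
      (h5 : b.1 ≠ d.1) (h6 : c.1 ≠ d.1) (hv : v = vec e b - vec e a) (hw : w = vec e d - vec e c)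
      (hm : m = 0)
  | same (a b : Lt o) (h1 : a.1 ≠ b.1) (hv : v = vec e b - vec e a)
      (hw : w = vec e b - vec e (ng a)) (hm : m = 0)
  | sl (a c d : Lt o) (h1 : a.1 ≠ c.1) (h2 : a.1 ≠ d.1) (h3 : c.1 ≠ d.1) (hv : v = q • vec e a)
      (hw : w = vec e d - vec e c) (hm : m = 0)
  | ls (a c d : Lt o) (h1 : a.1 ≠ c.1) (h2 : a.1 ≠ d.1) (h3 : c.1 ≠ d.1) (hw : w = q • vec e a)
      (hv : v = vec e d - vec e c) (hm : m = 0)
  | ss (a b : Lt o) (h1 : a.1 ≠ b.1) (hv : v = q • vec e a) (hw : w = q • vec e b) (hm : m = 0)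
  | neg (a b c : Lt o) (h1 : a.1 ≠ b.1) (h2 : a.1 ≠ c.1) (h3 : b.1 ≠ c.1)
      (hv : v = vec e b - vec e a) (hw : w = vec e c - vec e b) (hm : m = -1)
  | pos (a b c : Lt o) (h2 : a.1 ≠ c.1) (hv : v = vec e b - vec e a) (hw : w = vec e b - vec e c)
      (hm : m = 1)
  | eq (hw : w = v) (hm : m = 2)
  | op (hw : w = -v) (hm : m = -2)
  | sneg (a c : Lt o) (h1 : a.1 ≠ c.1) (hv : v = q • vec e a) (hw : w = vec e c - vec e a)
      (hm : m = -q)
  | spos (a c : Lt o) (h1 : a.1 ≠ c.1) (hv : v = q • vec e a) (hw : w = vec e a - vec e c)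
      (hm : m = q)
  | lneg (a c : Lt o) (h1 : a.1 ≠ c.1) (hw : w = q • vec e a) (hv : v = vec e c - vec e a)
      (hm : m = -q)
  | lpos (a c : Lt o) (hw : w = q • vec e a) (hv : v = vec e a - vec e c) (hm : m = q)

theorem On.cl_aux (H : On o B e q) {a b c : Lt o} (h1 : a.1 ≠ b.1) (h3 : b.1 ≠ c.1) {v w : V}
    (hv : v = vec e b - vec e a) (hw : w = vec e c - vec e b ∨ w = vec e b - vec e c) :
    Cl o e q v w (B v w) := by
  have b1 := H.b1
  have ab := H.b0 h1
  have ba := H.b0 h1.symm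
  have bc := H.b0 h3
  rcases tri_lt a c with h2 | rfl | rfl
  · have ac := H.b0 h2
    rcases hw with hw | hw
    · exact .neg a b c h1 h2 h3 hv hw (by simp [hv, hw, b1, ab, ac, bc])
    · exact .pos a b c h2 hv hw (by simp [hv, hw, b1, ab, ac, bc])
  · rcases hw with hw | hw
    · exact .op (by rw [hv, hw, neg_sub]) (by simp [hv, hw, b1, ab, ba]; norm_num)
    · exact .eq (by rw [hv, hw]) (by simp [hv, hw, b1, ab, ba]; norm_num)
  · rcases hw with hw | hw
    · exact .same (ng b) (ng a) h1.symm (by rw [hv, vec_ng, vec_ng]; abel)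
        (by rw [hw, vec_ng (ng b), vec_ng b, neg_neg]) (by simp [hv, hw, vec_ng, b1, ab, ba])
    · exact .same a b h1 hv hw (by simp [hv, hw, vec_ng, b1, ab, ba])

theorem On.cl (H : On o B e q) {v w : V} (hv : v ∈ Act o e q) (hw : w ∈ Act o e q) :
    Cl o e q v w (B v w) := by
  have b1 := H.b1
  rcases hv with ⟨a, b, hab, hv⟩ | ⟨a, hv⟩ <;> rcases hw with ⟨c, d, hcd, hw⟩ | ⟨c, hw⟩
  · rcases share e b hcd with h | ⟨c', h, h'⟩
    · rcases share e (ng a) hcd with k | ⟨c', k, k'⟩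
      · exact .far a b c d hab k.1 k.2 h.1 h.2 hcd hv hw (by
          simp [hv, hw, H.b0 h.1, H.b0 h.2, H.b0 (a := a) k.1, H.b0 (a := a) k.2])
      · exact H.cl_aux (a := ng b) (b := ng a) hab.symm k (by rw [hv, vec_ng, vec_ng]; abel) (hw ▸ k')
    · exact H.cl_aux hab h hv (hw ▸ h')
  · rcases share e c hab with h | ⟨c', h, h' | h'⟩
    · exact .ls c a b h.1 h.2 hab hw hv (by simp [hv, hw, H.b0 h.1.symm, H.b0 h.2.symm])
    · exact .lneg c c' h hw (hv.trans h') (by simp [hv, h', hw, b1, H.b0 h.symm])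
    · exact .lpos c c' hw (hv.trans h') (by simp [hv, h', hw, b1, H.b0 h.symm])
  · rcases share e a hcd with h | ⟨c', h, h' | h'⟩
    · exact .sl a c d h.1 h.2 hcd hv hw (by simp [hv, hw, H.b0 h.1, H.b0 h.2])
    · exact .sneg a c' h hv (hw.trans h') (by simp [hv, h', hw, b1, H.b0 h])
    · exact .spos a c' h hv (hw.trans h') (by simp [hv, h', hw, b1, H.b0 h])
  · rcases tri_lt a c with h | rfl | rfl
    · exact .ss a c h hv hw (by simp [hv, hw, H.b0 h])
    · exact .eq (hw.trans hv.symm) (by simp [hv, hw, b1, H.qq])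
    · exact .op (by rw [hw, hv, vec_ng, smul_neg]) (by simp [hv, hw, vec_ng, b1, H.qq])

theorem On.refl_mem (H : On o B e q) {v w : V} (hv : v ∈ Act o e q) (hw : w ∈ Act o e q) :
    w - B v w • v ∈ Act o e q := by
  have z : B v w = 0 → w - B v w • v ∈ Act o e q := fun h => by rwa [h, zero_smul, sub_zero]
  cases H.cl hv hw with
  | far _ _ _ _ _ _ _ _ _ _ _ _ hm => exact z hm
  | same _ _ _ _ _ hm => exact z hm
  | sl _ _ _ _ _ _ _ _ hm => exact z hm
  | ls _ _ _ _ _ _ _ _ hm => exact z hm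
  | ss _ _ _ _ _ hm => exact z hm
  | neg a b c _ h2 _ h h' hm => exact lg_mem h2 (by rw [hm, h, h']; module)
  | pos a b c h2 h h' hm => exact lg_mem h2.symm (by rw [hm, h, h']; module)
  | eq h hm => exact (show -v = w - B v w • v by rw [hm, h]; module) ▸ neg_mem hv
  | op h hm => exact (show v = w - B v w • v by rw [hm, h]; module) ▸ hv
  | sneg a c h1 h h' hm =>
    refine lg_mem (a := ng a) h1 ?_
    rw [hm, h, h', vec_ng, neg_smul, smul_smul, H.qq]
    module
  | spos a c h1 h h' hm =>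
    refine lg_mem (b := ng a) h1.symm ?_
    rw [hm, h, h', vec_ng, smul_smul, H.qq]
    module
  | lneg a c _ h h' hm => exact sh_mem c (by rw [hm, h, h']; module)
  | lpos a c h h' hm => exact sh_mem c (by rw [hm, h, h']; module)

theorem On.val (H : On o B e q) {v w : V} (hv : v ∈ Act o e q) (hw : w ∈ Act o e q) :
    B v w ∈ ({0, 1, -1, q, -q, 2, -2} : Set F) := by
  cases H.cl hv hw <;> simp only [Set.mem_insert_iff, Set.mem_singleton_iff] <;> tauto

variable {L : Type} [Group L] [DecidableEq σ]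

/-- the labelling -/
def lab (o : σ) (e : σ → V) (q : F) (ε : σ → σ → L) (v : V) (p : Prop) : L ≀ᵣ (σ → ℤˣ) :=
  if h : ∃ a : Lt o × Lt o, a.1.1 ≠ a.2.1 ∧ v = vec e a.2 - vec e a.1 then
    lng ε h.choose.1 h.choose.2
  else if h : p ∧ ∃ a : Lt o, v = q • vec e a then sht ε h.2.choose else 1

variable {ε : σ → σ → L} {v w : V} {p p' : Prop}

theorem lab_out (h : v ∉ Act o e q) : lab o e q ε v p = 1 :=
  (dif_neg fun ⟨_, h1, h2⟩ => h (lg_mem h1 h2)).trans (dif_neg fun ⟨_, a, h2⟩ => h (sh_mem a h2))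

theorem On.lab_lg (H : On o B e q) {a b : Lt o} (h : a.1 ≠ b.1) (hv : v = vec e b - vec e a) :
    lab o e q ε v p = lng ε a b := by
  have h1 : ∃ a : Lt o × Lt o, a.1.1 ≠ a.2.1 ∧ v = vec e a.2 - vec e a.1 := ⟨(a, b), h, hv⟩
  rw [lab, dif_pos h1]
  rcases H.long_inj h h1.choose_spec.1 (hv.symm.trans h1.choose_spec.2) with h2 | h2
  · rw [h2.1, h2.2]
  · rw [h2.1, h2.2, lng_symm]

omit [DecidableEq σ] in
theorem On.not_lg (H : On o B e q) {a : Lt o} (hv : v = q • vec e a) :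
    ¬ ∃ a : Lt o × Lt o, a.1.1 ≠ a.2.1 ∧ v = vec e a.2 - vec e a.1 := by
  rintro ⟨⟨c, d⟩, h, h'⟩
  have h1 := congrArg (B (vec e a)) (hv.symm.trans h')
  rw [map_smul, H.b1, smul_eq_mul, mul_one] at h1
  rcases share e a h with k | ⟨c', k, k' | k'⟩
  · rw [map_sub, H.b0 k.1, H.b0 k.2, sub_zero] at h1
    exact H.q0 h1
  · rw [k', map_sub, H.b0 k, H.b1, zero_sub] at h1
    exact H.q1' h1
  · rw [k', map_sub, H.b0 k, H.b1, sub_zero] at h1
    exact H.q1 h1

theorem On.lab_sh (H : On o B e q) {a : Lt o} (hv : v = q • vec e a) (hp : p) :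
    lab o e q ε v p = sht ε a := by
  have h1 : p ∧ ∃ a : Lt o, v = q • vec e a := ⟨hp, a, hv⟩
  rw [lab, dif_neg (H.not_lg hv), dif_pos h1,
    H.vec_inj (smul_right_injective V H.q0 (hv.symm.trans h1.2.choose_spec))]

theorem On.lab_no (H : On o B e q) {a : Lt o} (hv : v = q • vec e a) (hp : ¬ p) :
    lab o e q ε v p = 1 := by
  rw [lab, dif_neg (H.not_lg hv), dif_neg fun h => hp h.1]

theorem On.p2 (H : On o B e q) (hε : VP ε) (hv : v ∈ Act o e q) (hw : w ∈ Act o e q)
    (h0 : B v w = 0) (hk : p → p' → ∀ u ∈ Act o e q, q • u ≠ v + w) :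
    Commute (lab o e q ε v p) (lab o e q ε w p') := by
  cases H.cl hv hw with
  | far a b c d h1 h2 h3 h4 h5 h6 h h' _ =>
    rw [H.lab_lg h1 h, H.lab_lg h6 h']
    exact ll_far hε h1 h2 h3 h4 h5 h6
  | same a b h1 h h' _ =>
    rw [H.lab_lg h1 h, H.lab_lg (a := ng a) h1 h']
    exact ll_same ε a b
  | sl a c d h1 h2 h3 h h' _ =>
    by_cases hp : p
    · rw [H.lab_sh h hp, H.lab_lg h3 h']
      exact sl_far hε h1 h2 h3
    · rw [H.lab_no h hp]
      exact Commute.one_left _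
  | ls a c d h1 h2 h3 h h' _ =>
    by_cases hp : p'
    · rw [H.lab_sh h hp, H.lab_lg h3 h']
      exact (sl_far hε h1 h2 h3).symm
    · rw [H.lab_no h hp]
      exact Commute.one_right _
  | ss a b h1 h h' _ =>
    by_cases hp : p
    · by_cases hp' : p'
      · refine (hk hp hp' _ (lg_mem (a := ng a) h1 rfl) ?_).elim
        rw [h, h', vec_ng]
        module
      · rw [H.lab_no h' hp']
        exact Commute.one_right _
    · rw [H.lab_no h hp]
      exact Commute.one_left _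
  | neg _ _ _ _ _ _ _ _ hm => exact (one_ne_zero (α := F) (by linear_combination hm - h0)).elim
  | pos _ _ _ _ _ _ hm => exact (one_ne_zero (α := F) (by linear_combination h0 - hm)).elim
  | eq _ hm => exact (H.two (by linear_combination h0 - hm)).elim
  | op _ hm => exact (H.two (by linear_combination hm - h0)).elim
  | sneg _ _ _ _ _ hm => exact (H.q0 (by linear_combination hm - h0)).elim
  | spos _ _ _ _ _ hm => exact (H.q0 (by linear_combination h0 - hm)).elim
  | lneg _ _ _ _ _ hm => exact (H.q0 (by linear_combination hm - h0)).elim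
  | lpos _ _ _ _ hm => exact (H.q0 (by linear_combination h0 - hm)).elim

theorem On.p3 (H : On o B e q) (hε : VP ε) (hv : v ∈ Act o e q) (hw : w ∈ Act o e q)
    (h0 : B v w = -1) {u : V} (hu : u = v + w) (p'' : Prop) :
    lab o e q ε v p * lab o e q ε u p'' * lab o e q ε w p' =
      lab o e q ε w p' * lab o e q ε u p'' * lab o e q ε v p := by
  have z : B v w ≠ 0 := fun h => one_ne_zero (α := F) (by linear_combination h0 - h)
  cases H.cl hv hw with
  | far _ _ _ _ _ _ _ _ _ _ _ _ hm => exact (z hm).elim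
  | same _ _ _ _ _ hm => exact (z hm).elim
  | sl _ _ _ _ _ _ _ _ hm => exact (z hm).elim
  | ls _ _ _ _ _ _ _ _ hm => exact (z hm).elim
  | ss _ _ _ _ _ hm => exact (z hm).elim
  | neg a b c h1 h2 h3 h h' _ =>
    rw [H.lab_lg h1 h, H.lab_lg h3 h', H.lab_lg h2 (show u = _ by rw [hu, h, h']; abel)]
    exact tri3 hε h1 h2 h3
  | pos _ _ _ _ _ _ hm => exact (H.two (by linear_combination h0 - hm)).elim
  | eq _ hm => exact (H.three (by linear_combination h0 - hm)).elim
  | op _ hm => exact (one_ne_zero (α := F) (by linear_combination hm - h0)).elim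
  | sneg _ _ _ _ _ hm => exact (H.q1 (by linear_combination hm - h0)).elim
  | spos _ _ _ _ _ hm => exact (H.q1' (by linear_combination h0 - hm)).elim
  | lneg _ _ _ _ _ hm => exact (H.q1 (by linear_combination hm - h0)).elim
  | lpos _ _ _ _ hm => exact (H.q1' (by linear_combination h0 - hm)).elim

theorem On.p4s (H : On o B e q) (hε : VP ε) {a c : Lt o} (h1 : a.1 ≠ c.1) (h : v = q • vec e a)
    (h' : w = vec e c - vec e a) {u u' : V} (hu : u = q • v + w) (hu' : u' = v + q • w) :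
    lab o e q ε v p * lab o e q ε u p' * lab o e q ε u' p * lab o e q ε w p' =
      lab o e q ε w p' * lab o e q ε u' p * lab o e q ε u p' * lab o e q ε v p := by
  have e1 : u = vec e c - vec e (ng a) := by
    rw [hu, h, h', vec_ng, smul_smul, H.qq]
    module
  have e2 : u' = q • vec e c := by
    rw [hu', h, h']
    module
  rw [H.lab_lg h1 h', H.lab_lg (a := ng a) h1 e1]
  by_cases hp : p
  · rw [H.lab_sh h hp, H.lab_sh e2 hp]
    exact quad hε h1
  · rw [H.lab_no h hp, H.lab_no e2 hp, one_mul, mul_one, mul_one, mul_one]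
    exact (ll_same ε a c).symm

theorem On.p4 (H : On o B e q) (hε : VP ε) (hv : v ∈ Act o e q) (hw : w ∈ Act o e q)
    (h0 : B v w = -q) {u u' : V} (hu : u = q • v + w) (hu' : u' = v + q • w) :
    lab o e q ε v p * lab o e q ε u p' * lab o e q ε u' p * lab o e q ε w p' =
      lab o e q ε w p' * lab o e q ε u' p * lab o e q ε u p' * lab o e q ε v p := by
  have z : B v w ≠ 0 := fun h => H.q0 (by linear_combination h0 - h)
  have z' : B v w ≠ q := fun h =>
    mul_ne_zero H.two H.q0 (by linear_combination h0 - h)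
  cases H.cl hv hw with
  | far _ _ _ _ _ _ _ _ _ _ _ _ hm => exact (z hm).elim
  | same _ _ _ _ _ hm => exact (z hm).elim
  | sl _ _ _ _ _ _ _ _ hm => exact (z hm).elim
  | ls _ _ _ _ _ _ _ _ hm => exact (z hm).elim
  | ss _ _ _ _ _ hm => exact (z hm).elim
  | neg _ _ _ _ _ _ _ _ hm => exact (H.q1 (by linear_combination h0 - hm)).elim
  | pos _ _ _ _ _ _ hm => exact (H.q1' (by linear_combination h0 - hm)).elim
  | eq _ hm => exact (H.q2' (by linear_combination h0 - hm)).elim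
  | op _ hm => exact (H.q2 (by linear_combination h0 - hm)).elim
  | sneg a c h1 h h' _ => exact H.p4s hε h1 h h' hu hu'
  | spos _ _ _ _ _ hm => exact (z' hm).elim
  | lneg a c h1 h h' _ =>
    exact (H.p4s hε h1 h h' (hu'.trans (add_comm _ _)) (hu.trans (add_comm _ _))).symm
  | lpos _ _ _ _ hm => exact (z' hm).elim

end V

end PsiB

variable {ι : Type} [Fintype ι] {M : ι → ι → ℕ} {𝒯 : Set (Set ι)}

open PsiB in
theorem RD.p_psiB (D : RD M 𝒯) {T : Set ι} {n : ℕ} {t : ℕ → ι} (hl : D.Lift)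
    (h1 : D.EC1 T 0 n t) : D.PsiB n t := by
  intro L _ ε hε
  have hp : ∀ i : Fin (n + 1), i ≠ 0 → 1 ≤ (i : ℕ) := fun i hi => Fin.pos_iff_ne_zero.2 hi
  have H : On (0 : Fin (n + 1)) D.B (fun i => D.E 0 t i) D.q :=
    ⟨fun i hi => (h1.orth rfl i i (hp i hi) i.is_le (hp i hi) i.is_le).trans (if_pos rfl),
      fun i j hi hj hij => (h1.orth rfl i j (hp i hi) i.is_le (hp j hj) j.is_le).trans
        (if_neg fun h => hij (Fin.ext h)), D.qq, D.two, D.three⟩
  have hr : D.Rel fun x => PsiB.lab (0 : Fin (n + 1)) (fun i => D.E 0 t i) D.q ε x.v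
      (x.k = D.χ (sg M (t 0))) :=
    hl _ (Act (0 : Fin (n + 1)) (fun i => D.E 0 t i) D.q) _ (fun _ hx => lab_out hx)
      (fun _ => PsiB.neg_mem) (fun _ hv _ hw => H.refl_mem hv hw) (fun _ hv _ hw => H.val hv hw)
      (fun x x' hv hw h0 hk => H.p2 hε hv hw h0 fun e e' => hk (e.trans e'.symm))
      (fun x0 x1 x2 hv hw h0 hu => H.p3 hε hv hw h0 hu _)
      fun x0 x1 x2 x3 hv hw h0 hu hu' e e' => by
        rw [← e, ← e']
        exact H.p4 hε hv hw h0 hu hu'
  refine ⟨D.lift _ hr, fun x s i j hi hj hij hx => ?_, fun x s i hi hx hk => ?_⟩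
  · rw [RD.lift_ζ, H.lab_lg (a := (⟨i, hi⟩, s i)) (b := (⟨j, hj⟩, s j))
      (fun h => hij (congrArg Subtype.val h)) hx, lng_left, st, st, Int.units_mul_self,
      Int.units_mul_self]
    exact ⟨g_pp _ _, rfl⟩
  · rw [RD.lift_ζ, H.lab_sh (a := (⟨i, hi⟩, s i)) (hx.trans (smul_comm _ _ _)) hk, sht_left, st,
      Int.units_mul_self]
    exact ⟨h_p _, rfl⟩

end

end Pool.Agent.P.MP_e794d7_al.FC
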