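import Pool.Agent.P.MP_e794d7_al.FC.Stmt

/-! Existence of root data. -/

namespace Pool.Agent.P.MP_e794d7_al.FC

open scoped Classical

namespace Rd

theorem U_two {R : Type} [CommRing R] : ∀ k : ℕ, U (2 : R) k = k
  | 0 => by simp [U]
  | 1 => by simp [U]
  | k + 2 => by
    rw [U, U_two (k + 1), U_two k]
    push_cast
    ring

/-- a reduction to a finite field that is injective on a finite set -/
theorem exists_inj (h2 : S_prime) (R : Type) [CommRing R] [IsDomain R] [CharZero R]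
    (hR : Module.Finite ℤ R) {Z : Set R} (hZ : Z.Finite) :
    ∃ (F : Type) (_ : Field F) (_ : Finite F) (f : R →+* F), Set.InjOn f Z := by
  obtain ⟨F, i1, i2, f, hf⟩ := h2 R hR (Set.image2 (· - ·) Z Z \ {0})
    (hZ.image2 _ hZ).sdiff (fun h => h.2 rfl)
  refine ⟨F, i1, i2, f, fun x hx y hy h => ?_⟩
  by_contra hne
  exact hf (x - y) ⟨Set.mem_image2_of_mem hx hy, sub_ne_zero.2 hne⟩ (by rw [map_sub, h, sub_self])

theorem sepC_map {R F : Type} [CommRing R] [CommRing F] {f : R →+* F} {Z : Set R}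
    (hf : Set.InjOn f Z) {q y : R} {k m : ℕ} (h : SepC q y k m) (hy : y ∈ Z)
    (hZ : ({0, 1, -1, q, -q, 2, -2, 3} : Set R) ⊆ Z) : SepC (f q) (f y) k m := by
  have e : ∀ d ∈ ({0, 1, -1, q, -q, 2, -2, 3} : Set R), f y = f d ↔ y = d := fun d hd =>
    hf.eq_iff hy (hZ hd)
  refine ⟨?_, ?_, ?_, ?_, ?_, ?_, ?_⟩
  · rw [← h.zero, ← e 0 (by simp), map_zero]
  · rw [← h.one, ← e 1 (by simp), map_one]
  · rw [← h.neg_one, ← e (-1) (by simp), map_neg, map_one]
  · rw [← h.rt, ← e q (by simp)]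
  · rw [← h.neg_rt, ← e (-q) (by simp), map_neg]
  · exact fun h' => h.two ((e 2 (by simp)).1 (by rw [h', map_ofNat]))
  · exact fun h' => h.neg_two ((e (-2) (by simp)).1 (by rw [h', map_neg, map_ofNat]))

variable {ι : Type}

/-- even labels are replaced by `2` -/
def ev (M : ι → ι → ℕ) (a b : ι) : ℕ := if Even (M a b) then 2 else M a b

theorem ev_cox {M : ι → ι → ℕ} (h : Cox M) : Cox (ev M) := by
  refine ⟨fun a b => by rw [ev, ev, h.symm], fun a => by simp [ev, h.diag], fun a b hab => ?_⟩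
  rw [ev]
  split_ifs
  · decide
  · exact h.off a b hab

theorem ev_comm {M : ι → ι → ℕ} {a b : ι} (h : Even (M a b)) :
    Commute (sg (ev M) a) (sg (ev M) b) := by
  have := brd_sg (ev M) Set.univ a trivial b trivial
  rwa [ev, if_pos h, alt_two, alt_two] at this

theorem ev_rel (M : ι → ι → ℕ) (a b : ι) :
    alt (sg (ev M) a) (sg (ev M) b) (M a b) = alt (sg (ev M) b) (sg (ev M) a) (M a b) := by
  by_cases h : Even (M a b)
  · obtain ⟨k, hk⟩ := h.two_dvd
    rw [hk, alt_even, alt_even, (ev_comm h).eq]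
  · have := brd_sg (ev M) Set.univ a trivial b trivial
    rwa [ev, if_neg h] at this

theorem ok_of [Fintype ι] {R : Type} [CommRing R] {M : ι → ι → ℕ} (h : Cox M) {N : ℕ}
    (hN : ∀ a b, M a b ≤ N) {c : ℕ → R}
    (hc : ∀ m, 2 ≤ m → m ≤ N → U (c m) m = 0 ∧ U (c m) (m - 1) = 1) : Ok M c :=
  ⟨h, fun a b hab h0 => hc _ (by have := h.off a b hab; omega) (hN a b)⟩

end Rd

open Rd in
theorem p_rd (h1 : S_trig) (h2 : S_prime) : S_rd := by
  intro ι _ M hM 𝒯 hfin
  obtain ⟨N, N2, hN⟩ : ∃ N, 2 ≤ N ∧ ∀ a b, M a b ≤ N :=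
    ⟨max 2 (Finset.univ.sup fun p : ι × ι => M p.1 p.2), le_max_left _ _, fun a b =>
      le_max_of_le_right (Finset.le_sup (f := fun p : ι × ι => M p.1 p.2) (Finset.mem_univ (a, b)))⟩
  obtain ⟨R, r1, r2, r3, c, hR, c0, c2, c3, c4, ht⟩ := h1 N
  have ht' : ∀ m, 2 ≤ m → m ≤ N → U (c m) m = 0 ∧ U (c m) (m - 1) = 1 := fun m a b =>
    ⟨(ht m a b).1, (ht m a b).2.1⟩
  have ok : Ok M c := ok_of hM hN ht'
  have hW : (⋃ T ∈ 𝒯, (sub (sg M) T : Set (Wg M))).Finite :=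
    (Set.toFinite 𝒯).biUnion fun T hT => Set.finite_coe_iff.1 (hfin T hT)
  obtain ⟨Z, hZ, Z0, Z1, Z2, Z3⟩ : ∃ Z : Set R, Z.Finite ∧
      ({0, 1, -1, c 4, -c 4, 2, -2, 3} : Set R) ⊆ Z ∧ (∀ m ≤ N, ∀ k ≤ N, U (c m) k ∈ Z) ∧
      (∀ m ≤ N, ∀ k ≤ N, Ck (c m) k ∈ Z) ∧
      ∀ T ∈ 𝒯, ∀ w ∈ sub (sg M) T, ∀ t a, rep ok w (al R t) a ∈ Z := by
    refine ⟨{0, 1, -1, c 4, -c 4, 2, -2, 3} ∪
      (Set.image2 (fun m k => U (c m) k) (Set.Iic N) (Set.Iic N) ∪
      (Set.image2 (fun m k => Ck (c m) k) (Set.Iic N) (Set.Iic N) ∪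
      Set.image2 (fun w (p : ι × ι) => rep ok w (al R p.1) p.2)
        (⋃ T ∈ 𝒯, (sub (sg M) T : Set (Wg M))) Set.univ)), (Set.toFinite _).union
      (((Set.finite_Iic N).image2 _ (Set.finite_Iic N)).union
      (((Set.finite_Iic N).image2 _ (Set.finite_Iic N)).union (hW.image2 _ Set.finite_univ))),
      Set.subset_union_left, fun m hm k hk => .inr (.inl ⟨m, hm, k, hk, rfl⟩),
      fun m hm k hk => .inr (.inr (.inl ⟨m, hm, k, hk, rfl⟩)),
      fun T hT w hw t a => .inr (.inr (.inr ⟨w, Set.mem_biUnion hT hw, (t, a), trivial, rfl⟩))⟩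
  obtain ⟨F, f1, f2, f, hf⟩ := exists_inj h2 R hR hZ
  have hf0 : ∀ x ∈ Z, f x = 0 → x = 0 := fun x hx h =>
    hf hx (Z0 (by simp)) (by rw [h, map_zero])
  have two : (2 : F) ≠ 0 := fun h =>
    two_ne_zero (hf0 2 (Z0 (by simp)) (by rw [map_ofNat, h]))
  have three : (3 : F) ≠ 0 := fun h =>
    three_ne_zero (hf0 3 (Z0 (by simp)) (by rw [map_ofNat, h]))
  have ok' : Ok (ev M) fun m => f (c m) := (ok_of (ev_cox hM) (N := N) (fun a b => by
    rw [ev]
    split_ifs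
    · exact N2
    · exact hN a b) ht').map f
  have q2 : Finite ((ι → F) ≃ₗ[F] (ι → F)) :=
    Finite.of_injective (fun e => (e : (ι → F) → ι → F)) DFunLike.coe_injective
  have hχ : ∀ a, (rep ok').comp (Wlift (sg (ev M)) (ev_rel M) sg_sq) (sg M a) =
      rep ok' (sg (ev M) a) := fun a => by rw [MonoidHom.comp_apply, Wlift_sg]
  have lb : ∀ a b, a ≠ b → ∀ k, 0 < k → k < M a b → 2 ≤ M a b := fun a b _ k _ _ => by omega
  refine ⟨{
    R := R
    F := F
    Q := (ι → F) ≃ₗ[F] (ι → F)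
    c := c
    q := f (c 4)
    red := f
    χ := (rep ok').comp (Wlift (sg (ev M)) (ev_rel M) sg_sq)
    ok := ok
    c2 := c2
    c3 := c3
    c4 := rfl
    qq := by rw [← map_mul, c4, map_ofNat]
    two := two
    three := three
    pos := fun a b hab k hk => ?_
    sepU := fun a b hab k k0 km h => ?_
    sepC := fun a b hab k k0 km => ?_
    sep0 := fun T hT w hw t _ a => hf0 _ (Z3 T hT w hw t a)
    sep1 := fun T hT w hw t _ w' hw' t' _ h =>
      funext fun a => hf (Z3 T hT w hw t a) (Z3 T hT w' hw' t' a) (congrFun h a)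
    χe := fun a b _ he => ?_
    χne := fun a b hab h => ?_ }⟩
  · by_cases h0 : M a b = 0
    · rw [h0, c0, U_two]
      exact Nat.cast_nonneg k
    · have h3 := hM.off a b hab
      have h4 := ht (M a b) (by omega) (hN a b)
      rcases Nat.eq_zero_or_pos k with rfl | k0
      · exact le_rfl
      · rcases (hk.resolve_left h0).eq_or_lt with rfl | km
        · exact h4.1.ge
        · exact (h4.2.2 k k0 km).1.le
  · exact ((ht _ (lb a b hab k k0 km) (hN a b)).2.2 k k0 km).1.ne'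
      (hf0 _ (Z1 _ (hN a b) k (km.le.trans (hN a b))) h)
  · exact sepC_map hf ((ht _ (lb a b hab k k0 km) (hN a b)).2.2 k k0 km).2
      (Z2 _ (hN a b) k (km.le.trans (hN a b))) Z0
  · rw [hχ, hχ]
    exact (ev_comm he).map _
  · rw [hχ, hχ] at h
    have h3 := congrArg (fun e : (ι → F) ≃ₗ[F] (ι → F) => e (al F a) a) h
    simp only [rep_sg_apply, Bm_aa, Pi.sub_apply, Pi.smul_apply, al_apply, if_true, if_neg hab,
      smul_eq_mul, mul_one, mul_zero, sub_zero] at h3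
    exact two (by linear_combination -h3)

end Pool.Agent.P.MP_e794d7_al.FC
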