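import Pool.Agent.P.MP_e794d7_al.FC.Stmt

/-! Artin groups of FC type: the retractions of the colour group. -/

set_option autoImplicit false

namespace Pool.Agent.P.MP_e794d7_al.FC

open scoped Classical

variable {ι : Type} [Fintype ι] {M : ι → ι → ℕ} {𝒯 : Set (Set ι)}

namespace Ret

theorem U_det {R : Type} [CommRing R] (c : R) (d : ℕ) :
    ∀ i, U c (i + 1) * U c (i + d) - U c i * U c (i + d + 1) = U c d
  | 0 => by simp [U]
  | i + 1 => by
    have := U_det c d i
    rw [show i + 1 + d = i + d + 1 by omega, U, U]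
    linear_combination this

theorem rel_of (D : RD M 𝒯) (h : D.Roots) {L : Type} [Group L] {f : D.X → L} (w : Wg M)
    (s t : ι) (hc : s ≠ t → ∀ i j, i < j → j < M s t →
      Commute (f (D.cone w s t i)) (f (D.cone w s t j))) :
    D.cw f w s t (M s t) = D.cw f w t s (M s t) := by
  by_cases hst : s = t
  · rw [hst]
  refine prod_rev _ _ _ (fun i hi => ?_) (hc hst)
  have := h.rev w s t (M s t - 1 - i) hst (by omega)
  rw [show M s t - 1 - (M s t - 1 - i) = i by omega] at this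
  rw [this]

theorem in_all (D : RD M 𝒯) {Y : Set ι} {w : Wg M} {s t : ι} (hst : s ≠ t) {i j : ℕ}
    (hij : i < j) (hj : j < M s t) (h1 : In Y (D.cone w s t i).v) (h2 : In Y (D.cone w s t j).v) :
    In Y (D.ρ1 w (al D.F s)) ∧ In Y (D.ρ1 w (al D.F t)) := by
  obtain ⟨d, rfl⟩ := Nat.exists_eq_add_of_le hij.le
  have hu := D.sepU s t hst d (by omega) (by omega)
  rw [map_U] at hu
  have e := U_det (D.red (D.c (M s t))) d i
  rw [D.cone_v w hst] at h1 h2
  constructor <;> intro a ha <;> have e1 := h1 a ha <;> have e2 := h2 a ha <;>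
    simp only [Pi.add_apply, Pi.smul_apply, smul_eq_mul] at e1 e2 <;>
    refine (mul_eq_zero.1 ?_).resolve_left hu <;> rw [← e]
  · linear_combination U (D.red (D.c (M s t))) (i + d) * e1 - U (D.red (D.c (M s t))) i * e2
  · linear_combination U (D.red (D.c (M s t))) (i + 1) * e2 -
      U (D.red (D.c (M s t))) (i + d + 1) * e1

theorem rel_filter (D : RD M 𝒯) (h : D.Roots) (Y : Set ι) :
    D.Rel fun x => if In Y x.v then D.ζ x else 1 := by
  intro w s t
  by_cases hAB : s ≠ t ∧ In Y (D.ρ1 w (al D.F s)) ∧ In Y (D.ρ1 w (al D.F t))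
  · have e : ∀ s t : ι, s ≠ t → In Y (D.ρ1 w (al D.F s)) → In Y (D.ρ1 w (al D.F t)) → ∀ m,
        D.cw (fun x => if In Y x.v then D.ζ x else 1) w s t m = D.cw D.ζ w s t m :=
      fun s t hst hs ht m => congrArg List.prod (List.map_congr_left fun i _ => if_pos
        fun a ha => by rw [D.cone_v w hst]; simp [hs a ha, ht a ha])
    rw [e s t hAB.1 hAB.2.1 hAB.2.2, e t s hAB.1.symm hAB.2.2 hAB.2.1]
    exact D.rel_ζ w s t
  · refine rel_of D h w s t fun hst i j hij hj => ?_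
    split_ifs with h1 h2
    · exact absurd ⟨hst, in_all D hst hij hj h1 h2⟩ hAB
    all_goals simp

end Ret

theorem RD.p_ret (D : RD M 𝒯) (h : D.Roots) : D.Ret := by
  have hζ : ∀ Y x, D.ret Y (D.ζ x) = if In Y x.v then D.ζ x else 1 := fun Y x => by
    rw [RD.ret, dif_pos (Ret.rel_filter D h Y), RD.lift_ζ]
  have hx : ∀ {Y : Set ι} {w : Wg M}, w ∈ sub (sg M) Y → ∀ a ∈ Y,
      D.ret Y (D.ζ (w • D.x a)) = D.ζ (w • D.x a) := fun hw a ha => by
    rw [hζ, if_pos]
    exact (rep_in D.ok1 hw _).2 (in_al ha)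
  refine ⟨hζ, fun X Y π => ?_, fun Y w hw π => ?_, fun Y g hg => ?_, fun L _ f w s t => ?_⟩
  · refine DFunLike.congr_fun (D.hom_ext (f := (D.ret X).comp (D.ret Y)) fun x => ?_) π
    have e : In (X ∩ Y) x.v ↔ In X x.v ∧ In Y x.v :=
      ⟨fun H => ⟨fun a ha => H a fun h => ha h.1, fun a ha => H a fun h => ha h.2⟩,
        fun H a ha => (not_and_or.1 ha).elim (H.1 a) (H.2 a)⟩
    rw [MonoidHom.comp_apply, hζ, hζ, e]
    by_cases h1 : In Y x.v <;> simp [h1, hζ]
  · refine DFunLike.congr_fun (D.hom_ext (f := (D.ret Y).comp (D.aut w).toMonoidHom)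
      (g := (D.aut w).toMonoidHom.comp (D.ret Y)) fun x => ?_) π
    change D.ret Y (D.aut w (D.ζ x)) = D.aut w (D.ret Y (D.ζ x))
    rw [RD.aut_ζ, hζ, hζ, RD.smul_v, rep_in D.ok1 hw]
    split_ifs <;> simp
  · refine sub_induction (p := fun g => D.ret Y (D.φ g) = D.φ g) (by simp)
      (fun g hg a ha ih => ?_) (fun g hg a ha ih => ?_) hg
    · rw [RD.φ_mul_gen, map_mul, ih, hx (wq_mem hg) a ha]
    · rw [RD.φ_mul_gen_inv, map_mul, map_inv, ih,
        hx (Subgroup.mul_mem _ (wq_mem hg) (mem_sub ha)) a ha]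
  · exact Ret.rel_of D h w s t fun _ _ _ _ _ => Commute.all _ _

end Pool.Agent.P.MP_e794d7_al.FC
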