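import Pool.Agent.P.MP_e794d7_al.FC.Stmt

/-! Artin groups of FC type: root lemmas. -/

set_option autoImplicit false

namespace Pool.Agent.P.MP_e794d7_al.FC

open scoped Classical

variable {ι : Type} [Fintype ι] {M : ι → ι → ℕ} {𝒯 : Set (Set ι)}

namespace RootsL

theorem ne0 (D : RD M 𝒯) (w : Wg M) (a : ι) : D.ρ w (al D.R a) ≠ 0 := by
  intro h
  have h1 := rep_B D.ok w (al D.R a) (al D.R a)
  rw [Bm_aa, h, map_zero (Bm M D.c 0)] at h1
  exact two_ne_zero h1.symm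

theorem ne1 (D : RD M 𝒯) (w : Wg M) (a : ι) (h1 : 0 ≤ D.ρ w (al D.R a))
    (h2 : D.ρ w (al D.R a) ≤ 0) : False := ne0 D w a (le_antisymm h2 h1)

omit [Fintype ι] in
theorem al_nonneg {R : Type} [CommRing R] [LinearOrder R] [IsStrictOrderedRing R] (a : ι) :
    0 ≤ al R a := fun b => by
  rw [al_apply]
  split_ifs
  · exact zero_le_one
  · exact le_rfl

theorem triv (D : RD M 𝒯) (h : D.Sign) (Z : Set ι) (w : Wg M) (hw : w ∈ sub (sg M) Z)
    (hp : ∀ a ∈ Z, 0 ≤ D.ρ w (al D.R a)) : w = 1 := by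
  by_contra hne
  obtain ⟨a, ha, hle⟩ := h.desc Z w hw hne
  exact ne1 D w a (hp a ha) hle

theorem faith (D : RD M 𝒯) (h : D.Sign) {w w' : Wg M} (e : ∀ v, D.ρ w v = D.ρ w' v) :
    w = w' := by
  have h1 : w'⁻¹ * w = 1 :=
    triv D h Set.univ _ (sub_sg_univ ▸ Subgroup.mem_top _) fun a _ => by
      rw [rep_mul, e, rep_inv_rep]
      exact al_nonneg a
  exact (inv_mul_eq_one.1 h1).symm

theorem conj (D : RD M 𝒯) (h : D.Sign) (w : Wg M) (s : ι) (w' : Wg M) (t : ι)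
    (e : D.ρ w (al D.R s) = D.ρ w' (al D.R t)) :
    w * sg M s * w⁻¹ = w' * sg M t * w'⁻¹ :=
  faith D h fun v => by rw [rep_conj, rep_conj, e]

theorem eqx (D : RD M 𝒯) (h : D.Sign) (w : Wg M) (s : ι) (w' : Wg M) (t : ι)
    (e : D.ρ w (al D.R s) = D.ρ w' (al D.R t)) : w • D.x s = w' • D.x t := by
  refine RD.X.ext ?_ ?_ ?_
  · change D.ρ1 w (al D.F s) = D.ρ1 w' (al D.F t)
    rw [← D.red_ρ, ← D.red_ρ, e]
  · change D.χ w * D.χ (sg M s) * (D.χ w)⁻¹ = D.χ w' * D.χ (sg M t) * (D.χ w')⁻¹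
    have := congrArg D.χ (conj D h w s w' t e)
    simpa only [map_mul, map_inv] using this
  · change D.τ w * D.τ (sg M s) * (D.τ w)⁻¹ = D.τ w' * D.τ (sg M t) * (D.τ w')⁻¹
    have := congrArg D.τ (conj D h w s w' t e)
    simpa only [map_mul, map_inv] using this

theorem rev (D : RD M 𝒯) (h : D.Sign) (w : Wg M) (s t : ι) (i : ℕ) (hst : s ≠ t)
    (hi : i < M s t) : D.cone w t s (M s t - 1 - i) = D.cone w s t i := by
  obtain ⟨h0, h1⟩ := D.ok.top s t hst (by omega)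
  refine eqx D h _ _ _ _ ?_
  rw [rep_mul, rep_mul, rep_alt D.ok hst, rep_alt D.ok hst.symm, D.cox.symm t s,
    U_symm h0 h1 i (M s t - 1 - i + 1) (by omega),
    U_symm h0 h1 (i + 1) (M s t - 1 - i) (by omega), add_comm]

theorem supp (D : RD M 𝒯) (w : Wg M) (t s : ι) (h0 : 0 ≤ D.ρ w (al D.R t))
    (hz : ∀ b, b ≠ s → D.ρ w (al D.R t) b = 0) : D.ρ w (al D.R t) = al D.R s := by
  have h1 := rep_B D.ok w (al D.R t) (al D.R t)
  have hs : 0 ≤ D.ρ w (al D.R t) s := h0 s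
  generalize D.ρ w (al D.R t) = β at *
  have e : β = β s • al D.R s := by
    funext b
    rw [Pi.smul_apply, al_apply, smul_eq_mul]
    split_ifs with hb
    · rw [hb, mul_one]
    · rw [hz b hb, mul_zero]
  rw [e, Bm_aa] at h1
  simp only [map_smul, LinearMap.smul_apply, smul_eq_mul, Bm_aa] at h1
  have h2 : (β s - 1) * ((β s + 1) * 2) = 0 := by linear_combination h1
  have h3 : (β s + 1) * 2 ≠ 0 := by positivity
  have h4 : β s = 1 := sub_eq_zero.1 ((mul_eq_zero.1 h2).resolve_right h3)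
  rw [e, h4, one_smul]

theorem perm (D : RD M 𝒯) (h : D.Sign) (w : Wg M) (t s : ι) (h0 : 0 ≤ D.ρ w (al D.R t))
    (hne : D.ρ w (al D.R t) ≠ al D.R s) : 0 ≤ D.ρ (sg M s * w) (al D.R t) := by
  refine (h.sgn _ _).resolve_right fun hle => hne (supp D w t s h0 fun b hb => ?_)
  have h1 : D.ρ (sg M s * w) (al D.R t) b ≤ 0 := hle b
  rw [rep_mul, rep_coord D.ok (Z := {s}) (mem_sub rfl) hb] at h1
  exact le_antisymm h1 (h0 b)

theorem expand {R : Type} [CommRing R] (v : ι → R) : v = ∑ t, v t • al R t := by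
  funext b
  simp [Finset.sum_apply, al_apply]

theorem deo (D : RD M 𝒯) (h : D.Sign) (Z : Set ι) (d : Wg M) (s : ι)
    (hp : ∀ t ∈ Z, 0 ≤ D.ρ d⁻¹ (al D.R t)) :
    (∃ t ∈ Z, D.ρ d (al D.R s) = al D.R t) ∨
      (¬ In Z (D.ρ d (al D.R s)) ∧ ∀ t ∈ Z, 0 ≤ D.ρ (d * sg M s)⁻¹ (al D.R t)) := by
  by_cases h1 : ∃ t ∈ Z, D.ρ d (al D.R s) = al D.R t
  · exact Or.inl h1
  have h2 : ∀ t ∈ Z, D.ρ d⁻¹ (al D.R t) ≠ al D.R s := fun t ht e =>
    h1 ⟨t, ht, by rw [← e, rep_rep_inv]⟩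
  refine Or.inr ⟨fun hin => ?_, fun t ht => ?_⟩
  · have hn := ne0 D d s
    have hs := h.sgn d s
    have e : ∀ b, al D.R s b = ∑ t, D.ρ d (al D.R s) t * D.ρ d⁻¹ (al D.R t) b := fun b => by
      conv_lhs => rw [← rep_inv_rep D.ok d (al D.R s), expand (rep D.ok d (al D.R s))]
      simp only [map_sum, map_smul, Finset.sum_apply, Pi.smul_apply, smul_eq_mul]
    generalize D.ρ d (al D.R s) = γ at *
    rcases hs with hs | hs
    · have hge : ∀ b t, 0 ≤ γ t * D.ρ d⁻¹ (al D.R t) b := fun b t => by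
        by_cases ht : t ∈ Z
        · exact mul_nonneg (hs t) (hp t ht b)
        · rw [hin t ht, zero_mul]
      obtain ⟨t, ht⟩ := Function.ne_iff.1 hn
      have htZ : t ∈ Z := by
        by_contra hc
        exact ht (hin t hc)
      refine h2 t htZ (supp D d⁻¹ t s (hp t htZ) fun b hb => ?_)
      have h3 := e b
      rw [al_apply, if_neg hb] at h3
      have h4 := (Finset.sum_eq_zero_iff_of_nonneg fun t _ => hge b t).1 h3.symm t
        (Finset.mem_univ t)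
      exact (mul_eq_zero.1 h4).resolve_left ht
    · have h3 := e s
      rw [al_apply, if_pos rfl] at h3
      have h4 : ∑ t, γ t * D.ρ d⁻¹ (al D.R t) s ≤ 0 := Finset.sum_nonpos fun t _ => by
        by_cases ht : t ∈ Z
        · exact mul_nonpos_of_nonpos_of_nonneg (hs t) (hp t ht s)
        · rw [hin t ht, zero_mul]
      rw [← h3] at h4
      exact not_le.2 zero_lt_one h4
  · rw [mul_inv_rev, sg_inv]
    exact perm D h d⁻¹ t s (hp t ht) (h2 t ht)

end RootsL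

theorem RD.p_roots (D : RD M 𝒯) (h : D.Sign) : D.Roots where
  sgn := h.sgn
  ne := RootsL.ne1 D
  triv := RootsL.triv D h
  conj := RootsL.conj D h
  eqx := RootsL.eqx D h
  rev := RootsL.rev D h
  perm := RootsL.perm D h
  deo := RootsL.deo D h

end Pool.Agent.P.MP_e794d7_al.FC
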