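import Pool.Agent.P.MP_e794d7_al.FC.Stmt

/-! Every root is positive or negative; descents. -/

set_option autoImplicit false

namespace Pool.Agent.P.MP_e794d7_al.FC

open scoped Classical

variable {ι : Type} {M : ι → ι → ℕ}

namespace Sign

theorem el_succ (a b : ι) (n : ℕ) : el a b (n + 1) = el b a n := by
  by_cases h : Even n <;> simp [el, Nat.even_add_one, h]

theorem el_add_two (a b : ι) (n : ℕ) : el a b (n + 2) = el a b n := by
  rw [el_succ, el_succ]

theorem el_cases (a b : ι) (n : ℕ) :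
    (el a b n = a ∧ el a b (n + 1) = b) ∨ (el a b n = b ∧ el a b (n + 1) = a) := by
  by_cases h : Even n <;> simp [el, Nat.even_add_one, h]

/-- the walk -/
def wk (w : Wg M) (a b : ι) : ℕ → Wg M
  | 0 => w
  | n + 1 => wk w a b n * sg M (el a b n)

theorem wk_alt (w : Wg M) (a b : ι) (n : ℕ) : wk w a b n = w * alt (sg M a) (sg M b) n := by
  induction n with
  | zero => simp [wk, alt_zero]
  | succ n ih => rw [wk, ih, alt_el (y := sg M), mul_assoc]

theorem wk_back (w : Wg M) (a b : ι) (n : ℕ) :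
    wk w a b n * alt (sg M (el a b (n + 1))) (sg M (el a b n)) n = w := by
  induction n with
  | zero => simp [wk, alt_zero]
  | succ n ih =>
    rw [wk, alt_succ', el_add_two, mul_assoc, ← mul_assoc (sg M _), sg_sq, one_mul, ih]

/-- `w` is a product of `n` generators from `Z` -/
def Wd (Z : Set ι) : ℕ → Wg M → Prop
  | 0, w => w = 1
  | n + 1, w => ∃ t ∈ Z, Wd Z n (w * sg M t)

variable {Z : Set ι} {w : Wg M} {a b t : ι}

theorem wd_mul {n : ℕ} (h : Wd Z n w) (ht : t ∈ Z) : Wd Z (n + 1) (w * sg M t) :=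
  ⟨t, ht, by rwa [mul_assoc, sg_sq, mul_one]⟩

theorem wd_mul' (ht : t ∈ Z) : ∀ {n : ℕ} {w : Wg M}, Wd Z n w → Wd Z (n + 1) (sg M t * w)
  | 0, w, h => ⟨t, ht, by rw [show w = 1 from h, mul_one]; exact sg_sq t⟩
  | _ + 1, _, ⟨s, hs, h⟩ => ⟨s, hs, by rw [mul_assoc]; exact wd_mul' ht h⟩

theorem wd_inv : ∀ {n : ℕ} {w : Wg M}, Wd Z n w → Wd Z n w⁻¹
  | 0, w, h => by rw [show w = 1 from h, inv_one]; exact rfl
  | _ + 1, _, ⟨s, hs, h⟩ => by
    have h1 := wd_mul' hs (wd_inv h)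
    rwa [mul_inv_rev, sg_inv, ← mul_assoc, sg_sq, one_mul] at h1

/-- the length -/
noncomputable def len (Z : Set ι) (w : Wg M) : ℕ := sInf {n | Wd Z n w}

theorem len_spec (hw : w ∈ sub (sg M) Z) : Wd Z (len Z w) w :=
  Nat.sInf_mem (s := {n | Wd Z n w}) (sg_induction (p := fun w => ∃ n, Wd Z n w) ⟨0, rfl⟩
    (fun _ _ _ ha ⟨n, hn⟩ => ⟨n + 1, wd_mul hn ha⟩) hw)

theorem len_inv (w : Wg M) : len Z w⁻¹ = len Z w :=
  congrArg sInf (Set.ext fun _ => ⟨fun h => inv_inv w ▸ wd_inv h, wd_inv⟩)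

theorem len_le (hw : w ∈ sub (sg M) Z) (ht : t ∈ Z) : len Z w ≤ len Z (w * sg M t) + 1 :=
  Nat.sInf_le ⟨t, ht, len_spec (mul_mem hw (mem_sub ht))⟩

theorem len_cases (hw : w ∈ sub (sg M) Z) :
    w = 1 ∨ ∃ t ∈ Z, len Z (w * sg M t) + 1 ≤ len Z w := by
  have h := len_spec hw
  rcases e : len Z w with _ | n
  · rw [e] at h
    exact Or.inl h
  · rw [e] at h
    obtain ⟨t, ht, h1⟩ := h
    exact Or.inr ⟨t, ht, Nat.succ_le_succ (Nat.sInf_le h1)⟩

theorem el_mem (ha : a ∈ Z) (hb : b ∈ Z) (n : ℕ) : el a b n ∈ Z := by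
  unfold el
  split_ifs
  exacts [ha, hb]

theorem wk_mem (hw : w ∈ sub (sg M) Z) (ha : a ∈ Z) (hb : b ∈ Z) (n : ℕ) :
    wk w a b n ∈ sub (sg M) Z := by
  induction n with
  | zero => exact hw
  | succ n ih => exact mul_mem ih (mem_sub (el_mem ha hb n))

theorem len_wk (hw : w ∈ sub (sg M) Z) (ha : a ∈ Z) (hb : b ∈ Z) (n : ℕ) :
    len Z w ≤ len Z (wk w a b n) + n := by
  induction n with
  | zero => simp [wk]
  | succ n ih =>
    have := len_le (wk_mem hw ha hb n) (el_mem ha hb n)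
    rw [wk]
    omega

variable [Fintype ι] {𝒯 : Set (Set ι)} (D : RD M 𝒯)

theorem al_nonneg (a : ι) : 0 ≤ al D.R a := by
  intro i
  rw [al_apply]
  split_ifs <;> simp

theorem pos_of_asc : ∀ (n : ℕ) (w : Wg M), w ∈ sub (sg M) Z → len Z w ≤ n → ∀ s ∈ Z,
    len Z w ≤ len Z (w * sg M s) → 0 ≤ D.ρ w (al D.R s) := by
  intro n
  induction n using Nat.strong_induction_on with
  | _ n ih =>
  intro w hZ hw s hsZ hs
  rcases len_cases hZ with rfl | ⟨t, htZ, ht⟩
  · rw [rep_one]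
    exact al_nonneg D s
  have hts : t ≠ s := by
    rintro rfl
    omega
  have hex : ∃ k, len Z w < len Z (wk w t s (k + 1)) + (k + 1) := ⟨len Z w, by omega⟩
  have k1 := Nat.find_spec hex
  have k2 : ∀ j, j ≤ Nat.find hex → len Z (wk w t s j) + j ≤ len Z w := by
    intro j hj
    rcases j with _ | j
    · simp [wk]
    · exact not_lt.1 (Nat.find_min hex (by omega))
  have k0 : Nat.find hex ≠ 0 := by
    intro e
    rw [e] at k1
    simp only [wk, el, Even.zero, if_true] at k1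
    omega
  generalize Nat.find hex = k at k1 k2 k0
  obtain ⟨j, rfl⟩ : ∃ j, k = j + 1 := ⟨k - 1, by omega⟩
  have k3 := k2 (j + 1) le_rfl
  have p1 : 0 ≤ D.ρ (wk w t s (j + 1)) (al D.R (el t s (j + 1))) := by
    refine ih (len Z (wk w t s (j + 1))) (by omega) _ (wk_mem hZ htZ hsZ _) le_rfl _
      (el_mem htZ hsZ _) ?_
    rw [wk] at k1
    omega
  have p2 : 0 ≤ D.ρ (wk w t s (j + 1)) (al D.R (el t s (j + 1 + 1))) := by
    refine ih (len Z (wk w t s (j + 1))) (by omega) _ (wk_mem hZ htZ hsZ _) le_rfl _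
      (el_mem htZ hsZ _) ?_
    have e : wk w t s (j + 1) * sg M (el t s (j + 1 + 1)) = wk w t s j := by
      rw [wk, el_add_two, mul_assoc, sg_sq, mul_one]
    have := len_wk hZ htZ hsZ j
    rw [e]
    omega
  have hU : ∀ i, i ≤ j + 1 + 1 → 0 ≤ U (D.c (M t s)) i := by
    intro i hi
    refine D.pos t s hts i (or_iff_not_imp_left.2 fun h0 => hi.trans ?_)
    by_contra hc
    have k4 := k2 (M t s) (by omega)
    obtain ⟨m, hm⟩ : ∃ m, M t s = m + 1 := ⟨M t s - 1, by omega⟩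
    have e : wk w t s (M t s) = wk (w * sg M s) t s m := by
      rw [wk_alt, wk_alt, brd_sg M Z t htZ s hsZ, hm, alt_succ', mul_assoc]
    have := len_wk (mul_mem hZ (mem_sub hsZ)) htZ hsZ m
    rw [e] at k4
    omega
  have hne : el t s (j + 1 + 1) ≠ el t s (j + 1) := by
    rcases el_cases t s (j + 1) with ⟨e1, e2⟩ | ⟨e1, e2⟩ <;> rw [e1, e2]
    exacts [hts.symm, hts]
  have hM : M (el t s (j + 1 + 1)) (el t s (j + 1)) = M t s := by
    rcases el_cases t s (j + 1) with ⟨e1, e2⟩ | ⟨e1, e2⟩ <;> rw [e1, e2]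
    exact D.cox.symm s t
  have hr := rep_alt D.ok hne (j + 1)
  have e1 : el (el t s (j + 1 + 1)) (el t s (j + 1)) (j + 1) = s := by
    by_cases hj : Even (j + 1)
    · rw [el, if_pos hj, el, if_neg (by rw [Nat.even_add_one]; simpa using hj)]
    · rw [el, if_neg hj, el, if_neg hj]
  rw [e1, hM] at hr
  rw [← wk_back w t s (j + 1), rep_mul, hr, map_add, map_smul, map_smul]
  exact add_nonneg (smul_nonneg (hU _ le_rfl) p2) (smul_nonneg (hU _ (by omega)) p1)

theorem neg_of_desc (hw : w ∈ sub (sg M) Z) (ha : a ∈ Z) (h : len Z (w * sg M a) ≤ len Z w) :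
    D.ρ w (al D.R a) ≤ 0 := by
  have h2 := pos_of_asc D _ (w * sg M a) (mul_mem hw (mem_sub ha)) le_rfl a ha
    (by rwa [mul_assoc, sg_sq, mul_one])
  rw [rep_mul, rep_sg_al, map_neg] at h2
  exact neg_nonneg.1 h2

theorem desc_of_neg (hw : w ∈ sub (sg M) Z) (ha : a ∈ Z) (h : D.ρ w (al D.R a) ≤ 0) :
    len Z (w * sg M a) < len Z w := by
  refine not_le.1 fun h1 => ?_
  have h2 := le_antisymm h (pos_of_asc D _ w hw le_rfl a ha h1)
  have h3 := congrFun ((D.ρ w).map_eq_zero_iff.1 h2) a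
  rw [al_apply, if_pos rfl] at h3
  exact one_ne_zero h3

end Sign

open Sign

theorem RD.p_sign [Fintype ι] {𝒯 : Set (Set ι)} (D : RD M 𝒯) : D.Sign := by
  have hu : ∀ w : Wg M, w ∈ sub (sg M) Set.univ := fun w => sub_sg_univ ▸ Subgroup.mem_top w
  refine ⟨fun w a => ?_, fun Z w hw h1 => ?_, len Set.univ, fun w a =>
    ⟨desc_of_neg D (hu w) trivial, fun h => ?_⟩⟩
  · exact (le_total (len Set.univ w) (len Set.univ (w * sg M a))).imp
      (pos_of_asc D _ w (hu w) le_rfl a trivial) (neg_of_desc D (hu w) trivial)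
  · obtain ⟨t, ht, h2⟩ := (len_cases hw).resolve_left h1
    exact ⟨t, ht, neg_of_desc D hw ht (by omega)⟩
  · have h1 := desc_of_neg D (hu w⁻¹) trivial h
    rwa [len_inv, ← len_inv, mul_inv_rev, inv_inv, sg_inv] at h1

end Pool.Agent.P.MP_e794d7_al.FC
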