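import Pool.Agent.P.MP_e794d7_al.FC.Stmt

/-! Artin groups of FC type: the ring of cosines and reduction to a finite field. -/

set_option autoImplicit false

namespace Pool.Agent.P.MP_e794d7_al.FC

open scoped Classical

namespace Trig

theorem U_sin (θ : ℝ) : ∀ n : ℕ, U (2 * Real.cos θ) n * Real.sin θ = Real.sin (n * θ)
  | 0 => by simp [U]
  | 1 => by simp [U]
  | n + 2 => by
    have h1 := U_sin θ (n + 1)
    have h2 := U_sin θ n
    have e1 : ((n + 2 : ℕ) : ℝ) * θ = ((n + 1 : ℕ) : ℝ) * θ + θ := by push_cast; ring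
    have e2 : (n : ℝ) * θ = ((n + 1 : ℕ) : ℝ) * θ - θ := by push_cast; ring
    rw [e2, Real.sin_sub] at h2
    rw [U, e1, Real.sin_add]
    linear_combination (2 * Real.cos θ) * h1 - h2

theorem sin_pos {m : ℕ} (hm : 2 ≤ m) : 0 < Real.sin (Real.pi / m) := by
  have h1 : (2 : ℝ) ≤ m := by exact_mod_cast hm
  refine Real.sin_pos_of_pos_of_lt_pi (div_pos Real.pi_pos (by linarith)) ?_
  exact div_lt_self Real.pi_pos (by linarith)

theorem Ck_cos (θ : ℝ) (hθ : Real.sin θ ≠ 0) (k : ℕ) :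
    Ck (2 * Real.cos θ) k = 2 * Real.cos (k * θ) := by
  have h1 := U_sin θ (k + 1)
  have h2 := U_sin θ k
  have e1 : ((k + 1 : ℕ) : ℝ) * θ = (k : ℝ) * θ + θ := by push_cast; ring
  rw [e1, Real.sin_add] at h1
  refine mul_right_cancel₀ hθ ?_
  rw [Ck]
  linear_combination 2 * h1 - (2 * Real.cos θ) * h2

/-- the real constants -/
noncomputable def cr (m : ℕ) : ℝ := 2 * Real.cos (Real.pi / m)

theorem cr_int (m : ℕ) : IsIntegral ℤ (cr m) := by
  have h := Real.isIntegral_two_mul_cos_rat_mul_pi ((1 : ℚ) / m)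
  have e : (((1 : ℚ) / m : ℚ) : ℝ) * Real.pi = Real.pi / m := by push_cast; ring
  rwa [e] at h

theorem cr_zero : cr 0 = 2 := by simp [cr]

theorem cr_two : cr 2 = 0 := by simp [cr]

theorem cr_three : cr 3 = 1 := by
  simp only [cr, Nat.cast_ofNat, Real.cos_pi_div_three]
  norm_num

theorem cr_four : cr 4 * cr 4 = 2 := by
  simp only [cr, Nat.cast_ofNat, Real.cos_pi_div_four]
  have := Real.mul_self_sqrt (show (0 : ℝ) ≤ 2 by norm_num)
  linear_combination this

theorem top {m : ℕ} (hm : 2 ≤ m) : U (cr m) m = 0 := by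
  have h1 : (2 : ℝ) ≤ m := by exact_mod_cast hm
  have h2 := U_sin (Real.pi / m) m
  rw [mul_div_cancel₀ _ (by linarith : (m : ℝ) ≠ 0), Real.sin_pi] at h2
  exact (mul_eq_zero.1 h2).resolve_right (sin_pos hm).ne'

theorem top' {m : ℕ} (hm : 2 ≤ m) : U (cr m) (m - 1) = 1 := by
  have h1 : (2 : ℝ) ≤ m := by exact_mod_cast hm
  have h2 := U_sin (Real.pi / m) (m - 1)
  have e : ((m - 1 : ℕ) : ℝ) * (Real.pi / m) = Real.pi - Real.pi / m := by
    rw [Nat.cast_sub (by omega)]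
    have : (m : ℝ) ≠ 0 := by linarith
    field_simp
    simp
  rw [e, Real.sin_pi_sub] at h2
  refine mul_right_cancel₀ (sin_pos hm).ne' ?_
  rw [one_mul]
  exact h2

theorem ang_nonneg (k m : ℕ) : 0 ≤ (k : ℝ) * (Real.pi / m) := by
  have := Real.pi_pos
  positivity

theorem ang_le {k m : ℕ} (hm : 0 < m) (hk : k ≤ m) : (k : ℝ) * (Real.pi / m) ≤ Real.pi := by
  have h1 : (0 : ℝ) < m := by exact_mod_cast hm
  have h3 : (k : ℝ) ≤ m := by exact_mod_cast hk
  rw [← mul_div_assoc, div_le_iff₀ h1]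
  have := Real.pi_pos
  nlinarith

theorem pos {m k : ℕ} (hm : 2 ≤ m) (h0 : 0 < k) (hk : k < m) : 0 < U (cr m) k := by
  have h1 : (2 : ℝ) ≤ m := by exact_mod_cast hm
  have h3 : (k : ℝ) < m := by exact_mod_cast hk
  have h5 : (0 : ℝ) < k := by exact_mod_cast h0
  have h2 := U_sin (Real.pi / m) k
  have h4 : 0 < Real.sin (k * (Real.pi / m)) := by
    refine Real.sin_pos_of_pos_of_lt_pi (by have := Real.pi_pos; positivity) ?_
    rw [← mul_div_assoc, div_lt_iff₀ (by linarith)]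
    have := Real.pi_pos
    nlinarith
  rw [← h2] at h4
  exact (mul_pos_iff_of_pos_right (sin_pos hm)).1 h4

theorem cos_eq {k m a b : ℕ} (hm : 0 < m) (hk : k ≤ m) (hb : 0 < b) (ha : a ≤ b) :
    2 * Real.cos (k * (Real.pi / m)) = 2 * Real.cos (a * (Real.pi / b)) ↔ b * k = a * m := by
  have h1 : (m : ℝ) ≠ 0 := by exact_mod_cast hm.ne'
  have h2 : (b : ℝ) ≠ 0 := by exact_mod_cast hb.ne'
  have hp := Real.pi_pos.ne'
  rw [mul_right_inj' two_ne_zero,
    Real.injOn_cos.eq_iff ⟨ang_nonneg k m, ang_le hm hk⟩ ⟨ang_nonneg a b, ang_le hb ha⟩]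
  constructor
  · intro h
    have : (b : ℝ) * k = a * m := by
      field_simp at h
      linear_combination h
    exact_mod_cast this
  · intro h
    have : (b : ℝ) * k = a * m := by exact_mod_cast h
    field_simp
    linear_combination this

theorem sep {m k : ℕ} (hm : 2 ≤ m) (h0 : 0 < k) (hk : k < m) :
    SepC (cr 4) (Ck (cr m) k) k m := by
  have hm0 : 0 < m := by omega
  have e : Ck (cr m) k = 2 * Real.cos (k * (Real.pi / m)) := Ck_cos _ (sin_pos hm).ne' k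
  rw [e]
  have c1 := cos_eq (a := 1) (b := 2) hm0 hk.le (by norm_num) (by norm_num)
  have c2 := cos_eq (a := 1) (b := 3) hm0 hk.le (by norm_num) (by norm_num)
  have c3 := cos_eq (a := 2) (b := 3) hm0 hk.le (by norm_num) (by norm_num)
  have c4 := cos_eq (a := 1) (b := 4) hm0 hk.le (by norm_num) (by norm_num)
  have c5 := cos_eq (a := 3) (b := 4) hm0 hk.le (by norm_num) (by norm_num)
  have c6 := cos_eq (a := 0) (b := 1) hm0 hk.le (by norm_num) (by norm_num)
  have c7 := cos_eq (a := 1) (b := 1) hm0 hk.le (by norm_num) (by norm_num)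
  have v1 : 2 * Real.cos (((1 : ℕ) : ℝ) * (Real.pi / ((2 : ℕ) : ℝ))) = 0 := by simp
  have v2 : 2 * Real.cos (((1 : ℕ) : ℝ) * (Real.pi / ((3 : ℕ) : ℝ))) = 1 := by
    rw [Nat.cast_one, one_mul]; exact cr_three
  have v3 : 2 * Real.cos (((2 : ℕ) : ℝ) * (Real.pi / ((3 : ℕ) : ℝ))) = -1 := by
    have : ((2 : ℕ) : ℝ) * (Real.pi / ((3 : ℕ) : ℝ)) = Real.pi - Real.pi / 3 := by
      push_cast; ring
    rw [this, Real.cos_pi_sub, Real.cos_pi_div_three]
    norm_num
  have v4 : 2 * Real.cos (((1 : ℕ) : ℝ) * (Real.pi / ((4 : ℕ) : ℝ))) = cr 4 := by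
    rw [Nat.cast_one, one_mul]; rfl
  have v5 : 2 * Real.cos (((3 : ℕ) : ℝ) * (Real.pi / ((4 : ℕ) : ℝ))) = -cr 4 := by
    have : ((3 : ℕ) : ℝ) * (Real.pi / ((4 : ℕ) : ℝ)) = Real.pi - Real.pi / ((4 : ℕ) : ℝ) := by
      push_cast; ring
    rw [this, Real.cos_pi_sub, cr]
    ring
  have v6 : 2 * Real.cos (((0 : ℕ) : ℝ) * (Real.pi / ((1 : ℕ) : ℝ))) = 2 := by simp
  have v7 : 2 * Real.cos (((1 : ℕ) : ℝ) * (Real.pi / ((1 : ℕ) : ℝ))) = -2 := by simp
  rw [v1] at c1
  rw [v2] at c2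
  rw [v3] at c3
  rw [v4] at c4
  rw [v5] at c5
  rw [v6] at c6
  rw [v7] at c7
  refine ⟨c1.trans (by omega), c2.trans (by omega), c3, c4.trans (by omega), c5,
    fun h => ?_, fun h => ?_⟩
  · have := c6.1 h
    omega
  · have := c7.1 h
    omega

theorem sep_of_map {R S : Type} [CommRing R] [CommRing S] (f : R →+* S)
    (hf : Function.Injective f) {q y : R} {k m : ℕ} (h : SepC (f q) (f y) k m) :
    SepC q y k m := by
  refine ⟨?_, ?_, ?_, ?_, ?_, fun e => h.two ?_, fun e => h.neg_two ?_⟩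
  · rw [← h.zero, ← hf.eq_iff, map_zero]
  · rw [← h.one, ← hf.eq_iff, map_one]
  · rw [← h.neg_one, ← hf.eq_iff, map_neg, map_one]
  · rw [← h.rt, ← hf.eq_iff]
  · rw [← h.neg_rt, ← hf.eq_iff, map_neg]
  · rw [e, map_ofNat]
  · rw [e, map_neg, map_ofNat]

/-- the ring generated by the constants -/
noncomputable def A (N : ℕ) : Subalgebra ℤ ℝ := Algebra.adjoin ℤ (cr '' {m | m ≤ N})

theorem A_fin (N : ℕ) : Module.Finite ℤ (A N) :=
  Module.Finite.of_fg (fg_adjoin_of_finite ((Set.finite_le_nat N).image _)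
    (by rintro _ ⟨m, -, rfl⟩; exact cr_int m))

/-- the constants in the ring -/
noncomputable def cA (N m : ℕ) : A N :=
  if h : m ≤ N then ⟨cr m, Algebra.subset_adjoin ⟨m, h, rfl⟩⟩ else 0

/-- the inclusion -/
noncomputable def inc (N : ℕ) : A N →+* ℝ := (A N).val.toRingHom

theorem inc_inj (N : ℕ) : Function.Injective (inc N) := Subtype.val_injective

theorem inc_cA {N m : ℕ} (h : m ≤ N) : inc N (cA N m) = cr m := by
  rw [cA, dif_pos h]
  rfl

end Trig

open Trig in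
theorem p_trig : S_trig := by
  intro N
  refine ⟨A (N + 4), inferInstance, inferInstance, inferInstance, cA (N + 4), A_fin _,
    inc_inj _ ?_, inc_inj _ ?_, inc_inj _ ?_, inc_inj _ ?_, fun m h2 hN => ⟨inc_inj _ ?_,
    inc_inj _ ?_, fun k h0 hk => ⟨?_, sep_of_map (inc _) (inc_inj _) ?_⟩⟩⟩
  · rw [inc_cA (by omega), cr_zero, map_ofNat]
  · rw [inc_cA (by omega), cr_two, map_zero]
  · rw [inc_cA (by omega), cr_three, map_one]
  · rw [map_mul, inc_cA (by omega), cr_four, map_ofNat]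
  · rw [map_U, inc_cA (by omega), top h2, map_zero]
  · rw [map_U, inc_cA (by omega), top' h2, map_one]
  · have h := pos h2 h0 hk
    rw [← inc_cA (N := N + 4) (by omega), ← map_U] at h
    exact h
  · rw [map_Ck, inc_cA (by omega), inc_cA (by omega)]
    exact sep h2 h0 hk

theorem p_prime : S_prime := by
  intro R _ _ _ hfin S hS h0
  have hP : (∏ s ∈ hS.toFinset, s) ≠ 0 := by
    rw [Finset.prod_ne_zero_iff]
    intro s hs e
    exact h0 (e ▸ hS.mem_toFinset.1 hs)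
  obtain ⟨n, hn, hd⟩ := ((Algebra.IsIntegral.isIntegral (R := ℤ)
    (∏ s ∈ hS.toFinset, s)).isAlgebraic).exists_nonzero_dvd (mem_nonZeroDivisors_of_ne_zero hP)
  obtain ⟨p, hp1, hp⟩ := Nat.exists_infinite_primes (n.natAbs + 1)
  have hpZ : Prime (p : ℤ) := Nat.prime_iff_prime_int.1 hp
  have hmax : (Ideal.span {(p : ℤ)}).IsMaximal :=
    PrincipalIdealRing.isMaximal_of_irreducible hpZ.irreducible
  have hker : RingHom.ker (algebraMap ℤ R) ≤ Ideal.span {(p : ℤ)} := by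
    rw [(RingHom.injective_iff_ker_eq_bot (algebraMap ℤ R)).1 (RingHom.injective_int _)]
    exact bot_le
  obtain ⟨Q, hQ, hc⟩ := Ideal.exists_ideal_over_maximal_of_isIntegral (S := R) _ hker
  have hQ0 : Q ≠ ⊥ := by
    intro e
    have h1 : (p : ℤ) ∈ Q.comap (algebraMap ℤ R) := hc ▸ Ideal.mem_span_singleton_self _
    rw [Ideal.mem_comap, e, Ideal.mem_bot] at h1
    have : ((p : ℤ) : R) = 0 := by simpa using h1
    exact hp.ne_zero (by exact_mod_cast this)
  refine ⟨R ⧸ Q, Ideal.Quotient.field Q, Ideal.finiteQuotientOfFreeOfNeBot Q hQ0,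
    Ideal.Quotient.mk Q, fun s hs e => ?_⟩
  have h1 : s ∈ Q := Ideal.Quotient.eq_zero_iff_mem.1 e
  have h2 : s ∣ algebraMap ℤ R n := (Finset.dvd_prod_of_mem _ (hS.mem_toFinset.2 hs)).trans hd
  have h3 : n ∈ Q.comap (algebraMap ℤ R) := Ideal.mem_comap.2 (Q.mem_of_dvd h2 h1)
  rw [hc, Ideal.mem_span_singleton] at h3
  have h4 := Int.natAbs_le_of_dvd_ne_zero h3 hn
  simp only [Int.natAbs_natCast] at h4
  omega

end Pool.Agent.P.MP_e794d7_al.FC
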