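import Pool.Agent.P.MP_e794d7_al.FC.Stmt

/-! Artin groups of FC type: the fibre is seen by the top strand only. -/

set_option autoImplicit false

namespace Pool.Agent.P.MP_e794d7_al.FC

open scoped Classical

noncomputable section

variable {ι : Type} [Fintype ι] {M : ι → ι → ℕ} {𝒯 : Set (Set ι)}

namespace Wr

variable {D : RD M 𝒯} {T : Set ι} {lo n : ℕ} {t : ℕ → ι}

theorem fb (h2 : D.EC2 lo n t) {f : Wg M} (hf : f ∈ Fb (fun i => sg M (t i)) lo n) :
    f = 1 ∨ (lo = 0 ∧ f = xx (fun i => sg M (t i)) n 0) := by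
  have key : ∀ g : Wg M, ∀ a ∈ Set.Ico lo n,
      (g = 1 ∨ (lo = 0 ∧ g = xx (fun i => sg M (t i)) n 0)) →
      (xx (fun i => sg M (t i)) n a)⁻¹ = xx (fun i => sg M (t i)) n a ∧
      (g * xx (fun i => sg M (t i)) n a = 1 ∨
        (lo = 0 ∧ g * xx (fun i => sg M (t i)) n a = xx (fun i => sg M (t i)) n 0)) := by
    intro g a ha hg
    by_cases hm : max lo 1 ≤ a
    · rw [(h2.φx a hm ha.2).1, inv_one, mul_one]
      exact ⟨rfl, hg⟩
    · have h0 : lo = 0 := by have := ha.1; omega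
      have ha0 : a = 0 := by omega
      subst ha0
      refine ⟨inv_eq_of_mul_eq_one_right (h2.r_sq h0), ?_⟩
      rcases hg with rfl | ⟨-, rfl⟩
      · exact Or.inr ⟨h0, one_mul _⟩
      · exact Or.inl (h2.r_sq h0)
  refine sub_induction (p := fun g => g = 1 ∨ (lo = 0 ∧ g = xx (fun i => sg M (t i)) n 0))
    (Or.inl rfl) (fun g _ a ha hg => (key g a ha hg).2) (fun g _ a ha hg => ?_) hf
  rw [(key g a ha hg).1]
  exact (key g a ha hg).2

theorem top2 (h1 : D.EC1 T lo n t) : -D.E lo t n (t (n - 1)) ≠ D.E lo t n (t (n - 1)) := by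
  intro h
  refine mul_ne_zero D.two h1.top ?_
  linear_combination -h

theorem wtr (h1 : D.EC1 T lo n t) (h2 : D.EC2 lo n t) :
    ∀ f ∈ Fb (fun i => sg M (t i)) lo n, ∀ a ∈ sub (sg M) (T \ {t (n - 1)}), ∀ d,
      d + max lo 1 ≤ n → f * a * dl (fun i => sg M (t i)) n d = 1 → d = 0 ∧ f = 1 := by
  intro f hf a ha d hd e
  have hp : t (n - 1) ∉ T \ {t (n - 1)} := fun h => h.2 rfl
  rcases fb h2 hf with rfl | ⟨h0, rfl⟩
  · refine ⟨?_, rfl⟩
    rcases d with _ | d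
    · rfl
    exfalso
    rw [one_mul] at e
    have hm : dl (fun i => sg M (t i)) n (d + 1) ∈ sub (sg M) (T \ {t (n - 1)}) := by
      rw [eq_inv_of_mul_eq_one_right e]
      exact Subgroup.inv_mem _ ha
    have hk : max lo 1 ≤ n - 1 - d := by omega
    have e1 := rep_coord D.ok1 hm hp (al D.F (t (n - 1 - d)))
    have e2 := h2.dlA d (n - 1 - d) hk (by omega)
    have e3 : n - 1 - d + 1 = n - d := by omega
    rw [dl, rep_mul, rep_sg_al, map_neg, h1.al_eq _ hk, e3, e2, Pi.neg_apply, Pi.sub_apply,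
      Pi.sub_apply, h1.low _ hk (by omega), sub_zero, sub_zero] at e1
    rcases d with _ | d
    · exact top2 h1 e1
    · rw [h1.low (n - (d + 1)) (by omega) (by omega), neg_eq_zero] at e1
      exact h1.top e1
  · exfalso
    have e1 := congrArg (fun w => D.ρ1 w (D.E lo t (n - d)) (t (n - 1))) e
    simp only [rep_mul, rep_one] at e1
    rw [h2.dlB h0 d (by omega), h1.fix h0 a ha, h2.r_top h0, Pi.neg_apply] at e1
    rcases d with _ | d
    · exact top2 h1 e1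
    · rw [h1.low (n - (d + 1)) (by omega) (by omega), neg_eq_zero] at e1
      exact h1.top e1

theorem act (h1 : D.EC1 T lo n t) (h2 : D.EC2 lo n t) {w : Wg M}
    (hw : w ∈ Fb (fun i => sg M (t i)) lo n) : D.ρ1 w (D.E lo t n) (t (n - 1)) ≠ 0 ∧
      ∀ k, max lo 1 ≤ k → k < n → D.ρ1 w (D.E lo t k) (t (n - 1)) = 0 := by
  rcases fb h2 hw with rfl | ⟨h0, rfl⟩
  · simp only [rep_one]
    exact ⟨h1.top, h1.low⟩
  · refine ⟨?_, fun k hk hkn => ?_⟩
    · rw [h2.r_top h0, Pi.neg_apply]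
      exact neg_ne_zero.2 h1.top
    · rw [h2.r_low h0 k (by omega) hkn]
      exact h1.low k hk hkn

theorem kill (ht : D.Ret) {p : ι} {w : Wg M} {x : D.X} (h : D.ρ1 w x.v p ≠ 0) :
    D.ret (T \ {p}) (D.aut w (D.ζ x)) = 1 := by
  rw [RD.aut_ζ, ht.ζ, if_neg]
  exact fun hi => h (hi p fun hp => hp.2 rfl)

theorem kill_up (ht : D.Ret) (h1 : D.EC1 T lo n t) (h2 : D.EC2 lo n t) {w : Wg M}
    (hw : w ∈ Fb (fun i => sg M (t i)) lo n) {π : D.PG}
    (hπ : π ∈ Subgroup.closure (D.Up lo n t)) : D.ret (T \ {t (n - 1)}) (D.aut w π) = 1 := by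
  have : Subgroup.closure (D.Up lo n t) ≤
      ((D.ret (T \ {t (n - 1)})).comp (D.aut w).toMonoidHom).ker := by
    rw [Subgroup.closure_le]
    rintro _ ⟨x, k, hk, hkn, hx, rfl⟩
    refine kill ht ?_
    rw [hx, map_sub, Pi.sub_apply, (act h1 h2 hw).2 k hk hkn, sub_zero]
    exact (act h1 h2 hw).1
  exact this hπ

theorem kill_xx (ht : D.Ret) (h1 : D.EC1 T lo n t) (h2 : D.EC2 lo n t) {w : Wg M}
    (hw : w ∈ Fb (fun i => sg M (t i)) lo n) {a : ℕ} (ha : a ∈ Set.Ico lo n) :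
    D.ret (T \ {t (n - 1)}) (D.aut w (D.φ (xx (fun i => Art.gen M (t i)) n a))) = 1 := by
  obtain ⟨a1, a2⟩ := act h1 h2 hw
  by_cases hm : max lo 1 ≤ a
  · obtain ⟨π, hπ, x, x', hx, hx', e⟩ := (h2.φx a hm ha.2).2
    have k1 : D.ret (T \ {t (n - 1)}) (D.aut w (D.ζ x)) = 1 := by
      refine kill ht ?_
      rwa [hx, map_sub, Pi.sub_apply, a2 a hm ha.2, sub_zero]
    have k2 : D.ret (T \ {t (n - 1)}) (D.aut w (D.ζ x')) = 1 := by
      refine kill ht ?_
      rwa [hx', map_sub, Pi.sub_apply, a2 a hm ha.2, zero_sub, neg_ne_zero]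
    rw [e]
    simp only [map_mul, map_inv, k1, k2, kill_up ht h1 h2 hw hπ, mul_one, inv_one]
  · have h0 : lo = 0 := by have := ha.1; omega
    have ha0 : a = 0 := by omega
    subst ha0
    obtain ⟨π, hπ, x, hx, -, e⟩ := h2.φ0 h0
    have hq : D.q ≠ 0 := fun h => D.two (by rw [← D.qq, h, mul_zero])
    have k1 : D.ret (T \ {t (n - 1)}) (D.aut w (D.ζ x)) = 1 := by
      refine kill ht ?_
      rw [hx, map_smul, Pi.smul_apply, smul_eq_mul]
      exact mul_ne_zero hq a1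
    have k2 := kill_up ht h1 h2 (Subgroup.mul_mem _ hw (mem_sub ha)) hπ
    rw [map_mul, MulAut.mul_apply] at k2
    rw [e]
    simp only [map_mul, map_inv, k1, k2, kill_up ht h1 h2 hw hπ, mul_one, inv_one]

omit [Fintype ι] in
theorem wq_fb {g : Art M} (hg : g ∈ Fb (fun i => Art.gen M (t i)) lo n) :
    wq M g ∈ Fb (fun i => sg M (t i)) lo n := by
  have := map_mem_sub (wq M) hg
  simp only [map_xx, wq_gen] at this
  exact this

theorem rho (ht : D.Ret) (h1 : D.EC1 T lo n t) (h2 : D.EC2 lo n t) :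
    ∀ f ∈ Fb (fun i => Art.gen M (t i)) lo n, D.ret (T \ {t (n - 1)}) (D.φ f) = 1 := by
  intro f hf
  refine sub_induction (p := fun g => D.ret (T \ {t (n - 1)}) (D.φ g) = 1)
    (by rw [RD.φ_one, map_one]) (fun g hg a ha ih => ?_) (fun g hg a ha ih => ?_) hf
  · rw [RD.φ_mul, map_mul, ih, kill_xx ht h1 h2 (wq_fb hg) ha, mul_one]
  · have hw := Subgroup.mul_mem _ (wq_fb hg) (Subgroup.inv_mem _ (wq_fb (mem_sub ha)))
    rw [RD.φ_mul_inv, map_mul, map_inv, ih, kill_xx ht h1 h2 hw ha, inv_one, mul_one]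

end Wr

theorem RD.p_wr (D : RD M 𝒯) {T : Set ι} {lo n : ℕ} {t : ℕ → ι} (_h : Path M T lo n t)
    (ht : D.Ret) (h1 : D.EC1 T lo n t) (h2 : D.EC2 lo n t) : D.WR T lo n t :=
  ⟨Wr.wtr h1 h2, Wr.rho ht h1 h2⟩

end

end Pool.Agent.P.MP_e794d7_al.FC
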