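import Pool.Agent.P.MP_e794d7_al.FC.Glue
import Pool.Agent.P.MP_e794d7_al.FC.Om
import Pool.Agent.P.MP_e794d7_al.FC.Trig
import Pool.Agent.P.MP_e794d7_al.FC.Rd
import Pool.Agent.P.MP_e794d7_al.FC.Cov
import Pool.Agent.P.MP_e794d7_al.FC.Path
import Pool.Agent.P.MP_e794d7_al.FC.Pfs
import Pool.Agent.P.MP_e794d7_al.FC.Pfg
import Pool.Agent.P.MP_e794d7_al.FC.Sign
import Pool.Agent.P.MP_e794d7_al.FC.Roots
import Pool.Agent.P.MP_e794d7_al.FC.Ret
import Pool.Agent.P.MP_e794d7_al.FC.C1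
import Pool.Agent.P.MP_e794d7_al.FC.Dc
import Pool.Agent.P.MP_e794d7_al.FC.Lift
import Pool.Agent.P.MP_e794d7_al.FC.Ec1
import Pool.Agent.P.MP_e794d7_al.FC.Ec2
import Pool.Agent.P.MP_e794d7_al.FC.Wr
import Pool.Agent.P.MP_e794d7_al.FC.PsiA
import Pool.Agent.P.MP_e794d7_al.FC.PsiB
import Pool.Agent.P.MP_e794d7_al.FC.Det

/-! Artin groups of FC type with cliques of type `A` and `B` are good. -/

set_option autoImplicit false

namespace Pool.Agent.P.MP_e794d7_al.FC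

section

variable {ι : Type} [Fintype ι] {M : ι → ι → ℕ} {𝒯 : Set (Set ι)} (D : RD M 𝒯)

theorem RD.roots : D.Roots := D.p_roots D.p_sign

theorem RD.rets : D.Ret := D.p_ret D.roots

theorem RD.dc : D.DC :=
  D.p_dc D.p_sign D.roots D.rets (D.p_c1 D.roots D.rets) (D.p_parl D.roots D.rets)

theorem RD.lifts : D.Lift := D.p_lift D.roots

theorem RD.path {T : Set ι} {lo n : ℕ} {t : ℕ → ι} (h : Path M T lo n t) :
    D.WR T lo n t ∧ D.Det lo n t := by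
  have h1 := D.p_ec1 h
  have h2 := D.p_ec2 h h1
  refine ⟨D.p_wr h D.rets h1 h2, ?_⟩
  rcases Nat.eq_zero_or_pos lo with rfl | hlo
  · exact D.p_detB p_vp h2 (D.p_psiB D.lifts h1)
  · exact D.p_detA p_vp hlo h2 (D.p_psiA D.lifts hlo h1)

end

theorem gen : Gen :=
  ⟨p_om, p_rd p_trig p_prime, p_pfg, fun _ _ _ _ D => D.roots, fun _ _ _ _ D => D.dc⟩

theorem nice_AB : Nice fun _ M T => Cls M T :=
  nice_cls p_path p_cov (p_finw p_cov) p_pfs fun _ _ _ _ D => ⟨D.rets, fun _ _ _ _ h => D.path h⟩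

theorem good_AB {ι : Type} [Finite ι] (M : ι → ι → ℕ) (hM : Cox M)
    (h : ∀ T : Set ι, Clq M T → 3 ≤ T.ncard → Cls M T) : Good (Art M) :=
  good_fc gen nice_AB _ ι le_rfl M hM h

end Pool.Agent.P.MP_e794d7_al.FC
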