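import Pool.Agent.P.MP_e794d7_al.FC.Stmt2
import Pool.Agent.P.MP_e794d7_al.FC.Main

/-! Artin groups of FC type: labels on the line graph of a complete graph. -/

set_option autoImplicit false

namespace Pool.Agent.P.MP_e794d7_al.FC

open scoped Classical

noncomputable section

namespace Lk

/-- the pair is an edge of the complete graph on `1, .., n` -/
def Ok (n : ℕ) (p : ℕ × ℕ) : Prop := 1 ≤ p.1 ∧ p.1 < p.2 ∧ p.2 ≤ n

/-- the labels of the line graph -/
def mm (p q : ℕ × ℕ) : ℕ :=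
  if p.1 = q.1 ∧ p.2 = q.2 then 1
  else if p.1 = q.1 ∨ p.1 = q.2 ∨ p.2 = q.1 ∨ p.2 = q.2 then 3 else 2

/-- the labels on the finite type of edges -/
def MM (n : ℕ) (p q : {p // Ok n p}) : ℕ := mm p.1 q.1

theorem fin (n : ℕ) : Finite {p // Ok n p} := by
  refine Finite.of_injective (fun p : {p // Ok n p} =>
    ((⟨p.1.1, by have := p.2; unfold Ok at this; omega⟩,
      ⟨p.1.2, by have := p.2; unfold Ok at this; omega⟩) : Fin (n + 1) × Fin (n + 1))) ?_
  intro p q e
  simp only [Prod.mk.injEq, Fin.mk.injEq] at e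
  exact Subtype.ext (Prod.ext e.1 e.2)

theorem cox (n : ℕ) : Cox (MM n) where
  symm a b := by
    unfold MM mm
    split_ifs <;> omega
  diag a := by simp [MM, mm]
  off a b h := by
    unfold MM mm
    rw [if_neg fun e => h (Subtype.ext (Prod.ext e.1 e.2))]
    split_ifs <;> omega

/-- the edges of the path -/
def UU (n : ℕ) : Set {p // Ok n p} := {p | p.1.2 = p.1.1 + 1}

theorem mm_lab {n : ℕ} {p q : {p // Ok n p}} (hp : p ∈ UU n) (hq : q ∈ UU n) :
    MM n p q = lab p.1.1 q.1.1 := by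
  have h1 : p.1.2 = p.1.1 + 1 := hp
  have h2 : q.1.2 = q.1.1 + 1 := hq
  have h3 := p.2.1
  have h4 := q.2.1
  unfold MM mm lab
  split_ifs <;> omega

theorem mem_ico {n : ℕ} {p : {p // Ok n p}} (hp : p ∈ UU n) : p.1.1 ∈ Set.Ico 1 n := by
  have h1 : p.1.2 = p.1.1 + 1 := hp
  have h3 := p.2
  unfold Ok at h3
  exact ⟨h3.1, by omega⟩

/-- the label of a pair -/
def yy {n : ℕ} {L : Type} [Group L] (f : Art (MM n) →* L) (p : ℕ × ℕ) : L :=
  if h : Ok n p then f (Art.gen (MM n) ⟨p, h⟩) else 1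

theorem yy_rel {n : ℕ} {L : Type} [Group L] (f : Art (MM n) →* L) {p q : ℕ × ℕ} (hp : Ok n p)
    (hq : Ok n q) : alt (yy f p) (yy f q) (mm p q) = alt (yy f q) (yy f p) (mm p q) := by
  rw [yy, yy, dif_pos hp, dif_pos hq, ← map_alt, ← map_alt]
  exact congrArg f (Art.rel (M := MM n) ⟨p, hp⟩ ⟨q, hq⟩)

theorem ok {n i j : ℕ} (h1 : 1 ≤ i) (h2 : i ≤ n) (h3 : 1 ≤ j) (h4 : j ≤ n) (h5 : i ≠ j) :
    Ok n (min i j, max i j) := by
  unfold Ok
  dsimp only
  omega

theorem dr {n : ℕ} {L : Type} [Group L] (f : Art (MM n) →* L) :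
    DR n fun i j _ => yy f (min i j, max i j) where
  symm i j _ := by rw [min_comm, max_comm]
  twin i j _ _ := Commute.refl _
  comm i j k l _ _ h1 h2 h3 h4 h5 h6 h7 h8 a1 a2 a3 a4 a5 a6 := by
    have h := yy_rel f (ok h1 h2 h3 h4 a1) (ok h5 h6 h7 h8 a6)
    have e : mm (min i j, max i j) (min k l, max k l) = 2 := by
      unfold mm
      dsimp only
      split_ifs <;> omega
    rw [e, alt_two, alt_two] at h
    exact h
  brd i j k _ _ h1 h2 h3 h4 h5 h6 a1 a2 a3 := by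
    have h := yy_rel f (ok h1 h2 h3 h4 a1) (ok h1 h2 h5 h6 a2)
    have e : mm (min i j, max i j) (min i k, max i k) = 2 + 1 := by
      unfold mm
      dsimp only
      split_ifs <;> omega
    rw [e, alt_succ, alt_succ _ _ 2, alt_two, alt_two, if_pos (by decide), if_pos (by decide)] at h
    exact h

end Lk

theorem p_lk : S_lk := by
  intro n G _ z hz
  have := Lk.fin n
  let π : Art (Art.res (Lk.MM n) (Lk.UU n)) →* G := Art.lift (fun p => z p.1.1.1) fun a b => by
    rw [show Art.res (Lk.MM n) (Lk.UU n) a b = lab a.1.1.1 b.1.1.1 from Lk.mm_lab a.2 b.2]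
    exact hz _ (Lk.mem_ico a.2) _ (Lk.mem_ico b.2)
  obtain ⟨N, hf, hN⟩ := sep_par gen nice_AB (Lk.cox n) (Lk.UU n) (fun T hT _ =>
    ⟨fun _ => 0, fun p => p.1.1, fun a ha b hb _ => by
      rw [if_pos rfl]; exact Lk.mm_lab (hT ha) (hT hb)⟩) G π
  refine ⟨Art (Lk.MM n) ⧸ N.normalCore, inferInstance,
    fun i j => Lk.yy (QuotientGroup.mk' N.normalCore) (min i j, max i j), fun hG => ?_,
    Lk.dr _, fun h hh h2 => ?_⟩
  · have := hf hG
    exact Subgroup.finite_quotient_of_finiteIndex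
  · have hle : sub (fun k => (z k,
        Lk.yy (QuotientGroup.mk' N.normalCore) (min k (k + 1), max k (k + 1)))) (Set.Ico 1 n) ≤
        (π.prod ((QuotientGroup.mk' N.normalCore).comp (Art.inc (Lk.MM n) (Lk.UU n)))).range := by
      refine sub_le fun k hk => ?_
      have ho : Lk.Ok n (k, k + 1) := ⟨hk.1, Nat.lt_succ_self k, hk.2⟩
      refine ⟨Art.gen _ ⟨⟨(k, k + 1), ho⟩, rfl⟩, ?_⟩
      rw [min_eq_left (Nat.le_succ k), max_eq_right (Nat.le_succ k), Lk.yy, dif_pos ho,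
        MonoidHom.prod_apply, MonoidHom.comp_apply, Art.inc, Art.map_gen, Art.lift_gen]
    obtain ⟨g, rfl⟩ := hle hh
    exact hN g (N.normalCore_le ((QuotientGroup.eq_one_iff _).1 h2))

end

end Pool.Agent.P.MP_e794d7_al.FC
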