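import Pool.Agent.P.MP_e794d7_al.FC.Stmt2
import Pool.Agent.P.MP_e794d7_al.FC.Pfs

/-! Artin groups of FC type: products of commuting parabolic subgroups. -/

set_option autoImplicit false

namespace Pool.Agent.P.MP_e794d7_al.FC

open scoped Classical

namespace ProdP

variable {G : Type} [Group G]

theorem pfn_add {m : ℕ} {F : Subgroup G} (hF : PFn m F) :
    ∀ (n : ℕ) (A S : Subgroup G), (∀ a ∈ A, ∀ f ∈ F, a * f * a⁻¹ ∈ F) → F ⊓ A = ⊥ →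
      (∀ g, g ∈ S ↔ ∃ f ∈ F, ∃ a ∈ A, g = f * a) → PFn n A → PFn (m + n) S := by
  intro n
  induction n with
  | zero =>
    intro A S _ _ hS hA
    have hA' : A = ⊥ := hA
    have e : S = F := by
      ext g
      rw [hS, hA']
      constructor
      · rintro ⟨f, hf, a, ha, rfl⟩
        rw [Subgroup.mem_bot] at ha
        rw [ha, mul_one]
        exact hf
      · intro hg
        exact ⟨g, hg, 1, Subgroup.one_mem _, (mul_one g).symm⟩
    exact e ▸ hF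
  | succ n ih =>
    intro A S h hd hS hA
    obtain ⟨κ', hκ', π, hπ, hK⟩ := hA
    obtain ⟨p, hp⟩ := Pfs.ex_pr h hd hS
    have hle : π.ker.map A.subtype ≤ A := Subgroup.map_subtype_le _
    refine ⟨κ', hκ', π.comp p, fun y => ?_, ih (π.ker.map A.subtype) _
      (fun a ha => h a (hle ha)) ?_ (fun g => ?_) hK⟩
    · obtain ⟨a, rfl⟩ := hπ y
      have ha : (a : G) ∈ S := (hS a).2 ⟨1, Subgroup.one_mem _, a, a.2, (one_mul _).symm⟩
      refine ⟨⟨a, ha⟩, ?_⟩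
      rw [MonoidHom.comp_apply, hp ⟨a, ha⟩ 1 a (Subgroup.one_mem _) (one_mul _).symm]
    · rw [eq_bot_iff, ← hd]
      exact inf_le_inf_left _ hle
    · constructor
      · rintro ⟨g, hg, rfl⟩
        obtain ⟨f, hf, a, ha, e⟩ := (hS g).1 g.2
        refine ⟨f, hf, a, ⟨⟨a, ha⟩, ?_, rfl⟩, e⟩
        have hg' : π (p g) = 1 := hg
        rw [hp g f ⟨a, ha⟩ hf e] at hg'
        exact hg'
      · rintro ⟨f, hf, _, ⟨a, ha, rfl⟩, rfl⟩
        have hm : f * (a : G) ∈ S := (hS _).2 ⟨f, hf, a, a.2, rfl⟩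
        refine ⟨⟨_, hm⟩, ?_, rfl⟩
        show π (p ⟨_, hm⟩) = 1
        rw [hp ⟨_, hm⟩ f a hf rfl]
        exact ha

theorem norm {A B : Subgroup G} (h : ∀ a ∈ A, ∀ b ∈ B, Commute a b) :
    ∀ b ∈ B, ∀ a ∈ A, b * a * b⁻¹ ∈ A := fun b hb a ha => by
  rwa [← (h a ha b hb).eq, mul_inv_cancel_right]

theorem dec {A B : Subgroup G} (h : ∀ a ∈ A, ∀ b ∈ B, Commute a b) {g : G} (hg : g ∈ A ⊔ B) :
    ∃ a ∈ A, ∃ b ∈ B, g = a * b := by
  obtain ⟨S, hS⟩ := Pfs.ex_prod A B (norm h)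
  refine (hS g).1 ((sup_le (fun a ha => ?_) (fun b hb => ?_) : A ⊔ B ≤ S) hg)
  · exact (hS a).2 ⟨a, ha, 1, B.one_mem, (mul_one a).symm⟩
  · exact (hS b).2 ⟨1, A.one_mem, b, hb, (one_mul b).symm⟩

variable {ι : Type} {M : ι → ι → ℕ} {T₁ T₂ : Set ι} {y : ι → G}

theorem sub_union : sub y (T₁ ∪ T₂) = sub y T₁ ⊔ sub y T₂ := by
  rw [sub, Set.image_union, Subgroup.closure_union]
  rfl

theorem comm (h : ∀ a ∈ T₁, ∀ b ∈ T₂, M a b = 2) (hy : Brd M y (T₁ ∪ T₂)) :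
    ∀ a ∈ sub y T₁, ∀ b ∈ sub y T₂, Commute a b := by
  intro a ha b hb
  have h1 : ∀ t ∈ T₂, y t ∈ Subgroup.centralizer {a} := fun t ht => by
    have : a ∈ Subgroup.centralizer {y t} := sub_le (fun s hs => by
      have e := hy s (Or.inl hs) t (Or.inr ht)
      rw [h s hs t ht, alt_two, alt_two] at e
      exact Subgroup.mem_centralizer_singleton_iff.2 e) ha
    exact Subgroup.mem_centralizer_singleton_iff.2
      (Subgroup.mem_centralizer_singleton_iff.1 this).symm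
  exact (Subgroup.mem_centralizer_singleton_iff.1 (sub_le h1 hb)).symm

theorem dec' (h : ∀ a ∈ T₁, ∀ b ∈ T₂, M a b = 2) (hy : Brd M y (T₁ ∪ T₂)) {g : G}
    (hg : g ∈ sub y (T₁ ∪ T₂)) : ∃ a ∈ sub y T₁, ∃ b ∈ sub y T₂, g = a * b :=
  dec (comm h hy) (sub_union (y := y) ▸ hg)

theorem disj (hM : Cox M) (h : ∀ a ∈ T₁, ∀ b ∈ T₂, M a b = 2) {a : ι} (h1 : a ∈ T₁)
    (h2 : a ∈ T₂) : False := by
  have := h a h1 a h2
  rw [hM.diag] at this
  omega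

variable [Fintype ι] {𝒯 : Set (Set ι)} (D : RD M 𝒯)

theorem w_one (hr : D.Roots) (h : ∀ a ∈ T₁, ∀ b ∈ T₂, M a b = 2) {w : Wg M}
    (h1 : w ∈ sub (sg M) T₁) (h2 : w ∈ sub (sg M) T₂) : w = 1 := by
  refine hr.triv T₁ w h1 fun a ha => ?_
  rw [rep_fix D.ok h2 fun b hb => by
    rw [Bm_al, if_neg fun e : b = a => disj D.cox h ha (e ▸ hb), D.cox.symm, h a ha b hb, D.c2,
      neg_zero]]
  intro b
  rw [al_apply]
  split_ifs <;> simp

theorem ret_one (ht : D.Ret) (h : ∀ a ∈ T₁, ∀ b ∈ T₂, M a b = 2) {g : Art M}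
    (hg : g ∈ sub (Art.gen M) T₂) : D.ret T₁ (D.φ g) = 1 := by
  have key : ∀ w ∈ sub (sg M) T₂, ∀ a ∈ T₂, D.ret T₁ (D.ζ (w • D.x a)) = 1 := by
    intro w hw a ha
    rw [ht.ζ, if_neg]
    intro h1
    have h2 : In T₂ (D.ρ1 w (al D.F a)) := (rep_in D.ok1 hw _).2 (in_al ha)
    have h3 : D.ρ1 w (al D.F a) = 0 := funext fun b =>
      (em (b ∈ T₁)).elim (fun hb => h2 b (disj D.cox h hb)) (h1 b)
    have h4 := congrFun ((LinearEquiv.map_eq_zero_iff _).1 h3) a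
    rw [al_apply, if_pos rfl] at h4
    exact one_ne_zero h4
  refine sub_induction (p := fun g => D.ret T₁ (D.φ g) = 1) (by rw [RD.φ_one, map_one])
    (fun g hg a ha ih => ?_) (fun g hg a ha ih => ?_) hg
  · rw [RD.φ_mul_gen, map_mul, ih, key _ (wq_mem hg) a ha, mul_one]
  · rw [RD.φ_mul_gen_inv, map_mul, map_inv, ih, key _ (mul_mem (wq_mem hg) (mem_sub ha)) a ha,
      inv_one, mul_one]

end ProdP

theorem p_pfp : S_pfp := by
  intro G _ A B h hd ⟨A', hA', ⟨m, hm⟩, C, hC, hcA⟩ ⟨B', hB', ⟨n, hn⟩, C', hC', hcB⟩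
  have h' := ProdP.norm fun a ha b hb => h a (hA' ha) b (hB' hb)
  obtain ⟨S, hS⟩ := Pfs.ex_prod A' B' h'
  refine ⟨S, fun g hg => ?_, ⟨m + n, ProdP.pfn_add hm n B' S h' ?_ hS hn⟩,
    Set.image2 (· * ·) C C', hC.image2 _ hC', fun g hg => ?_⟩
  · obtain ⟨a, ha, b, hb, rfl⟩ := (hS g).1 hg
    exact Subgroup.mul_mem_sup (hA' ha) (hB' hb)
  · rw [eq_bot_iff, ← hd]
    exact inf_le_inf hA' hB'
  · obtain ⟨a, ha, b, hb, rfl⟩ := ProdP.dec h hg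
    obtain ⟨c, hc, h1⟩ := hcA a ha
    obtain ⟨c', hc', h2⟩ := hcB b hb
    have h3 : c⁻¹ ∈ A := (A.mul_mem_cancel_left ha).1 (hA' h1)
    refine ⟨c * c', Set.mem_image2_of_mem hc hc', (hS _).2 ⟨_, h1, _, h2, ?_⟩⟩
    rw [mul_assoc a c⁻¹, (h _ h3 _ (hB' h2)).eq]
    group

theorem finw_prod {ι : Type} {M : ι → ι → ℕ} {T₁ T₂ : Set ι}
    (h : ∀ a ∈ T₁, ∀ b ∈ T₂, M a b = 2) :
    Finite (sub (sg M) T₁) → Finite (sub (sg M) T₂) → Finite (sub (sg M) (T₁ ∪ T₂)) := by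
  intro _ _
  refine Finite.of_surjective (fun p : sub (sg M) T₁ × sub (sg M) T₂ =>
    (⟨p.1 * p.2, mul_mem (sub_mono Set.subset_union_left p.1.2)
      (sub_mono Set.subset_union_right p.2.2)⟩ : sub (sg M) (T₁ ∪ T₂))) fun g => ?_
  obtain ⟨a, ha, b, hb, e⟩ := ProdP.dec' h (brd_sg M _) g.2
  exact ⟨(⟨a, ha⟩, ⟨b, hb⟩), Subtype.ext e.symm⟩

variable {ι : Type} [Fintype ι] {M : ι → ι → ℕ} {𝒯 : Set (Set ι)}

theorem RD.p_fine_prod (D : RD M 𝒯) (hr : D.Roots) (ht : D.Ret) (hp : S_pfp) {T₁ T₂ : Set ι}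
    (h : ∀ a ∈ T₁, ∀ b ∈ T₂, M a b = 2) : D.Fine T₁ → D.Fine T₂ → D.Fine (T₁ ∪ T₂) := by
  rintro ⟨i1, v1⟩ ⟨i2, v2⟩
  refine ⟨fun G _ y hy => ?_, ?_⟩
  · obtain ⟨N1, f1, h1⟩ := i1 G y (hy.mono Set.subset_union_left)
    obtain ⟨N2, f2, h2⟩ := i2 G y (hy.mono Set.subset_union_right)
    obtain ⟨N, hle, hN, -, f3⟩ := D.finv (N1 ⊓ N2)
    refine ⟨N, fun hG => f3 (by have := f1 hG; have := f2 hG; infer_instance),
      fun g hg e1 e2 => ?_⟩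
    obtain ⟨a, ha, b, hb, rfl⟩ := ProdP.dec' h (hy.prod (brd_gen M _)) hg
    have m1 := map_mem_sub (MonoidHom.snd G (Art M)) ha
    have m2 := map_mem_sub (MonoidHom.snd G (Art M)) hb
    simp only [MonoidHom.coe_snd] at m1 m2
    rw [Prod.snd_mul, map_mul] at e1
    have e3 : wq M a.2 = 1 := ProdP.w_one D hr h (wq_mem m1) (by
      rw [eq_inv_of_mul_eq_one_left e1]
      exact inv_mem (wq_mem m2))
    rw [e3, one_mul] at e1
    rw [Prod.snd_mul, φ_mul, e3, map_one, MulAut.one_apply] at e2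
    have e5 := hN (D.ret T₁) _ e2
    rw [map_mul, ProdP.ret_one D ht h m2, mul_one, ht.fix _ _ m1] at e5
    have e6 := (N.mul_mem_cancel_left e5).1 e2
    rw [Prod.fst_mul, h1 a ha e3 (hle e5).1, h2 b hb e1 (hle e6).2, mul_one]
  · rw [ProdP.sub_union]
    refine hp _ _ _ (ProdP.comm h (brd_gen M _)) (eq_bot_iff.2 fun g hg => ?_) v1 v2
    obtain ⟨N, -, hN⟩ := i1 (Art M) (Art.gen M) (brd_gen M _)
    have e := ProdP.ret_one D ht h hg.2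
    rw [ht.fix _ _ hg.1] at e
    have m := map_mem_sub ((MonoidHom.id (Art M)).prod (MonoidHom.id (Art M))) hg.1
    simp only [MonoidHom.prod_apply, MonoidHom.id_apply] at m
    exact hN (g, g) m
      (ProdP.w_one D hr h (wq_mem hg.1) (wq_mem hg.2)) (e ▸ N.one_mem)

end Pool.Agent.P.MP_e794d7_al.FC
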