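import Pool.Agent.P.MP_e794d7_al.FC.Stmt2
import Pool.Agent.P.MP_e794d7_al.FC.PsiB
import Pool.Agent.P.MP_e794d7_al.FC.Ec1

/-! The detector in type `D`. -/

set_option autoImplicit false

namespace Pool.Agent.P.MP_e794d7_al.FC

open scoped Classical

noncomputable section

namespace PsiD

open PsiB

section V

variable {n : ℕ} {F V L : Type} [Field F] [AddCommGroup V] [Module F V] [Group L]
  {B : V →ₗ[F] V →ₗ[F] F} {e : Fin (n + 1) → V} {q : F} {lam : ℕ → ℕ → Bool → L} {v w : V}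

/-- the long vectors -/
def Lg (e : Fin (n + 1) → V) (v : V) : Prop :=
  ∃ a : Lt (0 : Fin (n + 1)) × Lt (0 : Fin (n + 1)), a.1.1 ≠ a.2.1 ∧ v = vec e a.2 - vec e a.1

/-- the label of a pair of letters -/
def pl (lam : ℕ → ℕ → Bool → L) (a b : Lt (0 : Fin (n + 1))) : L :=
  lam a.1.1 b.1.1 (decide (a.2 ≠ b.2))

/-- the label of a vector -/
def lb (e : Fin (n + 1) → V) (lam : ℕ → ℕ → Bool → L) (v : V) : L :=
  if h : Lg e v then pl lam h.choose.1 h.choose.2 else 1

theorem lb_eq (H : On 0 B e q) (hl : DR n lam) {a b : Lt (0 : Fin (n + 1))} (h : a.1 ≠ b.1)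
    (hv : v = vec e b - vec e a) : lb e lam v = pl lam a b := by
  have h1 : Lg e v := ⟨(a, b), h, hv⟩
  rw [lb, dif_pos h1]
  rcases H.long_inj h h1.choose_spec.1 (hv.symm.trans h1.choose_spec.2) with h2 | h2
  · rw [h2.1, h2.2]
  · rw [h2.1, h2.2, pl, pl, hl.symm]
    simp only [ng, ne_eq, neg_inj, eq_comm]

theorem lo (a : Lt (0 : Fin (n + 1))) : 1 ≤ (a.1.1 : ℕ) := Fin.pos_iff_ne_zero.2 a.1.2

theorem nn {a b : Lt (0 : Fin (n + 1))} (h : a.1 ≠ b.1) : (a.1.1 : ℕ) ≠ b.1.1 :=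
  fun e => nv h (Fin.ext e)

theorem cl (H : On 0 B e q) (hl : DR n lam) (hv : Lg e v) (hw : Lg e w) :
    (B v w = 0 ∧ Commute (lb e lam v) (lb e lam w)) ∨
    (B v w = -1 ∧ Lg e (w + v) ∧
      lb e lam v * lb e lam w * lb e lam v = lb e lam w * lb e lam v * lb e lam w) ∨
    (B v w = 1 ∧ Lg e (w - v)) ∨ (B v w = 2 ∧ w = v) ∨ (B v w = -2 ∧ w = -v) := by
  cases H.cl (hv.elim fun _ h => lg_mem h.1 h.2) (hw.elim fun _ h => lg_mem h.1 h.2) with
  | far a b c d h1 h2 h3 h4 h5 h6 h h' hm =>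
    rw [lb_eq H hl h1 h, lb_eq H hl h6 h']
    exact .inl ⟨hm, hl.comm _ _ _ _ _ _ (lo a) a.1.1.is_le (lo b) b.1.1.is_le (lo c) c.1.1.is_le
      (lo d) d.1.1.is_le (nn h1) (nn h2) (nn h3) (nn h4) (nn h5) (nn h6)⟩
  | same a b h1 h h' hm =>
    rw [lb_eq H hl h1 h, lb_eq H hl (a := ng a) h1 h']
    exact .inl ⟨hm, hl.twin _ _ _ _⟩
  | neg a b c h1 h2 h3 h h' hm =>
    rw [lb_eq H hl h1 h, lb_eq H hl h3 h', pl, hl.symm]
    exact .inr (.inl ⟨hm, ⟨(a, c), h2, by rw [h, h']; abel⟩, hl.brd _ _ _ _ _ (lo b) b.1.1.is_le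
      (lo a) a.1.1.is_le (lo c) c.1.1.is_le (nn h1).symm (nn h3) (nn h2)⟩)
  | pos a b c h2 h h' hm =>
    exact .inr (.inr (.inl ⟨hm, (c, a), h2.symm, by rw [h, h']; abel⟩))
  | eq h hm => exact .inr (.inr (.inr (.inl ⟨hm, h⟩)))
  | op h hm => exact .inr (.inr (.inr (.inr ⟨hm, h⟩)))
  | sl _ _ _ _ _ _ h => exact (H.not_lg h hv).elim
  | ls _ _ _ _ _ _ h => exact (H.not_lg h hw).elim
  | ss _ _ _ h => exact (H.not_lg h hv).elim
  | sneg _ _ _ h => exact (H.not_lg h hv).elim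
  | spos _ _ _ h => exact (H.not_lg h hv).elim
  | lneg _ _ _ h => exact (H.not_lg h hw).elim
  | lpos _ _ h => exact (H.not_lg h hw).elim

theorem Lg.neg (hv : Lg e v) : Lg e (-v) := by
  obtain ⟨a, h, rfl⟩ := hv
  exact ⟨(a.2, a.1), h.symm, neg_sub _ _⟩

end V

variable {ι : Type} [Fintype ι] {M : ι → ι → ℕ} {𝒯 : Set (Set ι)} (D : RD M 𝒯)
  {T : Set ι} {n : ℕ} {t : ℕ → ι}

theorem gram (h : PathD M T n t) {i j : ℕ} (hi : i < n) (hj : j < n) :
    D.B (al D.F (t i)) (al D.F (t j)) =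
      if i = j then 2 else if max i 1 + 1 = max j 1 ∨ max j 1 + 1 = max i 1 then -1 else 0 := by
  have h1 := h.lbl i j hi hj
  rw [Bm_al]
  by_cases hij : i = j
  · rw [if_pos hij, if_pos (congrArg t hij)]
  · rw [labD, if_neg hij] at h1
    rw [if_neg hij, if_neg fun e => by rw [e, D.cox.diag] at h1; split_ifs at h1 <;> omega, h1]
    split_ifs
    · rw [D.c3, map_one]
    · rw [D.c2, map_zero, neg_zero]

variable (t) in
/-- the orthonormal vectors -/
def E (i : ℕ) : ι → D.F :=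
  (2⁻¹ : D.F) • (al D.F (t 0) - al D.F (t 1)) + ∑ k ∈ Finset.Ico 1 i, al D.F (t k)

theorem succ {k : ℕ} (hk : 1 ≤ k) : E D t (k + 1) = E D t k + al D.F (t k) := by
  rw [E, E, Finset.sum_Ico_succ_top hk, add_assoc]

theorem one_eq : E D t 1 = (2⁻¹ : D.F) • (al D.F (t 0) - al D.F (t 1)) := by simp [E]

theorem root (h : PathD M T n t) {k j : ℕ} (hk : 1 ≤ k) (hk' : k < n) (hj : 1 ≤ j) (hj' : j ≤ n) :
    D.B (al D.F (t k)) (E D t j) = (if k + 1 = j then 1 else 0) - if k = j then 1 else 0 := by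
  have h1 := Ec1.const (f := fun j => D.B (al D.F (t k)) (E D t j) -
    ((if k + 1 = j then 1 else 0) - if k = j then 1 else 0)) (L := 1) (n := n)
    (fun m hm hm' => by
      rw [succ D hm, map_add, gram D h hk' hm']
      split_ifs <;> first | omega | ring1) hj hj'
  have h2 := mul_inv_cancel₀ D.two
  have := h.le
  rw [← sub_eq_zero, h1, one_eq, map_smul, map_sub, gram D h hk' (by omega),
    gram D h hk' (by omega), smul_eq_mul]
  split_ifs <;> first | omega | ring1 | linear_combination -h2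

theorem orth (h : PathD M T n t) {i j : ℕ} (hi : 1 ≤ i) (hi' : i ≤ n) (hj : 1 ≤ j) (hj' : j ≤ n) :
    D.B (E D t i) (E D t j) = if i = j then 1 else 0 := by
  have h1 : ∀ {i j : ℕ}, 1 ≤ i → i ≤ n → 1 ≤ j → j ≤ n → D.B (E D t i) (E D t j) -
      (if i = j then 1 else 0) = D.B (E D t 1) (E D t j) - if 1 = j then 1 else 0 :=
    fun {i j} hi hi' hj hj' => Ec1.const
      (f := fun i => D.B (E D t i) (E D t j) - if i = j then 1 else 0) (fun m hm hm' => by
        rw [succ D hm, map_add, LinearMap.add_apply, root D h hm hm' hj hj']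
        ring) hi hi'
  have := h.le
  have h2 := h1 hj hj' le_rfl (by omega)
  have h3 := mul_inv_cancel₀ D.two
  have h4 : D.B (E D t 1) (E D t 1) = 1 := by
    simp only [one_eq, map_smul, map_sub, LinearMap.smul_apply, LinearMap.sub_apply, smul_eq_mul]
    rw [Bm_aa, Bm_aa, gram D h (by omega) (by omega), gram D h (by omega) (by omega),
      if_neg (by omega), if_neg (by omega), if_neg (by omega), if_neg (by omega)]
    linear_combination (2 * 2⁻¹ + 1) * h3
  rw [h4, if_pos rfl, sub_self] at h2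
  rw [← sub_eq_zero, h1 hi hi' hj hj', Bm_symm D.cox]
  simpa only [eq_comm (a := 1)] using h2

end PsiD

variable {ι : Type} [Fintype ι] {M : ι → ι → ℕ} {𝒯 : Set (Set ι)}

open PsiB PsiD in
theorem RD.p_psiD (D : RD M 𝒯) {T : Set ι} {n : ℕ} {t : ℕ → ι} (h : PathD M T n t) (hk : D.KF) :
    D.PsiD n t := by
  intro L _ lam hl
  have hp : ∀ i : Fin (n + 1), i ≠ 0 → 1 ≤ (i : ℕ) := fun i hi => Fin.pos_iff_ne_zero.2 hi
  have H : On (0 : Fin (n + 1)) D.B (fun i => PsiD.E D t i) D.q :=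
    ⟨fun i hi => (orth D h (hp i hi) i.is_le (hp i hi) i.is_le).trans (if_pos rfl),
      fun i j hi hj hij => (orth D h (hp i hi) i.is_le (hp j hj) j.is_le).trans
        (if_neg fun h => hij (Fin.ext h)), D.qq, D.two, D.three⟩
  have h1 := one_ne_zero (α := D.F)
  have h0 := hk L {v | Lg (fun i : Fin (n + 1) => PsiD.E D t i) v}
    (lb (fun i : Fin (n + 1) => PsiD.E D t i) lam) (fun _ => Lg.neg) (fun v hv w hw => ?_)
    (fun v hv => ?_) (fun v hv w hw => ?_) (fun v hv w hw h0 => ?_) fun v hv w hw h0 => ?_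
  · obtain ⟨N, hN, hN'⟩ := h0
    refine ⟨N, hN, fun g hg => hN' g (sub_le (fun k (hk : k < n) => ?_) hg)⟩
    have := h.le
    have a : ∀ i : ℕ, 1 ≤ i → i ≤ n → ∀ u : ℤˣ, ∃ a : Lt (0 : Fin (n + 1)), (a.1.1 : ℕ) = i ∧
        a.2 = u ∧ vec (fun i : Fin (n + 1) => PsiD.E D t i) a = u • PsiD.E D t i :=
      fun i h1 h2 u => ⟨(⟨⟨i, by omega⟩, Fin.pos_iff_ne_zero.1 h1⟩, u), rfl, rfl, rfl⟩
    have b : ∀ a b : Lt (0 : Fin (n + 1)), (a.1.1 : ℕ) ≠ b.1.1 → a.1 ≠ b.1 :=
      fun a b h e => h (by rw [e])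
    obtain ⟨x, y, h2, h3, h4⟩ : ∃ x y : Lt (0 : Fin (n + 1)), x.1 ≠ y.1 ∧ al D.F (t k) =
        vec (fun i : Fin (n + 1) => PsiD.E D t i) y - vec (fun i : Fin (n + 1) => PsiD.E D t i) x ∧
        sD lam k = pl lam x y := by
      by_cases e : k = 0
      · obtain ⟨x, x1, x2, x3⟩ := a 1 le_rfl (by omega) (-1)
        obtain ⟨y, y1, y2, y3⟩ := a 2 (by omega) (by omega) 1
        refine ⟨x, y, b x y (by omega), ?_, by rw [sD, if_pos e, pl, x1, y1, x2, y2]; rfl⟩
        rw [x3, y3, succ D le_rfl, one_eq, e, Units.neg_smul, one_smul, one_smul]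
        have h3 := mul_inv_cancel₀ D.two
        match_scalars
        · linear_combination -h3
        · linear_combination h3
      · obtain ⟨x, x1, x2, x3⟩ := a k (by omega) (by omega) 1
        obtain ⟨y, y1, y2, y3⟩ := a (k + 1) (by omega) (by omega) 1
        refine ⟨x, y, b x y (by omega), ?_, by rw [sD, if_neg e, pl, x1, y1, x2, y2]; rfl⟩
        rw [x3, y3, succ D (by omega), one_smul, one_smul, add_sub_cancel_left]
    rw [h4, ← lb_eq H hl h2 h3]
    exact mem_sub (y := fun a => (lb _ lam (al D.F a), Art.gen M a)) ⟨(x, y), h2, h3⟩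
  · rcases cl H hl hv hw with c | c | c | c | c <;> rw [c.1]
    · rwa [zero_smul, sub_zero]
    · rw [neg_smul, one_smul, sub_neg_eq_add]; exact c.2.1
    · rw [one_smul]; exact c.2
    · exact (show -v = w - (2 : D.F) • v by rw [c.2]; module) ▸ Lg.neg hv
    · exact (show v = w - (-2 : D.F) • v by rw [c.2]; module) ▸ hv
  · obtain ⟨⟨a, b⟩, c, rfl⟩ := hv
    simp only [map_sub, LinearMap.sub_apply, H.b1, H.b0 c, H.b0 c.symm]
    ring
  · rcases cl H hl hv hw with c | c | c | c | c <;> simp [c.1]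
  · rcases cl H hl hv hw with c | c | c | c | c
    · exact c.2
    · exact (h1 (by linear_combination c.1 - h0)).elim
    · exact (h1 (by linear_combination h0 - c.1)).elim
    · exact (D.two (by linear_combination h0 - c.1)).elim
    · exact (D.two (by linear_combination c.1 - h0)).elim
  · rcases cl H hl hv hw with c | c | c | c | c
    · exact (h1 (by linear_combination h0 - c.1)).elim
    · exact c.2.2
    · exact (D.two (by linear_combination h0 - c.1)).elim
    · exact (D.three (by linear_combination h0 - c.1)).elim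
    · exact (h1 (by linear_combination c.1 - h0)).elim

end

end Pool.Agent.P.MP_e794d7_al.FC
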