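import Pool.Agent.P.MP_e794d7_al.FC.Stmt2

/-! Artin groups of FC type: labels that see the free kernel, subdiagrams of type `D`. -/

set_option autoImplicit false

namespace Pool.Agent.P.MP_e794d7_al.FC

open scoped Classical

namespace Pv

/-- the curves -/
abbrev Cv (n : ℕ) : Type := Fin (n + 1) × Fin (n + 1) × Bool

/-- the curve with given indices -/
def mk (n i j : ℕ) (e : Bool) : Cv n := (⟨min i n, by omega⟩, ⟨min j n, by omega⟩, e)

/-- two pairs share exactly one index -/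
def Sh (a b c d : ℕ) : Prop :=
  1 ≤ a ∧ a < b ∧ 1 ≤ c ∧ c < d ∧ ((a = c ∧ b ≠ d) ∨ (a ≠ c ∧ b = d) ∨ a = d ∨ b = c)

/-- adjacent curves -/
def adj (n : ℕ) (p q : Cv n) : Prop := Sh p.1 p.2.1 q.1 q.2.1

/-- the simple curves -/
def sc (n k : ℕ) : Cv n := if k = 0 then mk n 1 2 true else mk n k (k + 1) false

/-- the ranks -/
noncomputable def rk (n : ℕ) (p : Cv n) : ℕ :=
  if p.1.val + 1 = p.2.1.val ∧ 1 ≤ p.1.val ∧ p.2.2 = false then p.1.val
  else if p.1.val = 1 ∧ p.2.1.val = 2 ∧ p.2.2 = true then 0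
  else n + 1 + (Fintype.equivFin (Cv n) p).val

theorem adj_mk (n i j k l : ℕ) (e e' : Bool) :
    adj n (mk n i j e) (mk n k l e') ↔ Sh (min i n) (min j n) (min k n) (min l n) := Iff.rfl

theorem rk_inj (n : ℕ) : Function.Injective (rk n) := by
  rintro ⟨a, b, e⟩ ⟨c, d, f⟩ h
  have ha := a.isLt
  have hc := c.isLt
  simp only [rk] at h
  split_ifs at h with h1 h2 h3 h4 h5 h6 h7 h8
  · exact Prod.ext (Fin.ext h) (Prod.ext (Fin.ext (by simp only; omega)) (h1.2.2.trans h2.2.2.symm))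
  · omega
  · omega
  · omega
  · exact Prod.ext (Fin.ext (h4.1.trans h6.1.symm))
      (Prod.ext (Fin.ext (h4.2.1.trans h6.2.1.symm)) (h4.2.2.trans h6.2.2.symm))
  · omega
  · omega
  · omega
  · exact (Fintype.equivFin (Cv n)).injective (Fin.ext (by omega))

theorem rk_sc {n k : ℕ} (hn : 3 ≤ n) (hk : k < n) : rk n (sc n k) = k := by
  unfold sc
  split_ifs with h
  · rw [rk, if_neg (by simp [mk]), if_pos (by simp only [mk, and_true]; omega), h]
  · rw [rk, if_pos (by simp only [mk, and_true]; omega)]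
    simp only [mk]
    omega

theorem adj_sc {n i j : ℕ} (hn : 3 ≤ n) (hi : i < n) (hj : j < n) :
    adj n (sc n i) (sc n j) ↔ labD i j = 3 := by
  unfold sc labD
  split_ifs <;> simp only [adj_mk, Sh, iff_false, iff_true, Nat.reduceEqDiff] <;> omega

theorem xD_congr {H : Type} [Group H] {z z' : ℕ → H} {n : ℕ} (h : ∀ k, k < n → z k = z' k) :
    ∀ j, j < n → xD z j = xD z' j
  | 0, _ => rfl
  | 1, hj => by rw [xD, xD, h 0 (by omega), h 1 hj]
  | j + 2, hj => by rw [xD, xD, h _ hj, xD_congr h (j + 1) (by omega)]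

/-- the labels -/
noncomputable def lam (n : ℕ) {L : Type} [Group L] (P : Cv n → L) (i j : ℕ) (e : Bool) : L :=
  if 1 ≤ i ∧ i ≤ n ∧ 1 ≤ j ∧ j ≤ n ∧ i ≠ j then P (mk n (min i j) (max i j) e) else 1

theorem dr (n : ℕ) {L : Type} [Group L] (P : Cv n → L)
    (h1 : ∀ s t, ¬ adj n s t → Commute (P s) (P t))
    (h2 : ∀ s t, adj n s t → P s * P t * P s = P t * P s * P t) : DR n (lam n P) where
  symm i j e := by
    unfold lam
    rw [min_comm, max_comm]
    exact if_congr (by omega) rfl rfl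
  twin i j e e' := by
    unfold lam
    split_ifs with h
    · exact h1 _ _ (by rw [adj_mk, Sh]; omega)
    · exact Commute.refl 1
  comm i j k l e e' _ _ _ _ _ _ _ _ _ _ _ _ _ _ := by
    unfold lam
    rw [if_pos (by omega), if_pos (by omega)]
    exact h1 _ _ (by rw [adj_mk, Sh]; omega)
  brd i j k e e' _ _ _ _ _ _ _ _ _ := by
    unfold lam
    rw [if_pos (by omega), if_pos (by omega)]
    exact h2 _ _ (by rw [adj_mk, Sh]; omega)

theorem sD_lam {n k : ℕ} {L : Type} [Group L] (P : Cv n → L) (hn : 3 ≤ n) (hk : k < n) :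
    sD (lam n P) k = P (sc n k) := by
  unfold sD sc lam
  by_cases h : k = 0
  · rw [if_pos h, if_pos h, if_pos (by omega)]
    rfl
  · rw [if_neg h, if_neg h, if_pos (by omega), min_eq_left (by omega), max_eq_right (by omega)]

end Pv

open Pv in
theorem p_pv (h1 : S_pvr) (h2 : S_pvd) : S_pv := by
  intro n hn G _ u
  obtain ⟨P, hP, hc, hb⟩ := h1 (Cv n) G (adj n) (Pv.rk n) (rk_inj n)
    (fun s t h => by unfold adj Sh at *; omega) (fun s h => by unfold adj Sh at h; omega)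
  refine ⟨Equiv.Perm (Cv n ⊕ Cv n × Cv n → G), inferInstance, lam n P, fun _ => inferInstance,
    dr n P hc hb, fun h hh => ?_⟩
  refine h2 (Cv n) G (adj n) (Pv.rk n) P hP n (sc n) hn (fun k hk => rk_sc hn hk)
    (fun i j hi hj => adj_sc hn hi hj) u h ?_
  have e : sub (fun j => (u j, xD (sD (lam n P)) j)) (Set.Ico 1 n) =
      sub (fun j => (u j, xD (fun k => P (sc n k)) j)) (Set.Ico 1 n) := by
    unfold sub
    rw [Set.image_congr fun j hj => by rw [xD_congr (fun k hk => sD_lam P hn hk) j hj.2]]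
  exact e ▸ hh

theorem p_splitD : S_splitD := by
  intro ι M hM S hS ⟨e, he⟩
  have inj : ∀ a ∈ S, ∀ b ∈ S, a ≠ b → e a ≠ e b := fun a ha b hb hab h =>
    hM.off a b hab (by rw [he a ha b hb hab, labD, if_pos h])
  by_cases h2 : ∃ a ∈ S, e a = 2
  swap
  · refine Or.inl ⟨fun a => if e a = 0 then 1 else if e a = 1 then 2 else 0, e,
      fun a ha b hb hab => ?_⟩
    have a1 := inj a ha b hb hab
    have a2 : e a ≠ 2 := fun h => h2 ⟨a, ha, h⟩
    have a3 : e b ≠ 2 := fun h => h2 ⟨b, hb, h⟩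
    rw [he a ha b hb hab]
    simp only [labD, lab]
    split_ifs <;> omega
  by_cases h01 : (∃ a ∈ S, e a = 0) ∧ ∃ a ∈ S, e a = 1
  swap
  · refine Or.inl ⟨fun _ => 0, fun a => max (e a) 1, fun a ha b hb hab => ?_⟩
    have a1 := inj a ha b hb hab
    have a2 : ¬ (e a = 0 ∧ e b = 1) := fun h => h01 ⟨⟨a, ha, h.1⟩, b, hb, h.2⟩
    have a3 : ¬ (e b = 0 ∧ e a = 1) := fun h => h01 ⟨⟨b, hb, h.1⟩, a, ha, h.2⟩
    rw [he a ha b hb hab]
    simp only [labD, lab]
    split_ifs <;> omega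
  have hex : ∃ n, ¬ ∃ a ∈ S, e a = n := (hS.image e).exists_notMem
  have b1 := Nat.find_spec hex
  have b2 : ∀ i, i < Nat.find hex → ∃ a ∈ S, e a = i := fun i hi => not_not.1 (Nat.find_min hex hi)
  generalize Nat.find hex = n at b1 b2
  obtain ⟨a0, h2⟩ := h2
  have b3 : ∀ i, ∃ a, i < n → a ∈ S ∧ e a = i := fun i => by
    by_cases hi : i < n
    · obtain ⟨a, ha⟩ := b2 i hi
      exact ⟨a, fun _ => ha⟩
    · exact ⟨a0, fun h => absurd h hi⟩
  choose t ht using b3
  have hn : 3 ≤ n := by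
    by_contra hlt
    have : n = 0 ∨ n = 1 ∨ n = 2 := by omega
    rcases this with rfl | rfl | rfl
    · exact b1 h01.1
    · exact b1 h01.2
    · exact b1 ⟨a0, h2⟩
  refine Or.inr ⟨n, t, t '' Set.Iio n, {a ∈ S | n < e a}, ?_, ⟨hn, rfl, fun i j hi hj => ?_⟩,
    ⟨fun _ => 0, e, fun a ha b hb hab => ?_⟩, ?_⟩
  · refine Set.Subset.antisymm (fun a ha => ?_) ?_
    · rcases lt_trichotomy (e a) n with h | h | h
      · refine Or.inl ⟨e a, h, ?_⟩
        by_contra hne
        exact inj _ (ht _ h).1 a ha hne (ht _ h).2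
      · exact absurd ⟨a, ha, h⟩ b1
      · exact Or.inr ⟨ha, h⟩
    · rintro a (⟨i, hi, rfl⟩ | ha)
      · exact (ht i hi).1
      · exact ha.1
  · by_cases hij : i = j
    · rw [hij, hM.diag, labD, if_pos rfl]
    · have hne : t i ≠ t j := fun h => hij (by rw [← (ht i hi).2, h, (ht j hj).2])
      rw [he _ (ht i hi).1 _ (ht j hj).1 hne, (ht i hi).2, (ht j hj).2]
  · have a2 := ha.2
    have a3 := hb.2
    rw [he a ha.1 b hb.1 hab]
    simp only [labD, lab]
    split_ifs <;> omega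
  · rintro _ ⟨i, hi, rfl⟩ b hb
    have a1 : i < n := hi
    have a3 := hb.2
    have hne : t i ≠ b := fun h => by
      have := (ht i hi).2
      rw [h] at this
      omega
    rw [he _ (ht i hi).1 b hb.1 hne, (ht i hi).2]
    simp only [labD]
    split_ifs <;> omega

end Pool.Agent.P.MP_e794d7_al.FC
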