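import Pool.Agent.P.MP_e794d7_al.FC.Stmt2

/-!
The twists along a diagram of type `D` detect the free kernel of the folding map.
-/

set_option autoImplicit false

namespace Pool.Agent.P.MP_e794d7_al.FC

open scoped Classical

namespace PvdAux

theorem labD_three (i j : ℕ) :
    labD i j = 3 ↔ i ≠ j ∧ (max i 1 + 1 = max j 1 ∨ max j 1 + 1 = max i 1) := by
  unfold labD
  split_ifs with h1 h2
  · simp [h1]
  · simp [h1, h2]
  · simp [h2]

variable {N G : Type} [Group G]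

/-- the standing hypotheses -/
structure Ctx (adj : N → N → Prop) (r : N → ℕ) (n : ℕ) (s : ℕ → N) : Prop where
  le : 3 ≤ n
  hr : ∀ k, k < n → r (s k) = k
  hadj : ∀ i j, i < n → j < n → (adj (s i) (s j) ↔ labD i j = 3)

/-- equality of the data that the twists of index at least two can see -/
structure DE (r : N → ℕ) (n : ℕ) (s : ℕ → N) (u v : N ⊕ N × N → G) : Prop where
  z : pvZ r u (s 2) (s 0) = pvZ r v (s 2) (s 0)
  l : ∀ k, 2 ≤ k → k < n → u (.inl (s k)) = v (.inl (s k))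
  p : ∀ k j, 2 ≤ k → k < n → 2 ≤ j → j < n → u (.inr (s k, s j)) = v (.inr (s k, s j))

/-- the two short curves agree -/
def FF (r : N → ℕ) (s : ℕ → N) (u : N ⊕ N × N → G) : Prop :=
  pvZ r u (s 2) (s 1) = pvZ r u (s 2) (s 0)

variable {adj : N → N → Prop} {r : N → ℕ} {n : ℕ} {s : ℕ → N} {u v w : N ⊕ N × N → G}

theorem DE.rfl' : DE r n s u u := ⟨rfl, fun _ _ _ => rfl, fun _ _ _ _ _ _ => rfl⟩

theorem DE.trans' (h : DE r n s u v) (h' : DE r n s v w) : DE r n s u w :=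
  ⟨h.z.trans h'.z, fun k a b => (h.l k a b).trans (h'.l k a b),
    fun k j a b c d => (h.p k j a b c d).trans (h'.p k j a b c d)⟩

theorem DE.zz (h : DE r n s u v) {i k : ℕ} (hi : 2 ≤ i) (hi' : i < n) (hk : 2 ≤ k) (hk' : k < n) :
    pvZ r u (s i) (s k) = pvZ r v (s i) (s k) := by
  unfold pvZ
  rw [h.p i k hi hi' hk hk', h.p k i hk hk' hi hi', h.l k hk hk']

theorem l_F (c : Ctx adj r n s) {k i : ℕ} (hk : k < n) (hi : i < n) (e : ℤ)
    (u : N ⊕ N × N → G) :
    pvF adj r (s k) e u (.inl (s i)) =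
      if labD k i = 3 then pvZ r u (s i) (s k) ^ e * u (.inl (s i)) else u (.inl (s i)) := by
  simp only [pvF, c.hadj k i hk hi]

theorem p_F (c : Ctx adj r n s) {k i j : ℕ} (hk : k < n) (hi : i < n) (hj : j < n) (e : ℤ)
    (u : N ⊕ N × N → G) :
    pvF adj r (s k) e u (.inr (s i, s j)) =
      if labD k i = 3 ∧ (k < j ∨ (j = k ∧ i < k)) then
        pvZ r u (s i) (s k) ^ e * u (.inr (s i, s j)) else u (.inr (s i, s j)) := by
  have h : s j = s k ↔ j = k :=
    ⟨fun h => by rw [← c.hr j hj, h, c.hr k hk], fun h => by rw [h]⟩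
  simp only [pvF, c.hadj k i hk hi, c.hr k hk, c.hr i hi, c.hr j hj, h]

theorem z_eq (c : Ctx adj r n s) {i k : ℕ} (hi : i < n) (hk : k < n) (u : N ⊕ N × N → G) :
    pvZ r u (s i) (s k) = u (.inr (s i, s k)) * (u (.inr (s k, s i)))⁻¹ *
      u (.inl (s k)) ^ (if k < i then 1 else -1 : ℤ) *
        (u (.inr (s i, s k)) * (u (.inr (s k, s i)))⁻¹)⁻¹ := by
  simp only [pvZ, c.hr i hi, c.hr k hk]

/-- the long twists act on the short curves -/
theorem z_F (c : Ctx adj r n s) {a j : ℕ} (ha : a < 2) (hj : 2 ≤ j) (hj' : j < n) (e : ℤ)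
    (u : N ⊕ N × N → G) :
    pvZ r (pvF adj r (s j) e u) (s 2) (s a) =
      pvZ r u (s 2) (s a) * if j = 2 then u (.inl (s 2)) ^ (-e) else 1 := by
  have h2 : 2 < n := c.le
  have ha' : a < n := by omega
  rw [z_eq c h2 ha', z_eq c h2 ha', p_F c hj' h2 ha', p_F c hj' ha' h2, l_F c hj' ha',
    if_neg (by omega), if_pos ha]
  by_cases h : j = 2
  · subst h
    have h3 : labD 2 a = 3 := by rw [labD_three]; omega
    rw [if_pos ⟨h3, by omega⟩, if_pos h3, if_pos rfl, z_eq c ha' h2, if_neg (by omega),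
      conj_zpow, ← zpow_mul]
    group
  · have h3 : ¬ labD j a = 3 := by rw [labD_three]; omega
    rw [if_neg (fun h => h3 h.1), if_neg h3, if_neg h, mul_one]

theorem mu_F (c : Ctx adj r n s) {j : ℕ} (hj : 2 ≤ j) (hj' : j < n) (e : ℤ)
    (u : N ⊕ N × N → G) :
    pvF adj r (s j) e u (.inr (s 2, s 1)) = u (.inr (s 2, s 1)) := by
  have h2 : 2 < n := c.le
  rw [p_F c hj' h2 (by omega), if_neg (by omega)]

theorem FF_F (c : Ctx adj r n s) {j : ℕ} (hj : 2 ≤ j) (hj' : j < n) (e : ℤ) (h : FF r s u) :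
    FF r s (pvF adj r (s j) e u) := by
  unfold FF at h ⊢
  rw [z_F c (by omega) hj hj', z_F c (by omega) hj hj', h]

theorem DE_F (c : Ctx adj r n s) {j : ℕ} (hj : 2 ≤ j) (hj' : j < n) (e : ℤ) (h : DE r n s u v) :
    DE r n s (pvF adj r (s j) e u) (pvF adj r (s j) e v) := by
  refine ⟨?_, fun k hk hk' => ?_, fun k i hk hk' hi hi' => ?_⟩
  · rw [z_F c (by omega) hj hj', z_F c (by omega) hj hj', h.z, h.l 2 le_rfl c.le]
  · rw [l_F c hj' hk', l_F c hj' hk', h.zz hk hk' hj hj', h.l k hk hk']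
  · rw [p_F c hj' hk' hi', p_F c hj' hk' hi', h.zz hk hk' hj hj', h.p k i hk hk' hi hi']

theorem FF.z (h : FF r s u) {a : ℕ} (ha : a < 2) : pvZ r u (s 2) (s a) = pvZ r u (s 2) (s 0) := by
  obtain rfl | rfl : a = 0 ∨ a = 1 := by omega
  · rfl
  · exact h

/-- the short twists fix the short curves when these agree -/
theorem z_S (c : Ctx adj r n s) {a b : ℕ} (ha : a < 2) (hb : b < 2) (e : ℤ) (h : FF r s u) :
    pvZ r (pvF adj r (s a) e u) (s 2) (s b) = pvZ r u (s 2) (s 0) := by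
  have h2 : 2 < n := c.le
  have ha' : a < n := by omega
  have hb' : b < n := by omega
  have h3 : ¬ labD a b = 3 := by rw [labD_three]; omega
  have hz := h.z hb
  rw [z_eq c h2 hb', if_pos hb] at hz
  rw [z_eq c h2 hb', p_F c ha' h2 hb', p_F c ha' hb' h2, l_F c ha' hb', if_neg h3,
    if_neg (fun h : labD a b = 3 ∧ _ => h3 h.1), h.z ha, if_pos hb]
  split_ifs with h4
  · calc _ = pvZ r u (s 2) (s 0) ^ e * (u (.inr (s 2, s b)) * (u (.inr (s b, s 2)))⁻¹ *
          u (.inl (s b)) ^ (1 : ℤ) * (u (.inr (s 2, s b)) * (u (.inr (s b, s 2)))⁻¹)⁻¹) *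
          (pvZ r u (s 2) (s 0) ^ e)⁻¹ := by group
      _ = _ := by rw [hz]; group
  · exact hz

theorem l_S (c : Ctx adj r n s) {a k : ℕ} (ha : a < 2) (hk : 2 ≤ k) (hk' : k < n) (e : ℤ)
    (h : FF r s u) : pvF adj r (s a) e u (.inl (s k)) =
      (if k = 2 then pvZ r u (s 2) (s 0) ^ e else 1) * u (.inl (s k)) := by
  rw [l_F c (by omega) hk']
  by_cases h2 : k = 2
  · subst h2
    rw [if_pos (by rw [labD_three]; omega), if_pos rfl, h.z ha]
  · rw [if_neg (by rw [labD_three]; omega), if_neg h2, one_mul]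

theorem p_S (c : Ctx adj r n s) {a k j : ℕ} (ha : a < 2) (hk : 2 ≤ k) (hk' : k < n) (hj' : j < n)
    (e : ℤ) (h : FF r s u) : pvF adj r (s a) e u (.inr (s k, s j)) =
      (if k = 2 ∧ a < j then pvZ r u (s 2) (s 0) ^ e else 1) * u (.inr (s k, s j)) := by
  rw [p_F c (by omega) hk' hj']
  by_cases h2 : k = 2 ∧ a < j
  · obtain ⟨rfl, h2⟩ := h2
    rw [if_pos ⟨by rw [labD_three]; omega, Or.inl h2⟩, if_pos ⟨rfl, h2⟩, h.z ha]
  · rw [if_neg (by rw [labD_three]; omega), if_neg h2, one_mul]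

theorem FF_S (c : Ctx adj r n s) {a : ℕ} (ha : a < 2) (e : ℤ) (h : FF r s u) :
    FF r s (pvF adj r (s a) e u) := by
  unfold FF
  rw [z_S c ha (by omega) e h, z_S c ha (by omega) e h]

theorem DE_S (c : Ctx adj r n s) {a b : ℕ} (ha : a < 2) (hb : b < 2) (h : FF r s u) :
    DE r n s (pvF adj r (s a) 1 (pvF adj r (s b) (-1) u)) u := by
  have h' := FF_S c hb (-1) h
  have hz := z_S c hb (by omega : 0 < 2) (-1) h
  refine ⟨?_, fun k hk hk' => ?_, fun k i hk hk' hi hi' => ?_⟩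
  · rw [z_S c ha (by omega) 1 h', hz]
  · rw [l_S c ha hk hk' 1 h', l_S c hb hk hk' (-1) h, hz]
    split_ifs <;> group
  · rw [p_S c ha hk hk' hi' 1 h', p_S c hb hk hk' hi' (-1) h, hz]
    by_cases h2 : k = 2
    · rw [if_pos ⟨h2, by omega⟩, if_pos ⟨h2, by omega⟩]
      group
    · rw [if_neg (fun h => h2 h.1), if_neg (fun h => h2 h.1), one_mul, one_mul]

/-- `x` only changes one entry, by left multiplication with `B` -/
def Good (r : N → ℕ) (n : ℕ) (s : ℕ → N) (x : Equiv.Perm (N ⊕ N × N → G))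
    (B : (N ⊕ N × N → G) → G) : Prop :=
  ∀ u, FF r s u → FF r s (x u) ∧ DE r n s (x u) u ∧
    x u (.inr (s 2, s 1)) = B u * u (.inr (s 2, s 1))

variable {P : N → Equiv.Perm (N ⊕ N × N → G)}

theorem Good.conj (c : Ctx adj r n s) (hP : PVF adj r P) {x : Equiv.Perm (N ⊕ N × N → G)}
    {B : (N ⊕ N × N → G) → G} (h : Good r n s x B) {j : ℕ} (hj : 2 ≤ j) (hj' : j < n) :
    Good r n s (P (s j) * x * (P (s j))⁻¹) fun u => B (pvF adj r (s j) (-1) u) := by
  intro u hu
  obtain ⟨h1, h2, h3⟩ := h _ (FF_F c hj hj' (-1) hu)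
  have e : pvF adj r (s j) 1 (pvF adj r (s j) (-1) u) = u := by
    rw [← hP.inv, ← hP.app, ← Equiv.Perm.mul_apply, mul_inv_cancel, Equiv.Perm.one_apply]
  simp only [Equiv.Perm.mul_apply, hP.app, hP.inv]
  refine ⟨FF_F c hj hj' 1 h1, ?_, ?_⟩
  · have := DE_F c hj hj' 1 h2
    rwa [e] at this
  · rw [mu_F c hj hj', h3, mu_F c hj hj']

/-- the factor picked up under the generator of index `j + 1` -/
noncomputable def BB (adj : N → N → Prop) (r : N → ℕ) (s : ℕ → N) :
    ℕ → (N ⊕ N × N → G) → G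
  | 0, u => pvZ r u (s 2) (s 0)
  | j + 1, u => BB adj r s j (pvF adj r (s (j + 2)) (-1) u)

theorem good_x (c : Ctx adj r n s) (hP : PVF adj r P) : ∀ j, j + 1 < n →
    Good r n s (xD (fun k => P (s k)) (j + 1)) (BB adj r s j) ∧
      Good r n s (xD (fun k => P (s k)) (j + 1))⁻¹ fun u => (BB adj r s j u)⁻¹
  | 0, _ => by
    have h2 : 2 < n := c.le
    constructor
    · intro u hu
      simp only [xD, BB, Equiv.Perm.mul_apply, hP.app, hP.inv]
      have h' := FF_S c (by omega : 1 < 2) (-1) hu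
      refine ⟨FF_S c (by omega) 1 h', DE_S c (by omega) (by omega) hu, ?_⟩
      rw [p_S c (by omega) le_rfl h2 (by omega) 1 h', p_S c (by omega) le_rfl h2 (by omega) _ hu,
        z_S c (by omega) (by omega) _ hu]
      simp
    · intro u hu
      simp only [xD, BB, mul_inv_rev, inv_inv, Equiv.Perm.mul_apply, hP.app, hP.inv]
      have h' := FF_S c (by omega : 0 < 2) (-1) hu
      refine ⟨FF_S c (by omega) 1 h', DE_S c (by omega) (by omega) hu, ?_⟩
      rw [p_S c (by omega) le_rfl h2 (by omega) 1 h', p_S c (by omega) le_rfl h2 (by omega) _ hu]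
      simp
  | j + 1, hj => by
    obtain ⟨h1, h2⟩ := good_x c hP j (by omega)
    refine ⟨h1.conj c hP (by omega) hj, ?_⟩
    rw [xD, conj_inv]
    exact h2.conj c hP (by omega) hj

theorem BB_DE (c : Ctx adj r n s) : ∀ j, j + 1 < n → ∀ u v : N ⊕ N × N → G, DE r n s u v →
    BB adj r s j u = BB adj r s j v
  | 0, _, _, _, h => h.z
  | j + 1, hj, _, _, h => BB_DE c j (by omega) _ _ (DE_F c (by omega) hj (-1) h)

/-- the product `f (j + 1) * ⋯ * f 2` -/
def pr (f : ℕ → G) : ℕ → G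
  | 0 => 1
  | j + 1 => f (j + 2) * pr f j

theorem pr_congr {f g : ℕ → G} : ∀ j, (∀ k, 2 ≤ k → k ≤ j + 1 → f k = g k) → pr f j = pr g j
  | 0, _ => rfl
  | j + 1, h => by
    rw [pr, pr, h (j + 2) (by omega) le_rfl, pr_congr j fun k a b => h k a (by omega)]

theorem BB_eq (c : Ctx adj r n s) : ∀ j, j + 1 < n → ∀ u : N ⊕ N × N → G,
    (∀ k, 2 ≤ k → k ≤ j → u (.inr (s k, s (k + 1))) = 1 ∧ u (.inr (s (k + 1), s k)) = 1) →
      BB adj r s j u = pvZ r u (s 2) (s 0) * pr (fun k => u (.inl (s k))) j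
  | 0, _, _, _ => by simp [BB, pr]
  | 1, hj, u, _ => by
    simp only [BB, pr]
    rw [z_F c (by omega) le_rfl hj]
    simp
  | j + 2, hj, u, h => by
    have hj3 : j + 1 + 2 < n := hj
    rw [BB, BB_eq c (j + 1) (by omega), z_F c (by omega) (by omega) hj3, if_neg (by omega),
      mul_one]
    · obtain ⟨h1, h2⟩ := h (j + 2) (by omega) le_rfl
      rw [pr, pr, pr, l_F c hj3 (by omega), if_pos (by rw [labD_three]; omega),
        z_eq c (by omega) hj3, if_neg (by omega), h1, h2,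
        pr_congr (g := fun k => u (.inl (s k))) j fun k a b => by
          rw [l_F c hj3 (by omega), if_neg (by rw [labD_three]; omega)]]
      group
    · intro k a b
      rw [p_F c hj3 (by omega) (by omega), p_F c hj3 (by omega) (by omega), if_neg (by omega),
        if_neg (by omega)]
      exact h k a (by omega)

/-- the base tuple -/
def base (r : N → ℕ) (y : ℕ → G) : N ⊕ N × N → G
  | .inl t => if r t < 2 then y 1 else (y 1)⁻¹ * y (r t) * (y (r t - 1))⁻¹ * y 1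
  | .inr _ => 1

theorem base_z (c : Ctx adj r n s) (y : ℕ → G) {a : ℕ} (ha : a < 2) :
    pvZ r (base r y) (s 2) (s a) = y 1 := by
  have h2 : 2 < n := c.le
  rw [z_eq c h2 (by omega), if_pos ha]
  simp [base, c.hr a (by omega), ha]

theorem base_pr (c : Ctx adj r n s) (y : ℕ → G) : ∀ j, j + 1 < n →
    pr (fun k => base r y (.inl (s k))) j = (y 1)⁻¹ * y (j + 1)
  | 0, _ => by simp [pr]
  | j + 1, hj => by
    rw [pr, base_pr c y j (by omega)]
    simp only [base, c.hr (j + 2) hj]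
    rw [if_neg (by omega)]
    simp [mul_assoc]

theorem BB_base (c : Ctx adj r n s) (y : ℕ → G) {j : ℕ} (hj : j + 1 < n) :
    BB adj r s j (base r y) = y (j + 1) := by
  rw [BB_eq c j hj _ fun _ _ _ => ⟨rfl, rfl⟩, base_z c y (by omega), base_pr c y j hj,
    mul_inv_cancel_left]

end PvdAux

open PvdAux in
theorem p_pvd : S_pvd := by
  intro N G _ adj r P hP n s hn hr hadj y h hh h1
  have c : Ctx adj r n s := ⟨hn, hr, hadj⟩
  have key : ∀ v, FF r s v → DE r n s v (base r y) → FF r s (h.2 v) ∧ DE r n s (h.2 v) (base r y) ∧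
      h.2 v (.inr (s 2, s 1)) = h.1 * v (.inr (s 2, s 1)) := by
    clear h1
    refine sub_induction (p := fun h : G × Equiv.Perm (N ⊕ N × N → G) =>
      ∀ v, FF r s v → DE r n s v (base r y) → FF r s (h.2 v) ∧ DE r n s (h.2 v) (base r y) ∧
        h.2 v (.inr (s 2, s 1)) = h.1 * v (.inr (s 2, s 1))) ?_ ?_ ?_ hh
    · intro v h1 h2
      exact ⟨h1, h2, (one_mul _).symm⟩
    · rintro g - a ⟨ha, ha'⟩ ih v h1 h2
      obtain ⟨j, rfl⟩ : ∃ j, a = j + 1 := ⟨a - 1, by omega⟩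
      obtain ⟨k1, k2, k3⟩ := (good_x c hP j ha').1 v h1
      obtain ⟨m1, m2, m3⟩ := ih _ k1 (k2.trans' h2)
      refine ⟨m1, m2, m3.trans ?_⟩
      rw [k3, BB_DE c j ha' _ _ h2, BB_base c y ha', Prod.fst_mul, mul_assoc]
    · rintro g - a ⟨ha, ha'⟩ ih v h1 h2
      obtain ⟨j, rfl⟩ : ∃ j, a = j + 1 := ⟨a - 1, by omega⟩
      obtain ⟨k1, k2, k3⟩ := (good_x c hP j ha').2 v h1
      obtain ⟨m1, m2, m3⟩ := ih _ k1 (k2.trans' h2)
      refine ⟨m1, m2, m3.trans ?_⟩
      beta_reduce at k3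
      rw [k3, BB_DE c j ha' _ _ h2, BB_base c y ha', Prod.fst_mul, mul_assoc]
      rfl
  have h0 : FF r s (base r y) := by
    unfold FF
    rw [base_z c y (by omega), base_z c y (by omega)]
  have h3 := (key _ h0 DE.rfl').2.2
  rw [h1] at h3
  simpa [base] using h3.symm

end Pool.Agent.P.MP_e794d7_al.FC
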