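import Pool.Agent.P.MP_e794d7_al.FC.Stmt2

/-! The twists acting on tuples satisfy the Artin relations. -/

set_option autoImplicit false

namespace Pool.Agent.P.MP_e794d7_al.FC

open scoped Classical

noncomputable section

namespace Pvr

variable {N G : Type} [Group G] {adj : N → N → Prop} {r : N → ℕ}

/-- an optional factor -/
def opt (c : Prop) (g : G) : G := if c then g else 1

theorem opt_pos {c : Prop} (h : c) (g : G) : opt c g = g := if_pos h

theorem opt_neg {c : Prop} (h : ¬ c) (g : G) : opt c g = 1 := if_neg h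

theorem opt_true (g : G) : opt True g = g := if_pos trivial

theorem opt_false (g : G) : opt False g = 1 := if_neg id

theorem F_inl (s : N) (e : ℤ) (u : N ⊕ N × N → G) (t : N) :
    pvF adj r s e u (.inl t) = opt (adj s t) (pvZ r u t s ^ e) * u (.inl t) := by
  rw [pvF, opt]
  split_ifs
  · rfl
  · rw [one_mul]

theorem F_inr (s : N) (e : ℤ) (u : N ⊕ N × N → G) (t w : N) :
    pvF adj r s e u (.inr (t, w)) = opt (adj s t ∧ (r s < r w ∨ (w = s ∧ r t < r s)))
      (pvZ r u t s ^ e) * u (.inr (t, w)) := by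
  rw [pvF, opt]
  split_ifs
  · rfl
  · rw [one_mul]

/-- the effect on a curve which is not adjacent to the twist -/
theorem Z_F {s w : N} (h : ¬ adj s w) (e : ℤ) (u : N ⊕ N × N → G) (t : N) :
    pvZ r (pvF adj r s e u) t w =
      opt (adj s t ∧ (r s < r w ∨ (w = s ∧ r t < r s))) (pvZ r u t s ^ e) * pvZ r u t w *
        (opt (adj s t ∧ (r s < r w ∨ (w = s ∧ r t < r s))) (pvZ r u t s ^ e))⁻¹ := by
  rw [pvZ, F_inl, F_inr, F_inr, opt_neg h, opt_neg fun h' : adj s w ∧ _ => h h'.1]
  generalize opt _ (pvZ r u t s ^ e) = A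
  rw [pvZ]
  group

theorem Z_self {s : N} (h : ¬ adj s s) (e : ℤ) (u : N ⊕ N × N → G) (t : N) :
    pvZ r (pvF adj r s e u) t s = pvZ r u t s := by
  rw [Z_F h, opt]
  split_ifs <;> group

theorem F_neg {s : N} (h : ¬ adj s s) (e : ℤ) (u : N ⊕ N × N → G) :
    pvF adj r s (-e) (pvF adj r s e u) = u := by
  funext x
  rcases x with t | ⟨t, w⟩
  · rw [F_inl, F_inl, Z_self h, opt, opt]
    split_ifs <;> group
  · rw [F_inr, F_inr, Z_self h, opt, opt]
    split_ifs <;> group

theorem comm {a b : N} (h : ¬ adj a b) (h' : ¬ adj b a) (hr : r a < r b) (u : N ⊕ N × N → G) :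
    pvF adj r a 1 (pvF adj r b 1 u) = pvF adj r b 1 (pvF adj r a 1 u) := by
  have hab : a ≠ b := fun e => lt_irrefl _ (e ▸ hr)
  have h1 : ∀ t, pvZ r (pvF adj r b 1 u) t a = pvZ r u t a := fun t => by
    rw [Z_F h', opt_neg fun h => h.2.elim (lt_asymm hr) fun h => hab h.1]
    group
  have h2 : ∀ t, pvZ r (pvF adj r a 1 u) t b =
      opt (adj a t) (pvZ r u t a) * pvZ r u t b * (opt (adj a t) (pvZ r u t a))⁻¹ := fun t => by
    rw [Z_F h]
    simp only [hr, true_or, and_true, zpow_one]
  funext x
  rcases x with t | ⟨t, w⟩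
  · simp only [F_inl, h1, h2, zpow_one, opt]
    split_ifs <;> group
  · simp only [F_inr, h1, h2, zpow_one]
    by_cases hb : adj b t ∧ (r b < r w ∨ (w = b ∧ r t < r b))
    · have : r a < r w := hb.2.elim hr.trans fun h => h.1 ▸ hr
      simp only [opt_pos hb, this, true_or, and_true]
      group
    · simp only [opt_neg hb, one_mul]

section brd

variable (hi : Function.Injective r) (hn : ∀ s, ¬ adj s s) {a b : N} (h : adj a b) (h' : adj b a)
  (hr : r a < r b)

include hi hn h h' hr in
theorem rows (u : N ⊕ N × N → G) (t : N) :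
    opt (adj a t) (pvZ r (pvF adj r b 1 (pvF adj r a 1 u)) t a) * opt (adj a t) (pvZ r u t a) =
      opt (adj a t) (pvZ r (pvF adj r b 1 u) t a) ∧
    opt (adj a t) (pvZ r (pvF adj r b 1 (pvF adj r a 1 u)) t a) *
        opt (adj b t) (pvZ r (pvF adj r a 1 u) t b) * opt (adj a t) (pvZ r u t a) =
      opt (adj b t) (pvZ r (pvF adj r a 1 (pvF adj r b 1 u)) t b) *
        opt (adj a t) (pvZ r (pvF adj r b 1 u) t a) * opt (adj b t) (pvZ r u t b) := by
  have hab : a ≠ b := fun e => lt_irrefl _ (e ▸ hr)
  have hr' : ¬ r b < r a := lt_asymm hr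
  have hc : r t < r a ∨ t = a ∨ (r a < r t ∧ r t < r b) ∨ t = b ∨ r b < r t := by
    have h1 := hi.ne_iff (x := t) (y := a)
    have h2 := hi.ne_iff (x := t) (y := b)
    by_cases h3 : t = a
    · exact .inr (.inl h3)
    by_cases h4 : t = b
    · exact .inr (.inr (.inr (.inl h4)))
    have := h1.2 h3
    have := h2.2 h4
    omega
  rcases hc with hc | rfl | ⟨hc, hd⟩ | rfl | hc
  · have h1 : t ≠ a := fun e => lt_irrefl _ (e ▸ hc)
    have h2 : t ≠ b := fun e => lt_irrefl _ (e ▸ hc.trans hr)
    have h3 : ¬ r a < r t := lt_asymm hc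
    have h4 : r t < r b := hc.trans hr
    have h5 : ¬ r b < r t := lt_asymm h4
    by_cases ha : adj a t <;> by_cases hb : adj b t <;> constructor <;>
      simp only [pvZ, F_inl, F_inr, zpow_one, lt_irrefl, hab.symm, and_true, and_false, or_false,
        or_true, opt_true, opt_false, if_true, if_false, or_self, and_self, *] <;> group
  · constructor <;>
      simp only [pvZ, F_inl, F_inr, zpow_one, lt_irrefl, hab.symm, and_true, and_false, or_false,
        or_true, opt_true, opt_false, if_true, if_false, or_self, and_self, *] <;> group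
  · have h1 : t ≠ a := fun e => lt_irrefl _ (e ▸ hc)
    have h2 : t ≠ b := fun e => lt_irrefl _ (e ▸ hd)
    have h3 : ¬ r t < r a := lt_asymm hc
    have h5 : ¬ r b < r t := lt_asymm hd
    by_cases ha : adj a t <;> by_cases hb : adj b t <;> constructor <;>
      simp only [pvZ, F_inl, F_inr, zpow_one, lt_irrefl, hab.symm, and_true, and_false, or_false,
        or_true, opt_true, opt_false, if_true, if_false, or_self, and_self, *] <;> group
  · constructor <;>
      simp only [pvZ, F_inl, F_inr, zpow_one, lt_irrefl, hab.symm, and_true, and_false, or_false,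
        or_true, opt_true, opt_false, if_true, if_false, or_self, and_self, *] <;> group
  · have h4 : r a < r t := hr.trans hc
    have h1 : t ≠ a := fun e => lt_irrefl _ (e ▸ h4)
    have h2 : t ≠ b := fun e => lt_irrefl _ (e ▸ hc)
    have h3 : ¬ r t < r a := lt_asymm h4
    have h5 : ¬ r t < r b := lt_asymm hc
    by_cases ha : adj a t <;> by_cases hb : adj b t <;> constructor <;>
      simp only [pvZ, F_inl, F_inr, zpow_one, lt_irrefl, hab.symm, and_true, and_false, or_false,
        or_true, opt_true, opt_false, if_true, if_false, or_self, and_self, *] <;> group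

include hi hn h h' hr in
theorem brd (u : N ⊕ N × N → G) :
    pvF adj r a 1 (pvF adj r b 1 (pvF adj r a 1 u)) =
      pvF adj r b 1 (pvF adj r a 1 (pvF adj r b 1 u)) := by
  funext x
  rcases x with t | ⟨t, w⟩
  · simp only [F_inl, zpow_one, ← mul_assoc]
    rw [(rows hi hn h h' hr u t).2]
  · simp only [F_inr, zpow_one, ← mul_assoc]
    by_cases hb : r b < r w ∨ (w = b ∧ r t < r b)
    · have : r a < r w := hb.elim hr.trans fun h => h.1 ▸ hr
      simp only [hb, this, true_or, and_true]
      rw [(rows hi hn h h' hr u t).2]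
    · by_cases ha : r a < r w ∨ (w = a ∧ r t < r a)
      · simp only [ha, hb, and_true, and_false, opt_false, one_mul, mul_one]
        rw [(rows hi hn h h' hr u t).1]
      · simp only [ha, hb, and_false, opt_false, one_mul]

end brd

end Pvr

open Pvr

theorem p_pvr : S_pvr := by
  intro N G _ adj r hi hs hn
  refine ⟨fun s => ⟨pvF adj r s 1, pvF adj r s (-1), F_neg (hn s) 1, F_neg (hn s) (-1)⟩,
    ⟨fun _ _ => rfl, fun _ _ => rfl⟩, fun s t h => ?_, fun s t h => ?_⟩
  · have h' : ¬ adj t s := fun h' => h (hs _ _ h')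
    rcases lt_trichotomy (r s) (r t) with hr | hr | hr
    · exact Equiv.ext (comm h h' hr)
    · rw [hi hr]
    · exact Equiv.ext fun u => (comm h' h hr u).symm
  · rcases lt_trichotomy (r s) (r t) with hr | hr | hr
    · exact Equiv.ext (brd hi hn h (hs _ _ h) hr)
    · exact (hn t (hi hr ▸ h)).elim
    · exact Equiv.ext fun u => (brd hi hn (hs _ _ h) h hr u).symm

end

end Pool.Agent.P.MP_e794d7_al.FC
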