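import Pool.Agent.P.MP_e794d7_al.FC.Cl
import Pool.Agent.P.MP_e794d7_al.FC.CovD
import Pool.Agent.P.MP_e794d7_al.FC.Kf
import Pool.Agent.P.MP_e794d7_al.FC.PsiD
import Pool.Agent.P.MP_e794d7_al.FC.Lk
import Pool.Agent.P.MP_e794d7_al.FC.Pvr
import Pool.Agent.P.MP_e794d7_al.FC.Pvd
import Pool.Agent.P.MP_e794d7_al.FC.Pv
import Pool.Agent.P.MP_e794d7_al.FC.FineD
import Pool.Agent.P.MP_e794d7_al.FC.LiftI
import Pool.Agent.P.MP_e794d7_al.FC.Ki
import Pool.Agent.P.MP_e794d7_al.FC.Dih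
import Pool.Agent.P.MP_e794d7_al.FC.G2
import Pool.Agent.P.MP_e794d7_al.FC.FineI
import Pool.Agent.P.MP_e794d7_al.FC.Prod

/-! Artin groups of FC type with cliques of type `A`, `B`, `D` and `I 2` are good. -/

set_option autoImplicit false

namespace Pool.Agent.P.MP_e794d7_al.FC

theorem nice_classical : Nice fun _ M T => Cl M T :=
  nice_cl p_splitD (fun _ _ _ _ _ h h1 => finw_D h p_covD h1)
    (fun _ _ hM _ _ hab h0 => finw_I hM hab h0 p_dih) (fun _ _ _ _ h => finw_prod h)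
    fun _ _ _ _ D =>
      ⟨fun _ _ _ h h1 => D.p_fineD h (D.p_psiD h (D.p_kf D.lifts)) p_covD p_lk
          (p_pv p_pvr p_pvd) p_pfs h1,
        fun _ _ hab hm h1 => D.p_fineI hab hm (D.p_ki D.roots hab hm (D.p_liftI D.roots hab hm))
          p_g2 p_dih p_pfs h1,
        fun _ _ h => D.p_fine_prod D.roots D.rets p_pfp h⟩

theorem good_classical {ι : Type} [Finite ι] (M : ι → ι → ℕ) (hM : Cox M)
    (h : ∀ T : Set ι, Clq M T → Cl M T) : Good (Art M) :=
  good_fc gen nice_classical _ ι le_rfl M hM fun T hT _ => h T hT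

end Pool.Agent.P.MP_e794d7_al.FC
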