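import Pool.Agent.P.MP_e794d7_al.FC.Step

/-! From the cliques to the whole group. -/

set_option autoImplicit false

namespace Pool.Agent.P.MP_e794d7_al.FC

open scoped Classical

/-- a class of cliques that the method handles -/
structure Nice (P : ∀ ι : Type, (ι → ι → ℕ) → Set ι → Prop) : Prop where
  mono : ∀ ι M (T T' : Set ι), P ι M T → T' ⊆ T → P ι M T'
  small : ∀ ι M (T : Set ι), T.Subsingleton → P ι M T
  res : ∀ ι M (S : Set ι) (T : Set S), P ι M (Subtype.val '' T) → P S (Art.res M S) T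
  finw : ∀ ι [Finite ι] M (T : Set ι), Cox M → P ι M T → Finite (sub (sg M) T)
  fi : ∀ ι [Fintype ι] M (D : RD M {T | P ι M T}) (T : Set ι), P ι M T →
    D.FI T ∧ VPF (sub (Art.gen M) T)

/-- the general facts on root data -/
structure Gen : Prop where
  om : S_om
  rd : S_rd
  pfg : S_pfg
  roots : ∀ (ι : Type) [Fintype ι] (M : ι → ι → ℕ) (𝒯 : Set (Set ι)) (D : RD M 𝒯), D.Roots
  dc : ∀ (ι : Type) [Fintype ι] (M : ι → ι → ℕ) (𝒯 : Set (Set ι)) (D : RD M 𝒯), D.DC

variable {P : ∀ ι : Type, (ι → ι → ℕ) → Set ι → Prop}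

theorem sep_par (hg : Gen) (hP : Nice P) {ι : Type} [Finite ι] {M : ι → ι → ℕ} (hM : Cox M)
    (U : Set ι) (hU : ∀ T ⊆ U, Clq M T → P ι M T) (G : Type) [Group G]
    (π : Art (Art.res M U) →* G) : ∃ N : Subgroup (Art M), (Finite G → N.FiniteIndex) ∧
      ∀ g, Art.inc M U g ∈ N → π g = 1 := by
  letI := Fintype.ofFinite ι
  obtain ⟨D⟩ := hg.rd ι M hM {T | P ι M T} fun T hT => hP.finw ι M T hM hT
  let y : ι → G := fun a => if h : a ∈ U then π (Art.gen _ ⟨a, h⟩) else 1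
  have hy : ∀ a : U, y a = π (Art.gen _ a) := fun a => dif_pos a.2
  have hb : Brd M y U := fun a ha b hb => by
    rw [hy ⟨a, ha⟩, hy ⟨b, hb⟩, ← map_alt, ← map_alt]
    exact congrArg π (Art.rel (M := Art.res M U) ⟨a, ha⟩ ⟨b, hb⟩)
  have h1 := fun T : {T : Set ι // T ⊆ U ∧ Clq M T} =>
    (hP.fi ι M D T (hU T T.2.1 T.2.2)).1 G y (hb.mono T.2.1)
  choose N1 f1 h1 using h1
  obtain ⟨N0, hle, hN, hE, f0⟩ := D.finv (⨅ T, N1 T)
  obtain ⟨N, f, h⟩ := hg.om ι M hM U (D.K N0) (D.K_normal hN) G y fun T hT hc =>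
    ⟨fun h hh hK => h1 ⟨T, hT, hc⟩ h hh (by
      have m := map_mem_sub ((wq M).comp (MonoidHom.snd G (Art M))) hh
      simp only [MonoidHom.comp_apply, MonoidHom.coe_snd, wq_gen] at m
      exact D.ktriv (hg.roots ι M _ D) (hU T hT hc) m hK.1)
      (Subgroup.mem_iInf.1 (hle hK.2) _), hg.dc ι M _ D N0 hN hE T (hU T hT hc)⟩
  refine ⟨N, fun hG => f hG ?_, fun g hg => h (π g, Art.inc M U g) ?_ hg⟩
  · haveI := f0 (Subgroup.finiteIndex_iInf fun T => f1 T hG)
    exact D.K_fi N0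
  · have : (sub (fun a => (y a, Art.gen M a)) U).comap (π.prod (Art.inc M U)) = ⊤ :=
      Art.eq_top fun a => by
        have := mem_sub (y := fun a => (y a, Art.gen M a)) a.2
        rw [hy] at this
        simpa [Art.inc] using this
    exact (this ▸ Subgroup.mem_top g :)

theorem full_par (hg : Gen) (hP : Nice P) {ι : Type} [Finite ι] {M : ι → ι → ℕ} (hM : Cox M)
    (U : Set ι) (hU : ∀ T ⊆ U, Clq M T → P ι M T) :
    Function.Injective (Art.inc M U) ∧ Full (Art.inc M U) := by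
  constructor
  · obtain ⟨N, -, h⟩ := sep_par hg hP hM U hU _ (MonoidHom.id _)
    exact (injective_iff_map_eq_one _).2 fun g e => h g (e ▸ N.one_mem)
  · intro K hK
    obtain ⟨N, f, h⟩ := sep_par hg hP hM U hU _ (QuotientGroup.mk' K.normalCore)
    exact ⟨N, f inferInstance, fun g hg =>
      K.normalCore_le ((QuotientGroup.eq_one_iff g).1 (h g hg))⟩

theorem good_fc (hg : Gen) (hP : Nice P) (n : ℕ) : ∀ (ι : Type) [Finite ι], Nat.card ι ≤ n →
    ∀ M : ι → ι → ℕ, Cox M → (∀ T : Set ι, Clq M T → 3 ≤ T.ncard → P ι M T) → Good (Art M) := by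
  induction n using Nat.strong_induction_on with
  | _ n ih =>
  intro ι _ hn M hM ht
  have sub' : ∀ (S : Set ι) (w : ι), w ∉ S → Good (Art (Art.res M S)) := fun S w hw => by
    have := Finite.card_subtype_lt (p := fun a => a ∈ S) hw
    refine ih _ (lt_of_lt_of_le this hn) S le_rfl _ ⟨fun a b => hM.symm _ _, fun a => hM.diag _,
      fun a b h => hM.off _ _ fun e => h (Subtype.ext e)⟩ fun T h1 h2 => hP.res ι M S T ?_
    refine ht _ ?_ (by rwa [Set.ncard_image_of_injective _ Subtype.val_injective])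
    rintro _ ⟨a, ha, rfl⟩ _ ⟨b, hb, rfl⟩
    exact h1 a ha b hb
  by_cases h0 : ∃ v w, M v w = 0
  · obtain ⟨v, w, hvw⟩ := h0
    have hv : M v v ≠ 0 := by simp [hM.diag]
    have h := full_par hg hP hM ({a | a ≠ v} ∩ {a | M v a ≠ 0}) fun T hT hc => by
      by_cases h1 : T.Subsingleton
      · exact hP.small ι M T h1
      refine hP.mono ι M (insert v T) T (ht _ ?_ ?_) (Set.subset_insert v T)
      · rintro a (rfl | ha) b (rfl | hb)
        exacts [hv, (hT hb).2, hM.symm b a ▸ (hT ha).2, hc a ha b hb]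
      · rw [Set.ncard_insert_of_notMem fun h => (hT h).1 rfl]
        have := (Set.one_lt_ncard_iff_nontrivial (s := T)).2 (Set.not_subsingleton_iff.1 h1)
        omega
    rw [← Art.inc_inc' (Set.inter_subset_left (t := {a | M v a ≠ 0}))] at h
    refine (Art.isAmal {a | a ≠ v} {a | M v a ≠ 0} (fun a => ?_) fun a b h => ?_).good h.1 h.2
      (sub' _ v fun h => h.1 rfl) (sub' _ v fun h => h rfl) (sub' _ w fun h => h hvw)
    · by_cases h : a = v
      · exact Or.inr (h ▸ hv)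
      · exact Or.inl h
    · by_cases ha : a = v
      · exact Or.inr ⟨ha ▸ hv, by rwa [ha] at h⟩
      · by_cases hb : b = v
        · exact Or.inr ⟨by rwa [hb, hM.symm] at h, hb ▸ hv⟩
        · exact Or.inl ⟨ha, hb⟩
  push Not at h0
  by_cases h1 : P ι M Set.univ
  · letI := Fintype.ofFinite ι
    obtain ⟨D⟩ := hg.rd ι M hM {T | P ι M T} fun T hT => hP.finw ι M T hM hT
    exact hg.pfg _ (sub_gen_univ (M := M) ▸ (hP.fi ι M D _ h1).2)
  obtain ⟨s, -, t, -, hst⟩ := Set.not_subsingleton_iff.1 fun h => h1 (hP.small ι M _ h)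
  refine good_dihedral M s t hst (fun a => ?_) (hM.symm _ _) (h0 _ _)
  by_contra ha
  push Not at ha
  refine h1 (ht _ (fun a _ b _ => h0 a b) ?_)
  rw [← (Set.ncard_eq_three (s := {s, t, a})).2 ⟨s, t, a, hst, ha.1.symm, ha.2.symm, rfl⟩]
  exact Set.ncard_le_ncard (Set.subset_univ _)

/-- the class of type `A` and `B` -/
theorem nice_cls (h1 : S_path) (h2 : S_cov) (h3 : S_finw) (h4 : S_pfs)
    (h5 : ∀ (ι : Type) [Fintype ι] (M : ι → ι → ℕ) (𝒯 : Set (Set ι)) (D : RD M 𝒯), D.Ret ∧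
      ∀ T lo n t, Path M T lo n t → D.WR T lo n t ∧ D.Det lo n t) :
    Nice fun _ M T => Cls M T where
  mono := fun _ _ _ _ ⟨c, e, h⟩ hT => ⟨c, e, fun a ha b hb => h a (hT ha) b (hT hb)⟩
  small := fun _ _ _ h => ⟨0, 0, fun _ ha _ hb hab => (hab (h ha hb)).elim⟩
  res := fun _ _ _ _ ⟨c, e, h⟩ => ⟨fun a => c a, fun a => e a, fun a ha b hb hab =>
    h a ⟨a, ha, rfl⟩ b ⟨b, hb, rfl⟩ fun e => hab (Subtype.ext e)⟩
  finw := fun ι _ M T hM h => h3 ι M hM T (Set.toFinite T) h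
  fi := fun ι _ M D T hT => by
    generalize hk : T.ncard = k
    induction k generalizing T with
    | zero =>
      rw [(Set.ncard_eq_zero (Set.toFinite T)).1 hk, sub_empty]
      exact ⟨D.fi_empty, vpf_bot⟩
    | succ k ih =>
      obtain ⟨lo, n, t, hp⟩ := h1 ι M D.cox T (Set.toFinite T)
        (Set.nonempty_of_ncard_ne_zero (by omega)) hT
      obtain ⟨c, e, hce⟩ := hT
      have := ih (T \ {t (n - 1)}) ⟨c, e, fun a ha b hb => hce a ha.1 b hb.1⟩ (by
        rw [Set.ncard_diff_singleton_of_mem (hp.mem _ (by have := hp.lt; omega)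
          (by have := hp.lt; omega)), hk]
        rfl)
      obtain ⟨ht, h⟩ := h5 ι M _ D
      obtain ⟨hw, hd⟩ := h T lo n t hp
      exact ⟨D.fi_step (h2 ι M D.cox T lo n t hp) ht hw hd this.1,
        D.vpf_step h4 hp (h2 ι M D.cox T lo n t hp) ht hw hd this.2⟩

end Pool.Agent.P.MP_e794d7_al.FC
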