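import Pool.Agent.P.MP_e794d7_al.FC.Stmt

/-! The inductive steps along a path, and finite index subgroups of the colour group. -/

set_option autoImplicit false

namespace Pool.Agent.P.MP_e794d7_al.FC

open scoped Classical

variable {ι : Type}

theorem dl_mem {H : Type} [Group H] {z : ℕ → H} {lo n : ℕ} {S : Subgroup H}
    (h : ∀ k, lo ≤ k → k < n → z k ∈ S) : ∀ d, d + lo ≤ n → dl z n d ∈ S
  | 0, _ => S.one_mem
  | d + 1, hd => S.mul_mem (dl_mem h d (by omega)) (h _ (by omega) (by omega))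

theorem Fb_le {H : Type} [Group H] {z : ℕ → H} {lo n : ℕ} {S : Subgroup H}
    (h : ∀ k, lo ≤ k → k < n → z k ∈ S) : Fb z lo n ≤ S :=
  sub_le fun i hi => by
    have h1 := dl_mem h (n - 1 - i) (by have := hi.1; have := hi.2; omega)
    exact S.mul_mem (S.mul_mem h1 (S.pow_mem (h i hi.1 hi.2) _)) (S.inv_mem h1)

theorem map_mem_Fb {H K : Type} [Group H] [Group K] (f : H →* K) {z : ℕ → H} {lo n : ℕ} {g : H}
    (h : g ∈ Fb z lo n) : f g ∈ Fb (fun i => f (z i)) lo n := by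
  have := map_mem_sub f h
  simp only [map_xx] at this
  exact this

theorem xx_prod {H K : Type} [Group H] [Group K] (z : ℕ → H) (z' : ℕ → K) (n : ℕ) :
    xx (fun i => (z i, z' i)) n = fun i => (xx z n i, xx z' n i) :=
  funext fun i => Prod.ext (map_xx (MonoidHom.fst H K) _ n i) (map_xx (MonoidHom.snd H K) _ n i)

theorem vpf_bot {G : Type} [Group G] : VPF (⊥ : Subgroup G) :=
  ⟨⊥, le_rfl, ⟨0, rfl⟩, {1}, Set.finite_singleton _, fun g hg => ⟨1, rfl, by simpa using hg⟩⟩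

namespace RD

variable [Fintype ι] {M : ι → ι → ℕ} {𝒯 : Set (Set ι)} (D : RD M 𝒯)

theorem finv (N : Subgroup D.PG) :
    ∃ N0 ≤ N, FInv N0 ∧ Ev N0 ∧ (N.FiniteIndex → N0.FiniteIndex) := by
  refine ⟨⨅ f : D.PG →* (D.PG ⧸ N.normalCore) × Multiplicative (ZMod 2), f.ker, fun g hg => ?_,
    fun e g hg => ?_, fun f g hg => ?_, fun hN => ?_⟩
  · have := Subgroup.mem_iInf.1 hg ((QuotientGroup.mk' N.normalCore).prod 1)
    exact N.normalCore_le ((QuotientGroup.eq_one_iff g).1 (congrArg Prod.fst this))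
  · exact Subgroup.mem_iInf.2 fun f => Subgroup.mem_iInf.1 hg (f.comp e)
  · exact congrArg Prod.snd (Subgroup.mem_iInf.1 hg ((1 : D.PG →* _).prod f))
  · haveI : Finite (D.PG →* (D.PG ⧸ N.normalCore) × Multiplicative (ZMod 2)) :=
      Finite.of_injective (fun f x => f (D.ζ x)) fun f g h => D.hom_ext (congrFun h)
    exact Subgroup.finiteIndex_iInf fun f => inferInstance

theorem K_fi (N : Subgroup D.PG) [N.FiniteIndex] : (D.K N).FiniteIndex := by
  let S := ((MulAction.toPermHom (Wg M) D.X).comp (wq M)).ker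
  have hS : ∀ g ∈ S, ∀ x : D.X, wq M g • x = x := fun g hg x =>
    congrArg (fun p : Equiv.Perm D.X => p x) (MonoidHom.mem_ker.1 hg)
  let r : S →* D.PG :=
    { toFun := fun g => D.φ g
      map_one' := D.φ_one
      map_mul' := fun g h => by
        rw [Subgroup.coe_mul, φ_mul, D.aut_congr (w' := 1) fun x => by rw [hS g g.2, one_smul],
          map_one]
        rfl }
  haveI : ((N.comap r).map S.subtype).FiniteIndex := ⟨by
    rw [Subgroup.index_map_subtype]
    exact mul_ne_zero (fi_comap r N).1 Subgroup.FiniteIndex.index_ne_zero⟩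
  refine Subgroup.finiteIndex_of_le (H := (N.comap r).map S.subtype) ?_
  rintro _ ⟨g, hg, rfl⟩
  exact ⟨hS g g.2, hg⟩

theorem ktriv (hr : D.Roots) {T : Set ι} (hT : T ∈ 𝒯) {w : Wg M} (hw : w ∈ sub (sg M) T)
    (h : ∀ x : D.X, w • x = x) : w = 1 := by
  refine hr.triv T w hw fun a ha => ?_
  rw [D.sep1 T hT w hw a ha 1 (one_mem _) a ha (by
    rw [red_ρ, red_ρ, rep_one]
    exact congrArg X.v (h (D.x a))), rep_one]
  intro b
  rw [al_apply]
  split_ifs <;> simp

theorem fi_empty : D.FI ∅ := fun G _ y _ => ⟨⊤, fun _ => inferInstance, fun h hh _ _ => by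
  rw [sub_empty] at hh
  rw [Subgroup.mem_bot.1 hh]
  rfl⟩

variable {T : Set ι} {lo n : ℕ} {t : ℕ → ι}

theorem fi_step (hc : Cov M T lo n t) (ht : D.Ret) (hw : D.WR T lo n t) (hd : D.Det lo n t)
    (ih : D.FI (T \ {t (n - 1)})) : D.FI T := by
  intro G _ y hy
  obtain ⟨N1, f1, h1⟩ := ih G y (hy.mono Set.diff_subset)
  obtain ⟨N2, f2, h2⟩ := hd G (xx (fun i => y (t i)) n)
  obtain ⟨N, hle, hN, -, f3⟩ := D.finv (N1 ⊓ N2)
  refine ⟨N, fun hG => f3 (by haveI := f1 hG; haveI := f2 hG; infer_instance),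
    fun h hh e1 e2 => ?_⟩
  obtain ⟨f, hf, a, ha, d, hd, e0⟩ := hc.cov _ _ (hy.prod (brd_gen M T)) h hh
  obtain ⟨p, hp⟩ : ∃ p : G × Art M →* Wg M, ∀ h, p h = wq M h.2 :=
    ⟨(wq M).comp (MonoidHom.snd G (Art M)), fun _ => rfl⟩
  have m1 := map_mem_Fb p hf
  have m2 := map_mem_sub p ha
  rw [← hp, e0, map_mul, map_mul, map_dl] at e1
  simp only [hp, wq_gen] at m1 m2 e1
  obtain ⟨hd0, e4⟩ := hw.wtr _ m1 _ m2 d hd e1
  rw [e4, hd0, one_mul] at e1
  replace e1 : wq M a.2 = 1 := (mul_one _).symm.trans e1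
  replace e0 : h = f * a := by rw [e0, hd0]; exact mul_one _
  rw [e0, Prod.snd_mul, φ_mul, e4, map_one, MulAut.one_apply] at e2
  have e5 := hN (D.ret (T \ {t (n - 1)})) _ e2
  have m3 := map_mem_Fb (MonoidHom.snd G (Art M)) hf
  have m4 := map_mem_sub (MonoidHom.snd G (Art M)) ha
  simp only [MonoidHom.coe_snd] at m3 m4
  rw [map_mul, hw.rho f.2 m3, one_mul, ht.fix _ a.2 m4] at e5
  have e6 := (N.mul_mem_cancel_right e5).1 e2
  rw [Fb, xx_prod] at hf
  rw [e0, Prod.fst_mul, h1 a ha e1 (hle e5).1, h2 f hf (hle e6).2, mul_one]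

theorem vpf_step (hs : S_pfs) (hp : Path M T lo n t) (hc : Cov M T lo n t) (ht : D.Ret)
    (hw : D.WR T lo n t) (hd : D.Det lo n t) (ih : VPF (sub (Art.gen M) (T \ {t (n - 1)}))) :
    VPF (sub (Art.gen M) T) := by
  let j : FreeGroup (Set.Ico lo n) →* Art M :=
    FreeGroup.lift fun i => xx (fun i => Art.gen M (t i)) n i
  have hj : j.range = Fb (fun i => Art.gen M (t i)) lo n := by
    rw [FreeGroup.range_lift_eq_closure, Fb, sub, Set.image_eq_range]
  have key : ∀ w, D.φ (j w) = 1 → w = 1 := fun w e => by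
    obtain ⟨N, -, h⟩ := hd (FreeGroup (Set.Ico lo n))
      fun i => if h : i ∈ Set.Ico lo n then FreeGroup.of ⟨i, h⟩ else 1
    refine h (w, j w) ?_ (e ▸ N.one_mem)
    have h1 : (Subgroup.comap ((MonoidHom.id _).prod j) (sub (fun i =>
        ((if h : i ∈ Set.Ico lo n then FreeGroup.of ⟨i, h⟩ else 1 : FreeGroup (Set.Ico lo n)),
          xx (fun i => Art.gen M (t i)) n i)) (Set.Ico lo n))) = ⊤ := by
      rw [eq_top_iff, ← FreeGroup.closure_range_of, Subgroup.closure_le]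
      rintro _ ⟨i, rfl⟩
      have := mem_sub (y := fun i => ((if h : i ∈ Set.Ico lo n then FreeGroup.of ⟨i, h⟩ else 1 :
        FreeGroup (Set.Ico lo n)), xx (fun i => Art.gen M (t i)) n i)) i.2
      rw [dif_pos i.2] at this
      simpa [j] using this
    exact (h1 ▸ Subgroup.mem_top w :)
  refine hs (Art M) _ j ((injective_iff_map_eq_one j).2 fun w e => key w (by rw [e, φ_one]))
    (sub (Art.gen M) (T \ {t (n - 1)})) _ (dl (fun i => Art.gen M (t i)) n '' Set.Iic n)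
    ((Set.finite_Iic n).image _) ?_ (sub_mono Set.diff_subset) ?_ ?_ (fun g hg => ?_) ih
  · rw [hj]
    exact Fb_le fun k h1 h2 => mem_sub (hp.mem k h1 h2)
  · rw [hj]
    exact hc.norm _ _ (brd_gen M T)
  · rw [eq_bot_iff]
    rintro _ ⟨⟨w, rfl⟩, h2⟩
    have := hw.rho (j w) (hj ▸ ⟨w, rfl⟩)
    rw [ht.fix _ _ h2] at this
    rw [key w this, map_one]
    exact one_mem _
  · obtain ⟨f, hf, a, ha, d, hd, e⟩ := hc.cov _ _ (brd_gen M T) g hg
    exact ⟨f, hj ▸ hf, a, ha, _, ⟨d, show d ≤ n by omega, rfl⟩, e⟩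

end RD

end Pool.Agent.P.MP_e794d7_al.FC
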