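import Pool.Agent.P.MP_e794d7_al.FC.Defs

/-! Artin groups of FC type: the statements of the packages. -/

set_option autoImplicit false

namespace Pool.Agent.P.MP_e794d7_al.FC

open scoped Classical RegularWreathProduct

noncomputable section

variable {ι : Type}

/-! ### canonical completion -/

/-- a word in the letters of `T` whose value in the Artin group lies in `N` is trivial in `G` -/
def Sep (M : ι → ι → ℕ) {G : Type} [Group G] (y : ι → G) (T : Set ι) (N : Subgroup (Art M)) :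
    Prop :=
  ∀ h ∈ sub (fun a => (y a, Art.gen M a)) T, h.2 ∈ N → h.1 = 1

/-- double cosets of parabolic subgroups modulo `K` -/
def DCK (M : ι → ι → ℕ) (K : Subgroup (Art M)) (T : Set ι) : Prop :=
  ∀ X Y : Set ι, ∀ g ∈ sub (Art.gen M) T, ∀ a ∈ sub (Art.gen M) X, ∀ b ∈ sub (Art.gen M) Y,
    (a * b)⁻¹ * g ∈ K → ∃ a' ∈ sub (Art.gen M) (T ∩ X), ∃ b' ∈ sub (Art.gen M) (T ∩ Y),
      (a' * b')⁻¹ * g ∈ K

def S_om : Prop :=
  ∀ (ι : Type) [Finite ι] (M : ι → ι → ℕ), Cox M → ∀ (U : Set ι) (K : Subgroup (Art M)),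
    K.Normal → ∀ (G : Type) [Group G] (y : ι → G),
      (∀ T ⊆ U, Clq M T → Sep M y T K ∧ DCK M K T) →
        ∃ N : Subgroup (Art M), (Finite G → K.FiniteIndex → N.FiniteIndex) ∧ Sep M y U N

/-! ### existence of root data -/

def S_trig : Prop :=
  ∀ N : ℕ, ∃ (R : Type) (_ : CommRing R) (_ : LinearOrder R) (_ : IsStrictOrderedRing R)
    (c : ℕ → R), Module.Finite ℤ R ∧ c 0 = 2 ∧ c 2 = 0 ∧ c 3 = 1 ∧ c 4 * c 4 = 2 ∧
      ∀ m, 2 ≤ m → m ≤ N → U (c m) m = 0 ∧ U (c m) (m - 1) = 1 ∧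
        ∀ k, 0 < k → k < m → 0 < U (c m) k ∧ SepC (c 4) (Ck (c m) k) k m

def S_prime : Prop :=
  ∀ (R : Type) [CommRing R] [IsDomain R] [CharZero R], Module.Finite ℤ R →
    ∀ S : Set R, S.Finite → 0 ∉ S →
      ∃ (F : Type) (_ : Field F) (_ : Finite F) (f : R →+* F), ∀ s ∈ S, f s ≠ 0

def S_rd : Prop :=
  ∀ (ι : Type) [Fintype ι] (M : ι → ι → ℕ), Cox M → ∀ 𝒯 : Set (Set ι),
    (∀ T ∈ 𝒯, Finite (sub (sg M) T)) → Nonempty (RD M 𝒯)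

/-! ### braid groups -/

/-- the fibre is normalised by the smaller parabolic subgroup, with finitely many cosets -/
structure Cov (M : ι → ι → ℕ) (T : Set ι) (lo n : ℕ) (t : ℕ → ι) : Prop where
  norm : ∀ (H : Type) [Group H] (y : ι → H), Brd M y T → ∀ a ∈ sub y (T \ {t (n - 1)}),
    ∀ f ∈ Fb (fun i => y (t i)) lo n, a * f * a⁻¹ ∈ Fb (fun i => y (t i)) lo n
  cov : ∀ (H : Type) [Group H] (y : ι → H), Brd M y T → ∀ h ∈ sub y T,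
    ∃ f ∈ Fb (fun i => y (t i)) lo n, ∃ a ∈ sub y (T \ {t (n - 1)}), ∃ d, d + max lo 1 ≤ n ∧
      h = f * a * dl (fun i => y (t i)) n d

def S_cov : Prop :=
  ∀ (ι : Type) (M : ι → ι → ℕ), Cox M → ∀ T lo n t, Path M T lo n t → Cov M T lo n t

def S_path : Prop :=
  ∀ (ι : Type) (M : ι → ι → ℕ), Cox M → ∀ T : Set ι, T.Finite → T.Nonempty → Cls M T →
    ∃ lo n t, Path M T lo n t

def S_finw : Prop :=
  ∀ (ι : Type) (M : ι → ι → ℕ), Cox M → ∀ T : Set ι, T.Finite → Cls M T →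
    Finite (sub (sg M) T)

/-- the relations of the virtual pure braid group -/
structure VP {σ L : Type} [Group L] (ε : σ → σ → L) : Prop where
  tri : ∀ i j k, i ≠ j → i ≠ k → j ≠ k → ε i j * ε i k * ε j k = ε j k * ε i k * ε i j
  comm : ∀ i j k l, i ≠ j → i ≠ k → i ≠ l → j ≠ k → j ≠ l → k ≠ l → Commute (ε i j) (ε k l)

def S_vp : Prop :=
  ∀ (σ Q : Type) [Group Q] (top : σ), ∃ ε : σ → σ → Equiv.Perm (σ → Q), VP ε ∧
    (∀ i, ε i top = 1) ∧ ∀ j, j ≠ top → ∀ u, ε top j u = Function.update u top (u j * u top)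

/-! ### poly-free groups -/

/-- poly-free of length `n`, with finitely generated factors -/
def PFn {G : Type} [Group G] : ℕ → Subgroup G → Prop
  | 0, S => S = ⊥
  | n + 1, S => ∃ (κ : Type) (_ : Finite κ) (π : S →* FreeGroup κ), Function.Surjective π ∧
      PFn n (π.ker.map S.subtype)

/-- virtually poly-free -/
def VPF {G : Type} [Group G] (S : Subgroup G) : Prop :=
  ∃ S' ≤ S, (∃ n, PFn n S') ∧ ∃ C : Set G, C.Finite ∧ ∀ g ∈ S, ∃ c ∈ C, g * c⁻¹ ∈ S'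

def S_pfs : Prop :=
  ∀ (G : Type) [Group G] (κ : Type) [Finite κ] (j : FreeGroup κ →* G), Function.Injective j →
    ∀ (A S : Subgroup G) (C : Set G), C.Finite → j.range ≤ S → A ≤ S →
      (∀ a ∈ A, ∀ f ∈ j.range, a * f * a⁻¹ ∈ j.range) → j.range ⊓ A = ⊥ →
        (∀ g ∈ S, ∃ f ∈ j.range, ∃ a ∈ A, ∃ c ∈ C, g = f * a * c) → VPF A → VPF S

def S_pfg : Prop := ∀ (G : Type) [Group G], VPF (⊤ : Subgroup G) → Good G

/-- fully invariant -/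
def FInv {G : Type} [Group G] (N : Subgroup G) : Prop := ∀ f : G →* G, ∀ g ∈ N, f g ∈ N

/-- killed by all parities -/
def Ev {G : Type} [Group G] (N : Subgroup G) : Prop :=
  ∀ f : G →* Multiplicative (ZMod 2), ∀ g ∈ N, f g = 1

theorem FInv.normal {G : Type} [Group G] {N : Subgroup G} (h : FInv N) : N.Normal :=
  ⟨fun g hg a => h (MulAut.conj a).toMonoidHom g hg⟩

namespace RD

variable [Fintype ι] {M : ι → ι → ℕ} {𝒯 : Set (Set ι)} (D : RD M 𝒯)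

theorem K_normal {N : Subgroup D.PG} (h : FInv N) : (D.K N).Normal := by
  refine ⟨fun g hg a => ⟨fun x => ?_, ?_⟩⟩
  · rw [map_mul, map_mul, mul_smul, mul_smul, hg.1, map_inv, smul_inv_smul]
  · have e : D.aut (wq M (a * g) * (wq M a)⁻¹) = D.aut 1 := D.aut_congr fun x => by
      rw [map_mul, mul_smul, mul_smul, hg.1, smul_inv_smul, one_smul]
    rw [φ_mul_inv, e, map_one, φ_mul]
    exact h.normal.conj_mem _ (h (D.aut (wq M a)).toMonoidHom _ hg.2) _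

/-! ### roots -/

structure Sign : Prop where
  sgn : ∀ w a, 0 ≤ D.ρ w (al D.R a) ∨ D.ρ w (al D.R a) ≤ 0
  desc : ∀ Z : Set ι, ∀ w ∈ sub (sg M) Z, w ≠ 1 → ∃ a ∈ Z, D.ρ w (al D.R a) ≤ 0
  len : ∃ ℓ : Wg M → ℕ, ∀ w a, (D.ρ w (al D.R a) ≤ 0 → ℓ (w * sg M a) < ℓ w) ∧
    (D.ρ w⁻¹ (al D.R a) ≤ 0 → ℓ (sg M a * w) < ℓ w)

structure Roots : Prop where
  sgn : ∀ w a, 0 ≤ D.ρ w (al D.R a) ∨ D.ρ w (al D.R a) ≤ 0
  ne : ∀ w a, 0 ≤ D.ρ w (al D.R a) → D.ρ w (al D.R a) ≤ 0 → False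
  triv : ∀ Z : Set ι, ∀ w ∈ sub (sg M) Z, (∀ a ∈ Z, 0 ≤ D.ρ w (al D.R a)) → w = 1
  conj : ∀ w s w' t, D.ρ w (al D.R s) = D.ρ w' (al D.R t) →
    w * sg M s * w⁻¹ = w' * sg M t * w'⁻¹
  eqx : ∀ w s w' t, D.ρ w (al D.R s) = D.ρ w' (al D.R t) → w • D.x s = w' • D.x t
  rev : ∀ w s t i, s ≠ t → i < M s t → D.cone w t s (M s t - 1 - i) = D.cone w s t i
  perm : ∀ w t s, 0 ≤ D.ρ w (al D.R t) → D.ρ w (al D.R t) ≠ al D.R s →
    0 ≤ D.ρ (sg M s * w) (al D.R t)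
  deo : ∀ (Z : Set ι) d s, (∀ t ∈ Z, 0 ≤ D.ρ d⁻¹ (al D.R t)) →
    (∃ t ∈ Z, D.ρ d (al D.R s) = al D.R t) ∨
      (¬ In Z (D.ρ d (al D.R s)) ∧ ∀ t ∈ Z, 0 ≤ D.ρ (d * sg M s)⁻¹ (al D.R t))

structure Ret : Prop where
  ζ : ∀ Y x, D.ret Y (D.ζ x) = if In Y x.v then D.ζ x else 1
  inter : ∀ X Y π, D.ret X (D.ret Y π) = D.ret (X ∩ Y) π
  aut : ∀ Y, ∀ w ∈ sub (sg M) Y, ∀ π, D.ret Y (D.aut w π) = D.aut w (D.ret Y π)
  fix : ∀ Y, ∀ g ∈ sub (Art.gen M) Y, D.ret Y (D.φ g) = D.φ g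
  ab : ∀ (L : Type) [CommGroup L] (f : D.X → L), D.Rel f

/-- the filter -/
def C1 : Prop :=
  ∀ T ∈ 𝒯, ∀ Y : Set ι, ∀ g ∈ sub (Art.gen M) T, ∃ g' ∈ sub (Art.gen M) (T ∩ Y),
    D.φ g' = D.ret Y (D.φ g) ∧ ∀ t ∈ T ∩ Y, 0 ≤ D.ρ ((wq M g)⁻¹ * wq M g') (al D.R t)

/-- a descent is seen by a parity -/
def Parl : Prop :=
  ∀ T ∈ 𝒯, ∀ g ∈ sub (Art.gen M) T, ∀ t ∈ T, D.ρ (wq M g)⁻¹ (al D.R t) ≤ 0 →
    ∃ f : D.PG →* Multiplicative (ZMod 2), f (D.φ g) ≠ 1 ∧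
      ∀ x : D.X, x.v ≠ al D.F t → x.v ≠ -al D.F t → f (D.ζ x) = 1

def DC : Prop := ∀ N : Subgroup D.PG, FInv N → Ev N → ∀ T ∈ 𝒯, DCK M (D.K N) T

/-- a labelling supported on a closed set of vectors only has to satisfy three relations -/
def Lift : Prop :=
  ∀ (L : Type) [Group L] (Act : Set (ι → D.F)) (ℓ : D.X → L),
    (∀ x : D.X, x.v ∉ Act → ℓ x = 1) →
    (∀ v ∈ Act, -v ∈ Act) →
    (∀ v ∈ Act, ∀ v' ∈ Act, v' - D.B v v' • v ∈ Act) →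
    (∀ v ∈ Act, ∀ v' ∈ Act, D.B v v' ∈ ({0, 1, -1, D.q, -D.q, 2, -2} : Set D.F)) →
    (∀ x x' : D.X, x.v ∈ Act → x'.v ∈ Act → D.B x.v x'.v = 0 →
      (x.k = x'.k → ∀ v ∈ Act, D.q • v ≠ x.v + x'.v) → Commute (ℓ x) (ℓ x')) →
    (∀ x0 x1 x2 : D.X, x0.v ∈ Act → x2.v ∈ Act → D.B x0.v x2.v = -1 → x1.v = x0.v + x2.v →
      ℓ x0 * ℓ x1 * ℓ x2 = ℓ x2 * ℓ x1 * ℓ x0) →
    (∀ x0 x1 x2 x3 : D.X, x0.v ∈ Act → x3.v ∈ Act → D.B x0.v x3.v = -D.q →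
      x1.v = D.q • x0.v + x3.v → x2.v = x0.v + D.q • x3.v → x0.k = x2.k → x1.k = x3.k →
      ℓ x0 * ℓ x1 * ℓ x2 * ℓ x3 = ℓ x3 * ℓ x2 * ℓ x1 * ℓ x0) →
    D.Rel ℓ

/-! ### paths -/

/-- the generators with vector `e_n - e_k` -/
def Up (lo n : ℕ) (t : ℕ → ι) : Set D.PG :=
  {π | ∃ (x : D.X) (k : ℕ), max lo 1 ≤ k ∧ k < n ∧ x.v = D.E lo t n - D.E lo t k ∧ π = D.ζ x}

/-- the forms of the vectors `e_i` -/
structure EC1 (T : Set ι) (lo n : ℕ) (t : ℕ → ι) : Prop where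
  al_eq : ∀ k, max lo 1 ≤ k → al D.F (t k) = D.E lo t (k + 1) - D.E lo t k
  al_zero : lo = 0 → al D.F (t 0) = D.q • D.E lo t 1
  pair : ∀ i j k l, max lo 1 ≤ i → i ≤ n → max lo 1 ≤ j → j ≤ n → max lo 1 ≤ k → k ≤ n →
    max lo 1 ≤ l → l ≤ n → D.B (D.E lo t j - D.E lo t i) (D.E lo t l - D.E lo t k) =
      (if j = l then 1 else 0) - (if j = k then 1 else 0) - (if i = l then 1 else 0) +
        if i = k then 1 else 0
  orth : lo = 0 → ∀ i j, 1 ≤ i → i ≤ n → 1 ≤ j → j ≤ n →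
    D.B (D.E lo t i) (D.E lo t j) = if i = j then 1 else 0
  low : ∀ i, max lo 1 ≤ i → i < n → D.E lo t i (t (n - 1)) = 0
  top : D.E lo t n (t (n - 1)) ≠ 0
  fix : lo = 0 → ∀ w ∈ sub (sg M) (T \ {t (n - 1)}), D.ρ1 w (D.E lo t n) = D.E lo t n

/-- the cocycle on the generators of the fibre -/
structure EC2 (lo n : ℕ) (t : ℕ → ι) : Prop where
  dlA : ∀ d k, max lo 1 ≤ k → k + d < n →
    D.ρ1 (dl (fun i => sg M (t i)) n d) (D.E lo t (n - d) - D.E lo t k) = D.E lo t n - D.E lo t k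
  dlB : lo = 0 → ∀ d, d + 1 ≤ n →
    D.ρ1 (dl (fun i => sg M (t i)) n d) (D.E lo t (n - d)) = D.E lo t n
  φx : ∀ i, max lo 1 ≤ i → i < n → xx (fun i => sg M (t i)) n i = 1 ∧
    ∃ π ∈ Subgroup.closure (D.Up lo n t), ∃ x x' : D.X, x.v = D.E lo t n - D.E lo t i ∧
      x'.v = D.E lo t i - D.E lo t n ∧
      D.φ (xx (fun i => Art.gen M (t i)) n i) = π * D.ζ x * D.ζ x' * π⁻¹
  φ0 : lo = 0 → ∃ π ∈ Subgroup.closure (D.Up lo n t), ∃ x : D.X, x.v = D.q • D.E lo t n ∧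
    x.k = D.χ (sg M (t 0)) ∧ D.φ (xx (fun i => Art.gen M (t i)) n 0) =
      π * D.ζ x * (D.aut (xx (fun i => sg M (t i)) n 0) π)⁻¹
  r_sq : lo = 0 → xx (fun i => sg M (t i)) n 0 * xx (fun i => sg M (t i)) n 0 = 1
  r_χ : lo = 0 → D.χ (xx (fun i => sg M (t i)) n 0) = D.χ (sg M (t 0))
  r_top : lo = 0 → D.ρ1 (xx (fun i => sg M (t i)) n 0) (D.E lo t n) = -D.E lo t n
  r_low : lo = 0 → ∀ k, 1 ≤ k → k < n →
    D.ρ1 (xx (fun i => sg M (t i)) n 0) (D.E lo t k) = D.E lo t k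

structure WR (T : Set ι) (lo n : ℕ) (t : ℕ → ι) : Prop where
  wtr : ∀ f ∈ Fb (fun i => sg M (t i)) lo n, ∀ a ∈ sub (sg M) (T \ {t (n - 1)}), ∀ d,
    d + max lo 1 ≤ n → f * a * dl (fun i => sg M (t i)) n d = 1 → d = 0 ∧ f = 1
  rho : ∀ f ∈ Fb (fun i => Art.gen M (t i)) lo n, D.ret (T \ {t (n - 1)}) (D.φ f) = 1

/-- the detector in type `A` -/
def PsiA (lo n : ℕ) (t : ℕ → ι) : Prop :=
  ∀ (L : Type) [Group L] (ε : Fin (n + 1) → Fin (n + 1) → L), VP ε → ∃ ψ : D.PG →* L,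
    ∀ (x : D.X) (i j : Fin (n + 1)), lo ≤ i → lo ≤ j → i ≠ j →
      x.v = D.E lo t j - D.E lo t i → ψ (D.ζ x) = ε i j

/-- the detector in type `B`; the state is a vector of signs -/
def PsiB (n : ℕ) (t : ℕ → ι) : Prop :=
  ∀ (L : Type) [Group L] (ε : Fin (n + 1) → Fin (n + 1) → L), VP ε →
    ∃ ψ : D.PG →* L ≀ᵣ (Fin (n + 1) → ℤˣ),
      (∀ (x : D.X) (σ : Fin (n + 1) → ℤˣ) (i j : Fin (n + 1)), i ≠ 0 → j ≠ 0 → i ≠ j →
        x.v = σ j • D.E 0 t j - σ i • D.E 0 t i →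
          (ψ (D.ζ x)).left σ = ε i j ∧ (ψ (D.ζ x)).right = 1) ∧
      ∀ (x : D.X) (σ : Fin (n + 1) → ℤˣ) (i : Fin (n + 1)), i ≠ 0 →
        x.v = σ i • D.q • D.E 0 t i → x.k = D.χ (sg M (t 0)) →
          (ψ (D.ζ x)).left σ = ε 0 i * ε i 0 ∧ (ψ (D.ζ x)).right = Pi.mulSingle i (-1)

/-- the cocycle sees the free fibre and its profinite topology -/
def Det (lo n : ℕ) (t : ℕ → ι) : Prop :=
  ∀ (G : Type) [Group G] (u : ℕ → G), ∃ N : Subgroup D.PG, (Finite G → N.FiniteIndex) ∧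
    ∀ h ∈ sub (fun i => (u i, xx (fun i => Art.gen M (t i)) n i)) (Set.Ico lo n),
      D.φ h.2 ∈ N → h.1 = 1

/-- the cocycle sees the pure part of a parabolic subgroup and its profinite topology -/
def FI (T : Set ι) : Prop :=
  ∀ (G : Type) [Group G] (y : ι → G), Brd M y T → ∃ N : Subgroup D.PG,
    (Finite G → N.FiniteIndex) ∧ ∀ h ∈ sub (fun a => (y a, Art.gen M a)) T,
      wq M h.2 = 1 → D.φ h.2 ∈ N → h.1 = 1

end RD

end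

end Pool.Agent.P.MP_e794d7_al.FC
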